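import Pool.Agent.H51.KL.Let2

/-!
JOB KL-BASE. At every `t` at least two block letters apply. (helper file for MP_ff4775_nt)

The block letter `w : BIdx B ε` acts at `t` iff `(Ls (5B)).WDom w.1 (1+3t)` and
`(Ls (5B)).wnxt w.1 (1+3t) % 3 = 1`:
`2^A t = 3^B t' + (N + 3^B - 2^A)/3` iff `2^A (1+3t) = 3^B (1+3t') + N`.
* `base`: for `B ≥ 18`, every `t`: at least two letters apply. Start at `y = 1+3t`, `B - 1` times choose
  the smallest allowed letter whose successor is not divisible by 3 (exponent `≤ 4`: among the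
  exponents `a₀, a₀+2`, `a₀ ∈ {1,2}`, one works, `z_(a+2) = 4 z_a + 1 ≡ z_a + 1 mod 3`), finally choose the
  last exponent `a ≡ a₀ mod 2` with successor `≡ 1 mod 3`: `a ∈ {a₀, a₀+2, a₀+4} + 6ℤ_{≥0}` (adding 6 to the
  exponent does not change the class modulo 3 of the successor). Total exponent `A ≤ 4(B-1) + 6`; if
  `A < 2B` increase the last exponent by multiples of 6 until `2B ≤ A < 2B + 6`. Then `A` and `A + 6` are
  both `≤ 5B` (`4B + 2 + 6 ≤ 5B`, `2B + 12 ≤ 5B`) and `≥ 2B ≥ (2-ε)B`. All letters are `≤ 5B`.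
-/

set_option autoImplicit false

namespace Pool.Agent.H51.KL

open Finset

private lemma base_nine (y : ℤ) (hy : ¬ (3 : ℤ) ∣ y) :
    y % 9 = 1 ∨ y % 9 = 2 ∨ y % 9 = 4 ∨ y % 9 = 5 ∨ y % 9 = 7 ∨ y % 9 = 8 := by omega

private lemma base_pow (a m : ℕ) (y r : ℤ) (h : 2 ^ a * (y % 9) % 9 = r) :
    2 ^ (a + 6 * m) * y % 9 = r := by
  have h6 : (2 : ℤ) ^ (6 * m) % 9 = 1 := by
    rw [pow_mul]
    have := (Int.ModEq.pow m (show (2 : ℤ) ^ 6 ≡ 1 [ZMOD 9] by decide))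
    rw [one_pow] at this
    exact this
  rw [← h, pow_add, Int.mul_emod, Int.mul_emod (2 ^ a) (2 ^ (6 * m)), h6, mul_one, Int.emod_emod,
    Int.mul_emod (2 ^ a) (y % 9), Int.emod_emod]

private lemma base_last (y : ℤ) (hy : ¬ (3 : ℤ) ∣ y) : ∃ a : ℕ, 1 ≤ a ∧ a ≤ 6 ∧ ∀ m : ℕ,
    (3 : ℤ) ∣ 2 ^ (a + 6 * m) * y - 1 ∧ (2 ^ (a + 6 * m) * y - 1) / 3 % 3 = 1 := by
  have key : ∃ a : ℕ, 1 ≤ a ∧ a ≤ 6 ∧ 2 ^ a * (y % 9) % 9 = 4 := by
    rcases base_nine y hy with h | h | h | h | h | h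
    · exact ⟨2, by norm_num, by norm_num, by rw [h]; norm_num⟩
    · exact ⟨1, by norm_num, by norm_num, by rw [h]; norm_num⟩
    · exact ⟨6, by norm_num, by norm_num, by rw [h]; norm_num⟩
    · exact ⟨3, by norm_num, by norm_num, by rw [h]; norm_num⟩
    · exact ⟨4, by norm_num, by norm_num, by rw [h]; norm_num⟩
    · exact ⟨5, by norm_num, by norm_num, by rw [h]; norm_num⟩
  obtain ⟨a, h1, h2, h3⟩ := key
  refine ⟨a, h1, h2, fun m => ?_⟩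
  have h4 := base_pow a m y 4 h3
  generalize (2 : ℤ) ^ (a + 6 * m) * y = z at h4
  omega

private lemma base_step (y : ℤ) (hy : ¬ (3 : ℤ) ∣ y) : ∃ a : ℕ, 1 ≤ a ∧ a ≤ 4 ∧
    (3 : ℤ) ∣ 2 ^ a * y - 1 ∧ ¬ (3 : ℤ) ∣ (2 ^ a * y - 1) / 3 := by
  have key : ∃ a : ℕ, 1 ≤ a ∧ a ≤ 4 ∧ (2 ^ a * (y % 9) % 9 = 4 ∨ 2 ^ a * (y % 9) % 9 = 7) := by
    rcases base_nine y hy with h | h | h | h | h | h
    · exact ⟨2, by norm_num, by norm_num, by rw [h]; norm_num⟩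
    · exact ⟨1, by norm_num, by norm_num, by rw [h]; norm_num⟩
    · exact ⟨2, by norm_num, by norm_num, by rw [h]; norm_num⟩
    · exact ⟨3, by norm_num, by norm_num, by rw [h]; norm_num⟩
    · exact ⟨4, by norm_num, by norm_num, by rw [h]; norm_num⟩
    · exact ⟨1, by norm_num, by norm_num, by rw [h]; norm_num⟩
  obtain ⟨a, h1, h2, h3⟩ := key
  refine ⟨a, h1, h2, ?_⟩
  rcases h3 with h3 | h3
  · have h4 := base_pow a 0 y 4 h3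
    rw [Nat.mul_zero, Nat.add_zero] at h4
    generalize (2 : ℤ) ^ a * y = z at h4
    omega
  · have h4 := base_pow a 0 y 7 h3
    rw [Nat.mul_zero, Nat.add_zero] at h4
    generalize (2 : ℤ) ^ a * y = z at h4
    omega

private lemma base_wDom_zero (D : ℕ) (w : Fin 0 → Fin D) (y : ℤ) : (Ls D).WDom w y := by
  unfold Sys.WDom
  simp

private lemma base_wnxt_zero (D : ℕ) (w : Fin 0 → Fin D) (y : ℤ) : (Ls D).wnxt w y = y := by
  unfold Sys.wnxt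
  simp [Sys.wA, Sys.wβ]

/-- prepend a letter -/
private lemma base_cons {D n : ℕ} (a : ℕ) (ha : 1 ≤ a) (haD : a ≤ D) (w : Fin n → Fin D) (y : ℤ)
    (h : (3 : ℤ) ∣ 2 ^ a * y - 1) (hw : (Ls D).WDom w ((2 ^ a * y - 1) / 3)) :
    ∃ w' : Fin (n + 1) → Fin D, (Ls D).WDom w' y ∧
      (Ls D).wnxt w' y = (Ls D).wnxt w ((2 ^ a * y - 1) / 3) ∧ (Ls D).wA w' = a + (Ls D).wA w := by
  have h1 : a - 1 + 1 = a := by omega
  let w' : Fin (n + 1) → Fin D := Fin.cons ⟨a - 1, by omega⟩ w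
  have ht : Fin.tail w' = w := Fin.tail_cons _ _
  have h0 : w' 0 = ⟨a - 1, by omega⟩ := rfl
  have hA : (Ls D).A (w' 0) = a := by rw [h0]; exact h1
  have hβ : (Ls D).β (w' 0) = 1 := rfl
  have hB : (3 : ℤ) ^ (Ls D).B = 3 := pow_one 3
  have hd : (Ls D).WDom w' y := by
    rw [Sys.wDom_succ, ht, hA, hβ, hB]
    exact ⟨h, hw⟩
  refine ⟨w', hd, ?_, ?_⟩
  · rw [Sys.wnxt_succ _ _ _ hd, ht, hA, hβ, hB]
  · rw [Sys.wA_succ, ht, hA]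

private lemma base_words (n : ℕ) : ∀ y : ℤ, ¬ (3 : ℤ) ∣ y → ∃ A : ℕ, n + 1 ≤ A ∧ A ≤ 4 * n + 6 ∧
    ∀ m D : ℕ, 6 + 6 * m ≤ D → ∃ w : Fin (n + 1) → Fin D,
      (Ls D).WDom w y ∧ (Ls D).wnxt w y % 3 = 1 ∧ (Ls D).wA w = A + 6 * m := by
  induction n with
  | zero =>
    intro y hy
    obtain ⟨a, h1, h6, h⟩ := base_last y hy
    refine ⟨a, by omega, by omega, fun m D hD => ?_⟩
    obtain ⟨hd, hm⟩ := h m
    obtain ⟨w, hw1, hw2, hw3⟩ := base_cons (D := D) (a + 6 * m) (by omega) (by omega)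
      (Fin.elim0 : Fin 0 → Fin D) y hd (base_wDom_zero D _ _)
    refine ⟨w, hw1, ?_, ?_⟩
    · rw [hw2, base_wnxt_zero, hm]
    · rw [hw3]
      simp [Sys.wA]
  | succ n ih =>
    intro y hy
    obtain ⟨a, h1, h4, hd, hnd⟩ := base_step y hy
    obtain ⟨A, hA1, hA2, hA⟩ := ih _ hnd
    refine ⟨a + A, by omega, by omega, fun m D hD => ?_⟩
    obtain ⟨w, hw1, hw2, hw3⟩ := hA m D hD
    obtain ⟨w', hw1', hw2', hw3'⟩ := base_cons (D := D) a h1 (by omega) w y hd hw1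
    refine ⟨w', hw1', ?_, ?_⟩
    · rw [hw2', hw2]
    · rw [hw3', hw3, add_assoc]

/-- a word which maps `1 + 3t` into the class `1 mod 3` is a block letter that acts at `t` -/
private lemma base_letter {B : ℕ} {ε : ℝ} {t : ℤ} (w : Fin B → Fin (5 * B))
    (h : (Ls (5 * B)).WDom w (1 + 3 * t)) (h1 : (Ls (5 * B)).wnxt w (1 + 3 * t) % 3 = 1)
    (hlo : (2 - ε) * B ≤ ((Ls (5 * B)).wA w : ℝ)) (hup : (Ls (5 * B)).wA w ≤ 5 * B) :
    ∃ i : BIdx B ε, i.1 = w ∧ (3 : ℤ) ^ (Bs B ε).B ∣ 2 ^ (Bs B ε).A i * t - (Bs B ε).β i := by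
  have hs := Sys.wnxt_spec _ w _ h
  have hB : (Ls (5 * B)).B * B = B := one_mul B
  rw [hB] at hs
  obtain ⟨z, hz⟩ : ∃ z, (Ls (5 * B)).wnxt w (1 + 3 * t) = 1 + 3 * z :=
    ⟨(Ls (5 * B)).wnxt w (1 + 3 * t) / 3, by omega⟩
  rw [hz] at hs
  have e : (Ls (5 * B)).wβ w + 3 ^ B - 2 ^ (Ls (5 * B)).wA w =
      3 * (2 ^ (Ls (5 * B)).wA w * t - 3 ^ B * z) := by linear_combination (-1 : ℤ) * hs
  refine ⟨⟨w, ⟨_, e⟩, hlo, hup⟩, rfl, ?_⟩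
  show (3 : ℤ) ^ B ∣ 2 ^ (Ls (5 * B)).wA w * t -
    ((Ls (5 * B)).wβ w + 3 ^ B - 2 ^ (Ls (5 * B)).wA w) / 3
  rw [e, Int.mul_ediv_cancel_left _ (by norm_num)]
  exact ⟨z, by ring⟩

theorem base (B : ℕ) (hB : 18 ≤ B) (ε : ℝ) (hε : 0 < ε) (t : ℤ) :
    2 ≤ (Bs B ε).f (fun _ => 1) 1 t := by
  obtain ⟨n, rfl⟩ : ∃ n, B = n + 1 := ⟨B - 1, by omega⟩
  obtain ⟨A, hA1, hA2, hA⟩ := base_words n (1 + 3 * t) (by omega)
  -- the first exponent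
  obtain ⟨m, hm1, hm2, hm3⟩ : ∃ m : ℕ, 2 * (n + 1) ≤ A + 6 * m ∧ A + 6 * m + 6 ≤ 5 * (n + 1) ∧
      12 + 6 * m ≤ 5 * (n + 1) := by
    by_cases h : 2 * (n + 1) ≤ A
    · exact ⟨0, by omega, by omega, by omega⟩
    · refine ⟨(2 * (n + 1) - A + 5) / 6, by omega, by omega, by omega⟩
  obtain ⟨w, hw1, hw2, hw3⟩ := hA m (5 * (n + 1)) (by omega)
  obtain ⟨w', hw1', hw2', hw3'⟩ := hA (m + 1) (5 * (n + 1)) (by omega)
  have hlo : ∀ a : ℕ, 2 * (n + 1) ≤ a → (2 - ε) * ((n + 1 : ℕ) : ℝ) ≤ (a : ℝ) := by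
    intro a ha
    have h1 : ((2 * (n + 1) : ℕ) : ℝ) ≤ (a : ℝ) := by exact_mod_cast ha
    push_cast at h1 ⊢
    nlinarith [Nat.cast_nonneg (α := ℝ) n]
  obtain ⟨i, hi, hdi⟩ := base_letter (ε := ε) w hw1 hw2 (hlo _ (by omega)) (by omega)
  obtain ⟨j, hj, hdj⟩ := base_letter (ε := ε) w' hw1' hw2' (hlo _ (by omega)) (by omega)
  have hij : i ≠ j := by
    rintro rfl
    rw [hi] at hj
    rw [hj] at hw3
    omega
  have hf : (Bs (n + 1) ε).f (fun _ => 1) 1 t = ∑ k : BIdx (n + 1) ε,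
      if (3 : ℤ) ^ (Bs (n + 1) ε).B ∣ 2 ^ (Bs (n + 1) ε).A k * t - (Bs (n + 1) ε).β k then
        (1 : ℝ) * 1 else 0 := rfl
  rw [hf]
  have h2 : ∑ k ∈ ({i, j} : Finset (BIdx (n + 1) ε)),
      (if (3 : ℤ) ^ (Bs (n + 1) ε).B ∣ 2 ^ (Bs (n + 1) ε).A k * t - (Bs (n + 1) ε).β k then
        (1 : ℝ) * 1 else 0) = 2 := by
    rw [Finset.sum_pair hij, if_pos hdi, if_pos hdj]
    norm_num
  rw [← h2]
  refine Finset.sum_le_sum_of_subset_of_nonneg (Finset.subset_univ _) fun k _ _ => ?_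
  split_ifs <;> norm_num

end Pool.Agent.H51.KL
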