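import Pool.Agent.H51.KL.Boot

/-!
JOB KL-BLOCK. The block inequality. (helper file for MP_ff4775_nt)

`block_ineq`: given `g < 1` choose `ε`, `γ` with `g (log(4/3) + ε log 2) < γ < log(4/3) - ε log 2`. Take
`n` large, `N = B n`, `U` = the set of `flat w`, `w : Fin n → BIdx B ε`. For `y ≡ 1 mod 3`, `y = 1+3t`,
by `f_eq_sum` and `flat_dom`: `e^(γN) ≤ ∑_{w, WDom w t} ∏ min(1, 2^((2+ε)B - A_i))`, and
`min(1, 2^s) ≤ 2^(g s)` (`0 ≤ g ≤ 1`), so the product is `≤ 2^(g((2+ε)N - A))` and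
`(3^N/2^A)^g = (3 · 2^(-(2+ε)))^(gN) 2^(g((2+ε)N - A))`. Hence the sum of `(3^N/2^A)^g` is
`≥ exp(N(γ - g(log(4/3) + ε log 2))) ≥ 1`. Every `w` has `A ≥ (2-ε) N`, so
`3^N/2^A ≤ (3 · 2^(-(2-ε)))^N ≤ 1/2` for `N` large (`3 < 2^(2-ε)` as `ε ≤ 1/100`).
-/

set_option autoImplicit false

namespace Pool.Agent.H51.KL

open Finset

private theorem min_le_rpow (g s : ℝ) (hg0 : 0 < g) (hg : g < 1) :
    min 1 ((2 : ℝ) ^ s) ≤ (2 : ℝ) ^ (g * s) := by
  rcases le_total 0 s with h | h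
  · refine (min_le_left _ _).trans ?_
    exact Real.one_le_rpow (by norm_num) (by positivity)
  · refine (min_le_right _ _).trans ?_
    exact Real.rpow_le_rpow_of_exponent_le (by norm_num) (by nlinarith)

private theorem log43 : (1 : ℝ) / 4 ≤ Real.log (4 / 3) := by
  have h := Real.one_sub_inv_le_log_of_pos (show (0 : ℝ) < 4 / 3 by norm_num)
  norm_num at h ⊢
  linarith

private theorem log3 : Real.log 3 = 2 * Real.log 2 - Real.log (4 / 3) := by
  rw [Real.log_div (by norm_num) (by norm_num), show (4 : ℝ) = 2 ^ 2 by norm_num, Real.log_pow]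
  push_cast; ring

private theorem wv_bv_le {B : ℕ} {ε : ℝ} (g al : ℝ) (hg0 : 0 < g) (hg : g < 1) {n : ℕ}
    (w : Fin n → BIdx B ε) :
    Sys.wv (bv B ε al) w ≤ (2 : ℝ) ^ (g * (al * (B * n) - ((Bs B ε).wA w : ℝ))) := by
  unfold Sys.wv Sys.wA
  have h1 : g * (al * ((B : ℝ) * n) - ((∑ j, (Bs B ε).A (w j) : ℕ) : ℝ)) =
      ∑ j : Fin n, g * (al * B - (((Bs B ε).A (w j) : ℕ) : ℝ)) := by
    rw [← Finset.mul_sum, Finset.sum_sub_distrib]
    simp
    left
    ring
  rw [h1, Real.rpow_sum_of_pos (by norm_num)]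
  refine Finset.prod_le_prod ?_ ?_
  · intro j _
    exact le_min (by norm_num) (by positivity)
  · intro j _
    exact min_le_rpow g _ hg0 hg

private theorem wA_ge {B : ℕ} {ε : ℝ} {n : ℕ} (w : Fin n → BIdx B ε) :
    (2 - ε) * ((B : ℝ) * n) ≤ ((Bs B ε).wA w : ℝ) := by
  unfold Sys.wA
  push_cast
  have : (2 - ε) * ((B : ℝ) * n) = ∑ _j : Fin n, (2 - ε) * (B : ℝ) := by
    simp; ring
  rw [this]
  refine Finset.sum_le_sum ?_
  intro j _
  exact (w j).2.2.1

/-- The block inequality: for every exponent `g < 1` there is a length `N` such that at every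
`y ≡ 1 mod 3` the words of length `N` leading again to `1 mod 3` satisfy `∑ (3^N/2^A)^g ≥ 1`, all the
factors `3^N/2^A` being at most `1/2`. -/
theorem block_ineq (g : ℝ) (hg0 : 0 < g) (hg : g < 1) : ∃ (N D : ℕ), 0 < N ∧
    ∃ U : Finset (Fin N → Fin D), (∀ w ∈ U, (3 : ℝ) ^ N / 2 ^ (Ls D).wA w ≤ 1 / 2) ∧
      ∀ y : ℤ, y % 3 = 1 → 1 ≤ ∑ w ∈ U, if (Ls D).WDom w y ∧ (Ls D).wnxt w y % 3 = 1 then
        ((3 : ℝ) ^ N / 2 ^ (Ls D).wA w) ^ g else 0 := by
  classical
  set L := Real.log (4 / 3) with hL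
  set l := Real.log 2 with hl
  have hL0 : 1 / 4 ≤ L := log43
  have hl0 : 0 < l := Real.log_pos (by norm_num)
  have hl1 : l < 7 / 10 := lt_trans Real.log_two_lt_d9 (by norm_num)
  obtain ⟨ε, hε, hε1, hε2⟩ : ∃ ε : ℝ, 0 < ε ∧ ε ≤ 1 / 100 ∧ 2 * (ε * l) < (1 - g) * L := by
    refine ⟨min (1 / 100) ((1 - g) * L / (4 * l)), ?_, min_le_left _ _, ?_⟩
    · refine lt_min (by norm_num) ?_
      have : 0 < 1 - g := by linarith
      positivity
    · have h1 : min (1 / 100) ((1 - g) * L / (4 * l)) * l ≤ ((1 - g) * L / (4 * l)) * l :=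
        mul_le_mul_of_nonneg_right (min_le_right _ _) hl0.le
      have h2 : ((1 - g) * L / (4 * l)) * l = (1 - g) * L / 4 := by
        field_simp
      have h3 : 0 < (1 - g) * L := mul_pos (by linarith) (by linarith)
      linarith
  have hgap : g * (L + ε * l) < L - ε * l := by
    have h3 : 0 < ε * l := by positivity
    nlinarith
  set γ := (g * (L + ε * l) + (L - ε * l)) / 2 with hγ
  have hγ1 : γ < L - ε * l := by rw [hγ]; linarith
  have hγ2 : g * (L + ε * l) < γ := by rw [hγ]; linarith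
  obtain ⟨B, hB, n₁, hn₁⟩ := claim_all ε γ hε hε1 hγ1
  set n := n₁ + 1 with hn
  have hnn : 0 < n := by omega
  have hf := hn₁ n (by omega)
  have hN : 18 ≤ B * n := by nlinarith
  refine ⟨B * n, 5 * B, by omega, Finset.univ.image (fun w : Fin n → BIdx B ε => flat w), ?_, ?_⟩
  · intro w hw
    obtain ⟨w', _, rfl⟩ := Finset.mem_image.mp hw
    rw [flat_wA]
    have h1 := wA_ge w'
    have hNr : (18 : ℝ) ≤ (B : ℝ) * n := by exact_mod_cast hN
    have h2 : (3 : ℝ) ^ (B * n) = Real.exp (Real.log 3 * ((B : ℝ) * n)) := by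
      rw [← Real.rpow_natCast, Real.rpow_def_of_pos (by norm_num)]
      push_cast; rfl
    have h3 : (2 : ℝ) ^ (Bs B ε).wA w' = Real.exp (l * ((Bs B ε).wA w' : ℝ)) := by
      rw [← Real.rpow_natCast, Real.rpow_def_of_pos (by norm_num)]
    have h4 : (1 / 2 : ℝ) = Real.exp (-l) := by
      rw [Real.exp_neg, hl, Real.exp_log (by norm_num)]; norm_num
    rw [h2, h3, ← Real.exp_sub, h4]
    refine Real.exp_le_exp.mpr ?_
    rw [log3]
    have h5 : l * ((2 - ε) * ((B : ℝ) * n)) ≤ l * ((Bs B ε).wA w' : ℝ) :=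
      mul_le_mul_of_nonneg_left h1 hl0.le
    have h6 : ε * l ≤ 7 / 1000 := by nlinarith
    have h7 : (18 : ℝ) * (L - ε * l) ≤ ((B : ℝ) * n) * (L - ε * l) :=
      mul_le_mul_of_nonneg_right hNr (by linarith)
    nlinarith
  · intro y hy
    set t := y / 3 with ht
    have hyt : y = 1 + 3 * t := by omega
    have hff := hf t
    rw [Sys.f_eq_sum] at hff
    rw [Finset.sum_image (fun a _ b _ h => flat_injective a b h)]
    have key : ∀ w : Fin n → BIdx B ε,
        Real.exp (-(g * (L + ε * l) * ((B : ℝ) * n))) *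
          (if (Bs B ε).WDom w t then Sys.wv (bv B ε (2 + ε)) w else 0) ≤
        (if (Ls (5 * B)).WDom (flat w) y ∧ (Ls (5 * B)).wnxt (flat w) y % 3 = 1 then
          ((3 : ℝ) ^ (B * n) / 2 ^ (Ls (5 * B)).wA (flat w)) ^ g else 0) := by
      intro w
      have hd := flat_dom w t
      rw [← hyt] at hd
      by_cases h : (Bs B ε).WDom w t
      · rw [if_pos h, if_pos (hd.mp h), flat_wA]
        have h1 := wv_bv_le g (2 + ε) hg0 hg w
        have h2 : (3 : ℝ) ^ (B * n) = Real.exp (Real.log 3 * ((B : ℝ) * n)) := by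
          rw [← Real.rpow_natCast, Real.rpow_def_of_pos (by norm_num)]
          push_cast; rfl
        have h3 : (2 : ℝ) ^ (Bs B ε).wA w = Real.exp (l * ((Bs B ε).wA w : ℝ)) := by
          rw [← Real.rpow_natCast, Real.rpow_def_of_pos (by norm_num)]
        rw [Real.rpow_def_of_pos (by norm_num)] at h1
        refine (mul_le_mul_of_nonneg_left h1 (Real.exp_pos _).le).trans ?_
        rw [h2, h3, ← Real.exp_sub, ← Real.exp_mul, ← Real.exp_add]
        refine Real.exp_le_exp.mpr ?_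
        rw [log3, ← hl, ← hL]
        apply le_of_eq
        ring
      · rw [if_neg h, if_neg (fun h' => h (hd.mpr h')), mul_zero]
    have h1 : (1 : ℝ) ≤ Real.exp (-(g * (L + ε * l) * ((B : ℝ) * n))) * Real.exp (γ * B * n) := by
      rw [← Real.exp_add]
      refine Real.one_le_exp ?_
      have : 0 ≤ (γ - g * (L + ε * l)) * ((B : ℝ) * n) :=
        mul_nonneg (by linarith) (by positivity)
      linarith
    refine h1.trans ?_
    refine (mul_le_mul_of_nonneg_left hff (Real.exp_pos _).le).trans ?_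
    rw [Finset.mul_sum]
    exact Finset.sum_le_sum (fun w _ => key w)

end Pool.Agent.H51.KL
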