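import Pool.Agent.H51.KL.ThB2

/-!
Worst case growth = typical growth. (helper file for MP_ff4775_nt)
-/

set_option autoImplicit false

namespace Pool.Agent.H51.KL

open Finset

/-- Let `S` be an affine system with weights `0 < v ≤ 1` such that every `t` has a successor, words of
length `n` are determined by the total exponent and the affine constant modulo `3^(4Bn)`, and
`f n t ≥ e^(c₀ n)` for all `t` and all large `n`. Then for every `γ` smaller than the average of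
`log f 1` over the residues, `f n t ≥ e^(γ n)` for all `t` and all large `n`. -/
theorem worst_eq_typical {ι : Type} [Fintype ι] (S : Sys ι) (hB : 0 < S.B) {v : ι → ℝ}
    (hv : ∀ i, 0 < v i ∧ v i ≤ 1)
    (hcov : ∀ t, ∃ i, (3 : ℤ) ^ S.B ∣ 2 ^ S.A i * t - S.β i)
    (hsep : ∀ (n : ℕ) (w w' : Fin n → ι), S.wA w = S.wA w' →
      S.wβ w ≡ S.wβ w' [ZMOD 3 ^ (S.B * (4 * n))] → w = w')
    {c₀ : ℝ} (hc₀ : 0 < c₀) (n₁ : ℕ)
    (hf : ∀ n : ℕ, n₁ ≤ n → ∀ t : ℤ, Real.exp (c₀ * n) ≤ S.f v n t)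
    {γ : ℝ} (hγ : γ * 3 ^ S.B < ∑ t ∈ range (3 ^ S.B), Real.log (S.f v 1 (t : ℤ))) :
    ∃ n₂ : ℕ, ∀ n : ℕ, n₂ ≤ n → ∀ t : ℤ, Real.exp (γ * n) ≤ S.f v n t := by
  have hv0 : ∀ i, 0 ≤ v i := fun i => (hv i).1.le
  have hpos : ∀ n t, 0 < S.f v n t := fun n t => Sys.f_pos S (fun i => (hv i).1) hcov n t
  -- choose γ' > γ
  have h3 : (0 : ℝ) < 3 ^ S.B := by positivity
  set m : ℝ := (∑ t ∈ range (3 ^ S.B), Real.log (S.f v 1 (t : ℤ))) / 3 ^ S.B with hm
  have hγm : γ < m := by rw [hm, lt_div_iff₀ h3]; exact hγ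
  set γ' : ℝ := (γ + m) / 2 with hγ'
  have h1 : γ < γ' := by rw [hγ']; linarith
  have h2 : γ' < m := by rw [hγ']; linarith
  obtain ⟨μ, hμ, hμ1⟩ := S.exists_small_moment hpos γ' (by rw [hm, lt_div_iff₀ h3] at h2; exact h2)
  obtain ⟨χm, hχm, hχm'⟩ := S.exists_chi hv0 hpos hμ.le
  have hχmle : χm ≤ -μ * γ' := by
    have := hχm 1
    simp only [Nat.cast_one, one_mul] at this
    exact this.trans hμ1
  -- choose lam
  set d : ℝ := γ' - γ with hd
  have hd0 : 0 < d := by rw [hd]; linarith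
  have hBr : (0 : ℝ) < S.B := by exact_mod_cast hB
  have hlog3 : 0 < Real.log 3 := Real.log_pos (by norm_num)
  set lam : ℝ := max (2 * μ) (2 * (S.B * Real.log 3) / d) with hlam
  have hlm : μ < lam := lt_of_lt_of_le (by linarith) (le_max_left _ _)
  have hlam0 : 0 < lam := hμ.trans hlm
  have hlamd : S.B * Real.log 3 ≤ lam * (d / 2) := by
    have : 2 * (S.B * Real.log 3) / d ≤ lam := le_max_right _ _
    rw [div_le_iff₀ hd0] at this
    linarith
  obtain ⟨χl, hχl, hχl'⟩ := S.exists_chi hv0 hpos hlam0.le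
  have hmain := S.chi_le hB hv hpos hsep hc₀ n₁ hf hμ hlm hχl hχl' hχm'
  have hχlle : χl ≤ -lam * γ' := by
    have h4 : (lam / μ) * χm ≤ (lam / μ) * (-μ * γ') :=
      mul_le_mul_of_nonneg_left hχmle (div_pos hlam0 hμ).le
    have h5 : (lam / μ) * (-μ * γ') = -lam * γ' := by
      have := hμ.ne'
      field_simp
    linarith
  obtain ⟨n₂, hn₂⟩ := hχl' (lam * (d / 2)) (by positivity)
  refine ⟨n₂, fun n hn t => ?_⟩
  have h6 := hn₂ n hn
  have h7 := S.le_of_logM hpos lam n t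
  have hn0 : (0 : ℝ) ≤ n := by positivity
  rw [← Real.le_log_iff_exp_le (hpos n t)]
  -- -lam log f ≤ B n log 3 + n (χl + lam d/2)
  have h8 : -lam * Real.log (S.f v n t) ≤ n * (lam * (d / 2)) + n * (-lam * γ' + lam * (d / 2)) := by
    have h9 : (n : ℝ) * (χl + lam * (d / 2)) ≤ n * (-lam * γ' + lam * (d / 2)) :=
      mul_le_mul_of_nonneg_left (by linarith) hn0
    have h10 : (n : ℝ) * (S.B * Real.log 3) ≤ n * (lam * (d / 2)) :=
      mul_le_mul_of_nonneg_left hlamd hn0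
    nlinarith
  have h11 : lam * (γ * n) ≤ lam * Real.log (S.f v n t) := by
    have : γ = γ' - d := by rw [hd]; ring
    rw [this]
    nlinarith
  exact le_of_mul_le_mul_left h11 hlam0

end Pool.Agent.H51.KL
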