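import Pool.Agent.H51.KL.Typ
import Pool.Agent.H51.KL.ThB

/-!
JOB KL-BOOT. Lowering the cap from 5 to 2 + ε.
(helper file for MP_ff4775_nt)

Fix `ε ≤ 1/100` (`ε` small relative to `1 - g`) and `B` large. `S = Bs B ε`, `v_al = bv B ε al`.
`0 < v_al ≤ 1`; `v_al` is nondecreasing in `al`; `v_al ≥ 2^(-(al'-al)B) v_al'` for `al ≤ al'`.
`hcov` follows from `base`, `hsep` from `sep`.
Claim(al): `∃ c > 0, ∃ n₁, ∀ n ≥ n₁, ∀ t, e^(cn) ≤ S.f v_al n t`.
* Claim(5): `v_5 = 1` and `base`: `f ≥ 2^n` (`pow_le_f`).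
* Claim(al) and `2 + ε ≤ al` imply: for every `γ < log(4/3) - ε log 2`, (with `B ≥ B₀(γ)`, from `typ` and
  `f_mono`, the average of `log f 1` is `> γ B`), `worst_eq_typical` gives
  `f v_al n t ≥ e^(γ B n)` for large `n`.
* with `γ = 0.27` (`log(4/3) = 0.2876..`, `ε log 2 ≤ 0.007`): for `al' = al - 1/4`:
  `f v_al' n t ≥ 2^(-Bn/4) f v_al n t ≥ e^((0.27 - 0.174) B n)` (`f_smul`, `f_mono`; `log 2/4 < 0.1733`), so
  Claim(al') holds (also for any `al' ∈ [al - 1/4, al]`). After 12 steps: Claim(2+ε)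
  (use al = 5, 4.75, ..., then `max (al - 1/4) (2+ε)`).
* Finally for `al = 2 + ε` and any `γ < log(4/3) - ε log 2`: `f v_al n t ≥ e^(γ B n)` for `n ≥ n₂`.
-/

set_option autoImplicit false

namespace Pool.Agent.H51.KL

open Finset

private theorem boot_log43 : (2 / 5 : ℝ) * Real.log 2 ≤ Real.log (4 / 3) := by
  have h1 : Real.log ((2 : ℝ) ^ 2) ≤ Real.log ((4 / 3 : ℝ) ^ 5) :=
    Real.log_le_log (by norm_num) (by norm_num)
  rw [Real.log_pow, Real.log_pow] at h1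
  push_cast at h1
  linarith

private theorem boot_bv_pos (B : ℕ) (ε al : ℝ) (w : BIdx B ε) :
    0 < bv B ε al w ∧ bv B ε al w ≤ 1 :=
  ⟨lt_min one_pos (Real.rpow_pos_of_pos two_pos _), min_le_left _ _⟩

private theorem boot_bv_mono (B : ℕ) (ε : ℝ) {al al' : ℝ} (h : al ≤ al') (w : BIdx B ε) :
    bv B ε al w ≤ bv B ε al' w := by
  unfold bv
  refine min_le_min le_rfl (Real.rpow_le_rpow_of_exponent_le one_le_two ?_)
  have hB : (0 : ℝ) ≤ B := Nat.cast_nonneg B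
  have := mul_le_mul_of_nonneg_right h hB
  linarith

private theorem boot_bv_scale (B : ℕ) (ε : ℝ) {al al' : ℝ} (h : al' ≤ al) (w : BIdx B ε) :
    (2 : ℝ) ^ (-((al - al') * B)) * bv B ε al w ≤ bv B ε al' w := by
  have hB : (0 : ℝ) ≤ B := Nat.cast_nonneg B
  have hc : (2 : ℝ) ^ (-((al - al') * B)) ≤ 1 := by
    refine Real.rpow_le_one_of_one_le_of_nonpos one_le_two ?_
    have := mul_nonneg (sub_nonneg.2 h) hB
    linarith
  have hc0 : 0 < (2 : ℝ) ^ (-((al - al') * B)) := Real.rpow_pos_of_pos two_pos _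
  unfold bv
  refine le_min ?_ ?_
  · calc (2 : ℝ) ^ (-((al - al') * B)) *
        min 1 ((2 : ℝ) ^ (al * B - ((Ls (5 * B)).wA w.1 : ℝ)))
        ≤ (2 : ℝ) ^ (-((al - al') * B)) * 1 :=
          mul_le_mul_of_nonneg_left (min_le_left _ _) hc0.le
      _ ≤ 1 := by rw [mul_one]; exact hc
  · calc (2 : ℝ) ^ (-((al - al') * B)) *
        min 1 ((2 : ℝ) ^ (al * B - ((Ls (5 * B)).wA w.1 : ℝ)))
        ≤ (2 : ℝ) ^ (-((al - al') * B)) * (2 : ℝ) ^ (al * B - ((Ls (5 * B)).wA w.1 : ℝ)) :=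
          mul_le_mul_of_nonneg_left (min_le_right _ _) hc0.le
      _ = (2 : ℝ) ^ (al' * B - ((Ls (5 * B)).wA w.1 : ℝ)) := by
          rw [← Real.rpow_add two_pos]
          congr 1
          ring

private theorem boot_bv_five (B : ℕ) (ε : ℝ) : bv B ε 5 = fun _ => 1 := by
  funext w
  unfold bv
  refine min_eq_left ?_
  refine Real.one_le_rpow one_le_two ?_
  have h := w.2.2.2
  have h' : ((Ls (5 * B)).wA w.1 : ℝ) ≤ ((5 * B : ℕ) : ℝ) := Nat.cast_le.2 h
  push_cast at h'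
  linarith

private theorem boot_cov (B : ℕ) (hB : 18 ≤ B) (ε : ℝ) (hε : 0 < ε) (t : ℤ) :
    ∃ i, (3 : ℤ) ^ (Bs B ε).B ∣ 2 ^ (Bs B ε).A i * t - (Bs B ε).β i := by
  by_contra hc
  push Not at hc
  have h := base B hB ε hε t
  have e : (Bs B ε).f (fun _ => 1) 1 t = 0 := by
    rw [Sys.f_succ]
    exact Finset.sum_eq_zero fun i _ => if_neg (hc i)
  rw [e] at h
  linarith

/-- the claim for the cap `al` -/
private def BootClaim (B : ℕ) (ε al : ℝ) : Prop :=
  ∃ c : ℝ, 0 < c ∧ ∃ n₁ : ℕ, ∀ n : ℕ, n₁ ≤ n → ∀ t : ℤ,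
    Real.exp (c * n) ≤ (Bs B ε).f (bv B ε al) n t

private theorem boot_step (B : ℕ) (hB : 18 ≤ B) (ε : ℝ) (hε : 0 < ε) {al : ℝ} (hal : 2 + ε ≤ al)
    (hC : BootClaim B ε al) {γ : ℝ}
    (hγ : γ * B * 3 ^ B < ∑ t ∈ range (3 ^ B), Real.log ((Bs B ε).f (bv B ε (2 + ε)) 1 (t : ℤ))) :
    ∃ n₂ : ℕ, ∀ n : ℕ, n₂ ≤ n → ∀ t : ℤ,
      Real.exp (γ * B * n) ≤ (Bs B ε).f (bv B ε al) n t := by
  obtain ⟨c, hc, n₁, hn₁⟩ := hC
  refine worst_eq_typical (Bs B ε) (show 0 < B by omega) (boot_bv_pos B ε al)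
    (boot_cov B hB ε hε) (fun n w w' h1 h2 => sep n w w' h1 h2) hc n₁ hn₁ ?_
  refine lt_of_lt_of_le hγ ?_
  refine Finset.sum_le_sum fun t _ => ?_
  refine Real.log_le_log ?_ ?_
  · exact Sys.f_pos _ (fun i => (boot_bv_pos B ε _ i).1) (boot_cov B hB ε hε) 1 _
  · exact Sys.f_mono _ (fun i => (boot_bv_pos B ε _ i).1.le)
      (fun i => boot_bv_mono B ε hal i) 1 _

private theorem boot_lower (B : ℕ) (hB : 18 ≤ B) (ε : ℝ) (hε : 0 < ε) {al al' : ℝ}
    (hal : 2 + ε ≤ al) (h1 : al' ≤ al) (h2 : al ≤ al' + 1 / 4) (hC : BootClaim B ε al)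
    (hγ : 1 / 4 * B * 3 ^ B <
      ∑ t ∈ range (3 ^ B), Real.log ((Bs B ε).f (bv B ε (2 + ε)) 1 (t : ℤ))) :
    BootClaim B ε al' := by
  obtain ⟨n₂, hn₂⟩ := boot_step B hB ε hε hal hC hγ
  have hB0 : (0 : ℝ) < B := by
    have : 0 < B := by omega
    exact_mod_cast this
  refine ⟨1 / 20 * B, by positivity, n₂, fun n hn t => ?_⟩
  have h3 := hn₂ n hn t
  set c := (2 : ℝ) ^ (-((al - al') * B)) with hcdef
  have hc0 : 0 < c := Real.rpow_pos_of_pos two_pos _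
  have h4 : (Bs B ε).f (fun i => c * bv B ε al i) n t ≤ (Bs B ε).f (bv B ε al') n t :=
    Sys.f_mono _ (fun i => mul_nonneg hc0.le (boot_bv_pos B ε _ i).1.le)
      (fun i => boot_bv_scale B ε h1 i) n t
  rw [Sys.f_smul] at h4
  refine le_trans ?_ h4
  have h5 : Real.exp (1 / 20 * B * n) ≤ c ^ n * Real.exp (1 / 4 * B * n) := by
    have e : c ^ n = Real.exp (-((al - al') * B * Real.log 2) * n) := by
      rw [hcdef, Real.rpow_def_of_pos two_pos, ← Real.exp_nat_mul]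
      congr 1
      ring
    rw [e, ← Real.exp_add]
    apply Real.exp_le_exp.2
    have h6 := Real.log_two_lt_d9
    have h7 := Real.log_two_gt_d9
    have h8 : (al - al') * Real.log 2 ≤ 1 / 5 := by
      have : (al - al') * Real.log 2 ≤ 1 / 4 * Real.log 2 :=
        mul_le_mul_of_nonneg_right (by linarith) (by linarith)
      linarith
    have hn0 : (0 : ℝ) ≤ B * n := by positivity
    have h9 := mul_le_mul_of_nonneg_right h8 hn0
    nlinarith [h9]
  exact h5.trans (mul_le_mul_of_nonneg_left h3 (pow_nonneg hc0.le n))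

theorem claim_all (ε γ : ℝ) (hε : 0 < ε) (hε1 : ε ≤ 1 / 100)
    (hγ : γ < Real.log (4 / 3) - ε * Real.log 2) : ∃ B : ℕ, 18 ≤ B ∧ ∃ n₁ : ℕ, ∀ n : ℕ, n₁ ≤ n →
      ∀ t : ℤ, Real.exp (γ * B * n) ≤ (Bs B ε).f (bv B ε (2 + ε)) n t := by
  have hlog := boot_log43
  have h6 := Real.log_two_lt_d9
  have h7 := Real.log_two_gt_d9
  have hγ' : (1 / 4 : ℝ) < Real.log (4 / 3) - ε * Real.log 2 := by
    have : ε * Real.log 2 ≤ 1 / 100 * Real.log 2 :=
      mul_le_mul_of_nonneg_right hε1 (by linarith)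
    linarith
  obtain ⟨B₁, hB₁⟩ := typ ε γ hε (by linarith) hγ
  obtain ⟨B₂, hB₂⟩ := typ ε (1 / 4) hε (by linarith) hγ'
  set B := max 18 (max B₁ B₂) with hBdef
  have hB : 18 ≤ B := le_max_left _ _
  have hb1 := hB₁ B ((le_max_left _ _).trans (le_max_right _ _))
  have hb2 := hB₂ B ((le_max_right _ _).trans (le_max_right _ _))
  have hall : ∀ k : ℕ, BootClaim B ε (max (5 - (k : ℝ) / 4) (2 + ε)) := by
    intro k
    induction k with
    | zero =>
      have e : max (5 - ((0 : ℕ) : ℝ) / 4) (2 + ε) = 5 := by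
        rw [max_eq_left]
        · norm_num
        · push_cast
          linarith
      rw [e, BootClaim, boot_bv_five]
      refine ⟨Real.log 2, by linarith, 0, fun n _ t => ?_⟩
      have := Sys.pow_le_f (Bs B ε) (v := fun _ => 1) (fun _ => zero_le_one) 2 (by norm_num)
        (base B hB ε hε) n t
      refine le_trans (le_of_eq ?_) this
      rw [mul_comm, Real.exp_nat_mul, Real.exp_log two_pos]
    | succ k ih =>
      refine boot_lower B hB ε hε (le_max_right _ _) ?_ ?_ ih hb2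
      · refine max_le_max ?_ le_rfl
        push_cast
        linarith
      · refine max_le ?_ ?_
        · have := le_max_left (5 - ((k + 1 : ℕ) : ℝ) / 4) (2 + ε)
          push_cast at this ⊢
          linarith
        · have := le_max_right (5 - ((k + 1 : ℕ) : ℝ) / 4) (2 + ε)
          linarith
  have h12 := hall 12
  have e : max (5 - ((12 : ℕ) : ℝ) / 4) (2 + ε) = 2 + ε := by
    rw [max_eq_right]
    push_cast
    linarith
  rw [e] at h12
  exact ⟨B, hB, boot_step B hB ε hε le_rfl h12 hb1⟩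

end Pool.Agent.H51.KL
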