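import Pool.Agent.H51.KL.Ent3

/-!
JOB KL-EMB. Conditional weights and the chain rule for base-3 digits. (helper file for MP_ff4775_nt)

`emb l a b P τ = P + 3^a τ` is a bijection `ZMod (3^a) × ZMod (3^b) ≃ ZMod (3^l)` for `l = a + b`.
`exists_cnd`: `cn P τ = κ (emb P τ) / κ₁ P`, `κ₁ = push (redm l a) κ` (any probability if `κ₁ P = 0`).
`chain_rule`: the image of `κ` in `ZMod (3^(a+i)) ≃ ZMod (3^a) × ZMod (3^i)` is
`(P, τ') ↦ κ₁ P * push (redm b i) (cn P) τ'`, and `negMulLog (x y) = y negMulLog x + x negMulLog y`.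
-/

set_option autoImplicit false

namespace Pool.Agent.H51.KL

open Finset

variable {l : ℕ}

/-- gluing of digits -/
def emb (l a b : ℕ) (P : ZMod (3 ^ a)) (τ : ZMod (3 ^ b)) : ZMod (3 ^ l) :=
  ((P.val + 3 ^ a * τ.val : ℕ) : ZMod (3 ^ l))

theorem redm_emb {a b : ℕ} (hl : l = a + b) (P : ZMod (3 ^ a)) (τ : ZMod (3 ^ b)) :
    redm l a (emb l a b P τ) = P := by
  have : NeZero (3 ^ a) := ⟨by positivity⟩
  rw [emb, redm_natCast (by omega)]
  have h0 : ((3 ^ a : ℕ) : ZMod (3 ^ a)) = 0 := ZMod.natCast_self _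
  rw [Nat.cast_add, Nat.cast_mul, h0, zero_mul, add_zero, ZMod.natCast_zmod_val]

private theorem emb_val {a b : ℕ} (hl : l = a + b) (P : ZMod (3 ^ a)) (τ : ZMod (3 ^ b)) :
    (emb l a b P τ).val = P.val + 3 ^ a * τ.val := by
  have : NeZero (3 ^ a) := ⟨by positivity⟩
  have : NeZero (3 ^ b) := ⟨by positivity⟩
  have : NeZero (3 ^ l) := ⟨by positivity⟩
  rw [emb, ZMod.val_natCast]
  apply Nat.mod_eq_of_lt
  have h1 : P.val < 3 ^ a := ZMod.val_lt P
  have h2 : τ.val + 1 ≤ 3 ^ b := ZMod.val_lt τ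
  have h3 : 3 ^ a * (τ.val + 1) ≤ 3 ^ a * 3 ^ b := Nat.mul_le_mul_left _ h2
  rw [hl, pow_add]
  nlinarith

private theorem emb_inj {a b : ℕ} (hl : l = a + b) {P P' : ZMod (3 ^ a)} {τ τ' : ZMod (3 ^ b)}
    (h : emb l a b P τ = emb l a b P' τ') : P = P' ∧ τ = τ' := by
  have : NeZero (3 ^ a) := ⟨by positivity⟩
  have : NeZero (3 ^ b) := ⟨by positivity⟩
  have h1 : P = P' := by rw [← redm_emb hl P τ, h, redm_emb hl]
  refine ⟨h1, ?_⟩
  have h2 := congrArg ZMod.val h
  rw [emb_val hl, emb_val hl, h1] at h2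
  have h3 : 3 ^ a * τ.val = 3 ^ a * τ'.val := by omega
  exact ZMod.val_injective _ (Nat.eq_of_mul_eq_mul_left (by positivity) h3)

private theorem emb_bij {a b : ℕ} (hl : l = a + b) :
    Function.Bijective (fun x : ZMod (3 ^ a) × ZMod (3 ^ b) => emb l a b x.1 x.2) := by
  have : NeZero (3 ^ a) := ⟨by positivity⟩
  have : NeZero (3 ^ b) := ⟨by positivity⟩
  have : NeZero (3 ^ l) := ⟨by positivity⟩
  rw [Fintype.bijective_iff_injective_and_card]
  constructor
  · rintro ⟨P, τ⟩ ⟨P', τ'⟩ h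
    obtain ⟨h1, h2⟩ := emb_inj hl h
    exact Prod.ext h1 h2
  · rw [Fintype.card_prod, ZMod.card, ZMod.card, ZMod.card, hl, pow_add]

theorem sum_emb {a b : ℕ} (hl : l = a + b) (g : ZMod (3 ^ l) → ℝ) :
    ∑ x, g x = ∑ P, ∑ τ, g (emb l a b P τ) := by
  rw [← Fintype.sum_prod_type']
  exact (Function.Bijective.sum_comp (emb_bij hl) g).symm

private theorem push_emb {a b : ℕ} (hl : l = a + b) (κ : ZMod (3 ^ l) → ℝ) (P : ZMod (3 ^ a)) :
    push (redm l a) κ P = ∑ τ, κ (emb l a b P τ) := by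
  rw [push, sum_emb hl]
  simp_rw [redm_emb hl]
  rw [Finset.sum_eq_single P]
  · simp
  · intro b _ hb
    simp [hb]
  · intro h
    exact absurd (Finset.mem_univ _) h

/-- existence of conditional weights -/
theorem exists_cnd {a b : ℕ} (hl : l = a + b) {κ : ZMod (3 ^ l) → ℝ} (h : IsProb κ) :
    ∃ cn : ZMod (3 ^ a) → ZMod (3 ^ b) → ℝ, (∀ P, IsProb (cn P)) ∧
      ∀ P τ, push (redm l a) κ P * cn P τ = κ (emb l a b P τ) := by
  have : NeZero (3 ^ b) := ⟨by positivity⟩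
  classical
  refine ⟨fun P τ => if push (redm l a) κ P = 0 then 1 / 3 ^ b
    else κ (emb l a b P τ) / push (redm l a) κ P, fun P => ⟨fun τ => ?_, ?_⟩, fun P τ => ?_⟩
  · by_cases h0 : push (redm l a) κ P = 0
    · simp only [h0, if_true]
      positivity
    · simp only [h0, if_false]
      exact div_nonneg (h.nonneg _) ((push_isProb h _).nonneg _)
  · by_cases h0 : push (redm l a) κ P = 0
    · simp only [h0, if_true]
      rw [Finset.sum_const, Finset.card_univ, ZMod.card, nsmul_eq_mul]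
      push_cast
      field_simp
    · simp only [h0, if_false]
      rw [← Finset.sum_div, ← push_emb hl, div_self h0]
  · by_cases h0 : push (redm l a) κ P = 0
    · simp only [h0, if_true, zero_mul]
      have h1 := push_emb hl κ P
      rw [h0] at h1
      exact ((Finset.sum_eq_zero_iff_of_nonneg (fun τ _ => h.nonneg (emb l a b P τ))).1 h1.symm τ
        (Finset.mem_univ _)).symm
    · simp only [h0, if_false]
      rw [mul_div_cancel₀ _ h0]

private theorem redm_emb' {a b i : ℕ} (hl : l = a + b) (hi : i ≤ b) (P : ZMod (3 ^ a))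
    (τ : ZMod (3 ^ b)) :
    redm l (a + i) (emb l a b P τ) = emb (a + i) a i P (redm b i τ) := by
  rw [emb, redm_natCast (by omega), emb, redm, ZMod.val_natCast]
  rw [ZMod.natCast_eq_natCast_iff, pow_add]
  apply Nat.ModEq.add_left
  apply Nat.ModEq.mul_left'
  exact (Nat.mod_modEq _ _).symm

private theorem push_emb' {a b : ℕ} (hl : l = a + b) {κ : ZMod (3 ^ l) → ℝ}
    (cn : ZMod (3 ^ a) → ZMod (3 ^ b) → ℝ)
    (hk : ∀ P τ, push (redm l a) κ P * cn P τ = κ (emb l a b P τ)) {i : ℕ} (hi : i ≤ b)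
    (P : ZMod (3 ^ a)) (τ' : ZMod (3 ^ i)) :
    push (redm l (a + i)) κ (emb (a + i) a i P τ') =
      push (redm l a) κ P * push (redm b i) (cn P) τ' := by
  rw [push, sum_emb hl]
  simp_rw [redm_emb' hl hi]
  rw [Finset.sum_eq_single P]
  · rw [push, push, Finset.mul_sum]
    refine Finset.sum_congr rfl fun τ _ => ?_
    by_cases h : redm b i τ = τ'
    · rw [if_pos h, if_pos (by rw [h])]
      rw [← hk P τ]
      rfl
    · rw [if_neg h, if_neg (fun h' => h (emb_inj rfl h').2), mul_zero]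
  · intro P' _ hP'
    refine Finset.sum_eq_zero fun τ _ => ?_
    rw [if_neg (fun h' => hP' (emb_inj rfl h').1)]
  · intro h
    exact absurd (Finset.mem_univ _) h

/-- chain rule -/
theorem chain_rule {a b : ℕ} (hl : l = a + b) {κ : ZMod (3 ^ l) → ℝ} (h : IsProb κ)
    (cn : ZMod (3 ^ a) → ZMod (3 ^ b) → ℝ) (hcn : ∀ P, IsProb (cn P))
    (hk : ∀ P τ, push (redm l a) κ P * cn P τ = κ (emb l a b P τ)) {i : ℕ} (hi : i ≤ b) :
    Hlev κ (a + i) = Hlev κ a + ∑ P, push (redm l a) κ P * Hlev (cn P) i := by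
  rw [Hlev, ent, sum_emb (rfl : a + i = a + i)]
  simp_rw [push_emb' hl cn hk hi, Real.negMulLog_mul]
  rw [Hlev, ent, ← Finset.sum_add_distrib]
  refine Finset.sum_congr rfl fun P _ => ?_
  rw [Finset.sum_add_distrib, ← Finset.sum_mul, (push_isProb (hcn P) _).sum_one, one_mul,
    ← Finset.mul_sum, Hlev, ent]

end Pool.Agent.H51.KL
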