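import Pool.Agent.H51.KL.Mom2
import Pool.Agent.H51.KL.Emb

/-!
JOB KL-CHAIN. The block inequality for the variational functional. (helper file for MP_ff4775_nt)

Write `Φ^lam_k(κ) = -lam ∑ κ x log (fz k x) + ent κ - B k log 3` for probability weights `κ` on
`ZMod (3^(B k))`. Gibbs' inequality (`gibbs` with `g = fz^(-lam)`): `Φ^lam_k(κ) ≤ logM lam k` (`phi_le`).

`phi_block` (for blocks of length `m`): combine Gibbs for `mu`:
`-∑ κ log fz ≤ (logM mu m + D)/mu`, `D = B m log 3 - ent κ`, with the definition: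
`Φ^lam_m(κ) ≤ (lam/mu) logM mu m + (lam/mu - 1) D`.

`phi_split`: for `k = m + k'` let `κ₁ = push (redm _ (B m)) κ`, `cn` conditional weights
(`exists_cnd`, `l = B k`, `a = B m`, `b = B k'`). By `f_add` and concavity of `log`, for a prefix `P` and
`θ_P(w) = wv v w / f m P` (words of length `m` with `WDom w P`),
`log f k (P + 3^(Bm) τ) ≥ log f m P + ∑_w θ_P(w) log f k' (wnxt w P + 2^(wA w) τ)`. Hence
`Φ_k(κ) ≤ Φ_m(κ₁) + ∑_P κ₁(P) ∑_w θ_P(w) Φ_{k'}(push (τ ↦ e + 2^(wA w) τ) (cn P))`,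
using `ent κ = ent κ₁ + ∑_P κ₁(P) ent (cn P)` (`chain_rule`, `i = b`) and `ent_affine`.

`chain`: induction on `L` (`k = m L`). If `0 ∈ J` use `phi_block` for the first block, otherwise
`phi_le`; for the rest use the induction hypothesis with `J' = {j | j + 1 ∈ J}`, and
`hb (push affine (cn P)) M j = hb (cn P) M j` (`Hlev_affine`),
`∑_P κ₁(P) hb (cn P) M j = hb κ M (j+1)` (`chain_rule`, `M = B m`), and
`B m log 3 - ent κ₁ = B m log 3 - hb κ M 0` (`Hlev_zero`).
-/

set_option autoImplicit false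

namespace Pool.Agent.H51.KL

open Finset

private theorem chain_sum_zmod (n : ℕ) (g : ℕ → ℝ) :
    ∑ x : ZMod (3 ^ n), g x.val = ∑ t ∈ range (3 ^ n), g t := by
  apply Finset.sum_nbij' (i := fun x : ZMod (3 ^ n) => x.val) (j := fun t => (t : ZMod (3 ^ n)))
  · intro x _
    exact Finset.mem_range.2 (ZMod.val_lt x)
  · intro t _
    exact Finset.mem_univ _
  · intro x _
    exact ZMod.natCast_zmod_val x
  · intro t ht
    exact ZMod.val_natCast_of_lt (Finset.mem_range.1 ht)
  · intro x _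
    rfl

private theorem chain_emb_val {l a b : ℕ} (hl : l = a + b) (P : ZMod (3 ^ a)) (τ : ZMod (3 ^ b)) :
    (emb l a b P τ).val = P.val + 3 ^ a * τ.val := by
  unfold emb
  apply ZMod.val_natCast_of_lt
  have h1 := ZMod.val_lt P
  have h2 := ZMod.val_lt τ
  rw [hl, pow_add]
  calc P.val + 3 ^ a * τ.val < 3 ^ a + 3 ^ a * τ.val := by omega
    _ = 3 ^ a * (τ.val + 1) := by ring
    _ ≤ 3 ^ a * 3 ^ b := Nat.mul_le_mul_left _ h2

namespace Sys

variable {ι : Type} [Fintype ι] (S : Sys ι)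

private noncomputable def chPhi (v : ι → ℝ) (lam : ℝ) (k : ℕ) (κ : ZMod (3 ^ (S.B * k)) → ℝ) : ℝ :=
  -lam * ∑ x, κ x * Real.log (S.fz v k x) + ent κ - S.B * k * Real.log 3

theorem phi_le {v : ι → ℝ} (hf : ∀ n t, 0 < S.f v n t) (lam : ℝ) (k : ℕ)
    {κ : ZMod (3 ^ (S.B * k)) → ℝ} (hκ : IsProb κ) :
    -lam * ∑ x, κ x * Real.log (S.fz v k x) + ent κ - S.B * k * Real.log 3 ≤ S.logM v lam k := by
  have hpos : ∀ x, 0 < S.fz v k x := fun x => hf _ _
  have h1 := gibbs hκ (fun x => (S.fz v k x) ^ (-lam)) (fun x => Real.rpow_pos_of_pos (hpos x) _)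
  have h2 : ∑ x, κ x * Real.log ((S.fz v k x) ^ (-lam)) =
      -lam * ∑ x, κ x * Real.log (S.fz v k x) := by
    rw [Finset.mul_sum]
    refine Finset.sum_congr rfl fun x _ => ?_
    rw [Real.log_rpow (hpos x)]; ring
  have h3 : ∑ x, (S.fz v k x) ^ (-lam) =
      ∑ t ∈ range (3 ^ (S.B * k)), (S.f v k (t : ℤ)) ^ (-lam) :=
    chain_sum_zmod (S.B * k) (fun t => (S.f v k (t : ℤ)) ^ (-lam))
  have h4 : 0 < ∑ t ∈ range (3 ^ (S.B * k)), (S.f v k (t : ℤ)) ^ (-lam) := by
    apply Finset.sum_pos (fun t _ => Real.rpow_pos_of_pos (hf _ _) _)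
    exact ⟨0, Finset.mem_range.2 (by positivity)⟩
  have h5 : S.logM v lam k =
      Real.log (∑ t ∈ range (3 ^ (S.B * k)), (S.f v k (t : ℤ)) ^ (-lam)) -
        S.B * k * Real.log 3 := by
    unfold logM
    rw [Real.log_div h4.ne' (by positivity), Real.log_pow]
    push_cast
    ring
  rw [h2, h3] at h1
  rw [h5]
  linarith

theorem phi_block {v : ι → ℝ} (hf : ∀ n t, 0 < S.f v n t) {lam mu : ℝ} (hmu : 0 < mu)
    (hlm : mu < lam) (m : ℕ) {κ : ZMod (3 ^ (S.B * m)) → ℝ} (hκ : IsProb κ) :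
    -lam * ∑ x, κ x * Real.log (S.fz v m x) + ent κ - S.B * m * Real.log 3 ≤
      (lam / mu) * S.logM v mu m + (lam / mu - 1) * (S.B * m * Real.log 3 - ent κ) := by
  have h1 := S.phi_le hf mu m hκ
  set X := ∑ x, κ x * Real.log (S.fz v m x) with hX
  set D := S.B * m * Real.log 3 - ent κ with hD
  have h2 : -mu * X ≤ S.logM v mu m + D := by rw [hD]; linarith
  have h3 : 0 < lam / mu := div_pos (hmu.trans hlm) hmu
  have h4 : -lam * X = (lam / mu) * (-mu * X) := by
    field_simp
  have h5 := mul_le_mul_of_nonneg_left h2 h3.le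
  have h6 : -lam * X + ent κ - S.B * m * Real.log 3 = -lam * X - D := by rw [hD]; ring
  rw [h6, h4]
  linarith

private theorem chain_f_congr (v : ι → ℝ) (n : ℕ) (a b : ℤ)
    (h : (a : ZMod (3 ^ (S.B * n))) = (b : ZMod (3 ^ (S.B * n)))) : S.f v n a = S.f v n b := by
  have h1 : ((3 ^ (S.B * n) : ℕ) : ℤ) ∣ a - b := by
    rw [← ZMod.intCast_zmod_eq_zero_iff_dvd]
    push_cast
    rw [h, sub_self]
  obtain ⟨s, hs⟩ := h1
  have h2 : a = b + 3 ^ (S.B * n) * s := by
    have : a = b + (a - b) := by ring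
    rw [this, hs]
    push_cast
    ring
  rw [h2, f_periodic]

private theorem chain_fz_intCast (v : ι → ℝ) (n : ℕ) (a : ℤ) :
    S.fz v n (a : ZMod (3 ^ (S.B * n))) = S.f v n a := by
  unfold fz
  apply S.chain_f_congr
  simp

private noncomputable def chTheta (v : ι → ℝ) (m : ℕ) (P : ZMod (3 ^ (S.B * m))) (w : Fin m → ι) :
    ℝ :=
  if S.WDom w ((P.val : ℕ) : ℤ) then wv v w / S.f v m ((P.val : ℕ) : ℤ) else 0

private def chAff (k' : ℕ) {m : ℕ} (P : ZMod (3 ^ (S.B * m))) (w : Fin m → ι)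
    (τ : ZMod (3 ^ (S.B * k'))) : ZMod (3 ^ (S.B * k')) :=
  (S.wnxt w ((P.val : ℕ) : ℤ) : ZMod (3 ^ (S.B * k'))) + 2 ^ S.wA w * τ

private theorem chTheta_nonneg {v : ι → ℝ} (hv : ∀ i, 0 ≤ v i) (hf : ∀ n t, 0 < S.f v n t) (m : ℕ)
    (P : ZMod (3 ^ (S.B * m))) (w : Fin m → ι) : 0 ≤ S.chTheta v m P w := by
  unfold chTheta
  split_ifs
  · exact div_nonneg (wv_nonneg hv w) (hf _ _).le
  · exact le_rfl

private theorem chTheta_sum {v : ι → ℝ} (hf : ∀ n t, 0 < S.f v n t) (m : ℕ)
    (P : ZMod (3 ^ (S.B * m))) : ∑ w, S.chTheta v m P w = 1 := by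
  have h1 := S.f_eq_sum v m ((P.val : ℕ) : ℤ)
  have h2 : ∑ w, S.chTheta v m P w =
      (∑ w : Fin m → ι, if S.WDom w ((P.val : ℕ) : ℤ) then wv v w else 0) /
        S.f v m ((P.val : ℕ) : ℤ) := by
    rw [Finset.sum_div]
    refine Finset.sum_congr rfl fun w _ => ?_
    unfold chTheta
    split_ifs
    · rfl
    · rw [zero_div]
  rw [h2, ← h1, div_self (hf _ _).ne']

/-- the decomposition of `f` over the first `m` letters -/
private theorem chain_f_emb {v : ι → ℝ} (hf : ∀ n t, 0 < S.f v n t) (m k' : ℕ)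
    (P : ZMod (3 ^ (S.B * m))) (τ : ZMod (3 ^ (S.B * k'))) :
    S.f v (m + k') ((P.val + 3 ^ (S.B * m) * τ.val : ℕ) : ℤ) =
      S.fz v m P * ∑ w, S.chTheta v m P w * S.fz v k' (S.chAff k' P w τ) := by
  rw [f_add, Finset.mul_sum]
  refine Finset.sum_congr rfl fun w _ => ?_
  have hc : ((P.val + 3 ^ (S.B * m) * τ.val : ℕ) : ℤ) =
      ((P.val : ℕ) : ℤ) + 3 ^ (S.B * m) * ((τ.val : ℕ) : ℤ) := by push_cast; ring
  rw [hc]
  unfold chTheta
  by_cases h : S.WDom w ((P.val : ℕ) : ℤ)
  · rw [if_pos h, if_pos ((S.wDom_shift w _ _).2 h), S.wnxt_shift w _ _ h]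
    have h1 : S.fz v k' (S.chAff k' P w τ) =
        S.f v k' (S.wnxt w ((P.val : ℕ) : ℤ) + 2 ^ S.wA w * ((τ.val : ℕ) : ℤ)) := by
      rw [← chain_fz_intCast]
      congr 1
      unfold chAff
      push_cast
      congr 2
      exact (ZMod.natCast_zmod_val τ).symm
    rw [h1]
    have h2 : S.fz v m P = S.f v m ((P.val : ℕ) : ℤ) := rfl
    rw [h2]
    have h3 := (hf m ((P.val : ℕ) : ℤ)).ne'
    field_simp
  · rw [if_neg h, if_neg (fun h' => h ((S.wDom_shift w _ _).1 h')), zero_mul, mul_zero]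

/-- Jensen -/
private theorem chain_log_ge {v : ι → ℝ} (hv : ∀ i, 0 ≤ v i) (hf : ∀ n t, 0 < S.f v n t) (m k' : ℕ)
    (P : ZMod (3 ^ (S.B * m))) (τ : ZMod (3 ^ (S.B * k'))) :
    Real.log (S.fz v m P) + ∑ w, S.chTheta v m P w * Real.log (S.fz v k' (S.chAff k' P w τ)) ≤
      Real.log (S.f v (m + k') ((P.val + 3 ^ (S.B * m) * τ.val : ℕ) : ℤ)) := by
  have hj := strictConcaveOn_log_Ioi.concaveOn.le_map_sum (t := (univ : Finset (Fin m → ι)))
    (w := fun w => S.chTheta v m P w) (p := fun w => S.fz v k' (S.chAff k' P w τ))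
    (fun w _ => S.chTheta_nonneg hv hf m P w) (S.chTheta_sum hf m P) (fun w _ => hf _ _)
  simp only [smul_eq_mul] at hj
  have hpos : 0 < ∑ w, S.chTheta v m P w * S.fz v k' (S.chAff k' P w τ) := by
    have h1 := S.chain_f_emb hf m k' P τ
    have h2 := hf (m + k') ((P.val + 3 ^ (S.B * m) * τ.val : ℕ) : ℤ)
    rw [h1] at h2
    exact (pos_iff_pos_of_mul_pos h2).1 (hf _ _)
  have hfz : 0 < S.fz v m P := hf _ _
  rw [S.chain_f_emb hf, Real.log_mul hfz.ne' hpos.ne']
  linarith

private theorem chain_split {v : ι → ℝ} (hv : ∀ i, 0 ≤ v i) (hf : ∀ n t, 0 < S.f v n t) {lam : ℝ}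
    (hlam : 0 ≤ lam) {m k' k : ℕ} (hk : k = m + k') {κ : ZMod (3 ^ (S.B * k)) → ℝ} (hκ : IsProb κ)
    (cn : ZMod (3 ^ (S.B * m)) → ZMod (3 ^ (S.B * k')) → ℝ) (hcn : ∀ P, IsProb (cn P))
    (hkc : ∀ P τ, push (redm (S.B * k) (S.B * m)) κ P * cn P τ =
      κ (emb (S.B * k) (S.B * m) (S.B * k') P τ)) :
    S.chPhi v lam k κ ≤ S.chPhi v lam m (push (redm (S.B * k) (S.B * m)) κ) +
      ∑ P, push (redm (S.B * k) (S.B * m)) κ P *
        ∑ w, S.chTheta v m P w * S.chPhi v lam k' (push (S.chAff k' P w) (cn P)) := by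
  have hl : S.B * k = S.B * m + S.B * k' := by rw [hk, Nat.mul_add]
  set κ₁ := push (redm (S.B * k) (S.B * m)) κ with hκ₁
  have hκ₁p : IsProb κ₁ := push_isProb hκ _
  -- entropy
  have hent : ent κ = ent κ₁ + ∑ P, κ₁ P * ent (cn P) := by
    have h1 := chain_rule hl hκ cn hcn hkc (le_refl (S.B * k'))
    rw [← hl, Hlev_self] at h1
    rw [h1]
    congr 1
    refine Finset.sum_congr rfl fun P _ => ?_
    rw [Hlev_self]
  -- the logarithmic part
  have hlog : ∑ P, κ₁ P * Real.log (S.fz v m P) +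
      ∑ P, κ₁ P * ∑ w, S.chTheta v m P w *
        ∑ y, push (S.chAff k' P w) (cn P) y * Real.log (S.fz v k' y) ≤
      ∑ x, κ x * Real.log (S.fz v k x) := by
    rw [sum_emb hl, ← Finset.sum_add_distrib]
    refine Finset.sum_le_sum fun P _ => ?_
    have h1 : ∀ τ, κ (emb (S.B * k) (S.B * m) (S.B * k') P τ) *
        Real.log (S.fz v k (emb (S.B * k) (S.B * m) (S.B * k') P τ)) =
        κ₁ P * (cn P τ * Real.log (S.f v (m + k')
          ((P.val + 3 ^ (S.B * m) * τ.val : ℕ) : ℤ))) := by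
      intro τ
      rw [← hkc, mul_assoc]
      unfold fz
      rw [chain_emb_val hl, hk]
    rw [Finset.sum_congr rfl fun τ _ => h1 τ, ← Finset.mul_sum, ← mul_add]
    refine mul_le_mul_of_nonneg_left ?_ (hκ₁p.nonneg P)
    have h2 : Real.log (S.fz v m P) = ∑ τ, cn P τ * Real.log (S.fz v m P) := by
      rw [← Finset.sum_mul, (hcn P).sum_one, one_mul]
    have h3 : ∑ w, S.chTheta v m P w *
        ∑ y, push (S.chAff k' P w) (cn P) y * Real.log (S.fz v k' y) =
        ∑ τ, cn P τ * ∑ w, S.chTheta v m P w * Real.log (S.fz v k' (S.chAff k' P w τ)) := by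
      have h4 : ∀ w, S.chTheta v m P w *
          ∑ y, push (S.chAff k' P w) (cn P) y * Real.log (S.fz v k' y) =
          ∑ τ, cn P τ * (S.chTheta v m P w * Real.log (S.fz v k' (S.chAff k' P w τ))) := by
        intro w
        rw [sum_push_mul, Finset.mul_sum]
        exact Finset.sum_congr rfl fun τ _ => by ring
      rw [Finset.sum_congr rfl fun w _ => h4 w, Finset.sum_comm]
      exact Finset.sum_congr rfl fun τ _ => by rw [Finset.mul_sum]
    rw [h2, h3, ← Finset.sum_add_distrib]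
    refine Finset.sum_le_sum fun τ _ => ?_
    rw [← mul_add]
    exact mul_le_mul_of_nonneg_left (S.chain_log_ge hv hf m k' P τ) ((hcn P).nonneg τ)
  -- the right hand side
  have hR : ∑ P, κ₁ P * ∑ w, S.chTheta v m P w * S.chPhi v lam k' (push (S.chAff k' P w) (cn P)) =
      -lam * (∑ P, κ₁ P * ∑ w, S.chTheta v m P w *
        ∑ y, push (S.chAff k' P w) (cn P) y * Real.log (S.fz v k' y)) +
      ∑ P, κ₁ P * ent (cn P) - S.B * k' * Real.log 3 := by
    have h1 : ∀ P, κ₁ P * ∑ w, S.chTheta v m P w *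
        S.chPhi v lam k' (push (S.chAff k' P w) (cn P)) =
        -lam * (κ₁ P * ∑ w, S.chTheta v m P w *
          ∑ y, push (S.chAff k' P w) (cn P) y * Real.log (S.fz v k' y)) +
        κ₁ P * ent (cn P) - κ₁ P * (S.B * k' * Real.log 3) := by
      intro P
      have h2 : ∀ w, S.chTheta v m P w * S.chPhi v lam k' (push (S.chAff k' P w) (cn P)) =
          -lam * (S.chTheta v m P w *
            ∑ y, push (S.chAff k' P w) (cn P) y * Real.log (S.fz v k' y)) +
          S.chTheta v m P w * (ent (cn P) - S.B * k' * Real.log 3) := by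
        intro w
        have h3 : ent (push (S.chAff k' P w) (cn P)) = ent (cn P) := ent_affine _ _ _
        unfold chPhi
        rw [h3]
        ring
      rw [Finset.sum_congr rfl fun w _ => h2 w, Finset.sum_add_distrib, ← Finset.mul_sum,
        ← Finset.sum_mul, S.chTheta_sum hf]
      ring
    rw [Finset.sum_congr rfl fun P _ => h1 P, Finset.sum_sub_distrib, Finset.sum_add_distrib,
      ← Finset.mul_sum, ← Finset.sum_mul, hκ₁p.sum_one, one_mul]
  rw [hR]
  have hkk : (S.B : ℝ) * k * Real.log 3 = S.B * m * Real.log 3 + S.B * k' * Real.log 3 := by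
    rw [hk]; push_cast; ring
  have h7 := mul_le_mul_of_nonneg_left hlog hlam
  unfold chPhi
  rw [hent, hkk]
  linarith

private theorem chain_sum_split {L : ℕ} {J : Finset ℕ} (hJ : J ⊆ range (L + 1)) (G : ℕ → ℝ) :
    ∑ j ∈ J, G j = ∑ j ∈ (range L).filter (fun j => j + 1 ∈ J), G (j + 1) +
      if 0 ∈ J then G 0 else 0 := by
  have h1 : ∑ j ∈ J, G j = ∑ j ∈ range (L + 1), if j ∈ J then G j else 0 := by
    rw [← Finset.sum_filter]
    congr 1
    ext j
    simp only [Finset.mem_filter]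
    exact ⟨fun h => ⟨hJ h, h⟩, fun h => h.2⟩
  rw [h1, Finset.sum_range_succ', Finset.sum_filter]

theorem chain {v : ι → ℝ} (hv : ∀ i, 0 ≤ v i) (hf : ∀ n t, 0 < S.f v n t) {lam mu : ℝ}
    (hmu : 0 < mu) (hlm : mu < lam) (m : ℕ) (L : ℕ) :
    ∀ κ : ZMod (3 ^ (S.B * (m * L))) → ℝ, IsProb κ → ∀ J : Finset ℕ, J ⊆ range L →
      -lam * ∑ x, κ x * Real.log (S.fz v (m * L) x) + ent κ - S.B * (m * L) * Real.log 3 ≤
        ((L : ℝ) - J.card) * S.logM v lam m + J.card * ((lam / mu) * S.logM v mu m) +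
          (lam / mu - 1) * ∑ j ∈ J, (S.B * m * Real.log 3 - hb κ (S.B * m) j) := by
  have hlam : 0 ≤ lam := (hmu.trans hlm).le
  have hc1 : 0 ≤ lam / mu - 1 := by
    rw [sub_nonneg, le_div_iff₀ hmu]; linarith
  induction L with
  | zero =>
    intro κ hκ J hJ
    have hJ0 : J = ∅ := Finset.subset_empty.1 (by simpa using hJ)
    subst hJ0
    have h1 : ∀ x, Real.log (S.fz v (m * 0) x) = 0 := fun x => by
      have : S.fz v (m * 0) x = 1 := rfl
      rw [this, Real.log_one]
    have h2 : ent κ ≤ 0 := by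
      have h3 := ent_le_log_card hκ univ (fun x hx => absurd (mem_univ x) hx)
      rw [Finset.card_univ, ZMod.card] at h3
      simpa using h3
    simp only [h1, mul_zero, Finset.sum_const_zero]
    simp only [Finset.card_empty, Finset.sum_empty]
    norm_num
    exact h2
  | succ L ih =>
    intro κ hκ J hJ
    have hk : m * (L + 1) = m + m * L := by ring
    have hl : S.B * (m * (L + 1)) = S.B * m + S.B * (m * L) := by rw [hk, Nat.mul_add]
    obtain ⟨cn, hcn, hkc⟩ := exists_cnd hl hκ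
    have hsp := S.chain_split hv hf hlam hk hκ cn hcn hkc
    set κ₁ := push (redm (S.B * (m * (L + 1))) (S.B * m)) κ with hκ₁
    have hκ₁p : IsProb κ₁ := push_isProb hκ _
    set J' := (range L).filter (fun j => j + 1 ∈ J) with hJ'
    have hJ'L : J' ⊆ range L := Finset.filter_subset _ _
    -- the blocks of the tail
    have hhb : ∀ j, j ∈ J' → ∑ P, κ₁ P * hb (cn P) (S.B * m) j = hb κ (S.B * m) (j + 1) := by
      intro j hj
      have hjL : j < L := Finset.mem_range.1 (hJ'L hj)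
      have e1 : (j + 1) * (S.B * m) ≤ S.B * (m * L) := by
        calc (j + 1) * (S.B * m) ≤ L * (S.B * m) := Nat.mul_le_mul_right _ hjL
          _ = S.B * (m * L) := by ring
      have e2 : j * (S.B * m) ≤ S.B * (m * L) :=
        (Nat.mul_le_mul_right _ (Nat.le_succ j)).trans e1
      have h1 := chain_rule hl hκ cn hcn hkc e1
      have h2 := chain_rule hl hκ cn hcn hkc e2
      have e3 : (j + 1 + 1) * (S.B * m) = S.B * m + (j + 1) * (S.B * m) := by ring
      have e4 : (j + 1) * (S.B * m) = S.B * m + j * (S.B * m) := by ring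
      unfold hb
      rw [e3, h1]
      have h3 : Hlev κ ((j + 1) * (S.B * m)) = Hlev κ (S.B * m + j * (S.B * m)) := by rw [e4]
      rw [h3, h2]
      simp only [mul_sub, Finset.sum_sub_distrib]
      ring
    -- induction hypothesis for every prefix and word
    set R : ℝ := ((L : ℝ) - J'.card) * S.logM v lam m + J'.card * ((lam / mu) * S.logM v mu m) +
      (lam / mu - 1) * ∑ j ∈ J', (S.B * m * Real.log 3 - hb κ (S.B * m) (j + 1)) with hR
    have htail : ∑ P, κ₁ P * ∑ w, S.chTheta v m P w *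
        S.chPhi v lam (m * L) (push (S.chAff (m * L) P w) (cn P)) ≤ R := by
      have h1 : ∀ P w, S.chPhi v lam (m * L) (push (S.chAff (m * L) P w) (cn P)) ≤
          ((L : ℝ) - J'.card) * S.logM v lam m + J'.card * ((lam / mu) * S.logM v mu m) +
          (lam / mu - 1) * ∑ j ∈ J', (S.B * m * Real.log 3 - hb (cn P) (S.B * m) j) := by
        intro P w
        have h2 := ih (push (S.chAff (m * L) P w) (cn P)) (push_isProb (hcn P) _) J' hJ'L
        have h3 : ∑ j ∈ J', (S.B * m * Real.log 3 -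
            hb (push (S.chAff (m * L) P w) (cn P)) (S.B * m) j) =
            ∑ j ∈ J', (S.B * m * Real.log 3 - hb (cn P) (S.B * m) j) := by
          refine Finset.sum_congr rfl fun j hj => ?_
          have hjL : j < L := Finset.mem_range.1 (hJ'L hj)
          have e1 : (j + 1) * (S.B * m) ≤ S.B * (m * L) := by
            calc (j + 1) * (S.B * m) ≤ L * (S.B * m) := Nat.mul_le_mul_right _ hjL
              _ = S.B * (m * L) := by ring
          have e2 : j * (S.B * m) ≤ S.B * (m * L) :=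
            (Nat.mul_le_mul_right _ (Nat.le_succ j)).trans e1
          congr 1
          unfold hb
          have h4 := Hlev_affine e1 (cn P) (S.wA w)
            (S.wnxt w ((P.val : ℕ) : ℤ) : ZMod (3 ^ (S.B * (m * L))))
          have h5 := Hlev_affine e2 (cn P) (S.wA w)
            (S.wnxt w ((P.val : ℕ) : ℤ) : ZMod (3 ^ (S.B * (m * L))))
          exact congrArg₂ (· - ·) h4 h5
        rw [h3] at h2
        unfold chPhi
        push_cast
        exact h2
      calc ∑ P, κ₁ P * ∑ w, S.chTheta v m P w *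
          S.chPhi v lam (m * L) (push (S.chAff (m * L) P w) (cn P))
          ≤ ∑ P, κ₁ P * (((L : ℝ) - J'.card) * S.logM v lam m +
              J'.card * ((lam / mu) * S.logM v mu m) +
              (lam / mu - 1) * ∑ j ∈ J', (S.B * m * Real.log 3 - hb (cn P) (S.B * m) j)) := by
            refine Finset.sum_le_sum fun P _ => mul_le_mul_of_nonneg_left ?_ (hκ₁p.nonneg P)
            calc _ ≤ ∑ w, S.chTheta v m P w * (((L : ℝ) - J'.card) * S.logM v lam m +
                J'.card * ((lam / mu) * S.logM v mu m) +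
                (lam / mu - 1) * ∑ j ∈ J', (S.B * m * Real.log 3 - hb (cn P) (S.B * m) j)) :=
                  Finset.sum_le_sum fun w _ =>
                    mul_le_mul_of_nonneg_left (h1 P w) (S.chTheta_nonneg hv hf m P w)
              _ = _ := by rw [← Finset.sum_mul, S.chTheta_sum hf, one_mul]
        _ = R := by
            have h2 : ∀ P, κ₁ P * (((L : ℝ) - J'.card) * S.logM v lam m +
                J'.card * ((lam / mu) * S.logM v mu m) +
                (lam / mu - 1) * ∑ j ∈ J', (S.B * m * Real.log 3 - hb (cn P) (S.B * m) j)) =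
                κ₁ P * (((L : ℝ) - J'.card) * S.logM v lam m +
                  J'.card * ((lam / mu) * S.logM v mu m)) +
                (lam / mu - 1) * ∑ j ∈ J', (κ₁ P * (S.B * m * Real.log 3) -
                  κ₁ P * hb (cn P) (S.B * m) j) := by
              intro P
              rw [mul_add, mul_left_comm (κ₁ P), Finset.mul_sum]
              simp only [mul_sub]
            rw [Finset.sum_congr rfl fun P _ => h2 P, Finset.sum_add_distrib, ← Finset.sum_mul,
              hκ₁p.sum_one, one_mul, ← Finset.mul_sum, Finset.sum_comm, hR]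
            congr 2
            refine Finset.sum_congr rfl fun j hj => ?_
            rw [Finset.sum_sub_distrib, ← Finset.sum_mul, hκ₁p.sum_one, one_mul, hhb j hj]
    -- the first block
    have hfirst : S.chPhi v lam m κ₁ ≤ if 0 ∈ J then (lam / mu) * S.logM v mu m +
        (lam / mu - 1) * (S.B * m * Real.log 3 - hb κ (S.B * m) 0) else S.logM v lam m := by
      split_ifs with h0
      · have h1 := S.phi_block hf hmu hlm m hκ₁p
        have h2 : hb κ (S.B * m) 0 = ent κ₁ := by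
          unfold hb
          rw [zero_mul, Hlev_zero hκ, sub_zero, zero_add, one_mul]
          rfl
        rw [h2]
        exact h1
      · exact S.phi_le hf lam m hκ₁p
    have hcard : (J.card : ℝ) = J'.card + if 0 ∈ J then (1 : ℝ) else 0 := by
      have h1 := chain_sum_split hJ (fun _ => (1 : ℝ))
      simpa using h1
    have hsum := chain_sum_split hJ (fun j => S.B * m * Real.log 3 - hb κ (S.B * m) j)
    rw [← hJ'] at hsum
    have hfin : S.chPhi v lam (m * (L + 1)) κ ≤ (if 0 ∈ J then (lam / mu) * S.logM v mu m +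
        (lam / mu - 1) * (S.B * m * Real.log 3 - hb κ (S.B * m) 0) else S.logM v lam m) + R :=
      hsp.trans (add_le_add hfirst htail)
    rw [hsum, hcard]
    have hgoal : -lam * ∑ x, κ x * Real.log (S.fz v (m * (L + 1)) x) + ent κ -
        S.B * (m * ((L + 1 : ℕ) : ℝ)) * Real.log 3 = S.chPhi v lam (m * (L + 1)) κ := by
      unfold chPhi
      push_cast
      ring
    rw [hgoal]
    refine hfin.trans (le_of_eq ?_)
    rw [hR]
    push_cast
    split_ifs <;> ring

end Sys

end Pool.Agent.H51.KL
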