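import Pool.Agent.H51.KL.Let

/-!
JOB KL-CHER. Large deviations of the total exponent. (helper file for MP_ff4775_nt)

`∑_{w : Fin B → Fin D} x^(A_w) / 2^(A_w) = (∑_{a < D} (x/2)^(a+1))^B ≤ (x/(2-x))^B` for `0 < x < 2`
(`Finset.prod_univ_sum` / `Fintype.piFinset`). Upper tail: for `1 < x < 2`
`∑_{A_w ≥ (2+ε)B} 2^(-A_w) ≤ (x/(2-x))^B x^(-(2+ε)B)`, and `log(x/(2-x)) - (2+ε) log x < 0` for `x`
slightly larger than 1 (the derivative at `x = 1` is `2 - (2+ε) = -ε`). Lower tail: `x < 1` slightly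
smaller than 1, `∑_{A_w ≤ (2-ε)B} 2^(-A_w) ≤ (x/(2-x))^B x^(-(2-ε)B)` (derivative `2 - (2-ε) = ε`).
-/

set_option autoImplicit false

namespace Pool.Agent.H51.KL

open Finset

private lemma cher_geom (D : ℕ) {r : ℝ} (h0 : 0 ≤ r) (h1 : r < 1) :
    ∑ a : Fin D, r ^ ((a : ℕ) + 1) ≤ r / (1 - r) := by
  rw [Fin.sum_univ_eq_sum_range (fun a => r ^ (a + 1)) D, le_div_iff₀ (by linarith)]
  have h2 : ∑ a ∈ range D, r ^ (a + 1) = r * ∑ a ∈ range D, r ^ a := by
    rw [Finset.mul_sum]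
    exact Finset.sum_congr rfl fun a _ => by ring
  have h3 : (∑ a ∈ range D, r ^ a) * (1 - r) = 1 - r ^ D := by
    have := geom_sum_mul r D
    linarith
  rw [h2, mul_assoc, h3]
  have h4 : 0 ≤ r ^ D := pow_nonneg h0 D
  nlinarith

private lemma cher_sum (B D : ℕ) {x : ℝ} (hx0 : 0 < x) (hx2 : x < 2) :
    ∑ w : Fin B → Fin D, (x / 2) ^ ((Ls D).wA w) ≤ (x / (2 - x)) ^ B := by
  have h1 : ∀ w : Fin B → Fin D,
      (x / 2) ^ ((Ls D).wA w) = ∏ j, (x / 2) ^ ((w j : ℕ) + 1) := fun w =>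
    (Finset.prod_pow_eq_pow_sum _ _ _).symm
  simp only [h1]
  have h2 := Fintype.sum_pow (fun a : Fin D => (x / 2) ^ ((a : ℕ) + 1)) B
  rw [← h2]
  refine pow_le_pow_left₀ (Finset.sum_nonneg fun a _ => by positivity) ?_ B
  refine (cher_geom D (by positivity) (by linarith)).trans (le_of_eq ?_)
  have h3 : (2 - x) ≠ 0 := by linarith
  have h4 : (1 - x / 2) ≠ 0 := by intro h; apply h3; linarith
  field_simp

private lemma cher_log_sub {s : ℝ} (h0 : 0 ≤ s) (h1 : s ≤ 1 / 2) :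
    -Real.log (1 - s) ≤ s + 2 * s ^ 2 := by
  have h2 := Real.one_sub_inv_le_log_of_pos (show 0 < 1 - s by linarith)
  have h3 : (1 - s)⁻¹ ≤ 1 + s + 2 * s ^ 2 := by
    rw [inv_le_iff_one_le_mul₀ (by linarith)]
    nlinarith [mul_nonneg h0 h0, mul_nonneg (mul_nonneg h0 h0) h0]
  linarith

private lemma cher_log_add {s : ℝ} (h0 : 0 ≤ s) : s - s ^ 2 ≤ Real.log (1 + s) := by
  have h2 := Real.one_sub_inv_le_log_of_pos (show 0 < 1 + s by linarith)
  have h3 : (1 + s)⁻¹ ≤ 1 - s + s ^ 2 := by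
    rw [inv_le_iff_one_le_mul₀ (by linarith)]
    nlinarith [mul_nonneg h0 h0, mul_nonneg (mul_nonneg h0 h0) h0]
  linarith

/-- one tail: `y` is the threshold -/
private lemma cher_tail (B D : ℕ) {x y : ℝ} (hx0 : 0 < x) (hx2 : x < 2)
    (P : (Fin B → Fin D) → Prop) [DecidablePred P]
    (hP : ∀ w, P w → y * B * Real.log x ≤ ((Ls D).wA w : ℝ) * Real.log x) :
    ∑ w : Fin B → Fin D, (if P w then (1 : ℝ) / 2 ^ (Ls D).wA w else 0) ≤
      Real.exp ((Real.log x - Real.log (2 - x) - y * Real.log x) * B) := by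
  have h1 : ∀ w : Fin B → Fin D, (if P w then (1 : ℝ) / 2 ^ (Ls D).wA w else 0) ≤
      (x / 2) ^ ((Ls D).wA w) * Real.exp (-(y * B * Real.log x)) := by
    intro w
    have hpos : 0 ≤ (x / 2) ^ ((Ls D).wA w) * Real.exp (-(y * B * Real.log x)) := by positivity
    split_ifs with h
    · have h2 : x ^ ((Ls D).wA w) = Real.exp (((Ls D).wA w : ℝ) * Real.log x) := by
        rw [mul_comm, Real.exp_mul, Real.exp_log hx0, Real.rpow_natCast]
      rw [div_pow, h2, div_mul_eq_mul_div, ← Real.exp_add]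
      refine div_le_div_of_nonneg_right ?_ (by positivity)
      rw [← Real.exp_zero]
      exact Real.exp_le_exp.2 (by linarith [hP w h])
    · exact hpos
  refine (Finset.sum_le_sum fun w _ => h1 w).trans ?_
  rw [← Finset.sum_mul]
  refine (mul_le_mul_of_nonneg_right (cher_sum B D hx0 hx2) (Real.exp_pos _).le).trans
    (le_of_eq ?_)
  have h3 : (x / (2 - x)) ^ B = Real.exp ((Real.log x - Real.log (2 - x)) * B) := by
    rw [← Real.log_div hx0.ne' (by linarith), Real.exp_mul,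
      Real.exp_log (div_pos hx0 (by linarith)), Real.rpow_natCast]
  rw [h3, ← Real.exp_add]
  congr 1
  ring

theorem chernoff (ε : ℝ) (hε : 0 < ε) (hε1 : ε ≤ 1) : ∃ c : ℝ, 0 < c ∧ ∀ B D : ℕ,
    ∑ w : Fin B → Fin D, (if ε * B < |((Ls D).wA w : ℝ) - 2 * B| then
      (1 : ℝ) / 2 ^ (Ls D).wA w else 0) ≤ 2 * Real.exp (-c * B) := by
  classical
  refine ⟨ε ^ 2 / 16, by positivity, fun B D => ?_⟩
  set s : ℝ := ε / 8 with hs
  have hs0 : 0 < s := by positivity
  have hs1 : s ≤ 1 / 2 := by rw [hs]; linarith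
  have hB : (0 : ℝ) ≤ B := Nat.cast_nonneg B
  have hup := cher_tail B D (x := 1 + s) (y := 2 + ε) (by linarith) (by linarith)
    (fun w => (2 + ε) * B < ((Ls D).wA w : ℝ)) (fun w hw =>
      mul_le_mul_of_nonneg_right hw.le (Real.log_nonneg (by linarith)))
  have hlo := cher_tail B D (x := 1 - s) (y := 2 - ε) (by linarith) (by linarith)
    (fun w => ((Ls D).wA w : ℝ) < (2 - ε) * B) (fun w hw =>
      mul_le_mul_of_nonpos_right hw.le (Real.log_nonpos (by linarith) (by linarith)))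
  have h1 : Real.exp ((Real.log (1 + s) - Real.log (2 - (1 + s)) - (2 + ε) * Real.log (1 + s)) * B)
      ≤ Real.exp (-(ε ^ 2 / 16) * B) := by
    refine Real.exp_le_exp.2 (mul_le_mul_of_nonneg_right ?_ hB)
    have h2 : 2 - (1 + s) = 1 - s := by ring
    rw [h2]
    have h3 := cher_log_sub hs0.le hs1
    have h4 := cher_log_add hs0.le
    have h5 : (1 + ε) * (s - s ^ 2) ≤ (1 + ε) * Real.log (1 + s) :=
      mul_le_mul_of_nonneg_left h4 (by linarith)
    have h6 : ε = 8 * s := by rw [hs]; ring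
    rw [h6] at h5 hε1 ⊢
    nlinarith [mul_nonneg hs0.le hs0.le, mul_nonneg (mul_nonneg hs0.le hs0.le) hs0.le]
  have h1' : Real.exp ((Real.log (1 - s) - Real.log (2 - (1 - s)) - (2 - ε) * Real.log (1 - s)) * B)
      ≤ Real.exp (-(ε ^ 2 / 16) * B) := by
    refine Real.exp_le_exp.2 (mul_le_mul_of_nonneg_right ?_ hB)
    have h2 : 2 - (1 - s) = 1 + s := by ring
    rw [h2]
    have h3 := cher_log_sub hs0.le hs1
    have h4 := cher_log_add hs0.le
    have h5 : (1 - ε) * (-Real.log (1 - s)) ≤ (1 - ε) * (s + 2 * s ^ 2) :=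
      mul_le_mul_of_nonneg_left h3 (by linarith)
    have h6 : ε = 8 * s := by rw [hs]; ring
    rw [h6] at h5 hε1 ⊢
    nlinarith [mul_nonneg hs0.le hs0.le, mul_nonneg (mul_nonneg hs0.le hs0.le) hs0.le]
  have hsplit : ∀ w : Fin B → Fin D, (if ε * B < |((Ls D).wA w : ℝ) - 2 * B| then
      (1 : ℝ) / 2 ^ (Ls D).wA w else 0) ≤
      (if (2 + ε) * B < ((Ls D).wA w : ℝ) then (1 : ℝ) / 2 ^ (Ls D).wA w else 0) +
      (if ((Ls D).wA w : ℝ) < (2 - ε) * B then (1 : ℝ) / 2 ^ (Ls D).wA w else 0) := by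
    intro w
    have hp : (0 : ℝ) ≤ 1 / 2 ^ (Ls D).wA w := by positivity
    by_cases ha : ε * B < |((Ls D).wA w : ℝ) - 2 * B|
    · rw [if_pos ha]
      rcases lt_abs.1 ha with h | h
      · rw [if_pos (show (2 + ε) * B < ((Ls D).wA w : ℝ) by linarith)]
        split_ifs <;> linarith
      · rw [if_pos (show ((Ls D).wA w : ℝ) < (2 - ε) * B by linarith)]
        split_ifs <;> linarith
    · rw [if_neg ha]
      split_ifs <;> linarith
  refine (Finset.sum_le_sum fun w _ => hsplit w).trans ?_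
  rw [Finset.sum_add_distrib]
  linarith

end Pool.Agent.H51.KL
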