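import Pool.Agent.H51.KL.FlatB

/-!
JOB KL-CLAIMB. After every prefix the density stays comparable with probability `≥ c/√k`.
(helper file for MP_ff4775_nt)

`claimB`: `p D (N+k) (c + 3^N s) = ∑_{w : Fin N → Fin D, WDom w c} u_w p D k (e_w + 2^(A_w) s)` with
`u_w = 3^N/2^(A_w)`, `e_w = wnxt w c` (`p_add`, `wDom_shift`, `wnxt_shift`). Replace `p D k` by `pt` of
`flat_part`: `G(s) = ∑ u_w pt(e_w + 2^(A_w) s)`, `0 ≤ G ≤ p D (N+k) (c+3^N s)`, `G ≤ C √k p D N c` and
`∑_{s < 3^k} G(s) ≥ (3/10) 3^k p D N c` (`sum_range_affine`). So the number of `s` with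
`G(s) ≥ p D N c / 10` is `≥ (3/10 - 1/10) 3^k / (C √k)`.
-/

set_option autoImplicit false

namespace Pool.Agent.H51.KL

open Finset

private lemma claimB_p_eq (D N : ℕ) (c : ℤ) : p D N c =
    ∑ w : Fin N → Fin D, if (Ls D).WDom w c then (3 : ℝ) ^ N / 2 ^ (Ls D).wA w else 0 := by
  have h := p_add D N 0 c
  rw [Nat.add_zero] at h
  rw [h]
  apply Finset.sum_congr rfl
  intro w _
  rw [p_zero, mul_one]

private lemma claimB_dom {D N : ℕ} (w : Fin N → Fin D) (c s : ℤ) :
    (Ls D).WDom w (c + 3 ^ N * s) ↔ (Ls D).WDom w c := by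
  have h := (Ls D).wDom_shift w c s
  have e : (Ls D).B * N = N := by simp [Ls]
  rwa [e] at h

private lemma claimB_nxt {D N : ℕ} (w : Fin N → Fin D) (c s : ℤ) (h : (Ls D).WDom w c) :
    (Ls D).wnxt w (c + 3 ^ N * s) = (Ls D).wnxt w c + 2 ^ (Ls D).wA w * s := by
  have h := (Ls D).wnxt_shift w c s h
  have e : (Ls D).B * N = N := by simp [Ls]
  rwa [e] at h

theorem claimB : ∃ (δ₀ c₂ : ℝ) (k₀ : ℕ), 0 < δ₀ ∧ 0 < c₂ ∧ ∀ k : ℕ, k₀ ≤ k → ∀ D : ℕ, 2 * k ≤ D →
    ∀ N : ℕ, 1 ≤ N → ∀ c : ℤ, ¬ (3 : ℤ) ∣ c → c₂ / Real.sqrt k * 3 ^ k ≤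
      ((range (3 ^ k)).filter (fun s : ℕ => δ₀ * p D N c ≤ p D (N + k) (c + 3 ^ N * (s : ℤ)))).card := by
  obtain ⟨C, k₀, hC, hflat⟩ := flat_part
  refine ⟨1 / 10, min 1 (1 / (5 * C)), k₀, by norm_num, lt_min one_pos (by positivity), ?_⟩
  intro k hk D hD N _ c _
  obtain ⟨pt, h0, hle, hper, hCk, hmean⟩ := hflat k hk D hD
  set G : ℕ → ℝ := fun s => ∑ w : Fin N → Fin D, if (Ls D).WDom w c then
    (3 : ℝ) ^ N / 2 ^ (Ls D).wA w * pt ((Ls D).wnxt w c + 2 ^ (Ls D).wA w * (s : ℤ)) else 0 with hG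
  have hP0 : 0 ≤ p D N c := p_nonneg D N c
  have hu : ∀ w : Fin N → Fin D, 0 ≤ (3 : ℝ) ^ N / 2 ^ (Ls D).wA w := fun w => by positivity
  -- (1)
  have h1 : ∀ s : ℕ, G s ≤ p D (N + k) (c + 3 ^ N * (s : ℤ)) := by
    intro s
    rw [p_add, hG]
    apply Finset.sum_le_sum
    intro w _
    by_cases hw : (Ls D).WDom w c
    · rw [if_pos hw, if_pos ((claimB_dom w c s).mpr hw), claimB_nxt w c s hw]
      exact mul_le_mul_of_nonneg_left (hle _) (hu w)
    · rw [if_neg hw, if_neg (fun h => hw ((claimB_dom w c s).mp h))]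
  -- (3)
  have h3 : ∀ s : ℕ, G s ≤ C * Real.sqrt k * p D N c := by
    intro s
    rw [claimB_p_eq, hG, Finset.mul_sum]
    apply Finset.sum_le_sum
    intro w _
    by_cases hw : (Ls D).WDom w c
    · rw [if_pos hw, if_pos hw, mul_comm (C * Real.sqrt k)]
      exact mul_le_mul_of_nonneg_left (hCk _) (hu w)
    · rw [if_neg hw, if_neg hw, mul_zero]
  -- (4)
  have h4 : 3 / 10 * 3 ^ k * p D N c ≤ ∑ s ∈ range (3 ^ k), G s := by
    have e1 : ∑ s ∈ range (3 ^ k), G s = ∑ w : Fin N → Fin D, if (Ls D).WDom w c then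
        (3 : ℝ) ^ N / 2 ^ (Ls D).wA w * ∑ s ∈ range (3 ^ k), pt (s : ℤ) else 0 := by
      rw [hG, Finset.sum_comm]
      apply Finset.sum_congr rfl
      intro w _
      by_cases hw : (Ls D).WDom w c
      · simp only [if_pos hw]
        rw [← Finset.mul_sum]
        congr 1
        exact Sys.sum_range_affine k ((Ls D).wA w) ((Ls D).wnxt w c) pt hper
      · simp only [if_neg hw, Finset.sum_const_zero]
    rw [e1, claimB_p_eq, Finset.mul_sum]
    apply Finset.sum_le_sum
    intro w _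
    by_cases hw : (Ls D).WDom w c
    · rw [if_pos hw, if_pos hw, mul_comm]
      exact mul_le_mul_of_nonneg_left hmean (hu w)
    · rw [if_neg hw, if_neg hw, mul_zero]
  set X := (range (3 ^ k)).filter
    (fun s : ℕ => 1 / 10 * p D N c ≤ p D (N + k) (c + 3 ^ N * (s : ℤ))) with hX
  have hc2 : 0 < min 1 (1 / (5 * C)) := lt_min one_pos (by positivity)
  rcases Nat.eq_zero_or_pos k with hk0 | hkpos
  · subst hk0
    simp only [Nat.cast_zero, Real.sqrt_zero, div_zero, zero_mul]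
    exact Nat.cast_nonneg _
  have hsq : 1 ≤ Real.sqrt k := by
    rw [Real.one_le_sqrt]
    exact_mod_cast hkpos
  have h3k : (0 : ℝ) < 3 ^ k := by positivity
  rcases hP0.eq_or_lt with hP | hP
  · have hXall : X = range (3 ^ k) := by
      rw [hX, Finset.filter_true_of_mem]
      intro s _
      rw [← hP, mul_zero]
      exact p_nonneg _ _ _
    rw [hXall, Finset.card_range]
    push_cast
    have : min 1 (1 / (5 * C)) / Real.sqrt k ≤ 1 := by
      rw [div_le_one (by linarith)]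
      exact le_trans (min_le_left _ _) hsq
    calc min 1 (1 / (5 * C)) / Real.sqrt k * 3 ^ k ≤ 1 * 3 ^ k :=
          mul_le_mul_of_nonneg_right this h3k.le
      _ = 3 ^ k := one_mul _
  · have h5 : ∑ s ∈ range (3 ^ k), G s ≤
        (X.card : ℝ) * (C * Real.sqrt k * p D N c) + 3 ^ k * (1 / 10 * p D N c) := by
      have hs : ∀ s ∈ range (3 ^ k), G s ≤
          (if 1 / 10 * p D N c ≤ p D (N + k) (c + 3 ^ N * (s : ℤ)) then
            C * Real.sqrt k * p D N c else 0) + 1 / 10 * p D N c := by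
        intro s _
        by_cases hs : 1 / 10 * p D N c ≤ p D (N + k) (c + 3 ^ N * (s : ℤ))
        · rw [if_pos hs]
          have := h3 s
          have : 0 ≤ 1 / 10 * p D N c := by positivity
          linarith [h3 s]
        · rw [if_neg hs, zero_add]
          exact le_trans (h1 s) (not_le.mp hs).le
      refine le_trans (Finset.sum_le_sum hs) ?_
      rw [Finset.sum_add_distrib, ← Finset.sum_filter, Finset.sum_const, Finset.sum_const,
        nsmul_eq_mul, nsmul_eq_mul, Finset.card_range]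
      push_cast
      exact le_refl _
    have h6 : 3 / 10 * 3 ^ k * p D N c ≤
        (X.card : ℝ) * (C * Real.sqrt k * p D N c) + 3 ^ k * (1 / 10 * p D N c) := h4.trans h5
    have h7 : (1 : ℝ) / 5 * 3 ^ k ≤ X.card * (C * Real.sqrt k) := by
      have : ((1 : ℝ) / 5 * 3 ^ k) * p D N c ≤ (X.card * (C * Real.sqrt k)) * p D N c := by
        nlinarith [h6]
      exact le_of_mul_le_mul_right this hP
    have hsq0 : 0 < Real.sqrt k := by linarith
    calc min 1 (1 / (5 * C)) / Real.sqrt k * 3 ^ k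
        ≤ (1 / (5 * C)) / Real.sqrt k * 3 ^ k := by
          apply mul_le_mul_of_nonneg_right _ h3k.le
          exact div_le_div_of_nonneg_right (min_le_right _ _) hsq0.le
      _ = (1 / 5 * 3 ^ k) / (C * Real.sqrt k) := by
          field_simp
      _ ≤ X.card := by
          rw [div_le_iff₀ (by positivity)]
          exact h7

end Pool.Agent.H51.KL
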