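import Pool.Agent.H51.KL.Count2

/-! JOB KL-COUNT3: items 4, 5 of the header of `Count1.lean`. (helper file for MP_ff4775_nt) -/

set_option autoImplicit false

namespace Pool.Agent.H51.KL

open Finset Filter Pool.Agent.H30

private theorem count_T_two_mul (a : ℤ) : T (2 * a) = a := by
  unfold T
  rw [if_pos (by omega)]
  omega

private theorem count_iter_pow (a : ℤ) (j : ℕ) : T^[j] (2 ^ j * a) = a := by
  induction j with
  | zero => simp
  | succ j ih =>
    rw [Function.iterate_succ_apply, pow_succ, mul_comm ((2 : ℤ) ^ j) 2, mul_assoc,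
      count_T_two_mul, ih]

private theorem count_finite (x : ℕ) (P : ℤ → Prop) : Finite {n : ℤ // |n| ≤ x ∧ P n} := by
  have : ({n : ℤ | |n| ≤ x ∧ P n} : Set ℤ).Finite := by
    refine (Set.finite_Icc (-(x : ℤ)) x).subset ?_
    intro n hn
    exact abs_le.1 hn.1
  exact this

private theorem count_mono (x : ℕ) {P Q : ℤ → Prop} (h : ∀ n, P n → Q n) :
    (Nat.card {n : ℤ // |n| ≤ x ∧ P n} : ℝ) ≤ (Nat.card {n : ℤ // |n| ≤ x ∧ Q n} : ℝ) := by
  have := count_finite x Q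
  exact_mod_cast Nat.card_le_card_of_injective
    (fun n : {n : ℤ // |n| ≤ x ∧ P n} => (⟨n.1, n.2.1, h _ n.2.2⟩ : {n : ℤ // |n| ≤ x ∧ Q n}))
    (fun m n hmn => Subtype.ext (congrArg (fun z : {n : ℤ // |n| ≤ x ∧ Q n} => z.1) hmn))

private theorem count_periodic_orbit (a : ℤ) (k : ℕ) (hk : 0 < k) (h : T^[k] a = a) (i : ℕ) :
    ∃ j < k, T^[i] a = T^[j] a := by
  refine ⟨i % k, Nat.mod_lt _ hk, ?_⟩
  have hp : Function.IsPeriodicPt T k a := h
  exact (hp.iterate_mod_apply i).symm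

private theorem count_choose (a : ℤ) (ha : ¬ (3 : ℤ) ∣ a) (Y : ℝ) :
    ∃ j : ℕ, (2 ^ j * a) % 3 = 1 ∧ Y ≤ |((2 ^ j * a : ℤ) : ℝ)| ∧
      ∀ k : ℕ, 0 < k → T^[k] (2 ^ j * a) ≠ 2 ^ j * a := by
  have ha0 : a ≠ 0 := by rintro rfl; exact ha (dvd_zero _)
  -- a bound for the orbit if `a` is periodic
  obtain ⟨R, hR⟩ : ∃ R : ℝ, ∀ y : ℤ, (∃ k : ℕ, 0 < k ∧ T^[k] y = y) → (∃ j : ℕ, T^[j] y = a) →
      |(y : ℝ)| ≤ R := by
    by_cases hper : ∃ k : ℕ, 0 < k ∧ T^[k] a = a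
    · obtain ⟨k, hk, hka⟩ := hper
      refine ⟨∑ i ∈ range k, |((T^[i] a : ℤ) : ℝ)|, ?_⟩
      rintro y ⟨l, hl, hly⟩ ⟨j, hj⟩
      -- y is in the orbit of a
      have hp : Function.IsPeriodicPt T l y := hly
      have h1 : T^[l * j] y = y := (hp.mul_const j)
      have h2 : ∃ i, y = T^[i] a := by
        refine ⟨l * j - j, ?_⟩
        rw [← hj, ← Function.iterate_add_apply, Nat.sub_add_cancel (Nat.le_mul_of_pos_left j hl), h1]
      obtain ⟨i, hi⟩ := h2
      obtain ⟨i', hi', hii⟩ := count_periodic_orbit a k hk hka i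
      rw [hi, hii]
      exact Finset.single_le_sum (f := fun i => |((T^[i] a : ℤ) : ℝ)|) (fun _ _ => abs_nonneg _)
        (Finset.mem_range.2 hi')
    · refine ⟨0, ?_⟩
      rintro y ⟨l, hl, hly⟩ ⟨j, hj⟩
      exfalso
      apply hper
      refine ⟨l, hl, ?_⟩
      rw [← hj, ← Function.iterate_add_apply, add_comm, Function.iterate_add_apply, hly]
  obtain ⟨m, hm⟩ := pow_unbounded_of_one_lt (max Y R) (by norm_num : (1 : ℝ) < 2)
  obtain ⟨j, hjm, hj3⟩ : ∃ j : ℕ, m ≤ j ∧ (2 ^ j * a) % 3 = 1 := by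
    have h4 : ∀ m : ℕ, (2 : ℤ) ^ (2 * m) % 3 = 1 := by
      intro m
      induction m with
      | zero => norm_num
      | succ m ih =>
        rw [show 2 * (m + 1) = 2 * m + 2 by ring, pow_add, Int.mul_emod, ih]
        norm_num
    have h3 : a % 3 = 1 ∨ a % 3 = 2 := by omega
    rcases h3 with h3 | h3
    · refine ⟨2 * m, by omega, ?_⟩
      rw [Int.mul_emod, h4, h3]; rfl
    · refine ⟨2 * m + 1, by omega, ?_⟩
      rw [pow_succ, mul_assoc, Int.mul_emod, h4]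
      omega
  have habs : max Y R < |((2 ^ j * a : ℤ) : ℝ)| := by
    push_cast
    rw [abs_mul, abs_of_pos (by positivity : (0 : ℝ) < 2 ^ j)]
    have h5 : (1 : ℝ) ≤ |(a : ℝ)| := by
      rw [← Int.cast_abs]
      exact_mod_cast Int.one_le_abs ha0
    have h6 : (2 : ℝ) ^ m ≤ 2 ^ j := pow_le_pow_right₀ (by norm_num) hjm
    nlinarith [pow_pos (by norm_num : (0 : ℝ) < 2) j]
  refine ⟨j, hj3, (le_max_left _ _).trans habs.le, ?_⟩
  intro k hk hkj
  have := hR _ ⟨k, hk, hkj⟩ ⟨j, count_iter_pow a j⟩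
  exact absurd (this.trans (le_max_right Y R)) (not_le.2 habs)

theorem preimages (H : ∀ g : ℝ, 0 < g → g < 1 → BlockIneq g) (a : ℤ) (ha : ¬ (3 : ℤ) ∣ a) (ε : ℝ)
    (hε : 0 < ε) : ∀ᶠ x : ℕ in atTop,
      (x : ℝ) ^ (1 - ε) ≤ (Nat.card {n : ℤ // |n| ≤ x ∧ ∃ k : ℕ, T^[k] n = a} : ℝ) := by
  set g' : ℝ := max (1 - ε / 2) (1 / 2) with hg'
  have h1 : 0 < g' := lt_of_lt_of_le (by norm_num) (le_max_right _ _)
  have h2 : g' < 1 := max_lt (by linarith) (by norm_num)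
  have h3 : 1 - ε < g' := lt_of_lt_of_le (by linarith) (le_max_left _ _)
  obtain ⟨Y₀, c, hY, hc, hlow⟩ := lower h1 (show g' < (1 + g') / 2 by linarith)
    (by linarith) (H ((1 + g') / 2) (by linarith) (by linarith))
  obtain ⟨j, hj1, hj2, hj3⟩ := count_choose a ha Y₀
  set y : ℤ := 2 ^ j * a with hy
  have hy0 : 0 < |(y : ℝ)| := lt_of_lt_of_le (by linarith) hj2
  have ht : Tendsto (fun x : ℕ => (x : ℝ) ^ (g' - (1 - ε))) atTop atTop :=
    (tendsto_rpow_atTop (by linarith)).comp tendsto_natCast_atTop_atTop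
  have ht2 : Tendsto (fun x : ℕ => (x : ℝ)) atTop atTop := tendsto_natCast_atTop_atTop
  filter_upwards [ht.eventually_ge_atTop (|(y : ℝ)| ^ g' / c), ht2.eventually_ge_atTop |(y : ℝ)|]
    with x hx1 hx2
  have hx0 : (0 : ℝ) < x := hy0.trans_le hx2
  have h5 := hlow y hj1 hj2 hj3 x hx2
  refine le_trans ?_ (h5.trans (count_mono x ?_))
  · rw [Real.div_rpow hx0.le hy0.le, ← mul_div_assoc, le_div_iff₀ (Real.rpow_pos_of_pos hy0 _)]
    have h6 : (x : ℝ) ^ g' = (x : ℝ) ^ (1 - ε) * (x : ℝ) ^ (g' - (1 - ε)) := by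
      rw [← Real.rpow_add hx0]; congr 1; ring
    rw [h6]
    rw [div_le_iff₀ hc] at hx1
    nlinarith [Real.rpow_pos_of_pos hx0 (1 - ε)]
  · rintro n ⟨k, hk⟩
    exact ⟨j + k, by rw [Function.iterate_add_apply, hk, hy, count_iter_pow]⟩

theorem divergent (H : ∀ g : ℝ, 0 < g → g < 1 → BlockIneq g) (n₀ : ℤ)
    (h₀ : Tendsto (fun k : ℕ => |T^[k] n₀|) atTop atTop) (ε : ℝ) (hε : 0 < ε) :
    ∀ᶠ x : ℕ in atTop, (x : ℝ) ^ (1 - ε) ≤
      (Nat.card {n : ℤ // |n| ≤ x ∧ Tendsto (fun k : ℕ => |T^[k] n|) atTop atTop} : ℝ) := by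
  obtain ⟨k, hk⟩ : ∃ k : ℕ, T^[k] n₀ % 2 ≠ 0 := by
    by_contra hcon
    push Not at hcon
    have hle : ∀ k : ℕ, |T^[k] n₀| ≤ |n₀| := by
      intro k
      induction k with
      | zero => simp
      | succ k ih =>
        rw [Function.iterate_succ_apply']
        have h1 := hcon k
        have h2 : T (T^[k] n₀) = T^[k] n₀ / 2 := by
          unfold T; rw [if_pos]; exact h1
        rw [h2]
        refine le_trans ?_ ih
        set z := T^[k] n₀
        have : |z / 2| ≤ |z| := by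
          rw [abs_le]
          constructor
          · rcases abs_cases z with h | h <;> omega
          · rcases abs_cases z with h | h <;> omega
        exact this
    obtain ⟨k, hk⟩ := (h₀.eventually_gt_atTop |n₀|).exists
    exact absurd (hle k) (not_le.2 hk)
  set m := T^[k] n₀ with hm
  have ha1 : T m = (3 * m + 1) / 2 := by unfold T; rw [if_neg hk]
  have ha2 : ¬ (3 : ℤ) ∣ T m := by rw [ha1]; omega
  filter_upwards [preimages H (T m) ha2 ε hε] with x hx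
  refine hx.trans (count_mono x ?_)
  rintro n ⟨i, hi⟩
  have h1 : T m = T^[k + 1] n₀ := by rw [Function.iterate_succ_apply']
  have h2 : Tendsto (fun l : ℕ => |T^[l] (T m)|) atTop atTop := by
    have h3 : (fun l : ℕ => |T^[l] (T m)|) = fun l : ℕ => |T^[l + (k + 1)] n₀| := by
      funext l
      rw [h1, ← Function.iterate_add_apply]
    rw [h3]
    exact (tendsto_add_atTop_iff_nat (f := fun l : ℕ => |T^[l] n₀|) (k + 1)).2 h₀
  have h4 : (fun l : ℕ => |T^[l] (T m)|) = fun l : ℕ => |T^[l + i] n| := by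
    funext l
    rw [← hi, ← Function.iterate_add_apply]
  rw [h4] at h2
  exact (tendsto_add_atTop_iff_nat (f := fun l : ℕ => |T^[l] n|) i).1 h2

end Pool.Agent.H51.KL
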