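import Pool.Agent.H51.KL.Let
import Pool.Agent.H30.Defs

/-!
JOB KL-COUNT1 (items 1, 2), KL-COUNT2 (item 3), KL-COUNT3 (items 4, 5). From the block inequality to counting preimages of the 3x+1 map.
(helper file for MP_ff4775_nt)

`T` is `Pool.Agent.H30.T`. `Pre y = {n | ∃ k, T^[k] n = y}`.
1. `iterate_word`: if `WDom w y`, `z = wnxt w y` then `T^[A_w] z = y` (one letter: `2^(a+1) y = 3 z + 1`
   implies `z` odd, `T z = (3z+1)/2 = 2^a y`, then `a` halvings; several letters: `wDom_succ`,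
   `wnxt_succ`), for `n ≥ 1` `z` is odd, and exactly `n` of the `A_w` iterates `T^[j] z`, `j < A_w`, are
   odd.
2. Let `y` be non-periodic (`∀ k ≥ 1, T^[k] y ≠ y`). If `w ≠ w'` are words of length `N ≥ 1` with
   `WDom · y` then `Pre (wnxt w y)` and `Pre (wnxt w' y)` are disjoint: if `T^[i] n = z`,
   `T^[j] n = z'`, `i ≤ j`, then `T^[j-i] z = z'` and `T^[j-i+A'] z = y = T^[A] z`; as `y` is not periodic
   `A = j - i + A'`; counting odd iterates, the first `j - i` iterates of `z` are even, but `z` is odd, so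
   `j = i`, `z = z'`, `A = A'`, `wβ w = wβ w'` and `Ls_inj` gives `w = w'`. Also the `wnxt w y` are again
   non-periodic (a periodic point in `Pre y` would make `y` periodic).
3. `lower`: let `g' < g`, `K = max 2^A/3^N`. `∑ (u_w)^g ≥ 1` with `u_w ≤ 1/2` implies
   `∑ u_w^g' ≥ 2^(g-g') > 1`. `|wnxt w y| ≤ (|y|/u_w)(1 + (3/2)^N/|y|)` and
   `|wnxt w y| ≥ 2|y| - ...≥ (3/2)|y|` for `|y| ≥ Y₀` (`Ls_wβ_nonneg`, `Ls_wβ_lt`). By induction on
   `⌊log_{3/2}(x/|y|)⌋`: for `y ≡ 1 mod 3` non-periodic, `|y| ≥ Y₀`, `x ≥ |y|`: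
   `#{n : |n| ≤ x, n ∈ Pre y} ≥ c (x/|y|)^g'`, `c = (2K)^(-g')`: if `x < 2K|y|` the point `y` itself counts;
   otherwise all `|wnxt w y| ≤ 2K|y| ≤ x`, the sets `Pre (wnxt w y)` are disjoint subsets of `Pre y`, and
   `∑_w c (x/|wnxt w y|)^g' ≥ c (x/|y|)^g' (1+(3/2)^N/Y₀)^(-g') ∑ u_w^g' ≥ c (x/|y|)^g'`.
4. `preimages`: for `a` not divisible by 3 choose `j` with `y = 2^j a ≡ 1 mod 3`, `|y| ≥ Y₀`, `y`
   non-periodic (if `2^j a` is periodic then so is `a` and `2^j a` lies in the finite cycle of `a`);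
   `y ∈ Pre a`, so `Pre y ⊆ Pre a`. Then `c (x/|y|)^g' ≥ x^(1-ε)` for large `x` if `g' > 1 - ε`.
5. `divergent`: a divergent trajectory contains an odd term (otherwise `|T^k n₀| = |n₀|/2^k`); the
   next term `a = (3n+1)/2` is not divisible by 3; all elements of `Pre a` are divergent.
-/

set_option autoImplicit false

namespace Pool.Agent.H51.KL

open Finset Filter Pool.Agent.H30

/-- the block inequality with exponent `g` (this is `block_ineq`) -/
def BlockIneq (g : ℝ) : Prop := ∃ (N D : ℕ), 0 < N ∧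
    ∃ U : Finset (Fin N → Fin D), (∀ w ∈ U, (3 : ℝ) ^ N / 2 ^ (Ls D).wA w ≤ 1 / 2) ∧
      ∀ y : ℤ, y % 3 = 1 → 1 ≤ ∑ w ∈ U, if (Ls D).WDom w y ∧ (Ls D).wnxt w y % 3 = 1 then
        ((3 : ℝ) ^ N / 2 ^ (Ls D).wA w) ^ g else 0

private theorem count1_T_two_mul (x : ℤ) : T (2 * x) = x := by
  have h : (2 * x) % 2 = 0 := by omega
  rw [T, if_pos h]
  omega

private theorem count1_T_iter_two_pow (m k : ℕ) (x : ℤ) (hk : k ≤ m) :
    T^[k] (2 ^ m * x) = 2 ^ (m - k) * x := by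
  induction k with
  | zero => simp
  | succ k ih =>
    rw [Function.iterate_succ_apply', ih (by omega)]
    have h : m - k = (m - (k + 1)) + 1 := by omega
    rw [h, pow_succ, mul_comm ((2 : ℤ) ^ _) 2, mul_assoc, count1_T_two_mul]

/-- one letter -/
private theorem count1_letter (a : ℕ) (y z : ℤ) (h : 2 ^ (a + 1) * y = 3 * z + 1) :
    z % 2 ≠ 0 ∧ (∀ k, k ≤ a → T^[k + 1] z = 2 ^ (a - k) * y) := by
  have h1 : (2 : ℤ) ^ (a + 1) * y = 2 * (2 ^ a * y) := by ring
  have h2 : z % 2 ≠ 0 := by omega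
  refine ⟨h2, fun k hk => ?_⟩
  rw [Function.iterate_succ_apply, T, if_neg h2]
  have h3 : (3 * z + 1) / 2 = 2 ^ a * y := by omega
  rw [h3, count1_T_iter_two_pow a k y hk]

private theorem count1_letter_card (a : ℕ) (y z : ℤ) (h : 2 ^ (a + 1) * y = 3 * z + 1) :
    ((range (a + 1)).filter (fun j => T^[j] z % 2 ≠ 0)).card = 1 := by
  obtain ⟨h1, h2⟩ := count1_letter a y z h
  have h3 : (range (a + 1)).filter (fun j => T^[j] z % 2 ≠ 0) = {0} := by
    ext j
    simp only [mem_filter, mem_range, mem_singleton]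
    constructor
    · rintro ⟨hj, hj2⟩
      by_contra hne
      obtain ⟨k, rfl⟩ := Nat.exists_eq_succ_of_ne_zero hne
      rw [Nat.succ_eq_add_one, h2 k (by omega)] at hj2
      have h4 : a - k = (a - k - 1) + 1 := by omega
      rw [h4, pow_succ] at hj2
      have h5 : (2 : ℤ) ^ (a - k - 1) * 2 * y = 2 * (2 ^ (a - k - 1) * y) := by ring
      omega
    · rintro rfl
      exact ⟨by omega, h1⟩
  rw [h3, card_singleton]

private theorem count1_card_add (z : ℤ) (A B : ℕ) :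
    ((range (A + B)).filter (fun j => T^[j] z % 2 ≠ 0)).card =
      ((range A).filter (fun j => T^[j] z % 2 ≠ 0)).card +
      ((range B).filter (fun j => T^[j] (T^[A] z) % 2 ≠ 0)).card := by
  simp only [card_filter]
  rw [sum_range_add]
  congr 1
  refine sum_congr rfl fun j _ => ?_
  rw [← Function.iterate_add_apply, add_comm j A]

theorem iterate_word {D n : ℕ} (w : Fin n → Fin D) (y : ℤ) (h : (Ls D).WDom w y) :
    T^[(Ls D).wA w] ((Ls D).wnxt w y) = y ∧
      (0 < n → (Ls D).wnxt w y % 2 ≠ 0) ∧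
      ((range ((Ls D).wA w)).filter (fun j => T^[j] ((Ls D).wnxt w y) % 2 ≠ 0)).card = n := by
  induction n generalizing y with
  | zero =>
    have h1 : (Ls D).wA w = 0 := by simp [Sys.wA]
    have h2 : (Ls D).wnxt w y = y := by simp [Sys.wnxt, h1, Sys.wβ]
    rw [h1, h2]
    simp
  | succ n ih =>
    have h0 := (Sys.wDom_succ (Ls D) w y).1 h
    have hn := Sys.wnxt_succ (Ls D) w y h
    have hA : (Ls D).wA w = (Ls D).wA (Fin.tail w) + (((w 0 : Fin D) : ℕ) + 1) := by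
      rw [Sys.wA_succ, add_comm]
      rfl
    obtain ⟨hd, hd'⟩ := h0
    set y1 := (2 ^ (Ls D).A (w 0) * y - (Ls D).β (w 0)) / 3 ^ (Ls D).B with hy1
    have hl : 2 ^ (((w 0 : Fin D) : ℕ) + 1) * y = 3 * y1 + 1 := by
      have h4 : (2 : ℤ) ^ (Ls D).A (w 0) * y - (Ls D).β (w 0) = 3 ^ (Ls D).B * y1 :=
        (Int.mul_ediv_cancel' hd).symm
      have h5 : (Ls D).A (w 0) = ((w 0 : Fin D) : ℕ) + 1 := rfl
      have h6 : (Ls D).β (w 0) = 1 := rfl
      have h7 : (Ls D).B = 1 := rfl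
      rw [h5, h6, h7, pow_one] at h4
      linarith
    obtain ⟨ih1, ih2, ih3⟩ := ih (Fin.tail w) y1 hd'
    obtain ⟨l1, l2⟩ := count1_letter _ y y1 hl
    refine ⟨?_, ?_, ?_⟩
    · rw [hn, hA, add_comm, Function.iterate_add_apply, ih1, l2 _ le_rfl]
      simp
    · intro _
      rcases Nat.eq_zero_or_pos n with rfl | hpos
      · have h8 : (Ls D).wnxt (Fin.tail w) y1 = y1 := by simp [Sys.wnxt, Sys.wA, Sys.wβ]
        rw [hn, h8]
        exact l1
      · rw [hn]
        exact ih2 hpos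
    · rw [hn, hA, count1_card_add, ih1, ih3, count1_letter_card _ y y1 hl]

private theorem count1_aux {D N : ℕ} (hN : 0 < N) {y : ℤ}
    (hy : ∀ k : ℕ, 0 < k → T^[k] y ≠ y)
    {w w' : Fin N → Fin D} (h : (Ls D).WDom w y) (h' : (Ls D).WDom w' y)
    {n : ℤ} {i j : ℕ} (hij : i ≤ j) (hi : T^[i] n = (Ls D).wnxt w y)
    (hj : T^[j] n = (Ls D).wnxt w' y) : w = w' := by
  obtain ⟨a1, a2, a3⟩ := iterate_word w y h
  obtain ⟨b1, b2, b3⟩ := iterate_word w' y h'
  obtain ⟨d, rfl⟩ := Nat.exists_eq_add_of_le hij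
  have hz : T^[d] ((Ls D).wnxt w y) = (Ls D).wnxt w' y := by
    rw [← hi, ← hj, ← Function.iterate_add_apply, add_comm d i]
  have hA : T^[d + (Ls D).wA w'] ((Ls D).wnxt w y) = y := by
    rw [add_comm, Function.iterate_add_apply, hz, b1]
  have hAA : (Ls D).wA w = d + (Ls D).wA w' := by
    rcases lt_trichotomy ((Ls D).wA w) (d + (Ls D).wA w') with hlt | heq | hgt
    · exfalso
      obtain ⟨e, he⟩ := Nat.exists_eq_add_of_lt hlt
      refine hy (e + 1) (by omega) ?_
      have h1 : d + (Ls D).wA w' = (e + 1) + (Ls D).wA w := by omega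
      rw [h1, Function.iterate_add_apply, a1] at hA
      exact hA
    · exact heq
    · exfalso
      obtain ⟨e, he⟩ := Nat.exists_eq_add_of_lt hgt
      refine hy (e + 1) (by omega) ?_
      have h1 : (Ls D).wA w = (e + 1) + (d + (Ls D).wA w') := by omega
      rw [h1, Function.iterate_add_apply, hA] at a1
      exact a1
  have hcard := a3
  rw [hAA, count1_card_add, hz, b3] at hcard
  have hd0 : ((range d).filter (fun j => T^[j] ((Ls D).wnxt w y) % 2 ≠ 0)).card = 0 := by omega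
  have hd : d = 0 := by
    by_contra hne
    rw [card_eq_zero] at hd0
    have h1 : 0 ∈ (range d).filter (fun j => T^[j] ((Ls D).wnxt w y) % 2 ≠ 0) := by
      simp only [mem_filter, mem_range]
      exact ⟨by omega, a2 hN⟩
    rw [hd0] at h1
    simp at h1
  subst hd
  rw [zero_add] at hAA
  have hz' : (Ls D).wnxt w y = (Ls D).wnxt w' y := by simpa using hz
  have s1 := Sys.wnxt_spec (Ls D) w y h
  have s2 := Sys.wnxt_spec (Ls D) w' y h'
  rw [hAA, hz'] at s1
  exact Ls_inj D N w w' hAA (by linarith)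

theorem pre_disjoint {D N : ℕ} (hN : 0 < N) {y : ℤ} (hy : ∀ k : ℕ, 0 < k → T^[k] y ≠ y)
    {w w' : Fin N → Fin D} (h : (Ls D).WDom w y) (h' : (Ls D).WDom w' y)
    {n : ℤ} {i j : ℕ} (hi : T^[i] n = (Ls D).wnxt w y) (hj : T^[j] n = (Ls D).wnxt w' y) :
    w = w' := by
  rcases le_total i j with hij | hij
  · exact count1_aux hN hy h h' hij hi hj
  · exact (count1_aux hN hy h' h hij hj hi).symm

end Pool.Agent.H51.KL
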