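import Pool.Agent.H51.KL.Count1

/-! JOB KL-COUNT2: item 3 of the header of `Count1.lean`. (helper file for MP_ff4775_nt) -/

set_option autoImplicit false

namespace Pool.Agent.H51.KL

open Finset Filter Pool.Agent.H30

private theorem c2_size {D N : ℕ} (w : Fin N → Fin D) (y : ℤ) (h : (Ls D).WDom w y)
    (hu : (3 : ℝ) ^ N / 2 ^ (Ls D).wA w ≤ 1 / 2) (hy : 4 * (3 / 2 : ℝ) ^ N ≤ |(y : ℝ)|) :
    3 / 2 * |(y : ℝ)| ≤ |((Ls D).wnxt w y : ℝ)| ∧
      |((Ls D).wnxt w y : ℝ)| ≤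
        |(y : ℝ)| / ((3 : ℝ) ^ N / 2 ^ (Ls D).wA w) * (1 + (3 / 2 : ℝ) ^ N / |(y : ℝ)|) := by
  have hspec := (Ls D).wnxt_spec w y h
  have hB : (Ls D).B * N = N := by
    show 1 * N = N
    ring
  rw [hB] at hspec
  have hspec' : (2 : ℝ) ^ (Ls D).wA w * y = 3 ^ N * ((Ls D).wnxt w y : ℝ) + ((Ls D).wβ w : ℝ) := by
    exact_mod_cast hspec
  have hβ0 : (0 : ℝ) ≤ ((Ls D).wβ w : ℝ) := by exact_mod_cast Ls_wβ_nonneg D N w
  have hβ1 := Ls_wβ_lt D N w
  have h3 : (0 : ℝ) < 3 ^ N := by positivity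
  have h2 : (0 : ℝ) < 2 ^ (Ls D).wA w := by positivity
  have hp : (0 : ℝ) < (3 / 2 : ℝ) ^ N := by positivity
  have hy0 : 0 < |(y : ℝ)| := by linarith
  have hu' : 2 * (3 : ℝ) ^ N ≤ 2 ^ (Ls D).wA w := by
    rw [div_le_iff₀ h2] at hu
    linarith
  have hz : 3 ^ N * |((Ls D).wnxt w y : ℝ)| = |2 ^ (Ls D).wA w * (y : ℝ) - ((Ls D).wβ w : ℝ)| := by
    rw [hspec', add_sub_cancel_right, abs_mul, abs_of_pos h3]
  have hup : 3 ^ N * |((Ls D).wnxt w y : ℝ)| ≤
      2 ^ (Ls D).wA w * |(y : ℝ)| + 2 ^ (Ls D).wA w * (3 / 2) ^ N := by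
    rw [hz]
    refine (abs_sub _ _).trans ?_
    rw [abs_mul, abs_of_pos h2, abs_of_nonneg hβ0]
    nlinarith
  have hlo : 2 ^ (Ls D).wA w * |(y : ℝ)| - 2 ^ (Ls D).wA w * (3 / 2) ^ N ≤
      3 ^ N * |((Ls D).wnxt w y : ℝ)| := by
    rw [hz]
    refine le_trans ?_ (abs_sub_abs_le_abs_sub _ _)
    rw [abs_mul, abs_of_pos h2, abs_of_nonneg hβ0]
    nlinarith
  constructor
  · have h4 : 2 ^ (Ls D).wA w * (3 / 4 * |(y : ℝ)|) ≤ 3 ^ N * |((Ls D).wnxt w y : ℝ)| := by
      refine le_trans ?_ hlo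
      rw [← mul_sub]
      apply mul_le_mul_of_nonneg_left _ h2.le
      linarith
    have h5 : 2 * (3 : ℝ) ^ N * (3 / 4 * |(y : ℝ)|) ≤ 2 ^ (Ls D).wA w * (3 / 4 * |(y : ℝ)|) :=
      mul_le_mul_of_nonneg_right hu' (by positivity)
    have h6 : 3 ^ N * (3 / 2 * |(y : ℝ)|) ≤ 3 ^ N * |((Ls D).wnxt w y : ℝ)| := by
      calc 3 ^ N * (3 / 2 * |(y : ℝ)|) = 2 * (3 : ℝ) ^ N * (3 / 4 * |(y : ℝ)|) := by ring
        _ ≤ _ := h5.trans h4
    exact le_of_mul_le_mul_left h6 h3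
  · have h7 : |(y : ℝ)| / ((3 : ℝ) ^ N / 2 ^ (Ls D).wA w) * (1 + (3 / 2 : ℝ) ^ N / |(y : ℝ)|) =
        (2 ^ (Ls D).wA w * |(y : ℝ)| + 2 ^ (Ls D).wA w * (3 / 2) ^ N) / 3 ^ N := by
      field_simp
    rw [h7, le_div_iff₀ h3, mul_comm]
    exact hup

/-- lower bound for the number of preimages of a large non-periodic point -/
theorem lower {g g' : ℝ} (hg' : 0 < g') (hgg : g' < g) (hg1 : g < 1) (H : BlockIneq g) :
    ∃ (Y₀ c : ℝ), 1 ≤ Y₀ ∧ 0 < c ∧ ∀ y : ℤ, y % 3 = 1 → Y₀ ≤ |(y : ℝ)| →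
      (∀ k : ℕ, 0 < k → T^[k] y ≠ y) → ∀ x : ℕ, |(y : ℝ)| ≤ x →
        c * ((x : ℝ) / |(y : ℝ)|) ^ g' ≤ (Nat.card {n : ℤ // |n| ≤ x ∧ ∃ k : ℕ, T^[k] n = y} : ℝ) := by
  classical
  obtain ⟨N, D, hN, U, hU1, hU2⟩ := H
  set u : (Fin N → Fin D) → ℝ := fun w => (3 : ℝ) ^ N / 2 ^ (Ls D).wA w with hu
  have hu0 : ∀ w, 0 < u w := fun w => by rw [hu]; positivity
  set q : ℝ := 2 ^ (g - g') with hq
  have hq1 : 1 < q := Real.one_lt_rpow (by norm_num) (by linarith)
  set K : ℝ := 1 + ∑ w ∈ U, (u w)⁻¹ with hK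
  have hK1 : 1 ≤ K := by
    rw [hK]
    have : 0 ≤ ∑ w ∈ U, (u w)⁻¹ := Finset.sum_nonneg fun w _ => (inv_pos.2 (hu0 w)).le
    linarith
  have hKw : ∀ w ∈ U, (u w)⁻¹ ≤ K := by
    intro w hw
    have := Finset.single_le_sum (f := fun w => (u w)⁻¹) (fun w _ => (inv_pos.2 (hu0 w)).le) hw
    rw [hK]
    linarith
  set p : ℝ := (3 / 2) ^ N with hp
  have hp1 : 1 ≤ p := one_le_pow₀ (by norm_num)
  -- the sum with the exponent `g'`
  have hsum : ∀ y : ℤ, y % 3 = 1 → q ≤ ∑ w ∈ U.filter (fun w => (Ls D).WDom w y ∧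
      (Ls D).wnxt w y % 3 = 1), u w ^ g' := by
    intro y hy
    have h1 := hU2 y hy
    rw [← Finset.sum_filter] at h1
    calc q = q * 1 := by ring
      _ ≤ q * ∑ w ∈ U.filter (fun w => (Ls D).WDom w y ∧ (Ls D).wnxt w y % 3 = 1), u w ^ g :=
          mul_le_mul_of_nonneg_left h1 (by linarith)
      _ ≤ _ := by
          rw [Finset.mul_sum]
          refine Finset.sum_le_sum fun w hw => ?_
          have hw' := hU1 w (Finset.mem_filter.1 hw).1
          have e1 : u w ^ g = u w ^ g' * u w ^ (g - g') := by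
            rw [← Real.rpow_add (hu0 w)]
            congr 1
            ring
          have e2 : u w ^ (g - g') ≤ (1 / 2 : ℝ) ^ (g - g') :=
            Real.rpow_le_rpow (hu0 w).le hw' (by linarith)
          have e3 : q * (1 / 2 : ℝ) ^ (g - g') = 1 := by
            rw [hq, ← Real.mul_rpow (by norm_num) (by norm_num)]
            norm_num
          have e4 : 0 < u w ^ g' := Real.rpow_pos_of_pos (hu0 w) _
          calc q * u w ^ g = u w ^ g' * (q * u w ^ (g - g')) := by rw [e1]; ring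
            _ ≤ u w ^ g' * (q * (1 / 2 : ℝ) ^ (g - g')) := by gcongr
            _ = u w ^ g' := by rw [e3, mul_one]
  set Y₀ : ℝ := max (4 * p) (p / (q - 1)) with hY
  have hY1 : 4 * p ≤ Y₀ := le_max_left _ _
  have hY2 : p / (q - 1) ≤ Y₀ := le_max_right _ _
  have hc0 : 0 < (2 * K) ^ (-g') := Real.rpow_pos_of_pos (by linarith) _
  refine ⟨Y₀, (2 * K) ^ (-g'), by linarith, hc0, ?_⟩
  -- finsets of preimages
  set F : ℕ → ℤ → Finset ℤ := fun x y =>
    (Finset.Icc (-(x : ℤ)) x).filter fun n => ∃ k : ℕ, T^[k] n = y with hF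
  have hFmem : ∀ x y n, n ∈ F x y ↔ |n| ≤ (x : ℤ) ∧ ∃ k : ℕ, T^[k] n = y := by
    intro x y n
    rw [hF, Finset.mem_filter, Finset.mem_Icc, abs_le]
  have hcard : ∀ (x : ℕ) (y : ℤ),
      Nat.card {n : ℤ // |n| ≤ (x : ℤ) ∧ ∃ k : ℕ, T^[k] n = y} = (F x y).card := by
    intro x y
    exact Nat.subtype_card (F x y) (hFmem x y)
  have main : ∀ m : ℕ, ∀ y : ℤ, y % 3 = 1 → Y₀ ≤ |(y : ℝ)| → (∀ k : ℕ, 0 < k → T^[k] y ≠ y) →
      ∀ x : ℕ, |(y : ℝ)| ≤ x → (x : ℝ) ≤ (3 / 2) ^ m * |(y : ℝ)| →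
        (2 * K) ^ (-g') * ((x : ℝ) / |(y : ℝ)|) ^ g' ≤ ((F x y).card : ℝ) := by
    intro m
    have easy : ∀ y : ℤ, Y₀ ≤ |(y : ℝ)| → ∀ x : ℕ, |(y : ℝ)| ≤ x →
        (x : ℝ) ≤ 2 * K * |(y : ℝ)| →
        (2 * K) ^ (-g') * ((x : ℝ) / |(y : ℝ)|) ^ g' ≤ ((F x y).card : ℝ) := by
      intro y hy x hx hx2
      have hy0 : 0 < |(y : ℝ)| := by linarith
      have h1 : ((x : ℝ) / |(y : ℝ)|) ^ g' ≤ (2 * K) ^ g' := by
        apply Real.rpow_le_rpow (by positivity) _ hg'.le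
        rw [div_le_iff₀ hy0]
        exact hx2
      have h2 : (2 * K) ^ (-g') * (2 * K) ^ g' = 1 := by
        rw [← Real.rpow_add (by linarith), neg_add_cancel, Real.rpow_zero]
      have h3 : (1 : ℝ) ≤ ((F x y).card : ℝ) := by
        have h4 : y ∈ F x y := by
          rw [hFmem]
          refine ⟨?_, 0, rfl⟩
          have : ((|y| : ℤ) : ℝ) ≤ ((x : ℤ) : ℝ) := by push_cast; exact hx
          exact_mod_cast this
        have h5 : 1 ≤ (F x y).card := Finset.card_pos.2 ⟨y, h4⟩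
        exact_mod_cast h5
      calc (2 * K) ^ (-g') * ((x : ℝ) / |(y : ℝ)|) ^ g' ≤ (2 * K) ^ (-g') * (2 * K) ^ g' := by
            gcongr
        _ = 1 := h2
        _ ≤ _ := h3
    induction m with
    | zero =>
      intro y _ hy _ x hx hx2
      apply easy y hy x hx
      have hy0 : 0 < |(y : ℝ)| := by linarith
      rw [pow_zero, one_mul] at hx2
      nlinarith
    | succ m ih =>
      intro y hy3 hy hper x hx hx2
      by_cases hcase : (x : ℝ) ≤ 2 * K * |(y : ℝ)|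
      · exact easy y hy x hx hcase
      push Not at hcase
      have hy0 : 0 < |(y : ℝ)| := by linarith
      set s : ℝ := p / |(y : ℝ)| with hs
      have hs0 : 0 < s := by rw [hs]; positivity
      have hs1 : s ≤ 1 := by
        rw [hs, div_le_one hy0]
        linarith
      have hsq : 1 + s ≤ q := by
        have h1 : p ≤ (q - 1) * |(y : ℝ)| := by
          have h2 : p / (q - 1) ≤ |(y : ℝ)| := hY2.trans hy
          rw [div_le_iff₀ (by linarith)] at h2
          linarith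
        have h3 : s ≤ q - 1 := by
          rw [hs, div_le_iff₀ hy0]
          exact h1
        linarith
      set V := U.filter (fun w => (Ls D).WDom w y ∧ (Ls D).wnxt w y % 3 = 1) with hV
      have hVmem : ∀ w ∈ V, w ∈ U ∧ (Ls D).WDom w y ∧ (Ls D).wnxt w y % 3 = 1 := by
        intro w hw
        rw [hV, Finset.mem_filter] at hw
        exact hw
      -- the bound for one word
      have hone : ∀ w ∈ V, (2 * K) ^ (-g') * ((x : ℝ) / |(y : ℝ)|) ^ g' * q⁻¹ * u w ^ g' ≤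
          ((F x ((Ls D).wnxt w y)).card : ℝ) := by
        intro w hw
        obtain ⟨hwU, hdom, hz3⟩ := hVmem w hw
        obtain ⟨hz1, hz2⟩ := c2_size w y hdom (hU1 w hwU) (hY1.trans hy)
        have hz2' : |((Ls D).wnxt w y : ℝ)| ≤ |(y : ℝ)| / u w * (1 + s) := hz2
        have hz0 : 0 < |((Ls D).wnxt w y : ℝ)| := by linarith
        have hzx : |((Ls D).wnxt w y : ℝ)| ≤ x := by
          have h1 : |(y : ℝ)| / u w ≤ K * |(y : ℝ)| := by
            rw [div_eq_mul_inv, mul_comm]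
            exact mul_le_mul_of_nonneg_right (hKw w hwU) hy0.le
          have h2 : |(y : ℝ)| / u w * (1 + s) ≤ K * |(y : ℝ)| * 2 := by
            apply mul_le_mul h1 (by linarith) (by linarith)
            positivity
          linarith
        obtain ⟨hT, -, -⟩ := iterate_word w y hdom
        have h1 := ih ((Ls D).wnxt w y) hz3 (by linarith) (by
          intro k hk hk2
          apply hper k hk
          rw [← hT, ← Function.iterate_add_apply, add_comm, Function.iterate_add_apply, hk2]) x hzx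
          (by
            refine hx2.trans ?_
            rw [pow_succ, mul_assoc]
            exact mul_le_mul_of_nonneg_left hz1 (by positivity))
        refine le_trans ?_ h1
        have h2 : ((x : ℝ) / |(y : ℝ)|) * u w * (1 + s)⁻¹ ≤ (x : ℝ) / |((Ls D).wnxt w y : ℝ)| := by
          rw [le_div_iff₀ hz0]
          have h3 : ((x : ℝ) / |(y : ℝ)|) * u w * (1 + s)⁻¹ * |((Ls D).wnxt w y : ℝ)| ≤
              ((x : ℝ) / |(y : ℝ)|) * u w * (1 + s)⁻¹ * (|(y : ℝ)| / u w * (1 + s)) := by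
            apply mul_le_mul_of_nonneg_left hz2'
            have := (hu0 w).le
            positivity
          refine h3.trans (le_of_eq ?_)
          have := (hu0 w).ne'
          field_simp
        have h4 : (((x : ℝ) / |(y : ℝ)|) * u w * (1 + s)⁻¹) ^ g' ≤
            ((x : ℝ) / |((Ls D).wnxt w y : ℝ)|) ^ g' := by
          apply Real.rpow_le_rpow _ h2 hg'.le
          have := (hu0 w).le
          positivity
        have h5 : (((x : ℝ) / |(y : ℝ)|) * u w * (1 + s)⁻¹) ^ g' =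
            ((x : ℝ) / |(y : ℝ)|) ^ g' * u w ^ g' * ((1 + s)⁻¹) ^ g' := by
          have := (hu0 w).le
          rw [Real.mul_rpow (by positivity) (by positivity), Real.mul_rpow (by positivity) this]
        have h6 : q⁻¹ ≤ ((1 + s)⁻¹) ^ g' := by
          rw [Real.inv_rpow (by linarith)]
          have h7 : (1 + s) ^ g' ≤ q := by
            refine le_trans ?_ hsq
            calc (1 + s) ^ g' ≤ (1 + s) ^ (1 : ℝ) :=
                  Real.rpow_le_rpow_of_exponent_le (by linarith) (by linarith)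
              _ = 1 + s := Real.rpow_one _
          have h8 : 0 < (1 + s) ^ g' := Real.rpow_pos_of_pos (by linarith) _
          exact inv_anti₀ h8 h7
        have h9 : 0 < u w ^ g' := Real.rpow_pos_of_pos (hu0 w) _
        calc (2 * K) ^ (-g') * ((x : ℝ) / |(y : ℝ)|) ^ g' * q⁻¹ * u w ^ g' =
            (2 * K) ^ (-g') * (((x : ℝ) / |(y : ℝ)|) ^ g' * u w ^ g' * q⁻¹) := by ring
          _ ≤ (2 * K) ^ (-g') * (((x : ℝ) / |(y : ℝ)|) ^ g' * u w ^ g' * ((1 + s)⁻¹) ^ g') := by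
            gcongr
          _ = (2 * K) ^ (-g') * (((x : ℝ) / |(y : ℝ)|) * u w * (1 + s)⁻¹) ^ g' := by rw [h5]
          _ ≤ _ := by gcongr
      -- disjoint union
      have hdisj : (V.biUnion fun w => F x ((Ls D).wnxt w y)).card =
          ∑ w ∈ V, (F x ((Ls D).wnxt w y)).card := by
        apply Finset.card_biUnion
        intro w hw w' hw' hne
        show Disjoint (F x ((Ls D).wnxt w y)) (F x ((Ls D).wnxt w' y))
        rw [Finset.disjoint_left]
        intro n hn hn'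
        rw [hFmem] at hn hn'
        obtain ⟨-, i, hi⟩ := hn
        obtain ⟨-, j, hj⟩ := hn'
        exact hne (pre_disjoint hN hper (hVmem w (Finset.mem_coe.1 hw)).2.1
          (hVmem w' (Finset.mem_coe.1 hw')).2.1 hi hj)
      have hsub : (V.biUnion fun w => F x ((Ls D).wnxt w y)) ⊆ F x y := by
        intro n hn
        obtain ⟨w, hw, hn⟩ := Finset.mem_biUnion.1 hn
        rw [hFmem] at hn ⊢
        obtain ⟨h1, k, hk⟩ := hn
        obtain ⟨hT, -, -⟩ := iterate_word w y (hVmem w hw).2.1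
        refine ⟨h1, (Ls D).wA w + k, ?_⟩
        rw [Function.iterate_add_apply, hk, hT]
      have h1 : ∑ w ∈ V, (F x ((Ls D).wnxt w y)).card ≤ (F x y).card := by
        rw [← hdisj]
        exact Finset.card_le_card hsub
      have h2 : ∑ w ∈ V, ((F x ((Ls D).wnxt w y)).card : ℝ) ≤ ((F x y).card : ℝ) := by
        exact_mod_cast h1
      refine le_trans ?_ h2
      refine le_trans ?_ (Finset.sum_le_sum hone)
      rw [← Finset.mul_sum]
      have h3 := hsum y hy3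
      have h4 : 0 ≤ (2 * K) ^ (-g') * ((x : ℝ) / |(y : ℝ)|) ^ g' * q⁻¹ := by positivity
      calc (2 * K) ^ (-g') * ((x : ℝ) / |(y : ℝ)|) ^ g' =
          (2 * K) ^ (-g') * ((x : ℝ) / |(y : ℝ)|) ^ g' * q⁻¹ * q := by
            have : q ≠ 0 := by linarith
            field_simp
        _ ≤ _ := mul_le_mul_of_nonneg_left h3 h4
  intro y hy3 hy hper x hx
  have hy0 : 0 < |(y : ℝ)| := by linarith
  obtain ⟨m, hm⟩ := pow_unbounded_of_one_lt ((x : ℝ) / |(y : ℝ)|) (show (1 : ℝ) < 3 / 2 by norm_num)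
  have h1 := main m y hy3 hy hper x hx (by
    rw [div_lt_iff₀ hy0] at hm
    exact hm.le)
  rw [hcard]
  exact h1

end Pool.Agent.H51.KL
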