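import Pool.Agent.H51.KL.Ent3

/-!
JOB KL-COV1. Convolutions of many two-point measures are nearly uniform on blocks of digits.
(helper file for MP_ff4775_nt)

`pr x x'` is the two-point measure `(δ_x + δ_{x'})/2`, `pairConv` the convolution of a list of such.

1. `binom_unif`: `Bin(t, 1/2) mod Q` is nearly uniform for large `t`: all probabilities are
   `≤ (1+δ)/Q`. (Doeblin: the step law `(δ_0+δ_1)/2` on `ZMod Q`, convolved `Q` times, is `≥ 2^(-Q)` at
   every point; hence the law after `sQ` steps is `(1-(1-c)^s) unif + (1-c)^s (prob)` with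
   `c = Q 2^(-Q)`, and further convolutions preserve an upper bound `≤ (1+δ)/Q`.)
2. `pairs_hb`: all pairs `(x,x')` of the list agree modulo `3^i` but not modulo `3^(i+1)`, so
   `x' - x ≡ 3^i u mod 3^b` with a unit `u mod 3^(b-i)` (for `b > i`; if `b = i` then `a = b` and there
   is nothing to prove). There are at most `3^R` values of `u mod 3^(b-i)`, so (pigeonhole) at least
   `t = ⌈r/3^R⌉` pairs have the same `u`. By `Hlev_diff_conv` (drop the other factors; `conv` is
   commutative) it suffices to bound below `Hlev η b - Hlev η a` for the convolution `η` of those `t`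
   pairs, whose image in `ZMod (3^b)` is the law of `c + 3^i u Bin(t,1/2)`. The maximal probability in
   `ZMod (3^b)` is `≤ (1+δ)/3^(b-i)`, so `Hlev η b ≥ (b-i) log 3 - log(1+δ)`; the image in `ZMod (3^a)`
   is carried by a coset of `3^i` of size `3^(a-i)`, so `Hlev η a ≤ (a-i) log 3`.
-/

set_option autoImplicit false

namespace Pool.Agent.H51.KL

open Finset

/-- two-point measure -/
noncomputable def pr {G : Type} [DecidableEq G] (q : G × G) : G → ℝ :=
  fun z => (if z = q.1 then 1 / 2 else 0) + (if z = q.2 then 1 / 2 else 0)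

/-- convolution of a list of two-point measures -/
noncomputable def pairConv {G : Type} [Fintype G] [AddCommGroup G] [DecidableEq G] :
    List (G × G) → G → ℝ
  | [] => fun x => if x = 0 then 1 else 0
  | q :: ps => conv (pairConv ps) (pr q)

theorem pr_isProb {G : Type} [Fintype G] [DecidableEq G] (q : G × G) : IsProb (pr q) := by
  refine ⟨fun x => ?_, ?_⟩
  · unfold pr
    positivity
  · unfold pr
    rw [Finset.sum_add_distrib, Finset.sum_ite_eq', Finset.sum_ite_eq']
    simp
    norm_num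

theorem pairConv_isProb {G : Type} [Fintype G] [AddCommGroup G] [DecidableEq G]
    (ps : List (G × G)) : IsProb (pairConv ps) := by
  induction ps with
  | nil =>
    refine ⟨fun x => ?_, ?_⟩
    · unfold pairConv
      positivity
    · unfold pairConv
      rw [Finset.sum_ite_eq']
      simp
  | cons q ps ih =>
    exact conv_isProb ih (pr_isProb q)

/-- `t` steps of the lazy walk on `ZMod Q` -/
private noncomputable def lw (Q : ℕ) : ℕ → ZMod Q → ℝ
  | 0 => fun x => if x = 0 then 1 else 0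
  | t + 1 => fun x => (lw Q t x + lw Q t (x - 1)) / 2

private theorem lw_eq (Q : ℕ) (t : ℕ) : ∀ x : ZMod Q,
    lw Q t x = ∑ j ∈ range (t + 1), if (j : ZMod Q) = x then (t.choose j : ℝ) / 2 ^ t else 0 := by
  induction t with
  | zero =>
    intro x
    simp [lw, eq_comm]
  | succ t ih =>
    intro x
    have h1 : ∑ j ∈ range (t + 1 + 1), (if (j : ZMod Q) = x then ((t + 1).choose j : ℝ) / 2 ^ (t + 1)
        else 0) =
        (∑ j ∈ range (t + 1 + 1), (if (j : ZMod Q) = x then (t.choose j : ℝ) / 2 ^ (t + 1) else 0)) +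
        ∑ j ∈ range (t + 1), (if (j : ZMod Q) = x - 1 then (t.choose j : ℝ) / 2 ^ (t + 1)
          else 0) := by
      rw [Finset.sum_range_succ' _ (t + 1), Finset.sum_range_succ' _ (t + 1)]
      have : ∀ j ∈ range (t + 1), (if ((j + 1 : ℕ) : ZMod Q) = x then
          ((t + 1).choose (j + 1) : ℝ) / 2 ^ (t + 1) else 0) =
          (if ((j + 1 : ℕ) : ZMod Q) = x then (t.choose (j + 1) : ℝ) / 2 ^ (t + 1) else 0) +
          (if (j : ZMod Q) = x - 1 then (t.choose j : ℝ) / 2 ^ (t + 1) else 0) := by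
        intro j _
        have hiff : (((j + 1 : ℕ) : ZMod Q) = x) ↔ ((j : ZMod Q) = x - 1) := by
          push_cast
          exact eq_sub_iff_add_eq.symm
        by_cases h : (j : ZMod Q) = x - 1
        · rw [if_pos (hiff.2 h), if_pos (hiff.2 h), if_pos h, Nat.choose_succ_succ]
          push_cast
          ring
        · rw [if_neg (fun h' => h (hiff.1 h')), if_neg (fun h' => h (hiff.1 h')), if_neg h]
          ring
      rw [Finset.sum_congr rfl this, Finset.sum_add_distrib]
      simp only [Nat.choose_zero_right]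
      ring
    rw [h1, Finset.sum_range_succ]
    have h2 : (t.choose (t + 1) : ℝ) = 0 := by
      rw [Nat.choose_succ_self]; simp
    simp only [h2, zero_div, ite_self, add_zero, lw, ih, pow_succ]
    rw [add_div, Finset.sum_div, Finset.sum_div]
    congr 1
    · refine Finset.sum_congr rfl fun j _ => ?_
      split_ifs
      · rw [div_div]
      · simp
    · refine Finset.sum_congr rfl fun j _ => ?_
      split_ifs
      · rw [div_div]
      · simp

private theorem lw_le (Q : ℕ) (t : ℕ) (M : ℝ) (h : ∀ x, lw Q t x ≤ M) (k : ℕ) :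
    ∀ x, lw Q (t + k) x ≤ M := by
  induction k with
  | zero => exact h
  | succ k ih =>
    intro x
    have h1 := ih x
    have h2 := ih (x - 1)
    rw [← add_assoc]
    simp only [lw]
    linarith

private theorem lw_ge (Q : ℕ) (t : ℕ) (M : ℝ) (h : ∀ x, M ≤ lw Q t x) (k : ℕ) :
    ∀ x, M ≤ lw Q (t + k) x := by
  induction k with
  | zero => exact h
  | succ k ih =>
    intro x
    have h1 := ih x
    have h2 := ih (x - 1)
    rw [← add_assoc]
    simp only [lw]
    linarith

private theorem lw_contr (Q : ℕ) (t : ℕ) (M : ℝ) (h : ∀ x, lw Q t x ≤ M) (k : ℕ) :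
    ∀ j : ℕ, j ≤ k → ∀ x : ZMod Q,
      lw Q (t + k) x ≤ M - (1 / 2) ^ k * (M - lw Q t (x - (j : ZMod Q))) := by
  induction k with
  | zero =>
    intro j hj x
    obtain rfl : j = 0 := by omega
    simp
  | succ k ih =>
    intro j hj x
    rw [← add_assoc]
    simp only [lw]
    rcases Nat.lt_or_ge k j with hk | hk
    · obtain rfl : j = k + 1 := by omega
      have h1 := ih k le_rfl (x - 1)
      have h2 := lw_le Q t M h k x
      have h3 : x - 1 - (k : ZMod Q) = x - ((k + 1 : ℕ) : ZMod Q) := by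
        push_cast; ring
      rw [h3] at h1
      have h4 : ((1 : ℝ) / 2) ^ (k + 1) * (M - lw Q t (x - ((k + 1 : ℕ) : ZMod Q))) =
          ((1 / 2) ^ k * (M - lw Q t (x - ((k + 1 : ℕ) : ZMod Q)))) / 2 := by
        rw [pow_succ]; ring
      rw [h4]
      linarith
    · have h1 := ih j hk x
      have h2 := lw_le Q t M h k (x - 1)
      have h4 : ((1 : ℝ) / 2) ^ (k + 1) * (M - lw Q t (x - (j : ZMod Q))) =
          ((1 / 2) ^ k * (M - lw Q t (x - (j : ZMod Q)))) / 2 := by
        rw [pow_succ]; ring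
      rw [h4]
      linarith

private theorem lw_sum (Q : ℕ) [NeZero Q] (t : ℕ) : ∑ x : ZMod Q, lw Q t x = 1 := by
  induction t with
  | zero => simp [lw]
  | succ t ih =>
    simp only [lw]
    rw [← Finset.sum_div, Finset.sum_add_distrib]
    have : ∑ x : ZMod Q, lw Q t (x - 1) = ∑ x : ZMod Q, lw Q t x :=
      Fintype.sum_equiv (Equiv.subRight 1) _ _ (fun x => rfl)
    rw [this, ih]
    norm_num

private theorem lw_osc (Q : ℕ) [NeZero Q] (s : ℕ) : ∃ m M : ℝ,
    M - m ≤ (1 - (1 / 2) ^ Q) ^ s ∧ ∀ x : ZMod Q, m ≤ lw Q (s * Q) x ∧ lw Q (s * Q) x ≤ M := by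
  induction s with
  | zero =>
    refine ⟨0, 1, by simp, fun x => ?_⟩
    simp only [Nat.zero_mul, lw]
    split_ifs <;> norm_num
  | succ s ih =>
    obtain ⟨m, M, hmM, hb⟩ := ih
    obtain ⟨x₀, hx₀⟩ := Finite.exists_min (lw Q (s * Q))
    refine ⟨lw Q (s * Q) x₀, M - (1 / 2) ^ Q * (M - lw Q (s * Q) x₀), ?_, fun x => ⟨?_, ?_⟩⟩
    · have h1 : M - lw Q (s * Q) x₀ ≤ M - m := by linarith [(hb x₀).1]
      have h2 : (0 : ℝ) ≤ 1 - (1 / 2) ^ Q := by
        have : ((1 : ℝ) / 2) ^ Q ≤ 1 := pow_le_one₀ (by norm_num) (by norm_num)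
        linarith
      calc M - (1 / 2) ^ Q * (M - lw Q (s * Q) x₀) - lw Q (s * Q) x₀
          = (1 - (1 / 2) ^ Q) * (M - lw Q (s * Q) x₀) := by ring
        _ ≤ (1 - (1 / 2) ^ Q) * (1 - (1 / 2) ^ Q) ^ s :=
            mul_le_mul_of_nonneg_left (h1.trans hmM) h2
        _ = (1 - (1 / 2) ^ Q) ^ (s + 1) := by rw [pow_succ]; ring
    · rw [Nat.succ_mul]
      exact lw_ge Q (s * Q) _ hx₀ Q x
    · rw [Nat.succ_mul]
      have h1 := lw_contr Q (s * Q) M (fun x => (hb x).2) Q (x - x₀).val
        (ZMod.val_lt _).le x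
      have h2 : x - (((x - x₀).val : ℕ) : ZMod Q) = x₀ := by
        rw [ZMod.natCast_zmod_val]; ring
      rw [h2] at h1
      exact h1

theorem binom_unif (Q : ℕ) (hQ : 0 < Q) (δ : ℝ) (hδ : 0 < δ) :
    ∃ t₀ : ℕ, ∀ t : ℕ, t₀ ≤ t → ∀ x : ZMod Q,
      (∑ j ∈ (range (t + 1)).filter (fun j : ℕ => (j : ZMod Q) = x), (t.choose j : ℝ) / 2 ^ t) ≤
        (1 + δ) / Q := by
  have : NeZero Q := ⟨hQ.ne'⟩
  have hQ' : (0 : ℝ) < Q := by exact_mod_cast hQ
  have hc : (1 : ℝ) - (1 / 2) ^ Q < 1 := by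
    have : (0 : ℝ) < (1 / 2) ^ Q := by positivity
    linarith
  have hc0 : (0 : ℝ) ≤ 1 - (1 / 2) ^ Q := by
    have : ((1 : ℝ) / 2) ^ Q ≤ 1 := pow_le_one₀ (by norm_num) (by norm_num)
    linarith
  obtain ⟨s, hs⟩ := exists_pow_lt_of_lt_one (div_pos hδ hQ') hc
  obtain ⟨m, M, hmM, hb⟩ := lw_osc Q s
  refine ⟨s * Q, fun t ht x => ?_⟩
  rw [Finset.sum_filter, ← lw_eq]
  obtain ⟨k, rfl⟩ := Nat.exists_eq_add_of_le ht
  have h1 := lw_le Q (s * Q) M (fun x => (hb x).2) k x
  have h2 : (Q : ℝ) * m ≤ 1 := by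
    rw [← lw_sum Q (s * Q)]
    calc (Q : ℝ) * m = ∑ _x : ZMod Q, m := by
          rw [Finset.sum_const, Finset.card_univ, ZMod.card, nsmul_eq_mul]
      _ ≤ _ := Finset.sum_le_sum fun x _ => (hb x).1
  have h3 : m ≤ 1 / Q := by
    rw [le_div_iff₀ hQ']
    linarith
  calc lw Q (s * Q + k) x ≤ M := h1
    _ ≤ m + (1 - (1 / 2) ^ Q) ^ s := by linarith
    _ ≤ 1 / Q + δ / Q := by linarith
    _ = (1 + δ) / Q := by rw [add_div]

end Pool.Agent.H51.KL
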