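import Pool.Agent.H51.KL.Cov1

/-!
JOB KL-COV1B. `pairs_hb` (see the header of `Cov1.lean`, item 2). (helper file for MP_ff4775_nt)

All pairs `(x,x')` of the list agree modulo `3^i` but not modulo `3^(i+1)`, so
`x' - x ≡ 3^i u mod 3^b` with a unit `u mod 3^(b-i)` (for `b > i`; if `b = i` then `a = b` and there
is nothing to prove). There are at most `3^R` values of `u mod 3^(b-i)`, so (pigeonhole) at least
`t = ⌈r/3^R⌉` pairs have the same `u`. By `Hlev_diff_conv` (drop the other factors; `conv` is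
commutative) it suffices to bound below `Hlev η b - Hlev η a` for the convolution `η` of those `t`
pairs, whose image in `ZMod (3^b)` is the law of `c + 3^i u Bin(t,1/2)`. The maximal probability in
`ZMod (3^b)` is `≤ (1+δ)/3^(b-i)` (`binom_unif` for `Q = 3^(b-i)`, finitely many `Q ≤ 3^R`), so
`Hlev η b ≥ (b-i) log 3 - log(1+δ)` (`neg_log_le_ent`); the image in `ZMod (3^a)` is carried by a
coset of `3^i` of size `3^(a-i)`, so `Hlev η a ≤ (a-i) log 3` (`ent_le_log_card`).
-/

set_option autoImplicit false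

namespace Pool.Agent.H51.KL

open Finset

private theorem pb_sum_pr {G : Type} [Fintype G] [DecidableEq G] (q : G × G) (g : G → ℝ) :
    ∑ z, pr q z * g z = (g q.1 + g q.2) / 2 := by
  unfold pr
  simp only [add_mul, ite_mul, zero_mul, Finset.sum_add_distrib, Finset.sum_ite_eq',
    Finset.mem_univ, if_true]
  ring

private theorem pb_conv_pr {G : Type} [Fintype G] [AddCommGroup G] [DecidableEq G] (κ : G → ℝ)
    (q : G × G) (x : G) : conv κ (pr q) x = (κ (x - q.1) + κ (x - q.2)) / 2 := by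
  unfold conv
  exact pb_sum_pr q (fun z => κ (x - z))

private theorem pb_push_shift {l b : ℕ} (hb : b ≤ l) (κ : ZMod (3 ^ l) → ℝ) (z : ZMod (3 ^ l))
    (y : ZMod (3 ^ b)) :
    push (redm l b) (fun x => κ (x - z)) y = push (redm l b) κ (y - redm l b z) := by
  unfold push
  rw [← Equiv.sum_comp (Equiv.addRight z)]
  apply Finset.sum_congr rfl
  intro x _
  simp only [Equiv.coe_addRight, add_sub_cancel_right]
  rw [redm_add hb]
  by_cases h : redm l b x + redm l b z = y
  · rw [if_pos h, if_pos (by rw [← h]; ring)]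
  · rw [if_neg h, if_neg (by intro h'; apply h; rw [h']; ring)]

private theorem pb_push_step {l b : ℕ} (hb : b ≤ l) (κ : ZMod (3 ^ l) → ℝ)
    (q : ZMod (3 ^ l) × ZMod (3 ^ l)) (y : ZMod (3 ^ b)) :
    push (redm l b) (conv κ (pr q)) y =
      (push (redm l b) κ (y - redm l b q.1) + push (redm l b) κ (y - redm l b q.2)) / 2 := by
  rw [← pb_push_shift hb, ← pb_push_shift hb]
  unfold push
  rw [← Finset.sum_add_distrib, Finset.sum_div]
  apply Finset.sum_congr rfl
  intro x _
  split_ifs with h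
  · rw [pb_conv_pr]
  · simp

/-- dropping factors -/
private theorem pb_filter {G : Type} [Fintype G] [AddCommGroup G] [DecidableEq G]
    (ps : List (G × G)) (P : G × G → Bool) :
    ∃ ν : G → ℝ, IsProb ν ∧ pairConv ps = conv (pairConv (ps.filter P)) ν := by
  induction ps with
  | nil =>
    refine ⟨fun x => if x = 0 then 1 else 0, ?_, ?_⟩
    · exact pairConv_isProb ([] : List (G × G))
    · rw [conv_delta]; rfl
  | cons q ps ih =>
    obtain ⟨ν, hν, h⟩ := ih
    by_cases hP : P q = true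
    · refine ⟨ν, hν, ?_⟩
      rw [List.filter_cons_of_pos hP]
      show conv (pairConv ps) (pr q) = conv (conv (pairConv (ps.filter P)) (pr q)) ν
      rw [h, conv_assoc, conv_assoc, conv_comm ν]
    · refine ⟨conv ν (pr q), conv_isProb hν (pr_isProb q), ?_⟩
      rw [List.filter_cons_of_neg hP]
      show conv (pairConv ps) (pr q) = _
      rw [h, conv_assoc]

/-- the weights of the binomial law -/
private noncomputable def pbB {G : Type} [AddCommGroup G] [DecidableEq G] (w : G) (t : ℕ) (z : G) :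
    ℝ :=
  ∑ j ∈ range (t + 1), if j • w = z then (t.choose j : ℝ) / 2 ^ t else 0

private theorem pbB_succ {G : Type} [AddCommGroup G] [DecidableEq G] (w : G) (t : ℕ) (z : G) :
    pbB w (t + 1) z = (pbB w t z + pbB w t (z - w)) / 2 := by
  unfold pbB
  have h1 : ∑ j ∈ range (t + 1 + 1), (if j • w = z then ((t + 1).choose j : ℝ) / 2 ^ (t + 1) else 0) =
      (if (0 : ℕ) • w = z then (1 : ℝ) / 2 ^ (t + 1) else 0) +
      ∑ j ∈ range (t + 1), (if (j + 1) • w = z then
        ((t.choose j : ℝ) + (t.choose (j + 1) : ℝ)) / 2 ^ (t + 1) else 0) := by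
    rw [Finset.sum_range_succ', add_comm]
    congr 1
    · simp
    · apply Finset.sum_congr rfl
      intro j _
      rw [Nat.choose_succ_succ]
      push_cast
      rfl
  have h2 : ∑ j ∈ range (t + 1), (if j • w = z then (t.choose j : ℝ) / 2 ^ t else 0) =
      (if (0 : ℕ) • w = z then (1 : ℝ) / 2 ^ t else 0) +
      ∑ j ∈ range (t + 1), (if (j + 1) • w = z then (t.choose (j + 1) : ℝ) / 2 ^ t else 0) := by
    have h3 : ∑ j ∈ range (t + 1), (if j • w = z then (t.choose j : ℝ) / 2 ^ t else 0) =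
        ∑ j ∈ range (t + 1 + 1), (if j • w = z then (t.choose j : ℝ) / 2 ^ t else 0) := by
      rw [Finset.sum_range_succ _ (t + 1)]
      simp
    rw [h3, Finset.sum_range_succ', add_comm]
    congr 1
    simp
  have h4 : ∑ j ∈ range (t + 1), (if j • w = z - w then (t.choose j : ℝ) / 2 ^ t else 0) =
      ∑ j ∈ range (t + 1), (if (j + 1) • w = z then (t.choose j : ℝ) / 2 ^ t else 0) := by
    apply Finset.sum_congr rfl
    intro j _
    have : (j • w = z - w) ↔ ((j + 1) • w = z) := by
      rw [add_smul, one_smul, eq_sub_iff_add_eq]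
    simp only [this]
  rw [h1, h2, h4, add_assoc, add_div, ← Finset.sum_add_distrib, Finset.sum_div]
  congr 1
  · split_ifs
    · rw [pow_succ]; field_simp
    · simp
  · apply Finset.sum_congr rfl
    intro j _
    split_ifs
    · rw [pow_succ]; field_simp; ring
    · simp

private theorem pb_push_all {l b : ℕ} (hb : b ≤ l) (w : ZMod (3 ^ b))
    (ps : List (ZMod (3 ^ l) × ZMod (3 ^ l)))
    (h : ∀ q ∈ ps, redm l b (q.2 - q.1) = w) :
    ∃ c : ZMod (3 ^ b), ∀ y, push (redm l b) (pairConv ps) y = pbB w ps.length (y - c) := by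
  induction ps with
  | nil =>
    refine ⟨0, fun y => ?_⟩
    have h0 : redm l b 0 = 0 := by
      have := redm_natCast (l := l) hb 0
      simpa using this
    simp only [pbB, List.length_nil, sub_zero, zero_add, Finset.sum_range_one, pairConv, push,
      Nat.choose_self, pow_zero]
    rw [Finset.sum_eq_single (0 : ZMod (3 ^ l))]
    · simp [h0]
    · intro x _ hx
      simp [hx]
    · simp
  | cons q ps ih =>
    obtain ⟨c, hc⟩ := ih (fun q hq => h q (List.mem_cons_of_mem _ hq))
    refine ⟨c + redm l b q.1, fun y => ?_⟩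
    show push (redm l b) (conv (pairConv ps) (pr q)) y = _
    have hq := h q List.mem_cons_self
    rw [redm_sub hb] at hq
    have hq2 : redm l b q.2 = redm l b q.1 + w := by rw [← hq]; ring
    rw [pb_push_step hb, hc, hc, List.length_cons, pbB_succ, hq2]
    congr 3
    · ring
    · ring

private theorem pb_carried {l i : ℕ} (hi : i ≤ l) (ps : List (ZMod (3 ^ l) × ZMod (3 ^ l)))
    (h : ∀ q ∈ ps, redm l i q.1 = redm l i q.2) :
    ∃ c : ZMod (3 ^ i), ∀ x, pairConv ps x ≠ 0 → redm l i x = c := by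
  induction ps with
  | nil =>
    refine ⟨redm l i 0, fun x hx => ?_⟩
    by_cases h0 : x = 0
    · rw [h0]
    · exact absurd (by simp [pairConv, h0]) hx
  | cons q ps ih =>
    obtain ⟨c, hc⟩ := ih (fun q hq => h q (List.mem_cons_of_mem _ hq))
    refine ⟨c + redm l i q.1, fun x hx => ?_⟩
    have hq := h q List.mem_cons_self
    have hx' : conv (pairConv ps) (pr q) x ≠ 0 := hx
    rw [pb_conv_pr] at hx'
    by_cases h1 : pairConv ps (x - q.1) = 0
    · have h2 : pairConv ps (x - q.2) ≠ 0 := by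
        intro h2; apply hx'; rw [h1, h2]; simp
      have h3 := hc _ h2
      rw [redm_sub hi] at h3
      rw [← h3, hq]; ring
    · have h3 := hc _ h1
      rw [redm_sub hi] at h3
      rw [← h3]; ring

private theorem pb_bound {b i : ℕ} (hib : i ≤ b) (u : ℕ) (hu : ¬ 3 ∣ u) (t : ℕ) (M : ℝ) (hM : 0 ≤ M)
    (hbd : ∀ x : ZMod (3 ^ (b - i)), (∑ j ∈ (range (t + 1)).filter
      (fun j : ℕ => (j : ZMod (3 ^ (b - i))) = x), (t.choose j : ℝ) / 2 ^ t) ≤ M)
    (z : ZMod (3 ^ b)) : pbB ((3 ^ i * u : ℕ) : ZMod (3 ^ b)) t z ≤ M := by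
  unfold pbB
  by_cases hex : ∃ j0 : ℕ, j0 • ((3 ^ i * u : ℕ) : ZMod (3 ^ b)) = z
  · obtain ⟨j0, hj0⟩ := hex
    refine le_trans ?_ (hbd (j0 : ZMod (3 ^ (b - i))))
    rw [← Finset.sum_filter]
    apply Finset.sum_le_sum_of_subset_of_nonneg
    · intro j hj
      rw [Finset.mem_filter] at hj ⊢
      refine ⟨hj.1, ?_⟩
      have h1 := hj.2
      rw [← hj0, nsmul_eq_mul, nsmul_eq_mul, ← Nat.cast_mul, ← Nat.cast_mul,
        ZMod.natCast_eq_natCast_iff] at h1
      rw [ZMod.natCast_eq_natCast_iff]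
      have h2 : 3 ^ b = 3 ^ i * 3 ^ (b - i) := by rw [← pow_add]; congr 1; omega
      have h3 : j * (3 ^ i * u) = 3 ^ i * (j * u) := by ring
      have h4 : j0 * (3 ^ i * u) = 3 ^ i * (j0 * u) := by ring
      rw [h2, h3, h4] at h1
      have h5 : j * u ≡ j0 * u [MOD 3 ^ (b - i)] :=
        Nat.ModEq.mul_left_cancel' (by positivity) h1
      have hc : Nat.gcd (3 ^ (b - i)) u = 1 := by
        apply Nat.Coprime.pow_left
        exact (Nat.Prime.coprime_iff_not_dvd Nat.prime_three).2 hu
      exact Nat.ModEq.cancel_right_of_coprime hc h5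
    · intro j _ _
      positivity
  · have : ∀ j ∈ range (t + 1), (if j • ((3 ^ i * u : ℕ) : ZMod (3 ^ b)) = z then
        (t.choose j : ℝ) / 2 ^ t else 0) = 0 := by
      intro j _
      rw [if_neg]
      intro h
      exact hex ⟨j, h⟩
    rw [Finset.sum_eq_zero this]
    exact hM

private theorem pb_class {b i : ℕ} (hib : i < b) (w : ZMod (3 ^ b)) (h0 : redm b i w = 0)
    (h1 : redm b (i + 1) w ≠ 0) :
    ∃ u : ℕ, u < 3 ^ (b - i) ∧ ¬ 3 ∣ u ∧ w = ((3 ^ i * u : ℕ) : ZMod (3 ^ b)) := by
  unfold redm at h0 h1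
  rw [ZMod.natCast_eq_zero_iff] at h0
  rw [Ne, ZMod.natCast_eq_zero_iff] at h1
  obtain ⟨u, hu⟩ := h0
  refine ⟨u, ?_, ?_, ?_⟩
  · have h2 : w.val < 3 ^ b := ZMod.val_lt w
    have h3 : 3 ^ b = 3 ^ i * 3 ^ (b - i) := by rw [← pow_add]; congr 1; omega
    rw [hu, h3] at h2
    exact lt_of_mul_lt_mul_left h2 (by positivity)
  · rintro ⟨v, hv⟩
    apply h1
    rw [hu, hv]
    exact ⟨v, by ring⟩
  · rw [← hu, ZMod.natCast_zmod_val]

private theorem pb_pigeon {α β : Type} [DecidableEq β] (cls : α → β) (S : Finset β) (t N : ℕ)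
    (hN : S.card ≤ N) (ps : List α) (hmem : ∀ q ∈ ps, cls q ∈ S) (hlen : N * t < ps.length) :
    ∃ c ∈ S, t < (ps.filter (fun q => decide (cls q = c))).length := by
  by_contra hcon
  push Not at hcon
  have key : ∀ ps : List α, (∀ q ∈ ps, cls q ∈ S) →
      ps.length = ∑ c ∈ S, (ps.filter (fun q => decide (cls q = c))).length := by
    intro ps
    induction ps with
    | nil => intro _; simp
    | cons q ps ih =>
      intro h
      have hq := h q List.mem_cons_self
      rw [List.length_cons, ih (fun q hq => h q (List.mem_cons_of_mem _ hq))]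
      have h1 : ∀ c ∈ S, ((q :: ps).filter (fun q => decide (cls q = c))).length =
          (ps.filter (fun q => decide (cls q = c))).length + (if cls q = c then 1 else 0) := by
        intro c _
        by_cases hc : cls q = c
        · rw [List.filter_cons_of_pos (by simpa using hc)]
          simp [hc]
        · rw [List.filter_cons_of_neg (by simpa using hc)]
          simp [hc]
      rw [Finset.sum_congr rfl h1, Finset.sum_add_distrib]
      simp [hq]
  have h2 := key ps hmem
  have h3 : ∑ c ∈ S, (ps.filter (fun q => decide (cls q = c))).length ≤ S.card * t := by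
    rw [← smul_eq_mul]
    exact Finset.sum_le_card_nsmul _ _ _ hcon
  have h4 : S.card * t ≤ N * t := Nat.mul_le_mul_right t hN
  omega

/-- a convolution of many good pairs has nearly maximal entropy on the digits `a, ..., b-1`. -/
theorem pairs_hb (R : ℕ) (δ : ℝ) (hδ : 0 < δ) :
    ∃ r : ℕ, ∀ (l i a b : ℕ), i ≤ a → a ≤ b → b ≤ l → b - i ≤ R →
      ∀ ps : List (ZMod (3 ^ l) × ZMod (3 ^ l)), r ≤ ps.length →
        (∀ q ∈ ps, redm l i q.1 = redm l i q.2 ∧ redm l (i + 1) q.1 ≠ redm l (i + 1) q.2) →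
        ((b : ℝ) - a) * Real.log 3 - δ ≤ Hlev (pairConv ps) b - Hlev (pairConv ps) a := by
  classical
  have hbin : ∀ k : ℕ, ∃ t₀ : ℕ, ∀ t : ℕ, t₀ ≤ t → ∀ x : ZMod (3 ^ k),
      (∑ j ∈ (range (t + 1)).filter (fun j : ℕ => (j : ZMod (3 ^ k)) = x),
        (t.choose j : ℝ) / 2 ^ t) ≤ (1 + δ) / ((3 ^ k : ℕ) : ℝ) :=
    fun k => binom_unif (3 ^ k) (by positivity) δ hδ
  choose t₀ ht₀ using hbin
  obtain ⟨T, hT⟩ : ∃ T : ℕ, ∀ k ≤ R, t₀ k ≤ T := by
    refine ⟨(range (R + 1)).sup t₀, fun k hk => ?_⟩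
    exact Finset.le_sup (f := t₀) (Finset.mem_range.2 (by omega))
  refine ⟨3 ^ R * T + 1, ?_⟩
  intro l i a b hia hab hbl hR ps hps hgood
  rcases Nat.lt_or_ge i b with hib | hib
  swap
  · have h1 : a = b := by omega
    subst h1
    simp only [sub_self, zero_mul, zero_sub]
    linarith
  -- the class of a pair
  set cls : ZMod (3 ^ l) × ZMod (3 ^ l) → ZMod (3 ^ b) := fun q => redm l b (q.2 - q.1) with hcls
  set S : Finset (ZMod (3 ^ b)) :=
    (range (3 ^ (b - i))).image (fun u : ℕ => ((3 ^ i * u : ℕ) : ZMod (3 ^ b))) with hS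
  have hScard : S.card ≤ 3 ^ R := by
    refine le_trans Finset.card_image_le ?_
    rw [Finset.card_range]
    exact Nat.pow_le_pow_right (by norm_num) hR
  have hcl : ∀ q ∈ ps, ∃ u : ℕ, u < 3 ^ (b - i) ∧ ¬ 3 ∣ u ∧
      cls q = ((3 ^ i * u : ℕ) : ZMod (3 ^ b)) := by
    intro q hq
    obtain ⟨h1, h2⟩ := hgood q hq
    apply pb_class hib
    · rw [hcls]
      show redm b i (redm l b (q.2 - q.1)) = 0
      rw [redm_redm hib.le hbl, redm_sub (le_trans hib.le hbl), h1, sub_self]
    · rw [hcls]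
      show redm b (i + 1) (redm l b (q.2 - q.1)) ≠ 0
      rw [redm_redm hib hbl, redm_sub (le_trans hib hbl)]
      intro h3
      apply h2
      exact (sub_eq_zero.1 h3).symm
  have hmem : ∀ q ∈ ps, cls q ∈ S := by
    intro q hq
    obtain ⟨u, hu, -, h⟩ := hcl q hq
    rw [h, hS]
    exact Finset.mem_image.2 ⟨u, Finset.mem_range.2 hu, rfl⟩
  obtain ⟨w, hwS, hw⟩ := pb_pigeon cls S T (3 ^ R) hScard ps hmem (by omega)
  set qs := ps.filter (fun q => decide (cls q = w)) with hqs
  obtain ⟨ν, hν, hconv⟩ := pb_filter ps (fun q => decide (cls q = w))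
  rw [← hqs] at hconv
  have hprob : IsProb (pairConv qs) := pairConv_isProb qs
  have hqsmem : ∀ q ∈ qs, q ∈ ps ∧ cls q = w := by
    intro q hq
    rw [hqs, List.mem_filter] at hq
    exact ⟨hq.1, by simpa using hq.2⟩
  have h1 : Hlev (pairConv qs) b - Hlev (pairConv qs) a ≤
      Hlev (pairConv ps) b - Hlev (pairConv ps) a := by
    rw [hconv]
    exact Hlev_diff_conv hab hbl hprob.nonneg hν
  refine le_trans ?_ h1
  -- lower bound for `Hlev b`
  obtain ⟨u, hu3, hwu⟩ : ∃ u : ℕ, ¬ 3 ∣ u ∧ w = ((3 ^ i * u : ℕ) : ZMod (3 ^ b)) := by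
    have hne : qs ≠ [] := by
      intro h
      rw [h] at hw
      simp at hw
    obtain ⟨q, hq⟩ := List.exists_mem_of_ne_nil qs hne
    obtain ⟨u, -, h3, h4⟩ := hcl q (hqsmem q hq).1
    exact ⟨u, h3, by rw [← h4, (hqsmem q hq).2]⟩
  have hM : 0 < (1 + δ) / ((3 ^ (b - i) : ℕ) : ℝ) := by positivity
  obtain ⟨c, hc⟩ := pb_push_all hbl w qs (fun q hq => (hqsmem q hq).2)
  have hlow : ((b : ℝ) - i) * Real.log 3 - δ ≤ Hlev (pairConv qs) b := by
    have h2 := neg_log_le_ent (push_isProb hprob (redm l b)) _ hM (fun y => by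
      rw [hc y, hwu]
      exact pb_bound hib.le u hu3 qs.length _ hM.le
        (ht₀ (b - i) qs.length (le_trans (hT _ hR) hw.le)) _)
    refine le_trans ?_ h2
    have h3 : Real.log ((1 + δ) / ((3 ^ (b - i) : ℕ) : ℝ)) =
        Real.log (1 + δ) - ((b : ℝ) - i) * Real.log 3 := by
      rw [Real.log_div (by positivity) (by positivity)]
      push_cast
      rw [Real.log_pow, Nat.cast_sub hib.le]
    have h4 : Real.log (1 + δ) ≤ δ := by
      have := Real.log_le_sub_one_of_pos (show (0 : ℝ) < 1 + δ by linarith)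
      linarith
    rw [h3]
    linarith
  -- upper bound for `Hlev a`
  have hupp : Hlev (pairConv qs) a ≤ ((a : ℝ) - i) * Real.log 3 := by
    have h2 := Hlev_diff_le hia (le_trans hab hbl) hprob
    have h3 : Hlev (pairConv qs) i ≤ 0 := by
      obtain ⟨c, hc⟩ := pb_carried (le_trans hib.le hbl) qs
        (fun q hq => (hgood q (hqsmem q hq).1).1)
      have h4 := ent_le_log_card (push_isProb hprob (redm l i)) {c} (by
        intro y hy
        unfold push
        apply Finset.sum_eq_zero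
        intro x _
        split_ifs with h
        · by_contra hx
          have := hc x hx
          apply hy
          rw [Finset.mem_singleton, ← h, this]
        · rfl)
      simpa [Hlev] using h4
    linarith
  linarith

end Pool.Agent.H51.KL
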