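import Pool.Agent.H51.KL.Cov1

/-!
JOB KL-COV2. A digit with positive conditional entropy yields a fixed proportion of good pairs.
(helper file for MP_ff4775_nt)

`ν` probability weights on `ZMod (3^l)`, `i < l`, `h ≤ Hlev ν (i+1) - Hlev ν i`.
For `x, x'` with the same image in `ZMod (3^i)` put `W₀ (x,x') = ν x ν x' / P(red_i x)`
(`P = push (redm l i) ν`, `0` if `P = 0`), and `W₀ = 0` otherwise. Then
`ν z = ∑ q, W₀ q * pr q z` (symmetry of `W₀` and `∑ x', W₀ (x,x') = ν x`). The mass of `W₀` on the pairs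
with different images in `ZMod (3^(i+1))` is
`g = ∑_p P(p) (1 - ∑_{c over p} (P'(c)/P(p))²)` with `P' = push (redm l (i+1)) ν`.
Claim `g ≥ h²/6`: for `q ∈ [0,1]`, `-q log q ≤ √(2 q (1-q))`
(if `q ≥ 1/2`: `-q log q ≤ 1-q ≤ √(2q(1-q))`; if `q < 1/2`: `-q log q ≤ √q ≤ √(2q(1-q))`), so for a
probability vector `(q_1,q_2,q_3)` the entropy is `≤ √(6 (1 - ∑ q²))` (Cauchy-Schwarz) and
`h ≤ ∑_p P(p) √(6 g(p)) ≤ √(6 g)`.
Finally scale the restriction of `W₀` to the good pairs down to total mass exactly `h²/6`.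
-/

set_option autoImplicit false

namespace Pool.Agent.H51.KL

open Finset

theorem negMulLog_le_sqrt (q : ℝ) (h0 : 0 ≤ q) (h1 : q ≤ 1) :
    Real.negMulLog q ≤ Real.sqrt (2 * q * (1 - q)) := by
  rcases eq_or_lt_of_le h0 with h | h
  · rw [← h, Real.negMulLog_zero]; exact Real.sqrt_nonneg _
  rcases le_or_gt (1 / 2) q with h2 | h2
  · have h3 : Real.negMulLog q ≤ 1 - q := by
      have := Real.one_sub_inv_le_log_of_pos h
      rw [Real.negMulLog]
      have h4 : q * (1 - q⁻¹) ≤ q * Real.log q := mul_le_mul_of_nonneg_left this h0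
      rw [mul_sub, mul_one, mul_inv_cancel₀ h.ne'] at h4
      linarith
    refine h3.trans (Real.le_sqrt_of_sq_le ?_)
    nlinarith
  · set s := Real.sqrt q with hs
    have hs0 : 0 < s := Real.sqrt_pos.2 h
    have hsq : s ^ 2 = q := Real.sq_sqrt h0
    have h3 : Real.negMulLog q ≤ s := by
      rw [Real.negMulLog, ← hsq, Real.log_pow]
      have h4 : Real.log (1 / s / 2) ≤ 1 / s / 2 - 1 := Real.log_le_sub_one_of_pos (by positivity)
      rw [Real.log_div (by positivity) (by norm_num), one_div, Real.log_inv] at h4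
      have h5 : Real.log 2 < 1 := by
        have := Real.log_two_lt_d9; linarith
      have h6 : -Real.log s ≤ s⁻¹ / 2 := by linarith
      have h7 : s ^ 2 * (-Real.log s) ≤ s ^ 2 * (s⁻¹ / 2) :=
        mul_le_mul_of_nonneg_left h6 (by positivity)
      have h8 : s ^ 2 * (s⁻¹ / 2) = s / 2 := by field_simp
      push_cast
      nlinarith
    refine h3.trans (Real.sqrt_le_sqrt ?_)
    nlinarith

private theorem cov2_fiber (i : ℕ) (P : ZMod (3 ^ i) → ℝ) :
    ∑ c : ZMod (3 ^ (i + 1)), P (redm (i + 1) i c) = 3 * ∑ p, P p := by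
  classical
  let φ : ZMod (3 ^ (i + 1)) →+ ZMod (3 ^ i) :=
    AddMonoidHom.mk' (redm (i + 1) i) (redm_add (Nat.le_succ i))
  have hφ : ∀ c, φ c = redm (i + 1) i c := fun _ => rfl
  have hsurj : Function.Surjective φ := redm_surjective (Nat.le_succ i)
  have hcard : ∀ p : ZMod (3 ^ i), (univ.filter fun c => redm (i + 1) i c = p).card =
      (univ.filter fun c => redm (i + 1) i c = 0).card := by
    intro p
    exact AddMonoidHom.card_fiber_eq_of_mem_range φ (hsurj p) (hsurj 0)
  have hfib : ∀ g : ZMod (3 ^ i) → ℝ, ∑ c : ZMod (3 ^ (i + 1)), g (redm (i + 1) i c) =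
      ((univ.filter fun c => redm (i + 1) i c = 0).card : ℝ) * ∑ p, g p := by
    intro g
    rw [← Finset.sum_fiberwise_of_maps_to (s := univ) (t := univ) (g := redm (i + 1) i)
      (fun _ _ => mem_univ _), Finset.mul_sum]
    refine Finset.sum_congr rfl fun p _ => ?_
    rw [Finset.sum_congr rfl (g := fun _ => g p)
      (fun c hc => by rw [(Finset.mem_filter.1 hc).2]), Finset.sum_const, hcard, nsmul_eq_mul]
  have h1 := hfib fun _ => 1
  simp only [Finset.sum_const, Finset.card_univ, ZMod.card, nsmul_eq_mul, mul_one] at h1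
  rw [hfib]
  congr 1
  push_cast at h1
  rw [pow_succ] at h1
  have h3 : (0 : ℝ) < 3 ^ i := by positivity
  nlinarith

/-- proportion of good pairs -/
theorem good_split {l i : ℕ} (hi : i < l) (h : ℝ) (hh : 0 < h) {ν : ZMod (3 ^ l) → ℝ}
    (hν : IsProb ν) (hH : h ≤ Hlev ν (i + 1) - Hlev ν i) :
    ∃ W : ZMod (3 ^ l) × ZMod (3 ^ l) → ℝ, (∀ q, 0 ≤ W q) ∧
      (∀ q, W q ≠ 0 → redm l i q.1 = redm l i q.2 ∧ redm l (i + 1) q.1 ≠ redm l (i + 1) q.2) ∧
      ∑ q, W q = h ^ 2 / 6 ∧ ∀ z, ∑ q, W q * pr q z ≤ ν z := by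
  classical
  set R := redm l (i + 1) with hR
  set r := redm (i + 1) i with hr
  set ρ := redm l i with hρ
  have hRr : ∀ x, r (R x) = ρ x := fun x => redm_redm (Nat.le_succ i) hi x
  set P1 := push R ν with hP1
  set P0 := push ρ ν with hP0
  have hP01 : P0 = push r P1 := by
    rw [hP1, push_push, hP0]
    congr 1
    funext x
    exact (hRr x).symm
  have hP1p : IsProb P1 := push_isProb hν R
  have hP0p : IsProb P0 := push_isProb hν ρ
  have hle : ∀ c, P1 c ≤ P0 (r c) := by
    intro c
    rw [hP01]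
    unfold push
    refine (le_of_eq ?_).trans (Finset.single_le_sum
      (f := fun x => if r x = r c then P1 x else 0) ?_ (mem_univ c))
    · simp
    · intro x _
      show 0 ≤ if r x = r c then P1 x else 0
      split_ifs
      · exact hP1p.nonneg x
      · exact le_rfl
  set qc : ZMod (3 ^ (i + 1)) → ℝ := fun c => P1 c / P0 (r c) with hqc
  have hq0 : ∀ c, 0 ≤ qc c := fun c => div_nonneg (hP1p.nonneg _) (hP0p.nonneg _)
  have hq1 : ∀ c, qc c ≤ 1 := fun c => div_le_one_of_le₀ (hle c) (hP0p.nonneg _)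
  have hPq : ∀ c, P0 (r c) * qc c = P1 c := by
    intro c
    by_cases h0 : P0 (r c) = 0
    · have : P1 c = 0 := le_antisymm (h0 ▸ hle c) (hP1p.nonneg c)
      rw [h0, this, zero_mul]
    · exact mul_div_cancel₀ _ h0
  -- the entropy
  have hA : Hlev ν (i + 1) - Hlev ν i = ∑ c, P0 (r c) * Real.negMulLog (qc c) := by
    have e0 : Hlev ν i = -∑ c, P1 c * Real.log (P0 (r c)) := by
      rw [← sum_push_mul r P1 (fun p => Real.log (P0 p)), ← hP01]
      show ent P0 = _
      rw [ent, ← Finset.sum_neg_distrib]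
      refine Finset.sum_congr rfl fun p _ => ?_
      rw [Real.negMulLog]; ring
    have e1 : Hlev ν (i + 1) = ∑ c, Real.negMulLog (P1 c) := rfl
    rw [e0, e1, sub_neg_eq_add, ← Finset.sum_add_distrib]
    refine Finset.sum_congr rfl fun c _ => ?_
    by_cases h0 : P1 c = 0
    · have : qc c = 0 := by rw [hqc]; simp only; rw [h0, zero_div]
      rw [h0, this]; simp
    · have h1 : P0 (r c) ≠ 0 := by
        intro h1
        exact h0 (le_antisymm (h1 ▸ hle c) (hP1p.nonneg c))
      rw [Real.negMulLog, Real.negMulLog]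
      have h2 : Real.log (qc c) = Real.log (P1 c) - Real.log (P0 (r c)) := Real.log_div h0 h1
      have h3 := hPq c
      calc -P1 c * Real.log (P1 c) + P1 c * Real.log (P0 (r c)) =
          -(P1 c) * Real.log (qc c) := by rw [h2]; ring
        _ = _ := by rw [← h3]; ring
  set g := ∑ c, P1 c * (1 - qc c) with hg
  have hB : h ≤ Real.sqrt 3 * Real.sqrt (2 * g) := by
    refine hH.trans ?_
    rw [hA]
    calc ∑ c, P0 (r c) * Real.negMulLog (qc c) ≤
        ∑ c, Real.sqrt (P0 (r c)) * Real.sqrt (P0 (r c) * (2 * qc c * (1 - qc c))) := by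
          refine Finset.sum_le_sum fun c _ => ?_
          rw [Real.sqrt_mul (hP0p.nonneg _), ← mul_assoc, Real.mul_self_sqrt (hP0p.nonneg _)]
          exact mul_le_mul_of_nonneg_left (negMulLog_le_sqrt _ (hq0 c) (hq1 c)) (hP0p.nonneg _)
      _ ≤ Real.sqrt (∑ c, P0 (r c)) * Real.sqrt (∑ c, P0 (r c) * (2 * qc c * (1 - qc c))) := by
          refine Real.sum_sqrt_mul_sqrt_le _ (fun c => hP0p.nonneg _) fun c => ?_
          have := hq0 c
          have := hq1 c
          exact mul_nonneg (hP0p.nonneg _) (mul_nonneg (by linarith) (by linarith))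
      _ = _ := by
          rw [hr, cov2_fiber, hP0p.sum_one, mul_one]
          congr 2
          rw [hg, Finset.mul_sum]
          refine Finset.sum_congr rfl fun c _ => ?_
          rw [← hPq c]; ring
  have hg6 : h ^ 2 / 6 ≤ g := by
    have hg0 : 0 ≤ g := by
      refine Finset.sum_nonneg fun c _ => mul_nonneg (hP1p.nonneg _) ?_
      have := hq1 c
      linarith
    rw [← Real.sqrt_mul (by norm_num)] at hB
    have h2 := (Real.le_sqrt' hh).1 hB
    linarith
  have hgpos : 0 < g := lt_of_lt_of_le (by positivity) hg6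
  -- the weights
  set W0 : ZMod (3 ^ l) × ZMod (3 ^ l) → ℝ := fun q =>
    if ρ q.1 = ρ q.2 then ν q.1 * ν q.2 / P0 (ρ q.1) else 0 with hW0
  set c0 : ℝ := h ^ 2 / 6 / g with hc0
  have hc0p : 0 ≤ c0 := by positivity
  have hc01 : c0 ≤ 1 := div_le_one_of_le₀ hg6 hgpos.le
  have hW0p : ∀ q, 0 ≤ W0 q := by
    intro q
    simp only [hW0]
    split_ifs
    · exact div_nonneg (mul_nonneg (hν.nonneg _) (hν.nonneg _)) (hP0p.nonneg _)
    · exact le_rfl
  have hrow : ∀ z, ∑ x, W0 (z, x) ≤ ν z := by
    intro z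
    have e : ∑ x, W0 (z, x) = ν z * (P0 (ρ z) / P0 (ρ z)) := by
      have e1 : P0 (ρ z) = ∑ x, if ρ x = ρ z then ν x else 0 := rfl
      conv_rhs => rw [mul_div_assoc']
      rw [show ν z * P0 (ρ z) = ∑ x, (if ρ x = ρ z then ν z * ν x else 0) by
        rw [e1, Finset.mul_sum]
        refine Finset.sum_congr rfl fun x _ => ?_
        rw [mul_ite, mul_zero], Finset.sum_div]
      refine Finset.sum_congr rfl fun x _ => ?_
      simp only [hW0]
      by_cases hx : ρ x = ρ z
      · rw [if_pos hx, if_pos hx.symm]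
      · rw [if_neg hx, if_neg (fun h' => hx h'.symm), zero_div]
    rw [e]
    exact mul_le_of_le_one_right (hν.nonneg z) (div_self_le_one _)
  have hcol : ∀ z, ∑ x, W0 (x, z) ≤ ν z := by
    intro z
    refine le_trans (le_of_eq ?_) (hrow z)
    refine Finset.sum_congr rfl fun x _ => ?_
    simp only [hW0]
    by_cases hx : ρ x = ρ z
    · rw [if_pos hx, if_pos hx.symm, hx, mul_comm]
    · rw [if_neg hx, if_neg (fun h' => hx h'.symm)]
  have hgW : ∑ q : ZMod (3 ^ l) × ZMod (3 ^ l), (if R q.1 ≠ R q.2 then W0 q else 0) = g := by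
    rw [Fintype.sum_prod_type]
    have e1 : g = ∑ x, ν x * (1 - qc (R x)) := by
      rw [hg, ← sum_push_mul R ν (fun c => 1 - qc c)]
    rw [e1]
    refine Finset.sum_congr rfl fun x _ => ?_
    have e2 : ∀ y, (if R x ≠ R y then W0 (x, y) else 0) =
        ν x / P0 (ρ x) * ((if ρ y = ρ x then ν y else 0) - (if R y = R x then ν y else 0)) := by
      intro y
      simp only [hW0]
      by_cases h1 : R y = R x
      · have h2 : ρ y = ρ x := by rw [← hRr, ← hRr, h1]
        rw [if_neg (fun h' => h' h1.symm), if_pos h2, if_pos h1]; ring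
      · rw [if_pos (fun h' => h1 h'.symm), if_neg h1]
        by_cases h2 : ρ y = ρ x
        · rw [if_pos h2, if_pos h2.symm]; ring
        · rw [if_neg h2, if_neg (fun h' => h2 h'.symm)]; ring
    simp_rw [e2]
    rw [← Finset.mul_sum, Finset.sum_sub_distrib]
    have e3 : (∑ y, if ρ y = ρ x then ν y else 0) = P0 (ρ x) := rfl
    have e4 : (∑ y, if R y = R x then ν y else 0) = P1 (R x) := rfl
    rw [e3, e4, hqc]
    simp only
    rw [hRr]
    by_cases h0 : P0 (ρ x) = 0
    · have h1 : ν x = 0 := by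
        refine le_antisymm ?_ (hν.nonneg x)
        rw [← h0, ← e3]
        refine (le_of_eq ?_).trans (Finset.single_le_sum
          (f := fun y => if ρ y = ρ x then ν y else 0) ?_ (mem_univ x))
        · simp
        · intro y _
          show 0 ≤ if ρ y = ρ x then ν y else 0
          split_ifs
          · exact hν.nonneg y
          · exact le_rfl
      rw [h1]; ring
    · field_simp
  refine ⟨fun q => c0 * (if R q.1 ≠ R q.2 then W0 q else 0), ?_, ?_, ?_, ?_⟩
  · intro q
    refine mul_nonneg hc0p ?_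
    split_ifs
    · exact hW0p q
    · exact le_rfl
  · intro q hq
    have h1 := right_ne_zero_of_mul hq
    by_cases h2 : R q.1 = R q.2
    · rw [if_neg (fun h' => h' h2)] at h1; exact absurd rfl h1
    · rw [if_pos h2] at h1
      refine ⟨?_, h2⟩
      by_contra h3
      exact h1 (if_neg h3)
  · rw [← Finset.mul_sum, hgW, hc0, div_mul_cancel₀ _ hgpos.ne']
  · intro z
    have hle2 : ∀ q : ZMod (3 ^ l) × ZMod (3 ^ l),
        c0 * (if R q.1 ≠ R q.2 then W0 q else 0) ≤ W0 q := by
      intro q
      split_ifs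
      · exact mul_le_of_le_one_left (hW0p q) hc01
      · simpa using hW0p q
    have hpr : ∀ q : ZMod (3 ^ l) × ZMod (3 ^ l), 0 ≤ pr q z := by
      intro q
      unfold pr
      split_ifs <;> norm_num
    calc ∑ q : ZMod (3 ^ l) × ZMod (3 ^ l), c0 * (if R q.1 ≠ R q.2 then W0 q else 0) * pr q z ≤
        ∑ q : ZMod (3 ^ l) × ZMod (3 ^ l), W0 q * pr q z :=
          Finset.sum_le_sum fun q _ => mul_le_mul_of_nonneg_right (hle2 q) (hpr q)
      _ = 1 / 2 * ∑ x, W0 (z, x) + 1 / 2 * ∑ x, W0 (x, z) := by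
          unfold pr
          simp_rw [mul_add]
          rw [Finset.sum_add_distrib]
          congr 1
          · rw [Fintype.sum_prod_type, Finset.sum_eq_single z]
            · simp only [if_true]
              rw [← Finset.sum_mul]; ring
            · intro x _ hx
              refine Finset.sum_eq_zero fun y _ => ?_
              rw [if_neg (fun h' => hx h'.symm), mul_zero]
            · intro h'; exact absurd (mem_univ _) h'
          · rw [Fintype.sum_prod_type_right, Finset.sum_eq_single z]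
            · simp only [if_true]
              rw [← Finset.sum_mul]; ring
            · intro x _ hx
              refine Finset.sum_eq_zero fun y _ => ?_
              rw [if_neg (fun h' => hx h'.symm), mul_zero]
            · intro h'; exact absurd (mem_univ _) h'
      _ ≤ ν z := by
          have := hrow z
          have := hcol z
          linarith

end Pool.Agent.H51.KL
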