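import Pool.Agent.H51.KL.Cov1

/-!
JOB KL-COV3. Convolution powers of a measure with good pairs. (helper file for MP_ff4775_nt)

`conv_good`: write `ν = ν₁ + ν₂` with `ν₁ z = ∑ q, W q * pr q z`, `ν₂ ≥ 0`, `g = ∑ q, W q ≤ 1`.
Then `ν^{*r} ≥ ν₁^{*r}` pointwise (commutative algebra / induction), so
`ν^{*r} = ν₁^{*r} + ζ` with `ζ ≥ 0` of mass `1 - g^r`, and by `Hlev_diff_add`, `Hlev_diff_conv`,
`Hlev_diff_smul`:
`H_b - H_a` of `κ * ν^{*r}` is `≥` (that of `κ * ν₁^{*r}`) + (that of `κ * ζ`)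
`≥ (that of ν₁^{*r}) + (1-g^r)(H_b κ - H_a κ)`.
(`κ * ζ`: `≥ mass(ζ) (H_b κ - H_a κ)`; `κ * ν₁^{*r} = ν₁^{*r} * κ ≥` that of `ν₁^{*r}`.)
For `ν₁^{*r}`: for any nonnegative `ρ`, `ρ * ν₁ = ∑ q, W q • (ρ * pr q)`, so by `Hlev_diff_sum`
`Φ(ρ * ν₁) ≥ ∑ q, W q Φ(ρ * pr q)` where `Φ = H_b - H_a`. By induction on `r`,
`Φ(pairConv ps * ν₁^{*r}) ≥ g^r * c` if every list `ps'` of length `ps.length + r` of good pairs has
`Φ(pairConv ps') ≥ c`. With `ps = []` and `c = (b-a) log 3 - δ` (`pairs_hb`) this is the claim.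
-/

set_option autoImplicit false

namespace Pool.Agent.H51.KL

open Finset

private theorem cov3_mass {l : ℕ} (W : ZMod (3 ^ l) × ZMod (3 ^ l) → ℝ) :
    ∑ z, (∑ q, W q * pr q z) = ∑ q, W q := by
  rw [Finset.sum_comm]
  refine Finset.sum_congr rfl fun q _ => ?_
  rw [← Finset.mul_sum, (pr_isProb q).sum_one, mul_one]

private theorem cov3_pow_nonneg {l : ℕ} {ν : ZMod (3 ^ l) → ℝ} (h : ∀ x, 0 ≤ ν x) (r : ℕ)
    (x : ZMod (3 ^ l)) : 0 ≤ convPow ν r x := by
  induction r generalizing x with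
  | zero =>
    change (0 : ℝ) ≤ if x = 0 then 1 else 0
    split_ifs <;> norm_num
  | succ r ih => exact conv_nonneg ih h x

private theorem cov3_pow_mass {l : ℕ} (ν : ZMod (3 ^ l) → ℝ) (r : ℕ) :
    ∑ x, convPow ν r x = (∑ x, ν x) ^ r := by
  induction r with
  | zero =>
    change ∑ x : ZMod (3 ^ l), (if x = 0 then (1 : ℝ) else 0) = _
    simp
  | succ r ih =>
    change ∑ x, conv (convPow ν r) ν x = _
    rw [sum_conv, ih, pow_succ]

private theorem cov3_split {l : ℕ} {ν ν₁ ν₂ : ZMod (3 ^ l) → ℝ} (h : ν = fun x => ν₁ x + ν₂ x)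
    (h1 : ∀ x, 0 ≤ ν₁ x) (h2 : ∀ x, 0 ≤ ν₂ x) (r : ℕ) :
    ∃ ζ : ZMod (3 ^ l) → ℝ, (∀ x, 0 ≤ ζ x) ∧ convPow ν r = fun x => convPow ν₁ r x + ζ x := by
  induction r with
  | zero =>
    refine ⟨fun _ => 0, fun _ => le_rfl, ?_⟩
    funext x
    rw [add_zero]
    rfl
  | succ r ih =>
    obtain ⟨ζ, hζ, he⟩ := ih
    refine ⟨fun x => conv (convPow ν₁ r) ν₂ x + conv ζ ν x, ?_, ?_⟩
    · intro x
      refine add_nonneg (conv_nonneg (cov3_pow_nonneg h1 r) h2 x) (conv_nonneg hζ ?_ x)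
      intro y
      rw [h]
      exact add_nonneg (h1 y) (h2 y)
    · funext x
      change conv (convPow ν r) ν x = conv (convPow ν₁ r) ν₁ x + _
      rw [he, conv_add_left]
      have : conv (convPow ν₁ r) ν x = conv (convPow ν₁ r) ν₁ x + conv (convPow ν₁ r) ν₂ x := by
        rw [h, conv_add_right]
      rw [this]
      ring

private theorem cov3_pairs {l a b : ℕ} (hab : a ≤ b) (hb : b ≤ l) (c g : ℝ)
    (W : ZMod (3 ^ l) × ZMod (3 ^ l) → ℝ) (hW : ∀ q, 0 ≤ W q) (hsum : ∑ q, W q = g) (s : ℕ) :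
    ∀ (ps : List (ZMod (3 ^ l) × ZMod (3 ^ l))),
    (∀ q ∈ ps, W q ≠ 0) → (∀ ps' : List (ZMod (3 ^ l) × ZMod (3 ^ l)),
      ps'.length = ps.length + s → (∀ q ∈ ps', W q ≠ 0) →
      c ≤ Hlev (pairConv ps') b - Hlev (pairConv ps') a) →
    g ^ s * c ≤ Hlev (conv (pairConv ps) (convPow (fun z => ∑ q, W q * pr q z) s)) b -
      Hlev (conv (pairConv ps) (convPow (fun z => ∑ q, W q * pr q z) s)) a := by
  induction s with
  | zero =>
    intro ps hps h
    have : conv (pairConv ps) (convPow (fun z => ∑ q, W q * pr q z) 0) = pairConv ps :=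
      conv_delta _
    rw [this, pow_zero, one_mul]
    exact h ps (by simp) hps
  | succ s ih =>
    intro ps hps h
    have hν1 : ∀ z, 0 ≤ ∑ q, W q * pr q z := fun z =>
      Finset.sum_nonneg fun q _ => mul_nonneg (hW q) ((pr_isProb q).nonneg z)
    have key : conv (pairConv ps) (convPow (fun z => ∑ q, W q * pr q z) (s + 1)) =
        fun x => ∑ q, W q *
          conv (pairConv (q :: ps)) (convPow (fun z => ∑ q, W q * pr q z) s) x := by
      change conv (pairConv ps) (conv (convPow (fun z => ∑ q, W q * pr q z) s)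
        (fun z => ∑ q, W q * pr q z)) = _
      rw [conv_comm (convPow _ s) _, ← conv_assoc, conv_comm (conv _ _) _]
      have : conv (pairConv ps) (fun z => ∑ q, W q * pr q z) =
          fun x => ∑ q, W q * pairConv (q :: ps) x := by
        funext x
        rw [conv_sum_right]
        rfl
      rw [this]
      funext x
      rw [conv_sum_right]
      refine Finset.sum_congr rfl fun q _ => ?_
      rw [conv_comm]
    rw [key]
    refine le_trans ?_ (Hlev_diff_sum hab hb univ W (fun q _ => hW q) _ (fun q _ x =>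
      conv_nonneg (pairConv_isProb _).nonneg (cov3_pow_nonneg hν1 s) x))
    have : g ^ (s + 1) * c = ∑ q, W q * (g ^ s * c) := by
      rw [← Finset.sum_mul, hsum]
      ring
    rw [this]
    refine Finset.sum_le_sum fun q _ => ?_
    by_cases hq : W q = 0
    · rw [hq, zero_mul, zero_mul]
    · refine mul_le_mul_of_nonneg_left (ih (q :: ps) ?_ ?_) (hW q)
      · intro q' hq'
        rcases List.mem_cons.1 hq' with rfl | h'
        · exact hq
        · exact hps q' h'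
      · intro ps' hl hg'
        refine h ps' ?_ hg'
        rw [hl, List.length_cons]
        ring

theorem conv_good {l a b r : ℕ} (hab : a ≤ b) (hb : b ≤ l) (c g : ℝ) (hg : g ≤ 1)
    {κ ν : ZMod (3 ^ l) → ℝ} (hκ : IsProb κ) (hν : IsProb ν)
    (W : ZMod (3 ^ l) × ZMod (3 ^ l) → ℝ) (hW : ∀ q, 0 ≤ W q) (hsum : ∑ q, W q = g)
    (hle : ∀ z, ∑ q, W q * pr q z ≤ ν z)
    (hc : ∀ ps : List (ZMod (3 ^ l) × ZMod (3 ^ l)), ps.length = r → (∀ q ∈ ps, W q ≠ 0) →
      c ≤ Hlev (pairConv ps) b - Hlev (pairConv ps) a) :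
    g ^ r * c + (1 - g ^ r) * (Hlev κ b - Hlev κ a) ≤
      Hlev (conv κ (convPow ν r)) b - Hlev (conv κ (convPow ν r)) a := by
  set ν₁ : ZMod (3 ^ l) → ℝ := fun z => ∑ q, W q * pr q z with hν₁
  have h1 : ∀ x, 0 ≤ ν₁ x := fun z =>
    Finset.sum_nonneg fun q _ => mul_nonneg (hW q) ((pr_isProb q).nonneg z)
  obtain ⟨ζ, hζ, he⟩ := cov3_split (ν := ν) (ν₁ := ν₁) (ν₂ := fun x => ν x - ν₁ x)
    (by funext x; ring) h1 (fun x => sub_nonneg.2 (hle x)) r
  have hmass : ∑ x, ζ x = 1 - g ^ r := by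
    have e1 := cov3_pow_mass ν r
    rw [hν.sum_one, one_pow, he, Finset.sum_add_distrib, cov3_pow_mass ν₁ r, hν₁, cov3_mass,
      hsum] at e1
    linarith
  have e2 : conv κ (convPow ν r) = fun x => conv κ (convPow ν₁ r) x + conv κ ζ x := by
    funext x
    rw [he, conv_add_right]
  rw [e2]
  refine le_trans (add_le_add ?_ ?_) (Hlev_diff_add hab hb
    (conv_nonneg hκ.nonneg (cov3_pow_nonneg h1 r)) (conv_nonneg hκ.nonneg hζ))
  · have e3 := cov3_pairs hab hb c g W hW hsum r [] (by simp) (by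
      intro ps' hl hg'
      exact hc ps' (by simpa using hl) hg')
    have e4 : conv (pairConv []) (convPow ν₁ r) = convPow ν₁ r := by
      rw [conv_comm]
      exact conv_delta _
    rw [e4] at e3
    refine e3.trans ?_
    rw [conv_comm κ]
    exact Hlev_diff_conv hab hb (cov3_pow_nonneg h1 r) hκ
  · have e5 := Hlev_diff_sum hab hb univ ζ (fun y _ => hζ y) (fun y x => κ (x - y))
      (fun y _ x => hκ.nonneg _)
    have e6 : ∀ y : ZMod (3 ^ l), ζ y * (Hlev (fun x => κ (x - y)) b - Hlev (fun x => κ (x - y)) a) =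
        ζ y * (Hlev κ b - Hlev κ a) := by
      intro y
      rw [Hlev_translate hb, Hlev_translate (hab.trans hb)]
    simp only [e6] at e5
    rw [← Finset.sum_mul, hmass] at e5
    exact e5

end Pool.Agent.H51.KL
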