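import Pool.Agent.H51.KL.Cov1b
import Pool.Agent.H51.KL.Cov2
import Pool.Agent.H51.KL.Cov3

/-!
JOB KL-COV4. The covering lemma. (helper file for MP_ff4775_nt)

`cover_gain`: let `η_i = Hlev ν (i+1) - Hlev ν i ∈ [0, log 3]`, `∑_{i<l} η_i = ent ν ≥ h l`. The set `I` of
`i` with `η_i ≥ h/2` has at least `h l / (2 log 3)` elements. Let `J` be the set of `j` with
`1 ≤ j < L` such that `I` meets `[(j-1)M, jM)`; `J.card ≥ I.card / M - 1 ≥ h L/(2 log 3) - 1 ≥
h L / (4 log 3)` for `L ≥ L₀`. For `j ∈ J` choose `i ∈ I ∩ [(j-1)M, jM)` and apply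
`good_split` (with `h/2`), `conv_good` with `a = jM`, `b = (j+1)M`, `b - i ≤ 2M =: R`, `r` from
`pairs_hb R δ`, `ρ₂ = (h²/24)^r`: `hb (κ * ν^{*r}) M j ≥ ρ₂ (M log 3 - δ) + (1-ρ₂) hb κ M j`.
For `j ∉ J` use `Hlev_diff_conv`. Sum over `j` (`sum_hb`) and use `kv_iter`.
-/

set_option autoImplicit false

namespace Pool.Agent.H51.KL

open Finset

private theorem cov4_sum_eta {l : ℕ} {ν : ZMod (3 ^ l) → ℝ} (hν : IsProb ν) :
    ∑ i ∈ range l, (Hlev ν (i + 1) - Hlev ν i) = ent ν := by
  rw [Finset.sum_range_sub, Hlev_self, Hlev_zero hν, sub_zero]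

private theorem cov4_I {l : ℕ} (h : ℝ) (hh : 0 < h) {ν : ZMod (3 ^ l) → ℝ} (hν : IsProb ν)
    (hent : h * l ≤ ent ν) :
    h * l / 2 ≤ (((range l).filter fun i => h / 2 ≤ Hlev ν (i + 1) - Hlev ν i).card : ℝ) *
      Real.log 3 := by
  have h3 : 0 < Real.log 3 := Real.log_pos (by norm_num)
  have e1 := cov4_sum_eta hν
  have e2 : ∑ i ∈ range l, (Hlev ν (i + 1) - Hlev ν i) ≤
      ∑ i ∈ range l, ((if h / 2 ≤ Hlev ν (i + 1) - Hlev ν i then Real.log 3 else 0) + h / 2) := by
    refine Finset.sum_le_sum fun i hi => ?_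
    rw [mem_range] at hi
    have hle := Hlev_diff_le (l := l) (a := i) (b := i + 1) (Nat.le_succ i) hi hν
    push_cast at hle
    split_ifs with hc
    · have : ((i : ℝ) + 1 - i) * Real.log 3 = Real.log 3 := by ring
      rw [this] at hle
      linarith
    · push Not at hc
      linarith
  rw [Finset.sum_add_distrib, ← Finset.sum_filter, Finset.sum_const, Finset.sum_const,
    card_range, nsmul_eq_mul, nsmul_eq_mul, e1] at e2
  linarith

private theorem cov4_card {l L M : ℕ} (hM : 0 < M) (hl : l = L * M) (I : Finset ℕ)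
    (hI : I ⊆ range l) :
    I.card ≤ (((range L).filter fun j => 1 ≤ j ∧ ∃ i ∈ I, (j - 1) * M ≤ i ∧ i < j * M).card + 1)
      * M := by
  classical
  set J := (range L).filter fun j => 1 ≤ j ∧ ∃ i ∈ I, (j - 1) * M ≤ i ∧ i < j * M with hJ
  have hsub : I ⊆ (insert L J).biUnion (fun j => Finset.Ico ((j - 1) * M) (j * M)) := by
    intro i hi
    have hil := hI hi
    rw [mem_range, hl] at hil
    have hdiv : i / M < L := (Nat.div_lt_iff_lt_mul hM).2 hil
    have h1 : i / M * M ≤ i := Nat.div_mul_le_self i M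
    have h2 : i < (i / M + 1) * M := by
      rw [add_mul, one_mul]
      exact Nat.lt_div_mul_add hM
    rw [mem_biUnion]
    refine ⟨i / M + 1, ?_, ?_⟩
    · rw [mem_insert]
      by_cases hc : i / M + 1 = L
      · exact Or.inl hc
      · right
        rw [hJ, mem_filter, mem_range]
        refine ⟨lt_of_le_of_ne hdiv hc, Nat.le_add_left 1 _, i, hi, ?_, h2⟩
        rw [Nat.add_sub_cancel]
        exact h1
    · rw [mem_Ico, Nat.add_sub_cancel]
      exact ⟨h1, h2⟩
  refine (card_le_card hsub).trans (card_biUnion_le.trans ?_)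
  have h3 : ∀ j ∈ insert L J, (Finset.Ico ((j - 1) * M) (j * M)).card ≤ M := by
    intro j _
    rw [Nat.card_Ico]
    rcases j with _ | j
    · simp
    · rw [Nat.add_sub_cancel, add_mul, one_mul]
      omega
  refine (Finset.sum_le_card_nsmul _ _ _ h3).trans ?_
  rw [smul_eq_mul]
  exact Nat.mul_le_mul_right _ (card_insert_le _ _)

/-- covering lemma: if `ν` has entropy `≥ h l`, then for a proportion `h/(4 log 3)` of the blocks `j` of
`M` digits the convolution with `ν` gains a fixed proportion of what is missing in the block. -/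
theorem cover_gain (h δ : ℝ) (hh : 0 < h) (hδ : 0 < δ) (M : ℕ) (hM : 0 < M) :
    ∃ (C : ℝ) (L₀ : ℕ), 0 < C ∧ ∀ (l L : ℕ), l = L * M → L₀ ≤ L →
      ∀ ν : ZMod (3 ^ l) → ℝ, IsProb ν → h * l ≤ ent ν →
        ∃ J : Finset ℕ, J ⊆ range L ∧ h / (4 * Real.log 3) * L ≤ J.card ∧
          ∀ κ : ZMod (3 ^ l) → ℝ, IsProb κ →
            C * ∑ j ∈ J, (M * Real.log 3 - δ - hb κ M j) ≤ ent (conv κ ν) - ent κ := by
  classical
  obtain ⟨r, hr⟩ := pairs_hb (2 * M) δ hδ
  have h3 : 0 < Real.log 3 := Real.log_pos (by norm_num)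
  have h32 : Real.log 3 < 2 := by
    have : Real.log 3 < Real.log (Real.exp 1 ^ 2) := by
      apply Real.log_lt_log (by norm_num)
      have := Real.exp_one_gt_d9
      nlinarith
    rw [Real.log_pow, Real.log_exp] at this
    simpa using this
  set g : ℝ := (h / 2) ^ 2 / 6 with hg
  have hgpos : 0 < g := by positivity
  refine ⟨g ^ r / (r + 1), ⌈4 * Real.log 3 / h⌉₊ + 1, by positivity, ?_⟩
  intro l L hl hL ν hν hent
  have hL1 : 1 ≤ L := by omega
  have hLr : 4 * Real.log 3 / h ≤ L := by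
    refine (Nat.le_ceil _).trans ?_
    exact_mod_cast (by omega : ⌈4 * Real.log 3 / h⌉₊ ≤ L)
  have hlpos : 0 < l := by
    rw [hl]
    exact Nat.mul_pos hL1 hM
  have hhle : h ≤ Real.log 3 := by
    have e1 := Hlev_diff_le (l := l) (a := 0) (b := l) (Nat.zero_le _) le_rfl hν
    rw [Hlev_self, Hlev_zero hν] at e1
    have hl' : (0 : ℝ) < l := by exact_mod_cast hlpos
    push_cast at e1
    nlinarith
  have hg1 : g ≤ 1 := by
    rw [hg]
    nlinarith
  set I := (range l).filter fun i => h / 2 ≤ Hlev ν (i + 1) - Hlev ν i with hI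
  set J := (range L).filter fun j => 1 ≤ j ∧ ∃ i ∈ I, (j - 1) * M ≤ i ∧ i < j * M with hJ
  refine ⟨J, Finset.filter_subset _ _, ?_, ?_⟩
  · have e1 := cov4_I h hh hν hent
    rw [← hI] at e1
    have e2 := cov4_card hM hl I (Finset.filter_subset _ _)
    rw [← hJ] at e2
    have e3 : (I.card : ℝ) ≤ ((J.card : ℝ) + 1) * M := by exact_mod_cast e2
    have hM' : (0 : ℝ) < M := by exact_mod_cast hM
    have hl' : (l : ℝ) = L * M := by rw [hl]; push_cast; ring
    rw [hl'] at e1
    have e4 : h * (L * M) / 2 ≤ ((J.card : ℝ) + 1) * M * Real.log 3 :=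
      e1.trans (mul_le_mul_of_nonneg_right e3 h3.le)
    have e5 : h * L / 2 ≤ ((J.card : ℝ) + 1) * Real.log 3 := by
      have : h * L / 2 * M ≤ ((J.card : ℝ) + 1) * Real.log 3 * M := by nlinarith
      exact le_of_mul_le_mul_right this hM'
    have e6 : 4 * Real.log 3 ≤ h * L := by
      rw [div_le_iff₀ hh] at hLr
      linarith
    rw [div_mul_eq_mul_div, div_le_iff₀ (by positivity)]
    nlinarith
  · intro κ hκ
    have hkv := kv_iter hκ hν r
    have hG := ent_le_conv hκ hν
    have hpow := convPow_isProb hν r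
    have e1 : ent (conv κ (convPow ν r)) - ent κ =
        ∑ j ∈ range L, (hb (conv κ (convPow ν r)) M j - hb κ M j) := by
      rw [Finset.sum_sub_distrib, sum_hb hl hκ, sum_hb hl (conv_isProb hκ hpow)]
    have hbl : ∀ j ∈ range L, (j + 1) * M ≤ l := by
      intro j hj
      rw [mem_range] at hj
      rw [hl]
      exact Nat.mul_le_mul_right _ hj
    have e2 : ∀ j ∈ range L, 0 ≤ hb (conv κ (convPow ν r)) M j - hb κ M j := by
      intro j hj
      have := Hlev_diff_conv (a := j * M) (b := (j + 1) * M)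
        (Nat.mul_le_mul_right _ (Nat.le_succ j)) (hbl j hj) hκ.nonneg hpow
      unfold hb
      linarith
    have e3 : ∀ j ∈ J, g ^ r * (M * Real.log 3 - δ - hb κ M j) ≤
        hb (conv κ (convPow ν r)) M j - hb κ M j := by
      intro j hj
      rw [hJ, mem_filter] at hj
      obtain ⟨hjL, hj1, i, hi, hi1, hi2⟩ := hj
      rw [hI, mem_filter, mem_range] at hi
      obtain ⟨hil, hih⟩ := hi
      obtain ⟨W, hW0, hWg, hWs, hWle⟩ := good_split hil (h / 2) (by positivity) hν hih
      have hja : i ≤ j * M := hi2.le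
      have hb1 : (j + 1) * M - i ≤ 2 * M := by
        obtain ⟨j', rfl⟩ : ∃ j', j = j' + 1 := ⟨j - 1, by omega⟩
        rw [Nat.add_sub_cancel] at hi1
        have : (j' + 1 + 1) * M = j' * M + 2 * M := by ring
        omega
      have key := conv_good (l := l) (a := j * M) (b := (j + 1) * M) (r := r)
        (Nat.mul_le_mul_right _ (Nat.le_succ j)) (hbl j hjL)
        ((((j + 1) * M : ℕ) : ℝ) * Real.log 3 - ((j * M : ℕ) : ℝ) * Real.log 3 - δ) g hg1 hκ hν W
        hW0 (by rw [hWs]) hWle (by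
          intro ps hps hq
          have := hr l i (j * M) ((j + 1) * M) hja (Nat.mul_le_mul_right _ (Nat.le_succ j))
            (hbl j hjL) hb1 ps hps.ge (fun q hq' => hWg q (hq q hq'))
          rw [sub_mul] at this
          exact this)
      have hc : (((j + 1) * M : ℕ) : ℝ) * Real.log 3 - ((j * M : ℕ) : ℝ) * Real.log 3 - δ =
          M * Real.log 3 - δ := by
        push_cast
        ring
      rw [hc] at key
      unfold hb
      linarith
    have e4 : g ^ r * ∑ j ∈ J, (M * Real.log 3 - δ - hb κ M j) ≤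
        ent (conv κ (convPow ν r)) - ent κ := by
      rw [e1, Finset.mul_sum]
      refine (Finset.sum_le_sum e3).trans ?_
      refine Finset.sum_le_sum_of_subset_of_nonneg (Finset.filter_subset _ _) ?_
      intro j hj _
      exact e2 j hj
    rw [div_mul_eq_mul_div, div_le_iff₀ (by positivity)]
    refine e4.trans (hkv.trans ?_)
    nlinarith

end Pool.Agent.H51.KL
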