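import Mathlib

/-!
Definitions for the preimage-counting theorem for the 3x+1 map (MP_ff4775_nt).

Part 1: entropy of weight functions on finite types, convolution, reductions `ZMod (3^l) → ZMod (3^i)`.
Part 2: affine systems `t ↦ (2^A t - β)/3^B` on the integers and the weighted number of words.
Part 3: the letter system (inverse branches of the accelerated 3x+1 map) and the block system.
-/

set_option autoImplicit false

namespace Pool.Agent.H51.KL

open Finset

/-! ### Part 1 -/

section part1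

variable {α β G : Type}

/-- Shannon entropy (nats) of a weight function on a finite type. -/
noncomputable def ent [Fintype α] (ρ : α → ℝ) : ℝ := ∑ x, Real.negMulLog (ρ x)

/-- image of a weight function under a map. -/
noncomputable def push [Fintype α] [DecidableEq β] (p : α → β) (ρ : α → ℝ) : β → ℝ :=
  fun y => ∑ x, if p x = y then ρ x else 0

/-- probability weights. -/
structure IsProb [Fintype α] (ρ : α → ℝ) : Prop where
  nonneg : ∀ x, 0 ≤ ρ x
  sum_one : ∑ x, ρ x = 1

/-- convolution. -/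
noncomputable def conv [Fintype G] [AddCommGroup G] (κ ν : G → ℝ) : G → ℝ :=
  fun x => ∑ y, ν y * κ (x - y)

/-- convolution powers. -/
noncomputable def convPow [Fintype G] [AddCommGroup G] [DecidableEq G] (ν : G → ℝ) : ℕ → G → ℝ
  | 0 => fun x => if x = 0 then 1 else 0
  | r + 1 => conv (convPow ν r) ν

/-- reduction `ZMod (3^l) → ZMod (3^i)`; it is the natural ring homomorphism for `i ≤ l`. -/
def redm (l i : ℕ) (x : ZMod (3 ^ l)) : ZMod (3 ^ i) := ((x.val : ℕ) : ZMod (3 ^ i))

/-- entropy of the first `i` base-3 digits. -/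
noncomputable def Hlev {l : ℕ} (ρ : ZMod (3 ^ l) → ℝ) (i : ℕ) : ℝ := ent (push (redm l i) ρ)

/-- entropy of the `j`-th block of `M` digits given the preceding digits. -/
noncomputable def hb {l : ℕ} (ρ : ZMod (3 ^ l) → ℝ) (M j : ℕ) : ℝ :=
  Hlev ρ ((j + 1) * M) - Hlev ρ (j * M)

end part1

/-! ### Part 2 -/

/-- an affine system: the letter `i` acts by `t ↦ (2^(A i) t - β i) / 3^B`
(on the `t` for which this is an integer). -/
structure Sys (ι : Type) where
  B : ℕ
  A : ι → ℕ
  β : ι → ℤ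

namespace Sys

variable {ι : Type} (S : Sys ι)

/-- the weighted number of words of length `n` that can be applied to `t`. -/
noncomputable def f [Fintype ι] (v : ι → ℝ) : ℕ → ℤ → ℝ
  | 0, _ => 1
  | n + 1, t => ∑ i, if (3 : ℤ) ^ S.B ∣ 2 ^ S.A i * t - S.β i then
      v i * f v n ((2 ^ S.A i * t - S.β i) / 3 ^ S.B) else 0

/-- `f` as a function on residues. -/
noncomputable def fz [Fintype ι] (v : ι → ℝ) (n : ℕ) (x : ZMod (3 ^ (S.B * n))) : ℝ :=
  S.f v n ((x.val : ℕ) : ℤ)

/-- total exponent of a word. -/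
def wA {n : ℕ} (w : Fin n → ι) : ℕ := ∑ j, S.A (w j)

/-- affine constant of a word (`w 0` is applied first). -/
def wβ : {n : ℕ} → (Fin n → ι) → ℤ
  | 0, _ => 0
  | _ + 1, w => 2 ^ S.wA (Fin.tail w) * S.β (w 0) + 3 ^ S.B * wβ (Fin.tail w)

/-- the word `w` can be applied to `t`. -/
def WDom {n : ℕ} (w : Fin n → ι) (t : ℤ) : Prop :=
  (3 : ℤ) ^ (S.B * n) ∣ 2 ^ S.wA w * t - S.wβ w

instance {n : ℕ} (w : Fin n → ι) (t : ℤ) : Decidable (S.WDom w t) := by
  unfold WDom; infer_instance

/-- the result of applying the word `w` to `t`. -/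
def wnxt {n : ℕ} (w : Fin n → ι) (t : ℤ) : ℤ := (2 ^ S.wA w * t - S.wβ w) / 3 ^ (S.B * n)

/-- weight of a word. -/
noncomputable def wv (v : ι → ℝ) {n : ℕ} (w : Fin n → ι) : ℝ := ∏ j, v (w j)

/-- logarithm of the negative moment of order `lam` of `f`. -/
noncomputable def logM [Fintype ι] (v : ι → ℝ) (lam : ℝ) (n : ℕ) : ℝ :=
  Real.log ((∑ t ∈ range (3 ^ (S.B * n)), (S.f v n (t : ℤ)) ^ (-lam)) / 3 ^ (S.B * n))

end Sys

/-! ### Part 3 -/

/-- the letter system: the letter `a : Fin D` acts by `y ↦ (2^(a+1) y - 1) / 3`. -/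
def Ls (D : ℕ) : Sys (Fin D) where
  B := 1
  A := fun a => (a : ℕ) + 1
  β := fun _ => 1

/-- natural weights of the letters. -/
noncomputable def lv (D : ℕ) : Fin D → ℝ := fun a => 3 / 2 ^ ((a : ℕ) + 1)

/-- `3^n` times the probability that the Syracuse variable is `≡ y mod 3^n` (letters `≤ D`). -/
noncomputable def p (D n : ℕ) (y : ℤ) : ℝ := (Ls D).f (lv D) n y

/-- index type of the block system: words `w` of `B` letters which map the class `1 mod 3` to
itself and whose total exponent is between `(2-ε) B` and `5 B`. -/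
def BIdx (B : ℕ) (ε : ℝ) : Type :=
  {w : Fin B → Fin (5 * B) // (3 : ℤ) ∣ (Ls (5 * B)).wβ w + 3 ^ B - 2 ^ (Ls (5 * B)).wA w ∧
    (2 - ε) * B ≤ ((Ls (5 * B)).wA w : ℝ) ∧ (Ls (5 * B)).wA w ≤ 5 * B}

noncomputable instance (B : ℕ) (ε : ℝ) : Fintype (BIdx B ε) := by
  classical
  unfold BIdx; infer_instance

noncomputable instance (B : ℕ) (ε : ℝ) : DecidableEq (BIdx B ε) := Classical.decEq _

/-- the block system, in the coordinate `t`, `y = 1 + 3 t`. -/
noncomputable def Bs (B : ℕ) (ε : ℝ) : Sys (BIdx B ε) where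
  B := B
  A := fun w => (Ls (5 * B)).wA w.1
  β := fun w => ((Ls (5 * B)).wβ w.1 + 3 ^ B - 2 ^ (Ls (5 * B)).wA w.1) / 3

/-- capped weights. -/
noncomputable def bv (B : ℕ) (ε al : ℝ) : BIdx B ε → ℝ :=
  fun w => min 1 ((2 : ℝ) ^ (al * B - ((Ls (5 * B)).wA w.1 : ℝ)))

end Pool.Agent.H51.KL
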