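import Pool.Agent.H51.KL.Defs

/-!
JOB KL-ENT1. Elementary entropy inequalities on finite types. (helper file for MP_ff4775_nt)

Everything follows from the log-sum inequality
`(s+s') log((t+t')/(s+s')) ≥ s log(t/s) + s' log(t'/s')` (`s,s' ≥ 0`, `t ≥ s`, `t' ≥ s'`), i.e. the
superadditivity of the homogeneous concave function `T(s,t) = s log t - s log s` (`T(0,t) = 0`).
One has `cent p ρ = ∑ x, (ρ x * log (push p ρ (p x)) - ρ x * log (ρ x))`
because `∑ y, P y log P y = ∑ x, ρ x log P (p x)` for `P = push p ρ`.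
-/

set_option autoImplicit false

namespace Pool.Agent.H51.KL

open Finset

variable {α β γ : Type} [Fintype α] [Fintype β] [Fintype γ] [DecidableEq β] [DecidableEq γ]

private theorem ent1_T (s t u v : ℝ) (hs : 0 ≤ s) (ht : 0 ≤ t) (hu : s ≤ u) (hv : t ≤ v) :
    (s * Real.log u - s * Real.log s) + (t * Real.log v - t * Real.log t) ≤
      (s + t) * Real.log (u + v) - (s + t) * Real.log (s + t) := by
  rcases hs.eq_or_lt with rfl | hs'
  · rcases ht.eq_or_lt with rfl | ht'
    · simp
    · have hv' : 0 < v := lt_of_lt_of_le ht' hv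
      have h1 : Real.log v ≤ Real.log (u + v) := Real.log_le_log hv' (by linarith)
      have h2 := mul_le_mul_of_nonneg_left h1 ht'.le
      simp only [zero_mul, zero_add, sub_self]
      linarith
  · have hu' : 0 < u := lt_of_lt_of_le hs' hu
    rcases ht.eq_or_lt with rfl | ht'
    · have h1 : Real.log u ≤ Real.log (u + v) := Real.log_le_log hu' (by linarith)
      have h2 := mul_le_mul_of_nonneg_left h1 hs'.le
      simp only [zero_mul, add_zero, sub_self]
      linarith
    · have hv' : 0 < v := lt_of_lt_of_le ht' hv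
      have hst : 0 < s + t := by positivity
      have huv : 0 < u + v := by positivity
      have h1 : Real.log (u * (s + t) / (s * (u + v))) ≤ u * (s + t) / (s * (u + v)) - 1 :=
        Real.log_le_sub_one_of_pos (by positivity)
      have h2 : Real.log (v * (s + t) / (t * (u + v))) ≤ v * (s + t) / (t * (u + v)) - 1 :=
        Real.log_le_sub_one_of_pos (by positivity)
      have e1 : Real.log (u * (s + t) / (s * (u + v))) =
          Real.log u + Real.log (s + t) - (Real.log s + Real.log (u + v)) := by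
        rw [Real.log_div (by positivity) (by positivity), Real.log_mul hu'.ne' hst.ne',
          Real.log_mul hs'.ne' huv.ne']
      have e2 : Real.log (v * (s + t) / (t * (u + v))) =
          Real.log v + Real.log (s + t) - (Real.log t + Real.log (u + v)) := by
        rw [Real.log_div (by positivity) (by positivity), Real.log_mul hv'.ne' hst.ne',
          Real.log_mul ht'.ne' huv.ne']
      rw [e1] at h1
      rw [e2] at h2
      have h3 := mul_le_mul_of_nonneg_left h1 hs'.le
      have h4 := mul_le_mul_of_nonneg_left h2 ht'.le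
      have e3 : s * (u * (s + t) / (s * (u + v)) - 1) = u * (s + t) / (u + v) - s := by
        field_simp
      have e4 : t * (v * (s + t) / (t * (u + v)) - 1) = v * (s + t) / (u + v) - t := by
        field_simp
      have e5 : u * (s + t) / (u + v) + v * (s + t) / (u + v) = s + t := by
        field_simp
      rw [e3] at h3
      rw [e4] at h4
      nlinarith [h3, h4, e5]

private noncomputable def ent1Phi (s s' : ℝ) : ℝ :=
  Real.negMulLog s + Real.negMulLog s' - Real.negMulLog (s + s')

private theorem ent1Phi_add (s s' t t' : ℝ) (hs : 0 ≤ s) (hs' : 0 ≤ s') (ht : 0 ≤ t)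
    (ht' : 0 ≤ t') : ent1Phi s s' + ent1Phi t t' ≤ ent1Phi (s + t) (s' + t') := by
  have h1 := ent1_T s t (s + s') (t + t') hs ht (by linarith) (by linarith)
  have h2 := ent1_T s' t' (s + s') (t + t') hs' ht' (by linarith) (by linarith)
  have e : s + t + (s' + t') = s + s' + (t + t') := by ring
  simp only [ent1Phi, Real.negMulLog, e]
  nlinarith [h1, h2]

private theorem ent1Phi_zero : ent1Phi 0 0 = 0 := by
  simp [ent1Phi]

private theorem ent1Phi_sum {ι : Type} (S : Finset ι) (a b : ι → ℝ) (ha : ∀ i ∈ S, 0 ≤ a i)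
    (hb : ∀ i ∈ S, 0 ≤ b i) : ∑ i ∈ S, ent1Phi (a i) (b i) ≤
      ent1Phi (∑ i ∈ S, a i) (∑ i ∈ S, b i) := by
  classical
  induction S using Finset.induction_on with
  | empty => simp [ent1Phi_zero]
  | insert i S hi ih =>
    rw [Finset.sum_insert hi, Finset.sum_insert hi, Finset.sum_insert hi]
    have h1 := ih (fun j hj => ha j (Finset.mem_insert_of_mem hj))
      (fun j hj => hb j (Finset.mem_insert_of_mem hj))
    have h2 := ent1Phi_add (a i) (b i) (∑ j ∈ S, a j) (∑ j ∈ S, b j)
      (ha i (Finset.mem_insert_self i S)) (hb i (Finset.mem_insert_self i S))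
      (Finset.sum_nonneg fun j hj => ha j (Finset.mem_insert_of_mem hj))
      (Finset.sum_nonneg fun j hj => hb j (Finset.mem_insert_of_mem hj))
    linarith

/-- integration against a push forward -/
theorem sum_push_mul (p : α → β) (ρ : α → ℝ) (g : β → ℝ) :
    ∑ y, push p ρ y * g y = ∑ x, ρ x * g (p x) := by
  unfold push
  simp_rw [Finset.sum_mul]
  rw [Finset.sum_comm]
  refine Finset.sum_congr rfl fun x _ => ?_
  simp_rw [ite_mul, zero_mul]
  rw [Finset.sum_ite_eq]
  simp

private theorem ent1_sum_push (p : α → β) (ρ : α → ℝ) : ∑ y, push p ρ y = ∑ x, ρ x := by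
  have h := sum_push_mul p ρ (fun _ => 1)
  simpa using h

private theorem ent1_push_nonneg (p : α → β) {ρ : α → ℝ} (h : ∀ x, 0 ≤ ρ x) (y : β) :
    0 ≤ push p ρ y := by
  unfold push
  refine Finset.sum_nonneg fun x _ => ?_
  split_ifs
  · exact h x
  · exact le_refl _

theorem push_isProb {ρ : α → ℝ} (h : IsProb ρ) (p : α → β) : IsProb (push p ρ) :=
  ⟨ent1_push_nonneg p h.nonneg, by rw [ent1_sum_push, h.sum_one]⟩

theorem push_push (p : α → β) (q : β → γ) (ρ : α → ℝ) :
    push q (push p ρ) = push (fun x => q (p x)) ρ := by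
  funext z
  have h := sum_push_mul p ρ (fun y => if q y = z then 1 else 0)
  simp only [mul_ite, mul_one, mul_zero] at h
  exact h

theorem push_sum {ι : Type} (s : Finset ι) (c : ι → ℝ) (ρ : ι → α → ℝ) (p : α → β) (y : β) :
    push p (fun x => ∑ i ∈ s, c i * ρ i x) y = ∑ i ∈ s, c i * push p (ρ i) y := by
  unfold push
  simp_rw [Finset.mul_sum]
  rw [Finset.sum_comm]
  refine Finset.sum_congr rfl fun x _ => ?_
  split_ifs
  · rfl
  · simp

theorem push_equiv_apply (e : α ≃ β) (ρ : α → ℝ) (y : β) : push e ρ y = ρ (e.symm y) := by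
  unfold push
  rw [Finset.sum_eq_single (e.symm y)]
  · simp
  · intro x _ hx
    rw [if_neg]
    intro h
    apply hx
    rw [← h, e.symm_apply_apply]
  · intro h
    exact absurd (Finset.mem_univ _) h

/-- entropy is invariant under bijections -/
theorem ent_push_equiv (e : α ≃ β) (ρ : α → ℝ) : ent (push e ρ) = ent ρ := by
  unfold ent
  simp_rw [push_equiv_apply]
  exact Equiv.sum_comp e.symm (fun x => Real.negMulLog (ρ x))

/-- entropy is invariant under bijections -/
theorem ent_push_bijective {p : α → β} (hp : Function.Bijective p) (ρ : α → ℝ) :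
    ent (push p ρ) = ent ρ :=
  ent_push_equiv (Equiv.ofBijective p hp) ρ

/-- superadditivity of the conditional entropy (for unnormalised weights) -/
theorem cent_add (p : α → β) {ρ ρ' : α → ℝ} (h : ∀ x, 0 ≤ ρ x) (h' : ∀ x, 0 ≤ ρ' x) :
    (ent ρ - ent (push p ρ)) + (ent ρ' - ent (push p ρ')) ≤
      ent (fun x => ρ x + ρ' x) - ent (push p (fun x => ρ x + ρ' x)) := by
  have key : ∑ x, ent1Phi (ρ x) (ρ' x) ≤ ∑ y, ent1Phi (push p ρ y) (push p ρ' y) := by
    rw [← ent1_sum_push p (fun x => ent1Phi (ρ x) (ρ' x))]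
    refine Finset.sum_le_sum fun y _ => ?_
    have h1 := ent1Phi_sum (Finset.univ : Finset α) (fun x => if p x = y then ρ x else 0)
      (fun x => if p x = y then ρ' x else 0)
      (fun x _ => by
        show 0 ≤ if p x = y then ρ x else 0
        split_ifs
        · exact h x
        · exact le_refl _)
      (fun x _ => by
        show 0 ≤ if p x = y then ρ' x else 0
        split_ifs
        · exact h' x
        · exact le_refl _)
    refine le_trans (le_of_eq ?_) h1
    unfold push
    refine Finset.sum_congr rfl fun x _ => ?_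
    split_ifs
    · rfl
    · exact ent1Phi_zero.symm
  have e1 : ∑ x, ent1Phi (ρ x) (ρ' x) = ent ρ + ent ρ' - ent (fun x => ρ x + ρ' x) := by
    unfold ent ent1Phi
    rw [Finset.sum_sub_distrib, Finset.sum_add_distrib]
  have e3 : ∀ y, push p (fun x => ρ x + ρ' x) y = push p ρ y + push p ρ' y := by
    intro y
    unfold push
    rw [← Finset.sum_add_distrib]
    refine Finset.sum_congr rfl fun x _ => ?_
    split_ifs
    · rfl
    · simp
  have e2 : ∑ y, ent1Phi (push p ρ y) (push p ρ' y) =
      ent (push p ρ) + ent (push p ρ') - ent (push p (fun x => ρ x + ρ' x)) := by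
    unfold ent ent1Phi
    rw [Finset.sum_sub_distrib, Finset.sum_add_distrib]
    simp_rw [e3]
  rw [e1, e2] at key
  linarith

private theorem ent1_smul (c : ℝ) (ρ : α → ℝ) :
    ent (fun x => c * ρ x) = c * ent ρ + Real.negMulLog c * ∑ x, ρ x := by
  unfold ent
  rw [Finset.mul_sum, Finset.mul_sum, ← Finset.sum_add_distrib]
  refine Finset.sum_congr rfl fun x _ => ?_
  rw [Real.negMulLog_mul]
  ring

private theorem ent1_push_smul (p : α → β) (c : ℝ) (ρ : α → ℝ) :
    push p (fun x => c * ρ x) = fun y => c * push p ρ y := by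
  funext y
  unfold push
  rw [Finset.mul_sum]
  refine Finset.sum_congr rfl fun x _ => ?_
  split_ifs
  · rfl
  · simp

theorem cent_smul (p : α → β) (c : ℝ) (hc : 0 ≤ c) {ρ : α → ℝ} (h : ∀ x, 0 ≤ ρ x) :
    ent (fun x => c * ρ x) - ent (push p (fun x => c * ρ x)) = c * (ent ρ - ent (push p ρ)) := by
  rw [ent1_push_smul, ent1_smul, ent1_smul, ent1_sum_push]
  ring

/-- concavity of the conditional entropy -/
theorem cent_sum {ι : Type} (s : Finset ι) (c : ι → ℝ) (hc : ∀ i ∈ s, 0 ≤ c i) (ρ : ι → α → ℝ)
    (h : ∀ i ∈ s, ∀ x, 0 ≤ ρ i x) (p : α → β) :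
    ∑ i ∈ s, c i * (ent (ρ i) - ent (push p (ρ i))) ≤
      ent (fun x => ∑ i ∈ s, c i * ρ i x) - ent (push p (fun x => ∑ i ∈ s, c i * ρ i x)) := by
  classical
  induction s using Finset.induction_on with
  | empty =>
    simp only [Finset.sum_empty]
    have e : push p (fun _ : α => (0 : ℝ)) = fun _ => 0 := by
      funext y
      simp [push]
    rw [e]
    simp [ent]
  | insert i s hi ih =>
    have h1 := ih (fun j hj => hc j (Finset.mem_insert_of_mem hj))
      (fun j hj => h j (Finset.mem_insert_of_mem hj))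
    have h2 := cent_add p (ρ := fun x => c i * ρ i x) (ρ' := fun x => ∑ j ∈ s, c j * ρ j x)
      (fun x => mul_nonneg (hc i (Finset.mem_insert_self i s))
        (h i (Finset.mem_insert_self i s) x))
      (fun x => Finset.sum_nonneg fun j hj => mul_nonneg (hc j (Finset.mem_insert_of_mem hj))
        (h j (Finset.mem_insert_of_mem hj) x))
    rw [cent_smul p (c i) (hc i (Finset.mem_insert_self i s))
      (h i (Finset.mem_insert_self i s))] at h2
    have e : (fun x => ∑ j ∈ insert i s, c j * ρ j x) =
        fun x => c i * ρ i x + ∑ j ∈ s, c j * ρ j x := by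
      funext x
      rw [Finset.sum_insert hi]
    rw [Finset.sum_insert hi, e]
    linarith

theorem cent_nonneg (p : α → β) {ρ : α → ℝ} (h : ∀ x, 0 ≤ ρ x) : ent (push p ρ) ≤ ent ρ := by
  have h1 := sum_push_mul p ρ (fun y => - Real.log (push p ρ y))
  have e1 : ent (push p ρ) = ∑ y, push p ρ y * -Real.log (push p ρ y) := by
    unfold ent
    refine Finset.sum_congr rfl fun y _ => ?_
    rw [Real.negMulLog]
    ring
  rw [e1, h1]
  unfold ent
  refine Finset.sum_le_sum fun x _ => ?_
  rcases (h x).eq_or_lt with h0 | h0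
  · rw [← h0]; simp
  · have h2 : ρ x ≤ push p ρ (p x) := by
      unfold push
      have h3 := Finset.single_le_sum (f := fun z => if p z = p x then ρ z else 0)
        (fun z _ => by
          show 0 ≤ if p z = p x then ρ z else 0
          split_ifs
          · exact h z
          · exact le_refl _) (Finset.mem_univ x)
      simpa using h3
    have h3 : Real.log (ρ x) ≤ Real.log (push p ρ (p x)) := Real.log_le_log h0 h2
    rw [Real.negMulLog]
    nlinarith [h3, h0]

/-- concavity of the entropy of probability weights -/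
theorem ent_concave {ι : Type} (s : Finset ι) (c : ι → ℝ) (hc : ∀ i ∈ s, 0 ≤ c i)
    (hc1 : ∑ i ∈ s, c i = 1) (ρ : ι → α → ℝ) (h : ∀ i ∈ s, IsProb (ρ i)) :
    ∑ i ∈ s, c i * ent (ρ i) ≤ ent (fun x => ∑ i ∈ s, c i * ρ i x) := by
  have h1 := cent_sum s c hc ρ (fun i hi => (h i hi).nonneg) (fun _ : α => ())
  have hu : ∀ ρ' : α → ℝ, ent (push (fun _ : α => ()) ρ') = Real.negMulLog (∑ x, ρ' x) := by
    intro ρ'
    unfold ent push
    simp
  have e1 : ∀ i ∈ s, ent (push (fun _ : α => ()) (ρ i)) = 0 := by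
    intro i hi
    rw [hu, (h i hi).sum_one, Real.negMulLog_one]
  have e2 : ent (push (fun _ : α => ()) (fun x => ∑ i ∈ s, c i * ρ i x)) = 0 := by
    rw [hu, Finset.sum_comm]
    have : ∑ i ∈ s, ∑ x, c i * ρ i x = 1 := by
      rw [← hc1]
      refine Finset.sum_congr rfl fun i hi => ?_
      rw [← Finset.mul_sum, (h i hi).sum_one, mul_one]
    rw [this, Real.negMulLog_one]
  rw [e2, sub_zero] at h1
  refine le_trans (le_of_eq ?_) h1
  refine Finset.sum_congr rfl fun i hi => ?_
  rw [e1 i hi, sub_zero]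

private theorem ent1_le_one {ρ : α → ℝ} (h : IsProb ρ) (x : α) : ρ x ≤ 1 := by
  rw [← h.sum_one]
  exact Finset.single_le_sum (f := ρ) (fun z _ => h.nonneg z) (Finset.mem_univ x)

theorem ent_nonneg {ρ : α → ℝ} (h : IsProb ρ) : 0 ≤ ent ρ :=
  Finset.sum_nonneg fun x _ => Real.negMulLog_nonneg (h.nonneg x) (ent1_le_one h x)

/-- entropy is at most the logarithm of the size of a set carrying the weights -/
theorem ent_le_log_card {ρ : α → ℝ} (h : IsProb ρ) (s : Finset α) (hs : ∀ x, x ∉ s → ρ x = 0) :
    ent ρ ≤ Real.log s.card := by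
  classical
  have hsum : ∑ x ∈ s, ρ x = 1 := by
    rw [← h.sum_one]
    exact Finset.sum_subset (Finset.subset_univ s) fun x _ hx => hs x hx
  have hne : s.Nonempty := by
    by_contra hcon
    rw [Finset.not_nonempty_iff_eq_empty] at hcon
    rw [hcon] at hsum
    simp at hsum
  have hcard : (0 : ℝ) < s.card := by exact_mod_cast hne.card_pos
  have e1 : ent ρ = ∑ x ∈ s, Real.negMulLog (ρ x) := by
    unfold ent
    refine (Finset.sum_subset (Finset.subset_univ s) fun x _ hx => ?_).symm
    rw [hs x hx]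
    simp
  have h1 : ∀ x ∈ s, Real.negMulLog (ρ x) - ρ x * Real.log s.card ≤ 1 / s.card - ρ x := by
    intro x _
    rcases (h.nonneg x).eq_or_lt with h0 | h0
    · rw [← h0]
      simp
    · have h2 : Real.log (1 / (ρ x * s.card)) ≤ 1 / (ρ x * s.card) - 1 :=
        Real.log_le_sub_one_of_pos (by positivity)
      rw [one_div, Real.log_inv, Real.log_mul h0.ne' hcard.ne'] at h2
      have h3 := mul_le_mul_of_nonneg_left h2 h0.le
      have e : ρ x * ((ρ x * s.card)⁻¹ - 1) = 1 / s.card - ρ x := by
        field_simp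
      rw [e] at h3
      rw [Real.negMulLog]
      linarith
  have h2 := Finset.sum_le_sum h1
  rw [Finset.sum_sub_distrib, Finset.sum_sub_distrib, ← Finset.sum_mul, hsum, ← e1] at h2
  simp only [one_div, Finset.sum_const, nsmul_eq_mul, one_mul] at h2
  rw [mul_inv_cancel₀ hcard.ne'] at h2
  linarith

theorem neg_log_le_ent {ρ : α → ℝ} (h : IsProb ρ) (M : ℝ) (hM : 0 < M) (hle : ∀ x, ρ x ≤ M) :
    -Real.log M ≤ ent ρ := by
  have e : -Real.log M = ∑ x, ρ x * -Real.log M := by
    rw [← Finset.sum_mul, h.sum_one, one_mul]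
  rw [e]
  unfold ent
  refine Finset.sum_le_sum fun x _ => ?_
  rcases (h.nonneg x).eq_or_lt with h0 | h0
  · rw [← h0]; simp
  · have h3 : Real.log (ρ x) ≤ Real.log M := Real.log_le_log h0 (hle x)
    rw [Real.negMulLog]
    nlinarith [h3, h0]

private theorem ent1_nonempty {κ : α → ℝ} (h : IsProb κ) : Nonempty α := by
  by_contra hcon
  rw [not_nonempty_iff] at hcon
  have := h.sum_one
  simp at this

/-- Gibbs' inequality -/
theorem gibbs {κ : α → ℝ} (h : IsProb κ) (g : α → ℝ) (hg : ∀ x, 0 < g x) :
    ∑ x, κ x * Real.log (g x) + ent κ ≤ Real.log (∑ x, g x) := by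
  have hne := ent1_nonempty h
  have hG : 0 < ∑ x, g x := Finset.sum_pos (fun x _ => hg x) Finset.univ_nonempty
  set G := ∑ x, g x with hGdef
  have h1 : ∀ x ∈ (Finset.univ : Finset α),
      κ x * Real.log (g x) + Real.negMulLog (κ x) - κ x * Real.log G ≤ g x / G - κ x := by
    intro x _
    rcases (h.nonneg x).eq_or_lt with h0 | h0
    · rw [← h0]
      simp only [zero_mul, Real.negMulLog_zero, add_zero, sub_zero]
      exact (div_pos (hg x) hG).le
    · have h2 : Real.log (g x / (κ x * G)) ≤ g x / (κ x * G) - 1 :=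
        Real.log_le_sub_one_of_pos (div_pos (hg x) (mul_pos h0 hG))
      rw [Real.log_div (hg x).ne' (mul_pos h0 hG).ne', Real.log_mul h0.ne' hG.ne'] at h2
      have h3 := mul_le_mul_of_nonneg_left h2 h0.le
      have e : κ x * (g x / (κ x * G) - 1) = g x / G - κ x := by
        field_simp
      rw [e] at h3
      rw [Real.negMulLog]
      linarith
  have h2 := Finset.sum_le_sum h1
  rw [Finset.sum_sub_distrib, Finset.sum_sub_distrib, Finset.sum_add_distrib, ← Finset.sum_mul,
    h.sum_one, ← Finset.sum_div, ← hGdef, div_self hG.ne'] at h2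
  unfold ent
  linarith

/-- equality case of Gibbs' inequality -/
theorem gibbs_eq [Nonempty α] (g : α → ℝ) (hg : ∀ x, 0 < g x) :
    IsProb (fun x => g x / ∑ y, g y) ∧
      ∑ x, (g x / ∑ y, g y) * Real.log (g x) + ent (fun x => g x / ∑ y, g y) =
        Real.log (∑ x, g x) := by
  have hG : 0 < ∑ x, g x := Finset.sum_pos (fun x _ => hg x) Finset.univ_nonempty
  have hs : ∑ x, g x / ∑ y, g y = 1 := by
    rw [← Finset.sum_div, div_self hG.ne']
  refine ⟨⟨fun x => (div_pos (hg x) hG).le, hs⟩, ?_⟩
  unfold ent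
  rw [← Finset.sum_add_distrib]
  have e : ∀ x ∈ (Finset.univ : Finset α), g x / (∑ y, g y) * Real.log (g x) +
      Real.negMulLog (g x / ∑ y, g y) = (g x / ∑ y, g y) * Real.log (∑ y, g y) := by
    intro x _
    rw [Real.negMulLog, Real.log_div (hg x).ne' hG.ne']
    ring
  rw [Finset.sum_congr rfl e, ← Finset.sum_mul, hs, one_mul]

theorem ent_prod {f : α → ℝ} {g : β → ℝ} (hf : IsProb f) (hg : IsProb g) :
    ent (fun x : α × β => f x.1 * g x.2) = ent f + ent g := by
  unfold ent
  rw [Fintype.sum_prod_type]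
  have e : ∀ x ∈ (Finset.univ : Finset α), ∑ y, Real.negMulLog (f x * g y) =
      Real.negMulLog (f x) + f x * ∑ y, Real.negMulLog (g y) := by
    intro x _
    have e1 : ∀ y ∈ (Finset.univ : Finset β), Real.negMulLog (f x * g y) =
        g y * Real.negMulLog (f x) + f x * Real.negMulLog (g y) := by
      intro y _
      rw [Real.negMulLog_mul]
    rw [Finset.sum_congr rfl e1, Finset.sum_add_distrib, ← Finset.sum_mul, hg.sum_one, one_mul,
      ← Finset.mul_sum]
  rw [Finset.sum_congr rfl e, Finset.sum_add_distrib, ← Finset.sum_mul, hf.sum_one, one_mul]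

end Pool.Agent.H51.KL
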