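import Pool.Agent.H51.KL.Ent1

/-!
JOB KL-ENT2. Convolution of weight functions on a finite abelian group and the
Kaimanovich-Vershik inequality. (helper file for MP_ff4775_nt)

`conv κ ν x = ∑ y, ν y * κ (x - y)`.

Proof of `kv`: let `J κ (y, x) = ν y * κ (x - y)` on `G × G`. By `ent_prod` and the bijection
`(y, z) ↦ (y, y + z)`, `ent (J κ) = ent ν + ent κ`, and the image of `J κ` under the second
projection is `conv κ ν`. So the conditional entropy `cent snd (J κ)` equals
`ent ν + ent κ - ent (conv κ ν)`. Now `conv κ ν' = ∑ z, ν' z • (translate of κ by z)`, `J` is linear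
and translations do not change `cent snd`, hence `cent_sum` gives
`ent ν + ent κ - ent (conv κ ν) ≤ ent ν + ent (conv κ ν') - ent (conv (conv κ ν') ν)`.
-/

set_option autoImplicit false
set_option linter.unusedSectionVars false

namespace Pool.Agent.H51.KL

open Finset

variable {G : Type} [Fintype G] [AddCommGroup G] [DecidableEq G]

theorem conv_nonneg {κ ν : G → ℝ} (h : ∀ x, 0 ≤ κ x) (h' : ∀ x, 0 ≤ ν x) (x : G) :
    0 ≤ conv κ ν x := by
  unfold conv
  exact Finset.sum_nonneg fun y _ => mul_nonneg (h' y) (h _)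

/-- the total mass is multiplicative -/
theorem sum_conv (κ ν : G → ℝ) : ∑ x, conv κ ν x = (∑ x, κ x) * ∑ x, ν x := by
  unfold conv
  rw [Finset.sum_comm, mul_comm, Finset.sum_mul]
  refine Finset.sum_congr rfl fun y _ => ?_
  rw [← Finset.mul_sum]
  congr 1
  exact Equiv.sum_comp (Equiv.subRight y) κ

theorem conv_isProb {κ ν : G → ℝ} (h : IsProb κ) (h' : IsProb ν) : IsProb (conv κ ν) :=
  ⟨conv_nonneg h.nonneg h'.nonneg, by rw [sum_conv, h.sum_one, h'.sum_one, one_mul]⟩

theorem conv_comm (κ ν : G → ℝ) : conv κ ν = conv ν κ := by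
  funext x
  unfold conv
  rw [← Equiv.sum_comp (Equiv.subLeft x)]
  refine Finset.sum_congr rfl fun y _ => ?_
  simp only [Equiv.subLeft_apply, sub_sub_cancel]
  exact mul_comm _ _

theorem conv_assoc (κ ν ν' : G → ℝ) : conv (conv κ ν) ν' = conv κ (conv ν ν') := by
  funext x
  unfold conv
  have h1 : ∀ w : G, (∑ y, ν' y * ν (w - y)) * κ (x - w) =
      ∑ y, ν' y * (ν (w - y) * κ (x - w)) := by
    intro w
    rw [Finset.sum_mul]
    exact Finset.sum_congr rfl fun y _ => by ring
  rw [Finset.sum_congr rfl fun w _ => h1 w, Finset.sum_comm]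
  refine Finset.sum_congr rfl fun y _ => ?_
  rw [← Finset.mul_sum]
  congr 1
  rw [← Equiv.sum_comp (Equiv.addRight y) (fun w => ν (w - y) * κ (x - w))]
  refine Finset.sum_congr rfl fun z _ => ?_
  simp only [Equiv.coe_addRight, add_sub_cancel_right]
  congr 2
  abel

theorem conv_add_left (κ κ' ν : G → ℝ) (x : G) :
    conv (fun z => κ z + κ' z) ν x = conv κ ν x + conv κ' ν x := by
  unfold conv
  rw [← Finset.sum_add_distrib]
  exact Finset.sum_congr rfl fun y _ => by ring

theorem conv_add_right (κ ν ν' : G → ℝ) (x : G) :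
    conv κ (fun z => ν z + ν' z) x = conv κ ν x + conv κ ν' x := by
  unfold conv
  rw [← Finset.sum_add_distrib]
  exact Finset.sum_congr rfl fun y _ => by ring

theorem conv_sum_right {ι : Type} (s : Finset ι) (c : ι → ℝ) (κ : G → ℝ) (ν : ι → G → ℝ) (x : G) :
    conv κ (fun z => ∑ i ∈ s, c i * ν i z) x = ∑ i ∈ s, c i * conv κ (ν i) x := by
  unfold conv
  simp only [Finset.sum_mul, Finset.mul_sum]
  rw [Finset.sum_comm]
  exact Finset.sum_congr rfl fun i _ => Finset.sum_congr rfl fun y _ => by ring

private theorem conv_sum_left {ι : Type} (s : Finset ι) (c : ι → ℝ) (κ : ι → G → ℝ) (ν : G → ℝ) :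
    conv (fun z => ∑ i ∈ s, c i * κ i z) ν = fun x => ∑ i ∈ s, c i * conv (κ i) ν x := by
  rw [conv_comm]
  funext x
  rw [conv_sum_right]
  exact Finset.sum_congr rfl fun i _ => by rw [conv_comm]

theorem conv_delta (κ : G → ℝ) : conv κ (fun x => if x = 0 then 1 else 0) = κ := by
  funext x
  unfold conv
  simp

private theorem delta_isProb : IsProb (fun x : G => if x = 0 then (1 : ℝ) else 0) :=
  ⟨fun x => by split_ifs <;> norm_num, by simp⟩

theorem convPow_isProb {ν : G → ℝ} (h : IsProb ν) (r : ℕ) : IsProb (convPow ν r) := by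
  induction r with
  | zero => exact delta_isProb
  | succ r ih => exact conv_isProb ih h

theorem convPow_add (ν : G → ℝ) (r s : ℕ) : convPow ν (r + s) = conv (convPow ν r) (convPow ν s) := by
  induction s with
  | zero => exact (conv_delta _).symm
  | succ s ih =>
    show conv (convPow ν (r + s)) ν = conv (convPow ν r) (conv (convPow ν s) ν)
    rw [ih, conv_assoc]

private theorem ent_translate (κ : G → ℝ) (z : G) : ent (fun x => κ (x - z)) = ent κ := by
  unfold ent
  exact Equiv.sum_comp (Equiv.subRight z) (fun x => Real.negMulLog (κ x))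

private theorem translate_isProb {κ : G → ℝ} (h : IsProb κ) (z : G) :
    IsProb (fun x => κ (x - z)) :=
  ⟨fun x => h.nonneg _, by
    rw [← h.sum_one]
    exact Equiv.sum_comp (Equiv.subRight z) κ⟩

theorem ent_le_conv {κ ν : G → ℝ} (h : IsProb κ) (h' : IsProb ν) : ent κ ≤ ent (conv κ ν) := by
  have h1 := ent_concave Finset.univ ν (fun i _ => h'.nonneg i) h'.sum_one
    (fun y x => κ (x - y)) (fun i _ => translate_isProb h i)
  have h2 : ∑ i, ν i * ent (fun x => κ (x - i)) = ent κ := by
    simp only [ent_translate]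
    rw [← Finset.sum_mul, h'.sum_one, one_mul]
  rw [h2] at h1
  exact h1

/-- the joint weight of `(y, y + z)` -/
private noncomputable def J (ν κ : G → ℝ) : G × G → ℝ := fun q => ν q.1 * κ (q.2 - q.1)

private def shear : G × G ≃ G × G where
  toFun q := (q.1, q.1 + q.2)
  invFun q := (q.1, q.2 - q.1)
  left_inv q := by simp
  right_inv q := by simp

private theorem ent_J {ν κ : G → ℝ} (h : IsProb ν) (h' : IsProb κ) :
    ent (J ν κ) = ent ν + ent κ := by
  rw [← ent_prod h h', ← ent_push_equiv shear (fun x : G × G => ν x.1 * κ x.2)]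
  congr 1
  funext q
  rw [push_equiv_apply]
  rfl

private theorem push_J (ν κ : G → ℝ) : push Prod.snd (J ν κ) = conv κ ν := by
  funext x
  unfold push J conv
  rw [Fintype.sum_prod_type]
  refine Finset.sum_congr rfl fun y _ => ?_
  simp

/-- Kaimanovich-Vershik inequality -/
theorem kv {κ ν ν' : G → ℝ} (h : IsProb κ) (h1 : IsProb ν) (h2 : IsProb ν') :
    ent (conv (conv κ ν') ν) - ent (conv κ ν') ≤ ent (conv κ ν) - ent κ := by
  have key := cent_sum Finset.univ ν' (fun i _ => h2.nonneg i)
    (fun z => J ν (fun x => κ (x - z)))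
    (fun i _ x => mul_nonneg (h1.nonneg _) (h.nonneg _)) (Prod.snd : G × G → G)
  have hJ : (fun x : G × G => ∑ i, ν' i * J ν (fun x => κ (x - i)) x) = J ν (conv κ ν') := by
    funext q
    unfold J conv
    rw [Finset.mul_sum]
    exact Finset.sum_congr rfl fun i _ => by ring
  rw [hJ] at key
  simp only [push_J] at key
  rw [ent_J h1 (conv_isProb h h2)] at key
  have hT : ∀ z : G, conv (fun x => κ (x - z)) ν = fun x => conv κ ν (x - z) := by
    intro z
    funext x
    unfold conv
    exact Finset.sum_congr rfl fun y _ => by rw [sub_right_comm]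
  have hE : ∀ z : G, ent (J ν (fun x => κ (x - z))) - ent (conv (fun x => κ (x - z)) ν) =
      ent ν + ent κ - ent (conv κ ν) := by
    intro z
    rw [ent_J h1 (translate_isProb h z), ent_translate, hT, ent_translate]
  simp only [hE] at key
  rw [← Finset.sum_mul, h2.sum_one, one_mul] at key
  linarith

theorem kv_iter {κ ν : G → ℝ} (h : IsProb κ) (h1 : IsProb ν) (r : ℕ) :
    ent (conv κ (convPow ν r)) - ent κ ≤ r * (ent (conv κ ν) - ent κ) := by
  induction r with
  | zero =>
    have : conv κ (convPow ν 0) = κ := conv_delta κ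
    rw [this]
    simp
  | succ r ih =>
    have h3 : conv κ (convPow ν (r + 1)) = conv (conv κ (convPow ν r)) ν := by
      show conv κ (conv (convPow ν r) ν) = _
      rw [conv_assoc]
    rw [h3]
    have h4 := kv h h1 (convPow_isProb h1 r)
    push_cast
    linarith

end Pool.Agent.H51.KL
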