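import Pool.Agent.H51.KL.Ent2

/-!
JOB KL-ENT3. Entropy of base-3 digits of weights on `ZMod (3^l)`. (helper file for MP_ff4775_nt)

`redm l i x = (x.val : ZMod (3^i))`, for `i ≤ l` it is `ZMod.castHom`. `Hlev ρ i` is the entropy of the
image of `ρ` in `ZMod (3^i)`, `hb ρ M j = Hlev ρ ((j+1) M) - Hlev ρ (j M)`.
For `a ≤ b ≤ l`, `Hlev ρ b - Hlev ρ a = ent τ - ent (push (redm b a) τ)` with `τ = push (redm l b) ρ`
(`push_push`), so `cent_sum` gives concavity and `cent_nonneg` nonnegativity; the upper bound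
`(b - a) log 3` is `ent_le_log_card` on the fibres (or Gibbs with `g x = P (redm b a x)`:
`Hlev b - Hlev a = ∑ τ x (log P(red x)) + ent τ ≤ log (∑ x, P (red x)) = log (3^(b-a))`).
-/

set_option autoImplicit false

namespace Pool.Agent.H51.KL

open Finset

variable {l : ℕ}

private theorem pow3_dvd {i j : ℕ} (h : i ≤ j) : 3 ^ i ∣ 3 ^ j := pow_dvd_pow 3 h

private theorem natCast_mod {i j : ℕ} (hij : i ≤ j) (n : ℕ) :
    ((n % 3 ^ j : ℕ) : ZMod (3 ^ i)) = (n : ZMod (3 ^ i)) := by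
  rw [ZMod.natCast_eq_natCast_iff]
  exact (Nat.mod_modEq n (3 ^ j)).of_dvd (pow3_dvd hij)

theorem redm_redm {i j : ℕ} (hij : i ≤ j) (hj : j ≤ l) (x : ZMod (3 ^ l)) :
    redm j i (redm l j x) = redm l i x := by
  unfold redm
  rw [ZMod.val_natCast, natCast_mod hij]

private theorem redm_eq {i : ℕ} (hi : i ≤ l) (x : ZMod (3 ^ l)) :
    redm l i x = ZMod.castHom (pow3_dvd hi) (ZMod (3 ^ i)) x := by
  unfold redm
  rw [ZMod.castHom_apply, ZMod.natCast_val]

theorem redm_add {i : ℕ} (hi : i ≤ l) (x y : ZMod (3 ^ l)) :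
    redm l i (x + y) = redm l i x + redm l i y := by
  rw [redm_eq hi, redm_eq hi, redm_eq hi, map_add]

theorem redm_sub {i : ℕ} (hi : i ≤ l) (x y : ZMod (3 ^ l)) :
    redm l i (x - y) = redm l i x - redm l i y := by
  rw [redm_eq hi, redm_eq hi, redm_eq hi, map_sub]

theorem redm_mul {i : ℕ} (hi : i ≤ l) (x y : ZMod (3 ^ l)) :
    redm l i (x * y) = redm l i x * redm l i y := by
  rw [redm_eq hi, redm_eq hi, redm_eq hi, map_mul]

theorem redm_natCast {i : ℕ} (hi : i ≤ l) (n : ℕ) : redm l i (n : ZMod (3 ^ l)) = n := by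
  rw [redm_eq hi, map_natCast]

theorem redm_self (x : ZMod (3 ^ l)) : redm l l x = x := by
  unfold redm
  rw [ZMod.natCast_zmod_val]

theorem redm_surjective {i : ℕ} (hi : i ≤ l) : Function.Surjective (redm l i) := by
  intro y
  refine ⟨((y.val : ℕ) : ZMod (3 ^ l)), ?_⟩
  rw [redm_natCast hi, ZMod.natCast_zmod_val]

theorem Hlev_self (ρ : ZMod (3 ^ l) → ℝ) : Hlev ρ l = ent ρ := by
  unfold Hlev
  congr 1
  funext y
  unfold push
  simp [redm_self]

theorem Hlev_zero {ρ : ZMod (3 ^ l) → ℝ} (h : IsProb ρ) : Hlev ρ 0 = 0 := by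
  unfold Hlev ent
  have hsub : ∀ a b : ZMod (3 ^ 0), a = b := by
    intro a b
    have : Subsingleton (ZMod 1) := inferInstance
    exact this.elim a b
  apply Finset.sum_eq_zero
  intro y _
  have : push (redm l 0) ρ y = 1 := by
    unfold push
    rw [← h.sum_one]
    apply Finset.sum_congr rfl
    intro x _
    rw [if_pos (hsub _ _)]
  rw [this]
  exact Real.negMulLog_one

private theorem push_nonneg' {α β : Type} [Fintype α] [DecidableEq β] (p : α → β) {ρ : α → ℝ}
    (h : ∀ x, 0 ≤ ρ x) (y : β) : 0 ≤ push p ρ y := by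
  unfold push
  apply Finset.sum_nonneg
  intro x _
  split
  · exact h x
  · exact le_rfl

private theorem Hlev_eq {a b : ℕ} (hab : a ≤ b) (hb : b ≤ l) (ρ : ZMod (3 ^ l) → ℝ) :
    Hlev ρ a = ent (push (redm b a) (push (redm l b) ρ)) := by
  unfold Hlev
  rw [push_push]
  congr 1
  have : (fun x : ZMod (3 ^ l) => redm b a (redm l b x)) = redm l a := by
    funext x
    exact redm_redm hab hb x
  rw [this]

/-- concavity of `ρ ↦ Hlev ρ b - Hlev ρ a` (unnormalised nonnegative weights) -/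
theorem Hlev_diff_sum {a b : ℕ} (hab : a ≤ b) (hb : b ≤ l) {ι : Type} (s : Finset ι) (c : ι → ℝ)
    (hc : ∀ i ∈ s, 0 ≤ c i) (ρ : ι → ZMod (3 ^ l) → ℝ) (h : ∀ i ∈ s, ∀ x, 0 ≤ ρ i x) :
    ∑ i ∈ s, c i * (Hlev (ρ i) b - Hlev (ρ i) a) ≤
      Hlev (fun x => ∑ i ∈ s, c i * ρ i x) b - Hlev (fun x => ∑ i ∈ s, c i * ρ i x) a := by
  have key := cent_sum s c hc (fun i => push (redm l b) (ρ i))
    (fun i hi x => push_nonneg' _ (h i hi) x) (redm b a)
  have e1 : (fun x => ∑ i ∈ s, c i * push (redm l b) (ρ i) x) =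
      push (redm l b) (fun x => ∑ i ∈ s, c i * ρ i x) := by
    funext y
    rw [push_sum]
  rw [e1] at key
  rw [Hlev_eq hab hb (fun x => ∑ i ∈ s, c i * ρ i x)]
  have e2 : ∀ i ∈ s, c i * (Hlev (ρ i) b - Hlev (ρ i) a) =
      c i * (ent (push (redm l b) (ρ i)) - ent (push (redm b a) (push (redm l b) (ρ i)))) := by
    intro i _
    rw [Hlev_eq hab hb (ρ i)]
    rfl
  rw [Finset.sum_congr rfl e2]
  exact key

private theorem push_add' {α β : Type} [Fintype α] [DecidableEq β] (p : α → β) (ρ ρ' : α → ℝ) :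
    push p (fun x => ρ x + ρ' x) = fun y => push p ρ y + push p ρ' y := by
  funext y
  unfold push
  rw [← Finset.sum_add_distrib]
  apply Finset.sum_congr rfl
  intro x _
  split
  · rfl
  · simp

private theorem push_smul' {α β : Type} [Fintype α] [DecidableEq β] (p : α → β) (c : ℝ)
    (ρ : α → ℝ) : push p (fun x => c * ρ x) = fun y => c * push p ρ y := by
  funext y
  unfold push
  rw [Finset.mul_sum]
  apply Finset.sum_congr rfl
  intro x _
  split
  · rfl
  · simp

theorem Hlev_diff_add {a b : ℕ} (hab : a ≤ b) (hb : b ≤ l) {ρ ρ' : ZMod (3 ^ l) → ℝ}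
    (h : ∀ x, 0 ≤ ρ x) (h' : ∀ x, 0 ≤ ρ' x) :
    (Hlev ρ b - Hlev ρ a) + (Hlev ρ' b - Hlev ρ' a) ≤
      Hlev (fun x => ρ x + ρ' x) b - Hlev (fun x => ρ x + ρ' x) a := by
  have key := cent_add (redm b a) (push_nonneg' (redm l b) h) (push_nonneg' (redm l b) h')
  rw [← push_add'] at key
  rw [Hlev_eq hab hb ρ, Hlev_eq hab hb ρ', Hlev_eq hab hb (fun x => ρ x + ρ' x)]
  exact key

theorem Hlev_diff_smul {a b : ℕ} (hab : a ≤ b) (hb : b ≤ l) (c : ℝ) (hc : 0 ≤ c)
    {ρ : ZMod (3 ^ l) → ℝ} (h : ∀ x, 0 ≤ ρ x) :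
    Hlev (fun x => c * ρ x) b - Hlev (fun x => c * ρ x) a = c * (Hlev ρ b - Hlev ρ a) := by
  have key := cent_smul (redm b a) c hc (push_nonneg' (redm l b) h)
  rw [← push_smul'] at key
  rw [Hlev_eq hab hb ρ, Hlev_eq hab hb (fun x => c * ρ x)]
  exact key

theorem Hlev_diff_nonneg {a b : ℕ} (hab : a ≤ b) (hb : b ≤ l) {ρ : ZMod (3 ^ l) → ℝ}
    (h : ∀ x, 0 ≤ ρ x) : 0 ≤ Hlev ρ b - Hlev ρ a := by
  rw [Hlev_eq hab hb ρ]
  exact sub_nonneg.mpr (cent_nonneg (redm b a) (push_nonneg' (redm l b) h))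

private theorem card_fiber {a b : ℕ} (hab : a ≤ b) (y : ZMod (3 ^ a)) :
    (univ.filter (fun x : ZMod (3 ^ b) => redm b a x = y)).card * 3 ^ a = 3 ^ b := by
  have hall : ∀ z : ZMod (3 ^ a),
      (univ.filter (fun x : ZMod (3 ^ b) => redm b a x = z)).card =
        (univ.filter (fun x : ZMod (3 ^ b) => redm b a x = y)).card := by
    intro z
    obtain ⟨u, hu⟩ := redm_surjective hab (y - z)
    apply Finset.card_bij (fun x _ => x + u)
    · intro x hx
      rw [Finset.mem_filter] at hx ⊢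
      refine ⟨Finset.mem_univ _, ?_⟩
      rw [redm_add hab, hx.2, hu]
      ring
    · intro x _ x' _ h
      exact add_right_cancel h
    · intro w hw
      rw [Finset.mem_filter] at hw
      refine ⟨w - u, ?_, sub_add_cancel w u⟩
      rw [Finset.mem_filter]
      refine ⟨Finset.mem_univ _, ?_⟩
      rw [redm_sub hab, hw.2, hu]
      ring
  have htot := Finset.card_eq_sum_card_fiberwise (s := (univ : Finset (ZMod (3 ^ b))))
    (t := (univ : Finset (ZMod (3 ^ a)))) (f := redm b a) (fun x _ => Finset.mem_univ _)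
  rw [Finset.sum_congr rfl (fun z _ => hall z), Finset.sum_const, Finset.card_univ,
    Finset.card_univ, ZMod.card, ZMod.card, smul_eq_mul] at htot
  rw [mul_comm]
  exact htot.symm

private theorem jensen_fiber {α : Type} (s : Finset α) (ρ : α → ℝ) (h : ∀ x, 0 ≤ ρ x)
    (hs : 0 < s.card) :
    ∑ x ∈ s, Real.negMulLog (ρ x) ≤
      Real.negMulLog (∑ x ∈ s, ρ x) + (∑ x ∈ s, ρ x) * Real.log s.card := by
  have hn : (0 : ℝ) < s.card := by exact_mod_cast hs
  have key := Real.concaveOn_negMulLog.le_map_sum (t := s) (w := fun _ => 1 / (s.card : ℝ))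
    (p := ρ) (fun _ _ => by positivity)
    (by rw [Finset.sum_const, nsmul_eq_mul]; field_simp)
    (fun x _ => h x)
  simp only [smul_eq_mul] at key
  rw [← Finset.mul_sum, ← Finset.mul_sum] at key
  have hP : 0 ≤ ∑ x ∈ s, ρ x := Finset.sum_nonneg (fun x _ => h x)
  set P := ∑ x ∈ s, ρ x with hPd
  set S := ∑ x ∈ s, Real.negMulLog (ρ x) with hSd
  have h1 : S ≤ s.card * Real.negMulLog (1 / (s.card : ℝ) * P) := by
    have := mul_le_mul_of_nonneg_left key hn.le
    have h2 : (s.card : ℝ) * (1 / (s.card : ℝ) * S) = S := by field_simp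
    rw [h2] at this
    exact this
  refine h1.trans (le_of_eq ?_)
  rw [Real.negMulLog_mul]
  unfold Real.negMulLog
  rw [one_div, Real.log_inv]
  field_simp
  ring

theorem Hlev_diff_le {a b : ℕ} (hab : a ≤ b) (hb : b ≤ l) {ρ : ZMod (3 ^ l) → ℝ}
    (h : IsProb ρ) : Hlev ρ b - Hlev ρ a ≤ ((b : ℝ) - a) * Real.log 3 := by
  rw [Hlev_eq hab hb ρ]
  unfold Hlev
  set τ := push (redm l b) ρ with hτ
  have hτp : IsProb τ := push_isProb h _
  have hfib : ∀ y : ZMod (3 ^ a), ((univ.filter (fun x : ZMod (3 ^ b) => redm b a x = y)).card : ℝ)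
      = 3 ^ (b - a) := by
    intro y
    have h1 := card_fiber hab y
    have h2 : (3 : ℕ) ^ b = 3 ^ (b - a) * 3 ^ a := by rw [← pow_add, Nat.sub_add_cancel hab]
    have h1' := h1.trans h2
    have h3 := Nat.eq_of_mul_eq_mul_right (pow_pos (by norm_num) a) h1'
    rw [h3]
    push_cast
    rfl
  have hpush : ∀ y : ZMod (3 ^ a), push (redm b a) τ y =
      ∑ x ∈ univ.filter (fun x : ZMod (3 ^ b) => redm b a x = y), τ x := by
    intro y
    unfold push
    rw [Finset.sum_filter]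
  have hent : ent τ = ∑ y : ZMod (3 ^ a),
      ∑ x ∈ univ.filter (fun x : ZMod (3 ^ b) => redm b a x = y), Real.negMulLog (τ x) := by
    unfold ent
    rw [Finset.sum_fiberwise]
  have hle : ent τ ≤ ∑ y : ZMod (3 ^ a), (Real.negMulLog (push (redm b a) τ y) +
      push (redm b a) τ y * (((b : ℝ) - a) * Real.log 3)) := by
    rw [hent]
    apply Finset.sum_le_sum
    intro y _
    have hc : 0 < (univ.filter (fun x : ZMod (3 ^ b) => redm b a x = y)).card := by
      have h1 := card_fiber hab y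
      rcases Nat.eq_zero_or_pos (univ.filter (fun x : ZMod (3 ^ b) => redm b a x = y)).card with h0 | h0
      · rw [h0, zero_mul] at h1
        exact absurd h1.symm (by positivity)
      · exact h0
    have hj := jensen_fiber (univ.filter (fun x : ZMod (3 ^ b) => redm b a x = y)) τ hτp.nonneg hc
    rw [hfib y, ← hpush y] at hj
    rw [Real.log_pow, Nat.cast_sub hab] at hj
    exact hj
  rw [Finset.sum_add_distrib, ← Finset.sum_mul, (push_isProb hτp (redm b a)).sum_one, one_mul] at hle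
  have : ∑ y : ZMod (3 ^ a), Real.negMulLog (push (redm b a) τ y) = ent (push (redm b a) τ) := rfl
  rw [this] at hle
  linarith

private theorem ent_shift {i : ℕ} (P : ZMod (3 ^ i) → ℝ) (c : ZMod (3 ^ i)) :
    ent (fun z => P (z - c)) = ent P := by
  unfold ent
  exact Equiv.sum_comp (Equiv.subRight c) (fun z => Real.negMulLog (P z))

/-- translation invariance -/
theorem Hlev_translate {i : ℕ} (hi : i ≤ l) (ρ : ZMod (3 ^ l) → ℝ) (y : ZMod (3 ^ l)) :
    Hlev (fun x => ρ (x - y)) i = Hlev ρ i := by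
  unfold Hlev
  rw [← ent_shift (push (redm l i) ρ) (redm l i y)]
  congr 1
  funext z
  unfold push
  rw [← Equiv.sum_comp (Equiv.addRight y)]
  apply Finset.sum_congr rfl
  intro x _
  simp only [Equiv.coe_addRight, add_sub_cancel_right]
  rw [redm_add hi]
  by_cases hz : redm l i x = z - redm l i y
  · rw [if_pos hz, if_pos (by rw [hz]; ring)]
  · rw [if_neg hz, if_neg (fun hh => hz (by rw [← hh]; ring))]

private theorem isUnit_two_pow (i a : ℕ) : IsUnit ((2 : ZMod (3 ^ i)) ^ a) := by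
  apply IsUnit.pow
  have h : Nat.Coprime 2 (3 ^ i) := Nat.Coprime.pow_right i (by norm_num)
  have h2 := (ZMod.unitOfCoprime 2 h).isUnit
  rwa [ZMod.coe_unitOfCoprime] at h2

private theorem affine_bij (i a : ℕ) (e : ZMod (3 ^ i)) :
    Function.Bijective (fun x : ZMod (3 ^ i) => e + 2 ^ a * x) := by
  apply (Fintype.bijective_iff_injective_and_card _).mpr
  refine ⟨?_, rfl⟩
  intro x y hxy
  have h1 : (2 : ZMod (3 ^ i)) ^ a * x = 2 ^ a * y := add_left_cancel hxy
  exact (isUnit_two_pow i a).mul_left_cancel h1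

/-- invariance under affine maps with odd... (a power of two as) multiplier -/
theorem Hlev_affine {i : ℕ} (hi : i ≤ l) (ρ : ZMod (3 ^ l) → ℝ) (a : ℕ) (e : ZMod (3 ^ l)) :
    Hlev (push (fun x => e + 2 ^ a * x) ρ) i = Hlev ρ i := by
  unfold Hlev
  rw [← ent_push_bijective (affine_bij i a (redm l i e)) (push (redm l i) ρ), push_push, push_push]
  congr 1
  have : (fun x : ZMod (3 ^ l) => redm l i (e + 2 ^ a * x)) =
      fun x => redm l i e + 2 ^ a * redm l i x := by
    funext x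
    rw [redm_add hi, redm_mul hi]
    have h2 : redm l i ((2 : ZMod (3 ^ l)) ^ a) = 2 ^ a := by
      have := redm_natCast hi (2 ^ a)
      push_cast at this
      exact this
    rw [h2]
  rw [this]

theorem ent_affine (ρ : ZMod (3 ^ l) → ℝ) (a : ℕ) (e : ZMod (3 ^ l)) :
    ent (push (fun x => e + 2 ^ a * x) ρ) = ent ρ :=
  ent_push_bijective (affine_bij l a e) ρ

/-- convolution increases the conditional entropies -/
theorem Hlev_diff_conv {a b : ℕ} (hab : a ≤ b) (hb : b ≤ l) {κ ν : ZMod (3 ^ l) → ℝ}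
    (h : ∀ x, 0 ≤ κ x) (h1 : IsProb ν) :
    Hlev κ b - Hlev κ a ≤ Hlev (conv κ ν) b - Hlev (conv κ ν) a := by
  have key := Hlev_diff_sum hab hb univ ν (fun i _ => h1.nonneg i)
    (fun y x => κ (x - y)) (fun y _ x => h (x - y))
  have e1 : (fun x => ∑ y, ν y * κ (x - y)) = conv κ ν := rfl
  rw [e1] at key
  refine le_trans (le_of_eq ?_) key
  have e2 : ∀ y ∈ (univ : Finset (ZMod (3 ^ l))),
      ν y * (Hlev (fun x => κ (x - y)) b - Hlev (fun x => κ (x - y)) a) =
        ν y * (Hlev κ b - Hlev κ a) := by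
    intro y _
    rw [Hlev_translate hb, Hlev_translate (hab.trans hb)]
  rw [Finset.sum_congr rfl e2, ← Finset.sum_mul, h1.sum_one, one_mul]

/-- the blocks exhaust the entropy -/
theorem sum_hb {M L : ℕ} (hl : l = L * M) {ρ : ZMod (3 ^ l) → ℝ} (h : IsProb ρ) :
    ∑ j ∈ range L, hb ρ M j = ent ρ := by
  unfold hb
  rw [Finset.sum_range_sub (fun j => Hlev ρ (j * M)), zero_mul, Hlev_zero h, ← hl, Hlev_self,
    sub_zero]

end Pool.Agent.H51.KL
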