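import Pool.Agent.H51.KL.Let

/-!
JOB KL-FLATA2. Few words have a large affine constant. (helper file for MP_ff4775_nt)

Let `X_w = wβ w / 2^(wA w)`, so `X_(a::w) = 2^(-(a+1)) (1 + 3 X_w)` (`wβ_succ`, `wA_succ`)
and `√X_(a::w) ≤ 2^(-(a+1)/2) (1 + √3 √X_w)`. Put
`c_K(l) = ∑_{k' ≤ K} #{w : Fin k' → Fin D | wA w = l} / 2^l ≤ 1` and
`s_K(l) = ∑_{k' ≤ K} ∑_{w : Fin k' → Fin D, wA w = l} √X_w / 2^l`.
Splitting off the first letter, `c_{K}(l) ≤ ∑_{e ≥ 1} 2^(-e) c_{K-1}(l-e) ≤ 1` for `l ≥ 1` and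
`s_K(l) ≤ ∑_{e ≥ 1} 2^(-3e/2) (c_{K-1}(l-e) + √3 s_{K-1}(l-e))`, and
`∑_{e≥1} 2^(-3e/2) = 1/(2√2-1) < 0.547`, so by induction on `K` (all `l`) `s_K(l) ≤ 11`
(`0.547 (1 + 1.7321 · 11) ≤ 11`). Markov: `wβ w > C 2^l` means `√X_w > √C`.
-/

set_option autoImplicit false

namespace Pool.Agent.H51.KL

open Finset

private theorem flatA2_sum_cons {D k : ℕ} (F : (Fin (k + 1) → Fin D) → ℝ) :
    ∑ w, F w = ∑ a : Fin D, ∑ w' : Fin k → Fin D, F (Fin.cons a w') := by
  rw [← Fintype.sum_prod_type' (f := fun (a : Fin D) (w' : Fin k → Fin D) => F (Fin.cons a w'))]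
  exact (Fintype.sum_equiv (Fin.consEquiv (fun _ => Fin D)) _ _ (fun x => rfl)).symm

/-- sum over the words of length at most `K` and total exponent `l` -/
private noncomputable def flatA2_tot (D : ℕ) (F : (k : ℕ) → (Fin k → Fin D) → ℝ) (K l : ℕ) : ℝ :=
  ∑ k' ∈ range (K + 1), ∑ w : Fin k' → Fin D, if (Ls D).wA w = l then F k' w else 0

private theorem flatA2_wA_cons {D k : ℕ} (a : Fin D) (w : Fin k → Fin D) :
    (Ls D).wA (Fin.cons a w : Fin (k + 1) → Fin D) = ((a : ℕ) + 1) + (Ls D).wA w := by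
  rw [Sys.wA_succ]
  rfl

private theorem flatA2_wβ_cons {D k : ℕ} (a : Fin D) (w : Fin k → Fin D) :
    (Ls D).wβ (Fin.cons a w : Fin (k + 1) → Fin D) =
      2 ^ (Ls D).wA w + 3 * (Ls D).wβ w := by
  rw [Sys.wβ_succ, Fin.tail_cons]
  simp [Ls]

private theorem flatA2_wA_zero {D : ℕ} (w : Fin 0 → Fin D) : (Ls D).wA w = 0 := by
  simp [Sys.wA]

private theorem flatA2_wβ_zero {D : ℕ} (w : Fin 0 → Fin D) : (Ls D).wβ w = 0 := by
  rfl

/-- sum over the first letter -/
private theorem flatA2_geom (D l : ℕ) (b : ℝ) (hb : 0 ≤ b) :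
    ∑ a : Fin D, (if (a : ℕ) + 1 ≤ l then b ^ (l - ((a : ℕ) + 1)) else 0) ≤
      ∑ j ∈ range l, b ^ j := by
  rw [← Finset.sum_filter]
  calc ∑ a ∈ univ.filter (fun a : Fin D => (a : ℕ) + 1 ≤ l), b ^ (l - ((a : ℕ) + 1))
      = ∑ j ∈ (univ.filter (fun a : Fin D => (a : ℕ) + 1 ≤ l)).image
          (fun a : Fin D => l - ((a : ℕ) + 1)), b ^ j := by
        rw [Finset.sum_image]
        intro a ha b hb hab
        have h1 : (a : ℕ) + 1 ≤ l := (Finset.mem_filter.1 ha).2
        have h2 : (b : ℕ) + 1 ≤ l := (Finset.mem_filter.1 hb).2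
        apply Fin.ext
        have : l - ((a : ℕ) + 1) = l - ((b : ℕ) + 1) := hab
        omega
    _ ≤ ∑ j ∈ range l, b ^ j := by
        apply Finset.sum_le_sum_of_subset_of_nonneg
        · intro j hj
          obtain ⟨a, ha, rfl⟩ := Finset.mem_image.1 hj
          have h1 : (a : ℕ) + 1 ≤ l := (Finset.mem_filter.1 ha).2
          rw [Finset.mem_range]
          omega
        · intro j _ _
          positivity

/-- splitting off the first letter -/
private theorem flatA2_step (D K l : ℕ) (F : (k : ℕ) → (Fin k → Fin D) → ℝ)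
    (g : ℕ → ℝ)
    (h : ∀ (a : Fin D) (l' : ℕ), (a : ℕ) + 1 + l' = l →
      ∑ k' ∈ range (K + 1), ∑ w : Fin k' → Fin D,
        (if (Ls D).wA w = l' then F (k' + 1) (Fin.cons a w) else 0) ≤ g l') :
    flatA2_tot D F (K + 1) l ≤ (if l = 0 then F 0 Fin.elim0 else 0) +
      ∑ a : Fin D, (if (a : ℕ) + 1 ≤ l then g (l - ((a : ℕ) + 1)) else 0) := by
  unfold flatA2_tot
  rw [Finset.sum_range_succ', add_comm]
  apply add_le_add
  · apply le_of_eq
    rw [Fintype.sum_unique, flatA2_wA_zero]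
    by_cases hl : l = 0
    · subst hl
      have hd : (default : Fin 0 → Fin D) = Fin.elim0 := Subsingleton.elim _ _
      rw [if_pos rfl, if_pos rfl, hd]
    · rw [if_neg hl, if_neg (fun hh => hl hh.symm)]
  · have h1 : ∀ k' ∈ range (K + 1), ∑ w : Fin (k' + 1) → Fin D,
        (if (Ls D).wA w = l then F (k' + 1) w else 0) =
        ∑ a : Fin D, ∑ w : Fin k' → Fin D,
          (if ((a : ℕ) + 1) + (Ls D).wA w = l then F (k' + 1) (Fin.cons a w) else 0) := by
      intro k' _
      rw [flatA2_sum_cons]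
      refine Finset.sum_congr rfl fun a _ => Finset.sum_congr rfl fun w _ => ?_
      rw [flatA2_wA_cons]
    rw [Finset.sum_congr rfl h1, Finset.sum_comm]
    apply Finset.sum_le_sum
    intro a _
    by_cases ha : (a : ℕ) + 1 ≤ l
    · rw [if_pos ha]
      refine le_trans (le_of_eq ?_) (h a (l - ((a : ℕ) + 1)) (by omega))
      refine Finset.sum_congr rfl fun k' _ => Finset.sum_congr rfl fun w _ => ?_
      by_cases hw : (Ls D).wA w = l - ((a : ℕ) + 1)
      · rw [if_pos hw, if_pos (by omega)]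
      · rw [if_neg hw, if_neg (by omega)]
    · rw [if_neg ha]
      apply le_of_eq
      apply Finset.sum_eq_zero
      intro k' _
      apply Finset.sum_eq_zero
      intro w _
      rw [if_neg (by omega)]

private theorem flatA2_count (D K : ℕ) : ∀ l : ℕ, flatA2_tot D (fun _ _ => 1) K l ≤ 2 ^ l := by
  induction K with
  | zero =>
    intro l
    unfold flatA2_tot
    rw [Finset.sum_range_one, Fintype.sum_unique]
    have h1 : (1 : ℝ) ≤ 2 ^ l := one_le_pow₀ (by norm_num)
    split_ifs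
    · exact h1
    · linarith
  | succ K ih =>
    intro l
    have h1 := flatA2_step D K l (fun _ _ => (1 : ℝ)) (fun l' => 2 ^ l') (by
      intro a l' _
      exact ih l')
    refine h1.trans ?_
    have h2 := flatA2_geom D l 2 (by norm_num)
    have h3 : ∑ j ∈ range l, (2 : ℝ) ^ j = 2 ^ l - 1 := by
      rw [geom_sum_eq (by norm_num)]
      norm_num
    have h4 : (if l = 0 then (1 : ℝ) else 0) ≤ 1 := by split_ifs <;> norm_num
    linarith

private theorem flatA2_sqrt_add {x y : ℝ} (hx : 0 ≤ x) (hy : 0 ≤ y) :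
    Real.sqrt (x + y) ≤ Real.sqrt x + Real.sqrt y := by
  apply Real.sqrt_le_iff.2
  refine ⟨by positivity, ?_⟩
  have h1 := Real.sq_sqrt hx
  have h2 := Real.sq_sqrt hy
  have h3 : 0 ≤ Real.sqrt x * Real.sqrt y := by positivity
  nlinarith

private theorem flatA2_sqrt (D K : ℕ) : ∀ l : ℕ,
    flatA2_tot D (fun _ w => Real.sqrt ((Ls D).wβ w)) K l ≤ 11 * (2 * Real.sqrt 2) ^ l := by
  have hs2 : (1.4142 : ℝ) ≤ Real.sqrt 2 := Real.le_sqrt_of_sq_le (by norm_num)
  have hs3 : Real.sqrt 3 ≤ 1.7321 := by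
    rw [Real.sqrt_le_left (by norm_num)]
    norm_num
  have hs3' : 0 ≤ Real.sqrt 3 := Real.sqrt_nonneg _
  induction K with
  | zero =>
    intro l
    unfold flatA2_tot
    rw [Finset.sum_range_one, Fintype.sum_unique]
    simp only [flatA2_wβ_zero, Int.cast_zero, Real.sqrt_zero, ite_self]
    positivity
  | succ K ih =>
    intro l
    have h1 := flatA2_step D K l (fun _ w => Real.sqrt ((Ls D).wβ w))
      (fun l' => (1 + 11 * Real.sqrt 3) * (2 * Real.sqrt 2) ^ l') (by
      intro a l' _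
      have hc := flatA2_count D K l'
      have hs := ih l'
      have hb : (2 * Real.sqrt 2) ^ l' = 2 ^ l' * Real.sqrt (2 ^ l') := by
        rw [mul_pow, Real.sqrt_eq_rpow, Real.sqrt_eq_rpow, ← Real.rpow_natCast (2 ^ (1 / 2 : ℝ)),
          ← Real.rpow_mul (by norm_num), ← Real.rpow_natCast 2 l', ← Real.rpow_mul (by norm_num)]
        congr 2
        ring
      calc ∑ k' ∈ range (K + 1), ∑ w : Fin k' → Fin D,
            (if (Ls D).wA w = l' then
              Real.sqrt ((Ls D).wβ (Fin.cons a w : Fin (k' + 1) → Fin D)) else 0)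
          ≤ ∑ k' ∈ range (K + 1), ∑ w : Fin k' → Fin D,
            (Real.sqrt (2 ^ l') * (if (Ls D).wA w = l' then 1 else 0) +
              Real.sqrt 3 * (if (Ls D).wA w = l' then Real.sqrt ((Ls D).wβ w) else 0)) := by
            apply Finset.sum_le_sum
            intro k' _
            apply Finset.sum_le_sum
            intro w _
            by_cases hw : (Ls D).wA w = l'
            · rw [if_pos hw, if_pos hw, if_pos hw, mul_one, flatA2_wβ_cons, hw]
              push_cast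
              have hn : (0 : ℝ) ≤ ((Ls D).wβ w : ℝ) := by
                exact_mod_cast Ls_wβ_nonneg D k' w
              rw [← Real.sqrt_mul (by norm_num)]
              exact flatA2_sqrt_add (by positivity) (by positivity)
            · rw [if_neg hw, if_neg hw, if_neg hw]
              simp
        _ = Real.sqrt (2 ^ l') * flatA2_tot D (fun _ _ => 1) K l' +
              Real.sqrt 3 * flatA2_tot D (fun _ w => Real.sqrt ((Ls D).wβ w)) K l' := by
            unfold flatA2_tot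
            rw [Finset.mul_sum, Finset.mul_sum, ← Finset.sum_add_distrib]
            refine Finset.sum_congr rfl fun k' _ => ?_
            rw [Finset.mul_sum, Finset.mul_sum, ← Finset.sum_add_distrib]
        _ ≤ Real.sqrt (2 ^ l') * 2 ^ l' + Real.sqrt 3 * (11 * (2 * Real.sqrt 2) ^ l') := by
            gcongr
        _ = (1 + 11 * Real.sqrt 3) * (2 * Real.sqrt 2) ^ l' := by
            rw [hb]
            ring)
    refine h1.trans ?_
    have h2 := flatA2_geom D l (2 * Real.sqrt 2) (by positivity)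
    have h0 : (if l = 0 then Real.sqrt (((Ls D).wβ (Fin.elim0 : Fin 0 → Fin D) : ℤ) : ℝ) else 0)
        = 0 := by
      rw [flatA2_wβ_zero]
      simp
    have h3 : ∑ a : Fin D, (if (a : ℕ) + 1 ≤ l then
        (1 + 11 * Real.sqrt 3) * (2 * Real.sqrt 2) ^ (l - ((a : ℕ) + 1)) else 0) =
        (1 + 11 * Real.sqrt 3) * ∑ a : Fin D, (if (a : ℕ) + 1 ≤ l then
          (2 * Real.sqrt 2) ^ (l - ((a : ℕ) + 1)) else 0) := by
      rw [Finset.mul_sum]
      refine Finset.sum_congr rfl fun a _ => ?_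
      split_ifs <;> simp
    have hb1 : (2 * Real.sqrt 2) ≠ 1 := by
      intro h
      linarith
    have h4 : ∑ j ∈ range l, (2 * Real.sqrt 2) ^ j ≤
        (2 * Real.sqrt 2) ^ l / (2 * Real.sqrt 2 - 1) := by
      rw [geom_sum_eq hb1]
      apply div_le_div_of_nonneg_right _ (by linarith)
      linarith
    rw [h0, h3, zero_add]
    calc (1 + 11 * Real.sqrt 3) * ∑ a : Fin D, (if (a : ℕ) + 1 ≤ l then
          (2 * Real.sqrt 2) ^ (l - ((a : ℕ) + 1)) else 0)
        ≤ (1 + 11 * Real.sqrt 3) * ((2 * Real.sqrt 2) ^ l / (2 * Real.sqrt 2 - 1)) :=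
          mul_le_mul_of_nonneg_left (h2.trans h4) (by positivity)
      _ ≤ 11 * (2 * Real.sqrt 2) ^ l := by
          have hpos : 0 < 2 * Real.sqrt 2 - 1 := by linarith
          have hP : 0 ≤ (2 * Real.sqrt 2) ^ l := by positivity
          rw [mul_div_assoc', div_le_iff₀ hpos]
          have : (1 + 11 * Real.sqrt 3) ≤ 11 * (2 * Real.sqrt 2 - 1) := by linarith
          calc (1 + 11 * Real.sqrt 3) * (2 * Real.sqrt 2) ^ l
              ≤ (11 * (2 * Real.sqrt 2 - 1)) * (2 * Real.sqrt 2) ^ l :=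
                mul_le_mul_of_nonneg_right this hP
            _ = 11 * (2 * Real.sqrt 2) ^ l * (2 * Real.sqrt 2 - 1) := by ring

theorem few_large (D K l C : ℕ) :
    (∑ k' ∈ range (K + 1), ((univ.filter (fun w : Fin k' → Fin D => (Ls D).wA w = l ∧
      ((C * 2 ^ l : ℕ) : ℤ) < (Ls D).wβ w)).card : ℝ)) * Real.sqrt C ≤ 11 * 2 ^ l := by
  have hs := flatA2_sqrt D K l
  have hb : (2 * Real.sqrt 2) ^ l = 2 ^ l * Real.sqrt (2 ^ l) := by
    rw [mul_pow, Real.sqrt_eq_rpow, Real.sqrt_eq_rpow, ← Real.rpow_natCast (2 ^ (1 / 2 : ℝ)),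
      ← Real.rpow_mul (by norm_num), ← Real.rpow_natCast 2 l, ← Real.rpow_mul (by norm_num)]
    congr 2
    ring
  rw [hb] at hs
  have hpos : 0 < Real.sqrt ((2 : ℝ) ^ l) := Real.sqrt_pos.2 (by positivity)
  have h1 : (∑ k' ∈ range (K + 1), ((univ.filter (fun w : Fin k' → Fin D => (Ls D).wA w = l ∧
      ((C * 2 ^ l : ℕ) : ℤ) < (Ls D).wβ w)).card : ℝ)) * Real.sqrt C * Real.sqrt (2 ^ l) ≤
      flatA2_tot D (fun _ w => Real.sqrt ((Ls D).wβ w)) K l := by
    unfold flatA2_tot
    rw [Finset.sum_mul, Finset.sum_mul]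
    apply Finset.sum_le_sum
    intro k' _
    rw [Finset.card_filter]
    push_cast
    rw [Finset.sum_mul, Finset.sum_mul]
    apply Finset.sum_le_sum
    intro w _
    by_cases hw : (Ls D).wA w = l
    · rw [if_pos hw]
      by_cases hw' : ((C : ℤ) * 2 ^ l) < (Ls D).wβ w
      · rw [if_pos ⟨hw, hw'⟩, one_mul, ← Real.sqrt_mul (by positivity)]
        apply Real.sqrt_le_sqrt
        have : (((C : ℤ) * 2 ^ l : ℤ) : ℝ) ≤ ((Ls D).wβ w : ℝ) := by
          exact_mod_cast hw'.le
        push_cast at this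
        exact this
      · rw [if_neg (fun hh => hw' hh.2)]
        simp
    · rw [if_neg hw, if_neg (fun hh => hw hh.1)]
      simp
  have h2 := h1.trans hs
  rw [← mul_assoc] at h2
  exact le_of_mul_le_mul_right h2 hpos

end Pool.Agent.H51.KL
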