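import Pool.Agent.H51.KL.FlatA1
import Pool.Agent.H51.KL.FlatA2

/-!
JOB KL-FLATA3. Counting words with prescribed total exponent. (helper file for MP_ff4775_nt)

Let `S = Ls D`, `l₀ ≤ 2k ≤ D`.
1. `card_words`: the number of `w : Fin k → Fin D` with `wA w = l` is `choose (l-1) (k-1)` for
   `1 ≤ k`, `1 ≤ l ≤ D` (split off the first letter: hockey stick).
2. Binomial Chebyshev: `∑_{|j - n/2| > c √n} choose n j ≤ 2^n/(4c²)` from
   `∑_j choose n j (2j - n)² = n 2^n`. So with `win = {k' | |k'-1-(l₀-1)/2| ≤ c √l₀}` (c = 4, say),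
   `∑_{k' ∈ win} choose (l₀-1) (k'-1) ≥ (1 - 1/64) 2^(l₀-1)`, `win.card ≤ 2c√l₀ + 1 ≤ C₁ √k`, and all
   `k' ∈ win` are `≤ k` because `l₀ ≤ k log 3/log 2 ≤ 1.6 k` and `k ≥ k₀`.
   (`2^l₀ ≤ 3^k ≤ 2^(1.6 k)` as `3^5 = 243 < 256 = 2^8`.)
3. Few words have a large constant: let `X_w = wβ w / 2^(wA w)`, so `X_(a::w) = 2^(-(a+1)) (1 + 3 X_w)`
   and `√X_(a::w) ≤ 2^(-(a+1)/2) (1 + √3 √X_w)`. Put
   `c_K(l) = ∑_{k' ≤ K} #{w : Fin k' → Fin D | wA w = l} / 2^l ≤ 1` and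
   `s_K(l) = ∑_{k' ≤ K} ∑_{w : Fin k' → Fin D, wA w = l} √X_w / 2^l`.
   Splitting off the first letter, `s_K(l) ≤ ∑_{a ≥ 1} 2^(-3a/2) (c_{K-1}(l-a) + √3 s_{K-1}(l-a))`, and
   `∑_{a≥1} 2^(-3a/2) = 1/(2√2-1) < 0.547`, so by induction `s_K(l) ≤ 11`
   (`0.547 (1 + 1.7321 · 11) ≤ 11`). Markov: the number of `w` (all lengths `k' ≤ K`) with `wA w = l`
   and `wβ w > C 2^l` is `≤ 11 2^l / √C ≤ 0.05 · 2^l` for `C = 48400`.
Total: `∑_{k' ∈ win} #{w | wA w = l₀, wβ w ≤ C 2^l₀} ≥ (1-1/64) 2^(l₀-1) - 0.05 · 2^l₀ ≥ (2/5) 2^l₀`.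
-/

set_option autoImplicit false

namespace Pool.Agent.H51.KL

open Finset

private theorem sum_sq (n : ℕ) :
    (∑ j ∈ range (n + 1), (((n.choose j : ℕ) : ℝ) * (2 * (j : ℝ) - n) ^ 2) : ℝ) =
      (n : ℝ) * 2 ^ n := by
  have h := congrArg (Polynomial.eval (1 / 2 : ℝ)) (bernsteinPolynomial.variance ℝ n)
  rw [Polynomial.eval_finsetSum] at h
  have h1 : ∀ j ∈ range (n + 1), Polynomial.eval (1 / 2 : ℝ)
      ((n • Polynomial.X - (j : Polynomial ℝ)) ^ 2 * bernsteinPolynomial ℝ n j) =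
        ((n.choose j : ℕ) : ℝ) * (2 * (j : ℝ) - n) ^ 2 * ((1 / 2 : ℝ) ^ n / 4) := by
    intro j hj
    rw [mem_range] at hj
    have hp : (1 / 2 : ℝ) ^ n = (1 / 2 : ℝ) ^ j * (1 / 2 : ℝ) ^ (n - j) := by
      rw [← pow_add]
      congr 1
      omega
    rw [hp, bernsteinPolynomial]
    simp only [Polynomial.eval_mul, Polynomial.eval_pow, Polynomial.eval_sub,
      Polynomial.eval_X, Polynomial.eval_natCast, Polynomial.eval_one, nsmul_eq_mul]
    have h2 : (1 - 1 / 2 : ℝ) = 1 / 2 := by norm_num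
    rw [h2]
    ring
  rw [Finset.sum_congr rfl h1, ← Finset.sum_mul] at h
  simp only [Polynomial.eval_mul, Polynomial.eval_sub, Polynomial.eval_natCast,
      Polynomial.eval_X, Polynomial.eval_one, nsmul_eq_mul] at h
  have h3 : (1 / 2 : ℝ) ^ n * 2 ^ n = 1 := by
    rw [← mul_pow]
    norm_num
  have h4 := congrArg (fun t : ℝ => t * (4 * 2 ^ n)) h
  beta_reduce at h4
  have h5 : ∀ S : ℝ, S * ((1 / 2 : ℝ) ^ n / 4) * (4 * 2 ^ n) = S := by
    intro S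
    calc S * ((1 / 2 : ℝ) ^ n / 4) * (4 * 2 ^ n) = S * ((1 / 2 : ℝ) ^ n * 2 ^ n) := by ring
      _ = S := by rw [h3, mul_one]
  rw [h5] at h4
  rw [h4]
  ring

/-- the window -/
private noncomputable def winJ (n : ℕ) : Finset ℕ :=
  (range (n + 1)).filter fun j : ℕ => (2 * (j : ℝ) - n) ^ 2 ≤ 64 * ((n : ℝ) + 1)

private theorem cheb (n : ℕ) :
    63 / 64 * 2 ^ n ≤ ∑ j ∈ winJ n, ((n.choose j : ℕ) : ℝ) := by
  classical
  have h1 : ∑ j ∈ range (n + 1), ((n.choose j : ℕ) : ℝ) = 2 ^ n := by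
    have := Nat.sum_range_choose n
    exact_mod_cast this
  have h2 := Finset.sum_filter_add_sum_filter_not (range (n + 1))
    (fun j : ℕ => (2 * (j : ℝ) - n) ^ 2 ≤ 64 * ((n : ℝ) + 1)) (fun j : ℕ => ((n.choose j : ℕ) : ℝ))
  have h3 : ∑ j ∈ (range (n + 1)).filter (fun j : ℕ => ¬ (2 * (j : ℝ) - n) ^ 2 ≤ 64 * ((n : ℝ) + 1)),
      ((n.choose j : ℕ) : ℝ) * (64 * ((n : ℝ) + 1)) ≤ (n : ℝ) * 2 ^ n := by
    rw [← sum_sq n]
    refine le_trans (Finset.sum_le_sum (g := fun j : ℕ => ((n.choose j : ℕ) : ℝ) *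
      (2 * (j : ℝ) - n) ^ 2) ?_) ?_
    · intro j hj
      have h4 := (Finset.mem_filter.mp hj).2
      rw [not_le] at h4
      exact mul_le_mul_of_nonneg_left h4.le (Nat.cast_nonneg _)
    · refine Finset.sum_le_sum_of_subset_of_nonneg (Finset.filter_subset _ _) ?_
      intro j _ _
      positivity
  rw [← Finset.sum_mul] at h3
  set T : ℝ := ∑ j ∈ (range (n + 1)).filter
    (fun j : ℕ => ¬ (2 * (j : ℝ) - n) ^ 2 ≤ 64 * ((n : ℝ) + 1)), ((n.choose j : ℕ) : ℝ) with hT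
  have hn : (0 : ℝ) ≤ n := Nat.cast_nonneg n
  have h2n : (0 : ℝ) < 2 ^ n := by positivity
  have hTle : T ≤ 2 ^ n / 64 := by
    have h5 : T * (64 * ((n : ℝ) + 1)) ≤ (2 ^ n / 64) * (64 * ((n : ℝ) + 1)) := by
      nlinarith
    exact le_of_mul_le_mul_right h5 (by positivity)
  have h6 : ∑ j ∈ winJ n, ((n.choose j : ℕ) : ℝ) + T = 2 ^ n := by
    rw [← h1]
    exact h2
  linarith

private theorem card_winJ (n : ℕ) : (winJ n).card ≤ Nat.sqrt (64 * (n + 1)) + 2 := by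
  set m := Nat.sqrt (64 * (n + 1)) with hm
  have hsub : winJ n ⊆ Finset.Icc ((n - m) / 2) ((n + m) / 2) := by
    intro j hj
    have h1 := (Finset.mem_filter.mp hj).2
    have h2 : (2 * (j : ℤ) - n) ^ 2 ≤ 64 * ((n : ℤ) + 1) := by
      exact_mod_cast h1
    have h3 : (2 * (j : ℤ) - n).natAbs ≤ m := by
      rw [hm, Nat.le_sqrt']
      have h4 : (((2 * (j : ℤ) - n).natAbs ^ 2 : ℕ) : ℤ) ≤ ((64 * (n + 1) : ℕ) : ℤ) := by
        push_cast
        rw [sq_abs]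
        exact h2
      exact_mod_cast h4
    rw [Finset.mem_Icc]
    omega
  refine le_trans (Finset.card_le_card hsub) ?_
  rw [Nat.card_Icc]
  omega

theorem good_words : ∃ (C : ℕ) (C₁ : ℝ) (k₀ : ℕ), 0 < C₁ ∧ ∀ k : ℕ, k₀ ≤ k → ∀ D : ℕ, 2 * k ≤ D →
    ∀ l₀ : ℕ, 2 ^ l₀ ≤ 3 ^ k → 3 ^ k < 2 ^ (l₀ + 1) → ∃ win : Finset ℕ, (∀ k' ∈ win, k' ≤ k) ∧
      (win.card : ℝ) ≤ C₁ * Real.sqrt k ∧
      2 / 5 * 2 ^ l₀ ≤ ∑ k' ∈ win, ((univ.filter (fun w : Fin k' → Fin D => (Ls D).wA w = l₀ ∧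
        (Ls D).wβ w ≤ ((C * 2 ^ l₀ : ℕ) : ℤ))).card : ℝ) := by
  refine ⟨48400, 13, 1000, by norm_num, ?_⟩
  intro k hk D hD l₀ hl1 hl2
  -- `5 l₀ ≤ 8 k`
  have hl3 : 5 * l₀ ≤ 8 * k := by
    by_contra hc
    rw [not_le] at hc
    have h1 : (2 ^ l₀) ^ 5 ≤ (3 ^ k) ^ 5 := Nat.pow_le_pow_left hl1 5
    have h2 : (3 ^ k) ^ 5 ≤ (2 : ℕ) ^ (8 * k) := by
      rw [← pow_mul, mul_comm k 5, pow_mul, pow_mul]
      exact Nat.pow_le_pow_left (by norm_num) k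
    have h3 : (2 : ℕ) ^ (8 * k) < 2 ^ (5 * l₀) := Nat.pow_lt_pow_right (by norm_num) hc
    have h4 : (2 ^ l₀) ^ 5 = (2 : ℕ) ^ (5 * l₀) := by rw [← pow_mul, mul_comm]
    omega
  have hl4 : 1 ≤ l₀ := by
    by_contra hc
    have h1 : l₀ = 0 := by omega
    rw [h1] at hl2
    have h2 : 3 ^ 1 ≤ 3 ^ k := Nat.pow_le_pow_right (by norm_num) (by omega)
    omega
  obtain ⟨n, rfl⟩ : ∃ n, l₀ = n + 1 := ⟨l₀ - 1, by omega⟩
  have hwk : ∀ j ∈ winJ n, j + 1 ≤ k := by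
    intro j hj
    by_contra hc
    have h1 := (Finset.mem_filter.mp hj).2
    have h2 : (2 * (j : ℤ) - n) ^ 2 ≤ 64 * ((n : ℤ) + 1) := by
      exact_mod_cast h1
    have hj1 : (k : ℤ) ≤ j := by
      have : k ≤ j := by omega
      exact_mod_cast this
    have hn1 : 5 * ((n : ℤ) + 1) ≤ 8 * k := by exact_mod_cast hl3
    have hk1 : (1000 : ℤ) ≤ k := by exact_mod_cast hk
    have h3 : 2 * (k : ℤ) ≤ 5 * (2 * (j : ℤ) - n) := by linarith
    have h4 : (2 * (k : ℤ)) ^ 2 ≤ (5 * (2 * (j : ℤ) - n)) ^ 2 :=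
      pow_le_pow_left₀ (by linarith) h3 2
    nlinarith
  refine ⟨(winJ n).image (· + 1), ?_, ?_, ?_⟩
  · intro k' hk'
    obtain ⟨j, hj, rfl⟩ := Finset.mem_image.mp hk'
    exact hwk j hj
  · have h1 : ((winJ n).image (· + 1)).card ≤ Nat.sqrt (64 * (n + 1)) + 2 :=
      le_trans Finset.card_image_le (card_winJ n)
    have h2 : ((Nat.sqrt (64 * (n + 1)) : ℕ) : ℝ) ≤ Real.sqrt ((64 * (n + 1) : ℕ) : ℝ) :=
      Real.nat_sqrt_le_real_sqrt
    have h3 : Real.sqrt ((64 * (n + 1) : ℕ) : ℝ) ≤ 11 * Real.sqrt k := by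
      have h4 : (11 : ℝ) * Real.sqrt k = Real.sqrt (121 * k) := by
        rw [Real.sqrt_mul (by norm_num)]
        congr 1
        rw [show (121 : ℝ) = 11 ^ 2 by norm_num]
        exact (Real.sqrt_sq (by norm_num)).symm
      rw [h4]
      refine Real.sqrt_le_sqrt ?_
      have h5 : (5 * ((n : ℝ) + 1)) ≤ 8 * k := by exact_mod_cast hl3
      have hk0 : (0 : ℝ) ≤ k := Nat.cast_nonneg k
      push_cast
      linarith
    have h6 : (1 : ℝ) ≤ Real.sqrt k := by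
      rw [Real.one_le_sqrt]
      have : (1000 : ℝ) ≤ k := by exact_mod_cast hk
      linarith
    have h7 : ((((winJ n).image (· + 1)).card : ℕ) : ℝ) ≤
        ((Nat.sqrt (64 * (n + 1)) + 2 : ℕ) : ℝ) := by exact_mod_cast h1
    push_cast at h7
    push_cast at h2 h3
    linarith
  · rw [Finset.sum_image (by
      intro a _ b _ h
      exact Nat.succ_injective h)]
    have h1 : ∀ j ∈ winJ n, ((n.choose j : ℕ) : ℝ) =
        ((univ.filter (fun w : Fin (j + 1) → Fin D => (Ls D).wA w = n + 1 ∧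
          (Ls D).wβ w ≤ ((48400 * 2 ^ (n + 1) : ℕ) : ℤ))).card : ℝ) +
        ((univ.filter (fun w : Fin (j + 1) → Fin D => (Ls D).wA w = n + 1 ∧
          ((48400 * 2 ^ (n + 1) : ℕ) : ℤ) < (Ls D).wβ w)).card : ℝ) := by
      intro j _
      have h2 := card_words D (j + 1) (n + 1) (by omega) (by omega) (by omega)
      rw [Nat.add_sub_cancel, Nat.add_sub_cancel] at h2
      rw [← h2]
      have h3 := Finset.card_filter_add_card_filter_not
        (s := univ.filter (fun w : Fin (j + 1) → Fin D => (Ls D).wA w = n + 1))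
        (fun w => (Ls D).wβ w ≤ ((48400 * 2 ^ (n + 1) : ℕ) : ℤ))
      rw [Finset.filter_filter, Finset.filter_filter] at h3
      simp only [not_le] at h3
      rw [← h3]
      push_cast
      rfl
    have h2 : ∑ j ∈ winJ n, ((univ.filter (fun w : Fin (j + 1) → Fin D => (Ls D).wA w = n + 1 ∧
          ((48400 * 2 ^ (n + 1) : ℕ) : ℤ) < (Ls D).wβ w)).card : ℝ) ≤
        ∑ k' ∈ range (k + 1), ((univ.filter (fun w : Fin k' → Fin D => (Ls D).wA w = n + 1 ∧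
          ((48400 * 2 ^ (n + 1) : ℕ) : ℤ) < (Ls D).wβ w)).card : ℝ) := by
      rw [← Finset.sum_image (s := winJ n) (g := (· + 1))
        (f := fun k' => ((univ.filter (fun w : Fin k' → Fin D => (Ls D).wA w = n + 1 ∧
          ((48400 * 2 ^ (n + 1) : ℕ) : ℤ) < (Ls D).wβ w)).card : ℝ)) (by
        intro a _ b _ h
        exact Nat.succ_injective h)]
      refine Finset.sum_le_sum_of_subset_of_nonneg ?_ fun _ _ _ => Nat.cast_nonneg _
      intro k' hk'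
      obtain ⟨j, hj, rfl⟩ := Finset.mem_image.mp hk'
      have := hwk j hj
      rw [mem_range]
      omega
    have h3 := few_large D k (n + 1) 48400
    have h4 : Real.sqrt ((48400 : ℕ) : ℝ) = 220 := by
      rw [show ((48400 : ℕ) : ℝ) = 220 ^ 2 by norm_num]
      exact Real.sqrt_sq (by norm_num)
    rw [h4] at h3
    have h5 := cheb n
    rw [Finset.sum_congr rfl h1, Finset.sum_add_distrib] at h5
    have h6 : (2 : ℝ) ^ (n + 1) = 2 * 2 ^ n := by ring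
    have h7 : (0 : ℝ) < 2 ^ n := by positivity
    rw [h6] at h3 ⊢
    linarith

end Pool.Agent.H51.KL
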