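import Pool.Agent.H51.KL.Let

/-!
JOB KL-FLATA1. The number of words of length `k` with total exponent `l`. (helper file for MP_ff4775_nt)

Split off the first letter (`Fin.consEquiv`): `#(k+1, l) = ∑_{a < D} #(k, l - (a+1))`, and the
hockey-stick identity, for `k = 1` exactly
the letter `a = l - 1 < D`.
-/

set_option autoImplicit false

namespace Pool.Agent.H51.KL

open Finset

private lemma flatA1_hockey (k : ℕ) : ∀ n : ℕ, ∑ m ∈ range n, m.choose k = n.choose (k + 1)
  | 0 => by simp
  | n + 1 => by
    rw [sum_range_succ, flatA1_hockey k n, Nat.choose_succ_succ n k, add_comm]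

private lemma flatA1_wA_cons {D k : ℕ} (a : Fin D) (w : Fin k → Fin D) :
    (Ls D).wA (Fin.cons a w : Fin (k + 1) → Fin D) = ((a : ℕ) + 1) + (Ls D).wA w := by
  unfold Sys.wA
  rw [Fin.sum_univ_succ]
  simp only [Fin.cons_zero, Fin.cons_succ]
  rfl

private lemma flatA1_wA_ge {D k : ℕ} (w : Fin k → Fin D) : k ≤ (Ls D).wA w := by
  unfold Sys.wA
  calc k = ∑ _j : Fin k, 1 := by simp
    _ ≤ _ := Finset.sum_le_sum fun j _ => by
      show 1 ≤ ((w j : ℕ)) + 1
      omega

private lemma flatA1_succ (D k l : ℕ) :
    (univ.filter (fun w : Fin (k + 1) → Fin D => (Ls D).wA w = l)).card =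
      ∑ a ∈ range D, (univ.filter (fun w : Fin k → Fin D => (a + 1) + (Ls D).wA w = l)).card := by
  rw [Finset.card_filter, ← (Fin.consEquiv (fun _ : Fin (k + 1) => Fin D)).sum_comp,
    Fintype.sum_prod_type, ← Fin.sum_univ_eq_sum_range
      (fun a => (univ.filter (fun w : Fin k → Fin D => (a + 1) + (Ls D).wA w = l)).card) D]
  refine Finset.sum_congr rfl fun a _ => ?_
  rw [Finset.card_filter]
  refine Finset.sum_congr rfl fun w _ => ?_
  have h := flatA1_wA_cons a w
  have e : (Fin.consEquiv (fun _ : Fin (k + 1) => Fin D)) (a, w) =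
      (Fin.cons a w : Fin (k + 1) → Fin D) := rfl
  rw [e, h]

theorem card_words (D k l : ℕ) (hk : 1 ≤ k) (hl : 1 ≤ l) (hD : l ≤ D) :
    (univ.filter (fun w : Fin k → Fin D => (Ls D).wA w = l)).card = (l - 1).choose (k - 1) := by
  induction k, hk using Nat.le_induction generalizing l with
  | base =>
    rw [Nat.sub_self, Nat.choose_zero_right, Finset.card_eq_one]
    refine ⟨fun _ => ⟨l - 1, by omega⟩, ?_⟩
    ext w
    rw [Finset.mem_filter, Finset.mem_singleton]
    constructor
    · rintro ⟨_, h⟩
      funext j
      have hj : j = 0 := Subsingleton.elim _ _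
      subst hj
      apply Fin.ext
      unfold Sys.wA at h
      rw [Fin.sum_univ_one] at h
      have h' : (w 0 : ℕ) + 1 = l := h
      show (w 0 : ℕ) = l - 1
      omega
    · rintro rfl
      refine ⟨Finset.mem_univ _, ?_⟩
      unfold Sys.wA
      rw [Fin.sum_univ_one]
      show l - 1 + 1 = l
      omega
  | succ k hk ih =>
    rw [flatA1_succ]
    have hterm : ∀ a ∈ range D,
        (univ.filter (fun w : Fin k → Fin D => (a + 1) + (Ls D).wA w = l)).card =
          if a + 1 < l then (l - 1 - (a + 1)).choose (k - 1) else 0 := by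
      intro a _
      by_cases h : a + 1 < l
      · rw [if_pos h]
        have e : (univ.filter (fun w : Fin k → Fin D => (a + 1) + (Ls D).wA w = l)) =
            (univ.filter (fun w : Fin k → Fin D => (Ls D).wA w = l - (a + 1))) := by
          apply Finset.filter_congr
          intro w _
          omega
        rw [e, ih (l - (a + 1)) (by omega) (by omega)]
        congr 1
        omega
      · rw [if_neg h, Finset.card_eq_zero, Finset.filter_eq_empty_iff]
        intro w _ h2
        have := flatA1_wA_ge w
        omega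
    rw [Finset.sum_congr rfl hterm, ← Finset.sum_filter]
    have hset : (range D).filter (fun a => a + 1 < l) = range (l - 1) := by
      ext a
      rw [Finset.mem_filter, Finset.mem_range, Finset.mem_range]
      omega
    rw [hset, ← Finset.sum_range_reflect]
    have hsum : ∑ j ∈ range (l - 1), (l - 1 - (l - 1 - 1 - j + 1)).choose (k - 1) =
        ∑ j ∈ range (l - 1), j.choose (k - 1) := by
      refine Finset.sum_congr rfl fun j hj => ?_
      rw [Finset.mem_range] at hj
      congr 1
      omega
    rw [hsum, flatA1_hockey]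
    congr 1
    omega

end Pool.Agent.H51.KL
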