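import Pool.Agent.H51.KL.FlatA

/-!
JOB KL-FLATB. A flat part of the Syracuse density. (helper file for MP_ff4775_nt)

Let `S = Ls D`, `2^l₀ ≤ 3^k < 2^(l₀+1)`, `win`, `C`, `C₁` from `good_words`, and
`pt y = ∑_{k' ∈ win} ∑_{w : Fin k' → Fin D, WDom w y, wA w = l₀, wβ w ≤ C 2^l₀}
          3^k' / 2^l₀ * p D (k - k') (wnxt w y)`.
* `pt ≤ p D k`: for every `l` and `k`,
  `∑_{k' ≤ k} ∑_{w : Fin k' → Fin D, WDom w y, wA w = l} 3^k'/2^l * p D (k-k') (wnxt w y) ≤ p D k y`
  by induction on `k` (for `l = 0` only the empty word counts, as every letter has exponent `≥ 1`;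
  for `l ≥ 1` split off the first letter). [a sequence of letters has at most one prefix of total
  exponent exactly `l`]
* pointwise bound: fix `k'`. The `w` in the sum have distinct constants `wβ w` (`Ls_inj`), so the
  integers `z = wnxt w y = (2^l₀ y - wβ w)/3^k'` are distinct and lie in an interval of length
  `C 2^l₀ / 3^k' ≤ C 3^(k-k')`; `p D (k-k')` is `3^(k-k')`-periodic, nonnegative with sum `≤ 3^(k-k')`
  over a period (`sum_p`), so the sum over `w` is `≤ 3^k'/2^l₀ (C + 2) 3^(k-k') ≤ 2 (C+2)`.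
  Sum over `k' ∈ win`: `pt y ≤ 2 (C+2) C₁ √k`.
* mean: by `sum_word` and `sum_p` each `w` contributes
  `3^k'/2^l₀ * 3^(k-k') (1 - 2^(-D))^(k-k')` to `∑_{y < 3^k} pt y`, and `(1 - 2^(-D))^k ≥ 1 - k 2^(-D) ≥ 3/4`.
-/

set_option autoImplicit false

namespace Pool.Agent.H51.KL

open Finset

private noncomputable def trm (D k l : ℕ) {k' : ℕ} (w : Fin k' → Fin D) (y : ℤ) : ℝ :=
  if (Ls D).WDom w y then (3 : ℝ) ^ k' / 2 ^ l * p D (k - k') ((Ls D).wnxt w y) else 0

private theorem trm_nonneg (D k l : ℕ) {k' : ℕ} (w : Fin k' → Fin D) (y : ℤ) :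
    0 ≤ trm D k l w y := by
  unfold trm
  split_ifs
  · have := p_nonneg D (k - k') ((Ls D).wnxt w y)
    positivity
  · exact le_rfl

private theorem pref_le (D : ℕ) : ∀ (k l : ℕ) (y : ℤ),
    ∑ k' ∈ range (k + 1), ∑ w : Fin k' → Fin D,
      (if (Ls D).wA w = l then trm D k l w y else 0) ≤ p D k y := by
  intro k
  induction k with
  | zero =>
    intro l y
    rw [Finset.sum_range_one]
    rw [Fintype.sum_unique]
    by_cases h : (Ls D).wA (default : Fin 0 → Fin D) = l
    · rw [if_pos h]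
      have hl : l = 0 := by
        rw [← h]; simp [Sys.wA]
      subst hl
      unfold trm
      split_ifs
      · simp [p_zero]
      · rw [p_zero]; norm_num
    · rw [if_neg h, p_zero]; norm_num
  | succ k ih =>
    intro l y
    rw [Finset.sum_range_succ']
    rcases Nat.eq_zero_or_pos l with hl | hl
    · subst hl
      have h1 : ∑ k' ∈ range (k + 1), ∑ w : Fin (k' + 1) → Fin D,
          (if (Ls D).wA w = 0 then trm D (k + 1) 0 w y else 0) = 0 := by
        apply Finset.sum_eq_zero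
        intro k' _
        apply Finset.sum_eq_zero
        intro w _
        have := Ls_le_wA D (k' + 1) w
        rw [if_neg (by omega)]
      rw [h1, zero_add, Fintype.sum_unique]
      have h0 : (Ls D).wA (default : Fin 0 → Fin D) = 0 := by simp [Sys.wA]
      rw [if_pos h0]
      unfold trm
      have hn : (Ls D).wnxt (default : Fin 0 → Fin D) y = y := by
        unfold Sys.wnxt
        rw [h0]
        simp [Sys.wβ]
      rw [hn]
      split_ifs
      · simp
      · exact p_nonneg _ _ _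
    · have h0 : ∑ w : Fin 0 → Fin D,
          (if (Ls D).wA w = l then trm D (k + 1) l w y else 0) = 0 := by
        apply Finset.sum_eq_zero
        intro w _
        have h0 : (Ls D).wA w = 0 := by simp [Sys.wA]
        rw [if_neg (by omega)]
      rw [h0, add_zero]
      have hp : p D (k + 1) y = ∑ i : Fin D, if (3 : ℤ) ^ (Ls D).B ∣ 2 ^ (Ls D).A i * y - (Ls D).β i then
          lv D i * p D k ((2 ^ (Ls D).A i * y - (Ls D).β i) / 3 ^ (Ls D).B) else 0 := rfl
      rw [hp]
      have key : ∀ k' ∈ range (k + 1), ∑ w : Fin (k' + 1) → Fin D,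
          (if (Ls D).wA w = l then trm D (k + 1) l w y else 0) =
          ∑ i : Fin D, if (3 : ℤ) ^ (Ls D).B ∣ 2 ^ (Ls D).A i * y - (Ls D).β i then
            (if (Ls D).A i ≤ l then lv D i * ∑ w : Fin k' → Fin D,
              (if (Ls D).wA w = l - (Ls D).A i then
                trm D k (l - (Ls D).A i) w ((2 ^ (Ls D).A i * y - (Ls D).β i) / 3 ^ (Ls D).B) else 0)
              else 0) else 0 := by
        intro k' hk'
        rw [← (Fin.consEquiv (fun _ : Fin (k' + 1) => Fin D)).sum_comp, Fintype.sum_prod_type]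
        apply Finset.sum_congr rfl
        intro i _
        by_cases hd : (3 : ℤ) ^ (Ls D).B ∣ 2 ^ (Ls D).A i * y - (Ls D).β i
        · rw [if_pos hd]
          by_cases hA : (Ls D).A i ≤ l
          · rw [if_pos hA, Finset.mul_sum]
            apply Finset.sum_congr rfl
            intro w _
            have e1 : (Fin.consEquiv (fun _ : Fin (k' + 1) => Fin D)) (i, w) =
              (Fin.cons i w : Fin (k' + 1) → Fin D) := rfl
            rw [e1]
            have e2 : (Ls D).wA (Fin.cons i w : Fin (k' + 1) → Fin D) = (Ls D).A i + (Ls D).wA w := by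
              rw [Sys.wA_succ, Fin.tail_cons, Fin.cons_zero]
            rw [e2]
            by_cases hl' : (Ls D).wA w = l - (Ls D).A i
            · rw [if_pos (by omega), if_pos hl']
              unfold trm
              have e3 : (Ls D).WDom (Fin.cons i w : Fin (k' + 1) → Fin D) y ↔
                  (Ls D).WDom w ((2 ^ (Ls D).A i * y - (Ls D).β i) / 3 ^ (Ls D).B) := by
                rw [Sys.wDom_succ, Fin.tail_cons, Fin.cons_zero]
                exact ⟨fun h => h.2, fun h => ⟨hd, h⟩⟩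
              by_cases hW : (Ls D).WDom (Fin.cons i w : Fin (k' + 1) → Fin D) y
              · rw [if_pos hW, if_pos (e3.1 hW), Sys.wnxt_succ _ _ _ hW, Fin.tail_cons, Fin.cons_zero,
                  Nat.add_sub_add_right]
                have e4 : (3 : ℝ) ^ (k' + 1) / 2 ^ l =
                    lv D i * ((3 : ℝ) ^ k' / 2 ^ (l - (Ls D).A i)) := by
                  unfold lv
                  have e5 : (2 : ℝ) ^ l = 2 ^ ((i : ℕ) + 1) * 2 ^ (l - (Ls D).A i) := by
                    rw [← pow_add]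
                    congr 1
                    have : (Ls D).A i = (i : ℕ) + 1 := rfl
                    omega
                  rw [e5, pow_succ]
                  field_simp
                rw [e4]
                ring
              · rw [if_neg hW, if_neg (fun h => hW (e3.2 h)), mul_zero]
            · rw [if_neg (by omega), if_neg hl', mul_zero]
          · rw [if_neg hA]
            apply Finset.sum_eq_zero
            intro w _
            have e1 : (Fin.consEquiv (fun _ : Fin (k' + 1) => Fin D)) (i, w) =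
              (Fin.cons i w : Fin (k' + 1) → Fin D) := rfl
            rw [e1]
            have e2 : (Ls D).wA (Fin.cons i w : Fin (k' + 1) → Fin D) = (Ls D).A i + (Ls D).wA w := by
              rw [Sys.wA_succ, Fin.tail_cons, Fin.cons_zero]
            rw [e2, if_neg (by omega)]
        · rw [if_neg hd]
          apply Finset.sum_eq_zero
          intro w _
          have e1 : (Fin.consEquiv (fun _ : Fin (k' + 1) => Fin D)) (i, w) =
            (Fin.cons i w : Fin (k' + 1) → Fin D) := rfl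
          rw [e1]
          split_ifs with h
          · unfold trm
            rw [if_neg]
            rw [Sys.wDom_succ, Fin.tail_cons, Fin.cons_zero]
            exact fun h => hd h.1
          · rfl
      rw [Finset.sum_congr rfl key, Finset.sum_comm]
      apply Finset.sum_le_sum
      intro i _
      by_cases hd : (3 : ℤ) ^ (Ls D).B ∣ 2 ^ (Ls D).A i * y - (Ls D).β i
      · simp only [if_pos hd]
        by_cases hA : (Ls D).A i ≤ l
        · simp only [if_pos hA]
          rw [← Finset.mul_sum]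
          apply mul_le_mul_of_nonneg_left (ih _ _)
          unfold lv
          positivity
        · simp only [if_neg hA, Finset.sum_const_zero]
          have := p_nonneg D k ((2 ^ (Ls D).A i * y - (Ls D).β i) / 3 ^ (Ls D).B)
          have h2 : 0 ≤ lv D i := by unfold lv; positivity
          positivity
      · simp only [if_neg hd, Finset.sum_const_zero, le_refl]

private theorem sum_per (m : ℕ) (g : ℤ → ℝ) (hg : ∀ t s, g (t + 3 ^ m * s) = g t) (e : ℤ) (c : ℕ) :
    ∑ d ∈ range (c * 3 ^ m), g (e + (d : ℤ)) = c * ∑ t ∈ range (3 ^ m), g (t : ℤ) := by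
  induction c with
  | zero => simp
  | succ c ih =>
    rw [Nat.succ_mul, Finset.sum_range_add, ih]
    have h1 : ∀ x ∈ range (3 ^ m), g (e + ((c * 3 ^ m + x : ℕ) : ℤ)) = g (e + 2 ^ 0 * (x : ℤ)) := by
      intro x _
      rw [← hg (e + 2 ^ 0 * (x : ℤ)) (c : ℤ)]
      congr 1
      push_cast
      ring
    rw [Finset.sum_congr rfl h1, Sys.sum_range_affine m 0 e g hg]
    push_cast
    ring

private theorem inner_le (D k k' l C : ℕ) (hk' : k' ≤ k) (hl : 2 ^ l ≤ 3 ^ k)
    (hl2 : 3 ^ k < 2 ^ (l + 1)) (y : ℤ) :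
    ∑ w ∈ univ.filter (fun w : Fin k' → Fin D => (Ls D).wA w = l ∧
        (Ls D).wβ w ≤ ((C * 2 ^ l : ℕ) : ℤ)), trm D k l w y ≤ 2 * (C + 1) := by
  classical
  obtain ⟨m, rfl⟩ := Nat.exists_eq_add_of_le hk'
  set T := (univ.filter (fun w : Fin k' → Fin D => (Ls D).wA w = l ∧
        (Ls D).wβ w ≤ ((C * 2 ^ l : ℕ) : ℤ))).filter (fun w => (Ls D).WDom w y) with hT
  have h1 : ∑ w ∈ univ.filter (fun w : Fin k' → Fin D => (Ls D).wA w = l ∧
        (Ls D).wβ w ≤ ((C * 2 ^ l : ℕ) : ℤ)), trm D (k' + m) l w y =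
      (3 : ℝ) ^ k' / 2 ^ l * ∑ w ∈ T, p D m ((Ls D).wnxt w y) := by
    rw [hT, Finset.mul_sum, Finset.sum_filter (fun w => (Ls D).WDom w y)]
    apply Finset.sum_congr rfl
    intro w _
    unfold trm
    rw [Nat.add_sub_cancel_left]
  rw [h1]
  have hmem : ∀ w ∈ T, (Ls D).wA w = l ∧ (Ls D).wβ w ≤ ((C * 2 ^ l : ℕ) : ℤ) ∧
      2 ^ l * y = 3 ^ k' * (Ls D).wnxt w y + (Ls D).wβ w := by
    intro w hw
    rw [hT, Finset.mem_filter, Finset.mem_filter] at hw
    obtain ⟨⟨_, hA, hB⟩, hW⟩ := hw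
    refine ⟨hA, hB, ?_⟩
    have := Sys.wnxt_spec (Ls D) w y hW
    have hB1 : (Ls D).B = 1 := rfl
    rw [hA, hB1, one_mul] at this
    exact this
  have hinj : Set.InjOn (fun w : Fin k' → Fin D => (Ls D).wnxt w y) T := by
    intro w hw w' hw' he
    have a1 := hmem w hw
    have a2 := hmem w' hw'
    simp only at he
    apply Ls_inj D k' w w' (by rw [a1.1, a2.1])
    have e1 := a1.2.2
    have e2 := a2.2.2
    rw [he] at e1
    linarith
  rw [← Finset.sum_image (f := fun z => p D m z) hinj]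
  set N : ℕ := (C + 1) * 3 ^ m with hN
  set u : ℤ := (2 ^ l * y) / 3 ^ k' with hu
  have h3 : (0 : ℤ) < 3 ^ k' := by positivity
  have hsub : T.image (fun w : Fin k' → Fin D => (Ls D).wnxt w y) ⊆
      (range N).image (fun d : ℕ => (u - (N : ℤ) + 1) + (d : ℤ)) := by
    intro z hz
    rw [Finset.mem_image] at hz
    obtain ⟨w, hw, rfl⟩ := hz
    obtain ⟨a1, a2, a3⟩ := hmem w hw
    have hz1 : (Ls D).wnxt w y ≤ u := by
      rw [hu, Int.le_ediv_iff_mul_le h3]
      have := Ls_wβ_nonneg D k' w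
      linarith
    have hz2 : u - (Ls D).wnxt w y < N := by
      have b1 : 3 ^ k' * u ≤ 2 ^ l * y := Int.mul_ediv_self_le (ne_of_gt h3)
      have b2 : 3 ^ k' * (u - (Ls D).wnxt w y) ≤ (C * 2 ^ l : ℕ) := by
        rw [mul_sub]; linarith
      have b3 : ((C * 2 ^ l : ℕ) : ℤ) ≤ 3 ^ k' * (C * 3 ^ m : ℕ) := by
        have : C * 2 ^ l ≤ 3 ^ k' * (C * 3 ^ m) := by
          calc C * 2 ^ l ≤ C * 3 ^ (k' + m) := Nat.mul_le_mul_left _ hl
            _ = 3 ^ k' * (C * 3 ^ m) := by rw [pow_add]; ring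
        exact_mod_cast this
      have b4 : u - (Ls D).wnxt w y ≤ (C * 3 ^ m : ℕ) := by
        have := le_trans b2 b3
        exact le_of_mul_le_mul_left this h3
      have b5 : ((C * 3 ^ m : ℕ) : ℤ) < (N : ℤ) := by
        rw [hN]
        have : 0 < 3 ^ m := by positivity
        have : C * 3 ^ m < (C + 1) * 3 ^ m := by nlinarith
        exact_mod_cast this
      linarith
    rw [Finset.mem_image]
    refine ⟨((Ls D).wnxt w y - u + N - 1).toNat, ?_, ?_⟩
    · rw [Finset.mem_range]
      omega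
    · omega
  have h2 : ∑ z ∈ T.image (fun w : Fin k' → Fin D => (Ls D).wnxt w y), p D m z ≤
      (C + 1) * 3 ^ m := by
    calc ∑ z ∈ T.image (fun w : Fin k' → Fin D => (Ls D).wnxt w y), p D m z
        ≤ ∑ z ∈ (range N).image (fun d : ℕ => (u - (N : ℤ) + 1) + (d : ℤ)), p D m z :=
          Finset.sum_le_sum_of_subset_of_nonneg hsub (fun z _ _ => p_nonneg D m z)
      _ = ∑ d ∈ range N, p D m ((u - (N : ℤ) + 1) + (d : ℤ)) := by
          rw [Finset.sum_image]
          intro a _ b _ hab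
          simp only at hab
          omega
      _ = ((C + 1 : ℕ) : ℝ) * ∑ t ∈ range (3 ^ m), p D m (t : ℤ) := by
          rw [hN]
          exact sum_per m (p D m) (fun t s => p_periodic D m t s) _ (C + 1)
      _ ≤ (C + 1) * 3 ^ m := by
          rw [sum_p]
          push_cast
          have c1 : (0 : ℝ) ≤ 1 - 1 / 2 ^ D := by
            have : (1 : ℝ) / 2 ^ D ≤ 1 := by
              rw [div_le_one (by positivity)]
              exact one_le_pow₀ (by norm_num)
            linarith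
          have c2 : (1 - 1 / 2 ^ D : ℝ) ^ m ≤ 1 := by
            apply pow_le_one₀ c1
            have : (0 : ℝ) ≤ 1 / 2 ^ D := by positivity
            linarith
          have c3 : (3 : ℝ) ^ m * (1 - 1 / 2 ^ D) ^ m ≤ 3 ^ m := by
            have : (0 : ℝ) < 3 ^ m := by positivity
            nlinarith
          have c4 : (0 : ℝ) ≤ (C : ℝ) + 1 := by positivity
          exact mul_le_mul_of_nonneg_left c3 c4
  calc (3 : ℝ) ^ k' / 2 ^ l * ∑ z ∈ T.image (fun w : Fin k' → Fin D => (Ls D).wnxt w y), p D m z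
      ≤ (3 : ℝ) ^ k' / 2 ^ l * ((C + 1) * 3 ^ m) :=
        mul_le_mul_of_nonneg_left h2 (by positivity)
    _ = (C + 1) * (3 ^ (k' + m) / 2 ^ l) := by rw [pow_add]; ring
    _ ≤ (C + 1) * 2 := by
        apply mul_le_mul_of_nonneg_left _ (by positivity)
        rw [div_le_iff₀ (by positivity)]
        have : (3 : ℝ) ^ (k' + m) < 2 ^ (l + 1) := by exact_mod_cast hl2
        rw [pow_succ] at this
        linarith
    _ = 2 * (C + 1) := by ring

private theorem trm_shift (D k l : ℕ) {k' : ℕ} (hk' : k' ≤ k) (w : Fin k' → Fin D) (y s : ℤ) :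
    trm D k l w (y + 3 ^ k * s) = trm D k l w y := by
  obtain ⟨m, rfl⟩ := Nat.exists_eq_add_of_le hk'
  have hB1 : (Ls D).B = 1 := rfl
  have e1 : y + 3 ^ (k' + m) * s = y + 3 ^ ((Ls D).B * k') * (3 ^ m * s) := by
    rw [hB1, one_mul, pow_add]; ring
  rw [e1]
  unfold trm
  rw [Nat.add_sub_cancel_left]
  by_cases h : (Ls D).WDom w y
  · rw [if_pos h, if_pos ((Sys.wDom_shift _ _ _ _).2 h), Sys.wnxt_shift _ _ _ _ h]
    have e2 : (Ls D).wnxt w y + 2 ^ (Ls D).wA w * (3 ^ m * s) =
        (Ls D).wnxt w y + 3 ^ m * (2 ^ (Ls D).wA w * s) := by ring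
    rw [e2, p_periodic]
  · rw [if_neg h, if_neg (fun h' => h ((Sys.wDom_shift _ _ _ _).1 h'))]

private theorem sum_trm (D k l : ℕ) {k' : ℕ} (hk' : k' ≤ k) (w : Fin k' → Fin D) :
    ∑ y ∈ range (3 ^ k), trm D k l w (y : ℤ) =
      (3 : ℝ) ^ k / 2 ^ l * (1 - 1 / 2 ^ D) ^ (k - k') := by
  obtain ⟨m, rfl⟩ := Nat.exists_eq_add_of_le hk'
  rw [Nat.add_sub_cancel_left]
  have hB1 : (Ls D).B = 1 := rfl
  have h1 := Sys.sum_word (Ls D) w m (p D m) (by
    intro t s
    rw [hB1, one_mul]
    exact p_periodic D m t s)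
  rw [hB1, one_mul, one_mul] at h1
  have h2 : ∑ y ∈ range (3 ^ (k' + m)), trm D (k' + m) l w (y : ℤ) =
      (3 : ℝ) ^ k' / 2 ^ l * ∑ t ∈ range (3 ^ (k' + m)),
        (if (Ls D).WDom w (t : ℤ) then p D m ((Ls D).wnxt w (t : ℤ)) else 0) := by
    rw [Finset.mul_sum]
    apply Finset.sum_congr rfl
    intro y _
    unfold trm
    rw [Nat.add_sub_cancel_left]
    split_ifs
    · rfl
    · rw [mul_zero]
  rw [h2, h1, sum_p, pow_add]
  ring

private theorem pow_ge (k D m : ℕ) (hD : 2 * k ≤ D) (hm : m ≤ k) :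
    (3 / 4 : ℝ) ≤ (1 - 1 / 2 ^ D) ^ m := by
  have h1 : (1 : ℝ) / 2 ^ D ≤ 1 := by
    rw [div_le_one (by positivity)]
    exact one_le_pow₀ (by norm_num)
  have h2 := one_add_mul_le_pow (a := -(1 / 2 ^ D : ℝ)) (by linarith) m
  have h3 : (m : ℝ) * (1 / 2 ^ D) ≤ 1 / 4 := by
    have h4 : 4 * m ≤ 2 ^ D := by
      rcases Nat.eq_zero_or_pos k with hk | hk
      · have : m = 0 := by omega
        subst this
        simp
      · have h5 : ∀ j : ℕ, 4 * (j + 1) ≤ 2 ^ (2 * (j + 1)) := by
          intro j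
          induction j with
          | zero => norm_num
          | succ j ih =>
            have : 2 ^ (2 * (j + 1 + 1)) = 4 * 2 ^ (2 * (j + 1)) := by
              rw [show 2 * (j + 1 + 1) = 2 * (j + 1) + 2 by ring, pow_add]; ring
            omega
        obtain ⟨j, rfl⟩ : ∃ j, k = j + 1 := ⟨k - 1, by omega⟩
        calc 4 * m ≤ 4 * (j + 1) := by omega
          _ ≤ 2 ^ (2 * (j + 1)) := h5 j
          _ ≤ 2 ^ D := Nat.pow_le_pow_right (by norm_num) hD
    have h6 : (4 : ℝ) * m ≤ 2 ^ D := by exact_mod_cast h4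
    rw [mul_one_div, div_le_iff₀ (by positivity)]
    linarith
  have h7 : (1 + -(1 / 2 ^ D : ℝ)) = 1 - 1 / 2 ^ D := by ring
  rw [h7] at h2
  linarith

theorem flat_part : ∃ (C : ℝ) (k₀ : ℕ), 0 < C ∧ ∀ k : ℕ, k₀ ≤ k → ∀ D : ℕ, 2 * k ≤ D →
    ∃ pt : ℤ → ℝ, (∀ y, 0 ≤ pt y) ∧ (∀ y, pt y ≤ p D k y) ∧ (∀ y s, pt (y + 3 ^ k * s) = pt y) ∧
      (∀ y, pt y ≤ C * Real.sqrt k) ∧ 3 / 10 * 3 ^ k ≤ ∑ y ∈ range (3 ^ k), pt (y : ℤ) := by
  obtain ⟨C, C₁, k₀, hC₁, hgw⟩ := good_words
  refine ⟨2 * (C + 1) * C₁, k₀, by positivity, ?_⟩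
  intro k hk D hD
  obtain ⟨win, hw1, hw2, hw3⟩ := hgw k hk D hD (Nat.log 2 (3 ^ k))
    (Nat.pow_log_le_self 2 (by positivity)) (Nat.lt_pow_succ_log_self (by norm_num) _)
  set l := Nat.log 2 (3 ^ k) with hl
  have hl1 : 2 ^ l ≤ 3 ^ k := Nat.pow_log_le_self 2 (by positivity)
  have hl2 : 3 ^ k < 2 ^ (l + 1) := Nat.lt_pow_succ_log_self (by norm_num) _
  refine ⟨fun y => ∑ k' ∈ win, ∑ w ∈ univ.filter (fun w : Fin k' → Fin D => (Ls D).wA w = l ∧
        (Ls D).wβ w ≤ ((C * 2 ^ l : ℕ) : ℤ)), trm D k l w y, ?_, ?_, ?_, ?_, ?_⟩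
  · intro y
    exact Finset.sum_nonneg (fun k' _ => Finset.sum_nonneg (fun w _ => trm_nonneg D k l w y))
  · intro y
    refine le_trans ?_ (pref_le D k l y)
    have hsub : win ⊆ range (k + 1) := by
      intro k' hk'
      rw [Finset.mem_range]
      have := hw1 k' hk'
      omega
    calc ∑ k' ∈ win, ∑ w ∈ univ.filter (fun w : Fin k' → Fin D => (Ls D).wA w = l ∧
          (Ls D).wβ w ≤ ((C * 2 ^ l : ℕ) : ℤ)), trm D k l w y
        ≤ ∑ k' ∈ win, ∑ w : Fin k' → Fin D, (if (Ls D).wA w = l then trm D k l w y else 0) := by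
          apply Finset.sum_le_sum
          intro k' _
          rw [← Finset.sum_filter]
          apply Finset.sum_le_sum_of_subset_of_nonneg
          · intro w hw
            rw [Finset.mem_filter] at hw ⊢
            exact ⟨hw.1, hw.2.1⟩
          · intro w _ _
            exact trm_nonneg D k l w y
      _ ≤ ∑ k' ∈ range (k + 1), ∑ w : Fin k' → Fin D,
          (if (Ls D).wA w = l then trm D k l w y else 0) := by
          apply Finset.sum_le_sum_of_subset_of_nonneg hsub
          intro k' _ _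
          apply Finset.sum_nonneg
          intro w _
          split_ifs
          · exact trm_nonneg D k l w y
          · exact le_rfl
  · intro y s
    apply Finset.sum_congr rfl
    intro k' hk'
    apply Finset.sum_congr rfl
    intro w _
    exact trm_shift D k l (hw1 k' hk') w y s
  · intro y
    calc ∑ k' ∈ win, ∑ w ∈ univ.filter (fun w : Fin k' → Fin D => (Ls D).wA w = l ∧
          (Ls D).wβ w ≤ ((C * 2 ^ l : ℕ) : ℤ)), trm D k l w y
        ≤ ∑ k' ∈ win, (2 * (C + 1) : ℝ) :=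
          Finset.sum_le_sum (fun k' hk' => inner_le D k k' l C (hw1 k' hk') hl1 hl2 y)
      _ = 2 * (C + 1) * (win.card : ℝ) := by
          rw [Finset.sum_const, nsmul_eq_mul]; ring
      _ ≤ 2 * (C + 1) * (C₁ * Real.sqrt k) :=
          mul_le_mul_of_nonneg_left hw2 (by positivity)
      _ = 2 * (C + 1) * C₁ * Real.sqrt k := by ring
  · have h1 : ∑ y ∈ range (3 ^ k), ∑ k' ∈ win, ∑ w ∈ univ.filter (fun w : Fin k' → Fin D =>
          (Ls D).wA w = l ∧ (Ls D).wβ w ≤ ((C * 2 ^ l : ℕ) : ℤ)), trm D k l w (y : ℤ) =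
        ∑ k' ∈ win, ∑ w ∈ univ.filter (fun w : Fin k' → Fin D =>
          (Ls D).wA w = l ∧ (Ls D).wβ w ≤ ((C * 2 ^ l : ℕ) : ℤ)),
            (3 : ℝ) ^ k / 2 ^ l * (1 - 1 / 2 ^ D) ^ (k - k') := by
      rw [Finset.sum_comm]
      apply Finset.sum_congr rfl
      intro k' hk'
      rw [Finset.sum_comm]
      apply Finset.sum_congr rfl
      intro w _
      exact sum_trm D k l (hw1 k' hk') w
    rw [h1]
    have h2 : ∑ k' ∈ win, ∑ w ∈ univ.filter (fun w : Fin k' → Fin D =>
          (Ls D).wA w = l ∧ (Ls D).wβ w ≤ ((C * 2 ^ l : ℕ) : ℤ)),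
            (3 : ℝ) ^ k / 2 ^ l * (1 - 1 / 2 ^ D) ^ (k - k') ≥
        ∑ k' ∈ win, ((univ.filter (fun w : Fin k' → Fin D => (Ls D).wA w = l ∧
          (Ls D).wβ w ≤ ((C * 2 ^ l : ℕ) : ℤ))).card : ℝ) * ((3 : ℝ) ^ k / 2 ^ l * (3 / 4)) := by
      apply Finset.sum_le_sum
      intro k' _
      rw [Finset.sum_const, nsmul_eq_mul]
      apply mul_le_mul_of_nonneg_left _ (by positivity)
      apply mul_le_mul_of_nonneg_left _ (by positivity)
      exact pow_ge k D (k - k') hD (Nat.sub_le _ _)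
    refine le_trans ?_ h2
    rw [← Finset.sum_mul]
    calc 3 / 10 * (3 : ℝ) ^ k = (2 / 5 * 2 ^ l) * ((3 : ℝ) ^ k / 2 ^ l * (3 / 4)) := by
          field_simp
          ring
      _ ≤ _ := mul_le_mul_of_nonneg_right hw3 (by positivity)

end Pool.Agent.H51.KL
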