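import Pool.Agent.H51.KL.Let

/-!
JOB KL-FLT. From words over the block system to words over the letter system; separation. (helper file for MP_ff4775_nt)

The block letter `w : BIdx B ε` acts in the coordinate `y = 1 + 3t` exactly as the word `w.1` of `B`
letters: `2^A t = 3^B t' + (N + 3^B - 2^A)/3` iff `2^A (1+3t) = 3^B (1+3t') + N`.
`flat w : Fin (B * n) → Fin (5 * B)` is the concatenation `w 0, w 1, ...`.
Needed: a formula for `wβ` of an appended word: for `u : Fin m → ι`, `w : Fin n → ι`,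
`S.wβ (Fin.append u w) = 2^(wA w) wβ u + 3^(S.B m) wβ w` (induct on `m` via `wβ_succ`).

* `flat_dom`: `(Bs B ε).WDom w t` iff `(Ls (5B)).WDom (flat w) (1+3t)` and
  `(Ls (5B)).wnxt (flat w) (1+3t) ≡ 1 mod 3`; then `wnxt (flat w) (1+3t) = 1 + 3 wnxt w t`. From
  `3 wβ_Bs w = wβ_Ls (flat w) + 3^(B n) - 2^(wA w)` (`flat_wβ`).
* `sep`: equal `wA` and `wβ_Bs` congruent modulo `3^(B 4n)` ⟹ `wβ_Ls(flat _)` congruent modulo
  `3^(4Bn)` (even `4Bn+1`); both lie in `[0, 3^(4Bn))` since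
  `wβ ≤ 2^A (3/2)^(Bn) ≤ 2^(5Bn) (3/2)^(Bn) = 48^(Bn) < 81^(Bn)` for `Bn > 0` (`Ls_wβ_lt`), so they are
  equal and `Ls_inj` applies; `flat` is injective.
-/

set_option autoImplicit false

namespace Pool.Agent.H51.KL

open Finset

/-- concatenation of blocks -/
def flat {B n : ℕ} {ε : ℝ} (w : Fin n → BIdx B ε) : Fin (B * n) → Fin (5 * B) :=
  fun j => (w ⟨(j : ℕ) / B, Nat.div_lt_of_lt_mul j.2⟩).1
    ⟨(j : ℕ) % B, Nat.mod_lt _ (Nat.pos_of_ne_zero (by
      rintro rfl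
      have := j.2
      simp at this))⟩

private def sA (A : ℕ → ℕ) (s n : ℕ) : ℕ := ∑ j ∈ range n, A (s + j)

private def sb (B : ℕ) (A : ℕ → ℕ) (b : ℕ → ℤ) : ℕ → ℕ → ℤ
  | _, 0 => 0
  | s, n + 1 => 2 ^ sA A (s + 1) n * b s + 3 ^ B * sb B A b (s + 1) n

private theorem sb_succ (B : ℕ) (A : ℕ → ℕ) (b : ℕ → ℤ) (s n : ℕ) :
    sb B A b s (n + 1) = 2 ^ sA A (s + 1) n * b s + 3 ^ B * sb B A b (s + 1) n := rfl

private theorem sA_succ (A : ℕ → ℕ) (s n : ℕ) : sA A s (n + 1) = A s + sA A (s + 1) n := by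
  unfold sA
  rw [sum_range_succ']
  simp only [Nat.add_zero]
  rw [add_comm]
  congr 1
  refine sum_congr rfl fun j _ => ?_
  congr 1
  ring

private theorem sA_add (A : ℕ → ℕ) (s m n : ℕ) : sA A s (m + n) = sA A s m + sA A (s + m) n := by
  unfold sA
  rw [sum_range_add]
  congr 1
  refine sum_congr rfl fun j _ => ?_
  rw [add_assoc]

private theorem sb_add (B : ℕ) (A : ℕ → ℕ) (b : ℕ → ℤ) (n : ℕ) : ∀ m s : ℕ,
    sb B A b s (m + n) = 2 ^ sA A (s + m) n * sb B A b s m + 3 ^ (B * m) * sb B A b (s + m) n := by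
  intro m
  induction m with
  | zero => intro s; simp [sb]
  | succ m ih =>
    intro s
    rw [show m + 1 + n = (m + n) + 1 by ring, sb_succ, sb_succ, ih (s + 1), sA_add,
      show s + 1 + m = s + (m + 1) by ring]
    ring

private theorem wA_eq_sA {ι : Type} (S : Sys ι) (A : ℕ → ℕ) : ∀ (n : ℕ) (w : Fin n → ι) (s : ℕ),
    (∀ j : Fin n, A (s + j) = S.A (w j)) → S.wA w = sA A s n := by
  intro n w s h
  unfold Sys.wA sA
  rw [← Fin.sum_univ_eq_sum_range (fun j => A (s + j))]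
  exact sum_congr rfl fun j _ => (h j).symm

private theorem wβ_eq_sb {ι : Type} (S : Sys ι) (A : ℕ → ℕ) (b : ℕ → ℤ) :
    ∀ (n : ℕ) (w : Fin n → ι) (s : ℕ), (∀ j : Fin n, A (s + j) = S.A (w j)) →
    (∀ j : Fin n, b (s + j) = S.β (w j)) → S.wβ w = sb S.B A b s n := by
  intro n
  induction n with
  | zero => intro w s _ _; rfl
  | succ n ih =>
    intro w s hA hb
    have e : S.wβ w = 2 ^ S.wA (Fin.tail w) * S.β (w 0) + 3 ^ S.B * S.wβ (Fin.tail w) := rfl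
    rw [e, sb_succ, ih (Fin.tail w) (s + 1), wA_eq_sA S A n (Fin.tail w) (s + 1)]
    · have := hb 0
      simp only [Fin.val_zero, add_zero] at this
      rw [this]
    · intro j
      have := hA j.succ
      simp only [Fin.val_succ] at this
      rw [Fin.tail, ← this]
      congr 1; ring
    · intro j
      have := hA j.succ
      simp only [Fin.val_succ] at this
      rw [Fin.tail, ← this]
      congr 1; ring
    · intro j
      have := hb j.succ
      simp only [Fin.val_succ] at this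
      rw [Fin.tail, ← this]
      congr 1; ring

private theorem bs_wA_succ {B n : ℕ} {ε : ℝ} (w : Fin (n + 1) → BIdx B ε) :
    (Bs B ε).wA w = (Ls (5 * B)).wA (w 0).1 + (Bs B ε).wA (Fin.tail w) := by
  unfold Sys.wA
  rw [Fin.sum_univ_succ]
  rfl

private theorem bs_wA_eq {B : ℕ} {ε : ℝ} (A : ℕ → ℕ) : ∀ (n : ℕ) (w : Fin n → BIdx B ε) (s : ℕ),
    (∀ (i : Fin n) (r : Fin B), A (s + B * i + r) = (Ls (5 * B)).A ((w i).1 r)) →
    (Bs B ε).wA w = sA A s (B * n) := by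
  intro n
  induction n with
  | zero => intro w s _; simp [Sys.wA, sA]
  | succ n ih =>
    intro w s h
    rw [bs_wA_succ, ih (Fin.tail w) (s + B), mul_add, mul_one, add_comm (B * n), sA_add]
    · congr 1
      apply wA_eq_sA
      intro j
      have := h 0 j
      simpa using this
    · intro i r
      have := h i.succ r
      simp only [Fin.val_succ] at this
      rw [Fin.tail, ← this]
      congr 1; ring

private theorem bs_wβ_eq {B : ℕ} {ε : ℝ} (A : ℕ → ℕ) : ∀ (n : ℕ) (w : Fin n → BIdx B ε) (s : ℕ),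
    (∀ (i : Fin n) (r : Fin B), A (s + B * i + r) = (Ls (5 * B)).A ((w i).1 r)) →
    3 * (Bs B ε).wβ w = sb 1 A (fun _ => 1) s (B * n) + 3 ^ (B * n) - 2 ^ (Bs B ε).wA w := by
  intro n
  induction n with
  | zero => intro w s _; simp [Sys.wA, sb, Sys.wβ]
  | succ n ih =>
    intro w s h
    have htail : ∀ (i : Fin n) (r : Fin B),
        A (s + B + B * i + r) = (Ls (5 * B)).A ((Fin.tail w i).1 r) := by
      intro i r
      have := h i.succ r
      simp only [Fin.val_succ] at this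
      rw [Fin.tail, ← this]
      congr 1; ring
    have h0 : ∀ j : Fin B, A (s + j) = (Ls (5 * B)).A ((w 0).1 j) := by
      intro j
      have := h 0 j
      simpa using this
    have e1 := ih (Fin.tail w) (s + B) htail
    have e2 := bs_wA_eq A n (Fin.tail w) (s + B) htail
    have e3 := wβ_eq_sb (Ls (5 * B)) A (fun _ => 1) B (w 0).1 s h0 (fun _ => rfl)
    have e4 : (3 : ℤ) * (Bs B ε).β (w 0) =
        (Ls (5 * B)).wβ (w 0).1 + 3 ^ B - 2 ^ (Ls (5 * B)).wA (w 0).1 :=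
      Int.mul_ediv_cancel' (w 0).2.1
    have e5 : (Bs B ε).wβ w = 2 ^ (Bs B ε).wA (Fin.tail w) * (Bs B ε).β (w 0)
        + 3 ^ B * (Bs B ε).wβ (Fin.tail w) := rfl
    rw [bs_wA_succ, mul_add B n 1, mul_one, add_comm (B * n), sb_add, ← e2, pow_add, pow_add, e5]
    have e3' : sb 1 A (fun _ => 1) s B = (Ls (5 * B)).wβ (w 0).1 := e3.symm
    rw [e3', one_mul]
    linear_combination (2 : ℤ) ^ (Bs B ε).wA (Fin.tail w) * e4 + 3 ^ B * e1

private theorem flat_apply {B n : ℕ} {ε : ℝ} (w : Fin n → BIdx B ε) (i : Fin n) (r : Fin B)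
    (h : B * (i : ℕ) + r < B * n) : flat w ⟨B * i + r, h⟩ = (w i).1 r := by
  have hB : 0 < B := Nat.pos_of_ne_zero (by rintro rfl; exact r.elim0)
  have h1 : (B * (i : ℕ) + r) / B = i := by
    rw [Nat.mul_add_div hB, Nat.div_eq_of_lt r.2, add_zero]
  have h2 : (B * (i : ℕ) + r) % B = r := by
    rw [Nat.mul_add_mod, Nat.mod_eq_of_lt r.2]
  unfold flat
  have e1 : (⟨(B * (i : ℕ) + r) / B, Nat.div_lt_of_lt_mul h⟩ : Fin n) = i := Fin.ext h1
  have e2 : (⟨(B * (i : ℕ) + r) % B, Nat.mod_lt _ hB⟩ : Fin B) = r := Fin.ext h2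
  simp only
  rw [e1, e2]

private theorem idx_lt {B n : ℕ} (i : Fin n) (r : Fin B) : B * (i : ℕ) + r < B * n := by
  calc B * (i : ℕ) + r < B * i + B := by have := r.2; omega
    _ = B * (i + 1) := by ring
    _ ≤ B * n := Nat.mul_le_mul_left _ i.2

theorem flat_injective {B n : ℕ} {ε : ℝ} (w w' : Fin n → BIdx B ε) (h : flat w = flat w') :
    w = w' := by
  funext i
  apply Subtype.ext
  funext r
  rw [← flat_apply w i r (idx_lt i r), ← flat_apply w' i r (idx_lt i r), h]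

private def extA {B n : ℕ} {ε : ℝ} (w : Fin n → BIdx B ε) (j : ℕ) : ℕ :=
  if h : j < B * n then (Ls (5 * B)).A (flat w ⟨j, h⟩) else 0

private theorem extA_block {B n : ℕ} {ε : ℝ} (w : Fin n → BIdx B ε) (i : Fin n) (r : Fin B) :
    extA w (0 + B * i + r) = (Ls (5 * B)).A ((w i).1 r) := by
  unfold extA
  rw [zero_add, dif_pos (idx_lt i r), flat_apply w i r (idx_lt i r)]

private theorem extA_flat {B n : ℕ} {ε : ℝ} (w : Fin n → BIdx B ε) (j : Fin (B * n)) :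
    extA w (0 + j) = (Ls (5 * B)).A (flat w j) := by
  unfold extA
  rw [zero_add, dif_pos j.2]

theorem flat_wA {B n : ℕ} {ε : ℝ} (w : Fin n → BIdx B ε) :
    (Ls (5 * B)).wA (flat w) = (Bs B ε).wA w := by
  rw [wA_eq_sA (Ls (5 * B)) (extA w) (B * n) (flat w) 0 (extA_flat w),
    bs_wA_eq (extA w) n w 0 (extA_block w)]

theorem flat_wβ {B n : ℕ} {ε : ℝ} (w : Fin n → BIdx B ε) :
    3 * (Bs B ε).wβ w = (Ls (5 * B)).wβ (flat w) + 3 ^ (B * n) - 2 ^ (Bs B ε).wA w := by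
  rw [wβ_eq_sb (Ls (5 * B)) (extA w) (fun _ => 1) (B * n) (flat w) 0 (extA_flat w) (fun _ => rfl),
    bs_wβ_eq (extA w) n w 0 (extA_block w)]
  rfl

theorem flat_dom {B n : ℕ} {ε : ℝ} (w : Fin n → BIdx B ε) (t : ℤ) :
    (Bs B ε).WDom w t ↔ (Ls (5 * B)).WDom (flat w) (1 + 3 * t) ∧
      (Ls (5 * B)).wnxt (flat w) (1 + 3 * t) % 3 = 1 := by
  have hA := flat_wA w
  have hβ := flat_wβ w
  have hpos : (0 : ℤ) < 3 ^ (B * n) := by positivity
  have hL : (Ls (5 * B)).WDom (flat w) (1 + 3 * t) ↔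
      (3 : ℤ) ^ (B * n) ∣ 2 ^ (Bs B ε).wA w * (1 + 3 * t) - (Ls (5 * B)).wβ (flat w) := by
    show (3 : ℤ) ^ (1 * (B * n)) ∣ 2 ^ (Ls (5 * B)).wA (flat w) * (1 + 3 * t)
      - (Ls (5 * B)).wβ (flat w) ↔ _
    rw [one_mul, hA]
  have hN : (Ls (5 * B)).wnxt (flat w) (1 + 3 * t) =
      (2 ^ (Bs B ε).wA w * (1 + 3 * t) - (Ls (5 * B)).wβ (flat w)) / 3 ^ (B * n) := by
    show (2 ^ (Ls (5 * B)).wA (flat w) * (1 + 3 * t) - (Ls (5 * B)).wβ (flat w)) /
      3 ^ (1 * (B * n)) = _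
    rw [one_mul, hA]
  have hkey : (2 : ℤ) ^ (Bs B ε).wA w * (1 + 3 * t) - (Ls (5 * B)).wβ (flat w) =
      3 * (2 ^ (Bs B ε).wA w * t - (Bs B ε).wβ w) + 3 ^ (B * n) := by
    linear_combination hβ
  have hB : (Bs B ε).WDom w t ↔ (3 : ℤ) ^ (B * n) ∣ 2 ^ (Bs B ε).wA w * t - (Bs B ε).wβ w :=
    Iff.rfl
  rw [hL, hN, hB, hkey]
  set X : ℤ := 2 ^ (Bs B ε).wA w * t - (Bs B ε).wβ w with hX
  constructor
  · rintro ⟨q, hq⟩
    rw [hq]
    have e : 3 * ((3 : ℤ) ^ (B * n) * q) + 3 ^ (B * n) = 3 ^ (B * n) * (3 * q + 1) := by ring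
    rw [e, Int.mul_ediv_cancel_left _ hpos.ne']
    exact ⟨Dvd.intro _ rfl, by omega⟩
  · rintro ⟨⟨q, hq⟩, h2⟩
    rw [hq, Int.mul_ediv_cancel_left _ hpos.ne'] at h2
    obtain ⟨s, hs⟩ : ∃ s, q = 3 * s + 1 := ⟨q / 3, by omega⟩
    refine ⟨s, ?_⟩
    rw [hs] at hq
    have : (3 : ℤ) * X = 3 * (3 ^ (B * n) * s) := by linear_combination hq
    exact mul_left_cancel₀ (by norm_num) this

private theorem bs_wA_le {B : ℕ} {ε : ℝ} (n : ℕ) (w : Fin n → BIdx B ε) :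
    (Bs B ε).wA w ≤ 5 * (B * n) := by
  unfold Sys.wA
  calc ∑ j, (Bs B ε).A (w j) ≤ ∑ _j : Fin n, 5 * B := sum_le_sum fun j _ => (w j).2.2.2
    _ = 5 * (B * n) := by simp; ring

private theorem flat_wβ_lt {B : ℕ} {ε : ℝ} (n : ℕ) (w : Fin n → BIdx B ε) :
    (Ls (5 * B)).wβ (flat w) < 3 ^ (B * (4 * n)) := by
  have h1 := Ls_wβ_lt (5 * B) (B * n) (flat w)
  have h2 : (Ls (5 * B)).wA (flat w) ≤ 5 * (B * n) := by
    rw [flat_wA]; exact bs_wA_le n w
  have h3 : ((2 : ℝ) ^ (Ls (5 * B)).wA (flat w)) ≤ 2 ^ (5 * (B * n)) :=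
    pow_le_pow_right₀ (by norm_num) h2
  have h4 : ((Ls (5 * B)).wβ (flat w) : ℝ) < 3 ^ (B * (4 * n)) := by
    have hp : (0 : ℝ) < (3 / 2) ^ (B * n) := by positivity
    have hq : (1 : ℝ) ≤ (3 / 2) ^ (B * n) := one_le_pow₀ (by norm_num)
    calc ((Ls (5 * B)).wβ (flat w) : ℝ)
        ≤ 2 ^ (Ls (5 * B)).wA (flat w) * ((3 / 2) ^ (B * n) - 1) := h1
      _ ≤ 2 ^ (5 * (B * n)) * ((3 / 2) ^ (B * n) - 1) :=
          mul_le_mul_of_nonneg_right h3 (by linarith)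
      _ < 2 ^ (5 * (B * n)) * (3 / 2) ^ (B * n) := by
          apply mul_lt_mul_of_pos_left _ (by positivity)
          linarith
      _ = (48 : ℝ) ^ (B * n) := by
          rw [pow_mul, ← mul_pow]; norm_num
      _ ≤ (81 : ℝ) ^ (B * n) := pow_le_pow_left₀ (by norm_num) (by norm_num) _
      _ = 3 ^ (B * (4 * n)) := by
          rw [show B * (4 * n) = 4 * (B * n) by ring, pow_mul (3 : ℝ) 4]; norm_num
  exact_mod_cast h4

theorem sep {B : ℕ} {ε : ℝ} (n : ℕ) (w w' : Fin n → BIdx B ε)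
    (hA : (Bs B ε).wA w = (Bs B ε).wA w')
    (hβ : (Bs B ε).wβ w ≡ (Bs B ε).wβ w' [ZMOD 3 ^ (B * (4 * n))]) : w = w' := by
  apply flat_injective
  apply Ls_inj
  · rw [flat_wA, flat_wA, hA]
  · have h1 := flat_wβ w
    have h2 := flat_wβ w'
    have h3 : (3 : ℤ) ^ (B * (4 * n)) ∣ (Bs B ε).wβ w' - (Bs B ε).wβ w := hβ.dvd
    have h4 : (Ls (5 * B)).wβ (flat w) ≡ (Ls (5 * B)).wβ (flat w') [ZMOD 3 ^ (B * (4 * n))] := by
      rw [Int.modEq_iff_dvd]
      have : (Ls (5 * B)).wβ (flat w') - (Ls (5 * B)).wβ (flat w) =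
          3 * ((Bs B ε).wβ w' - (Bs B ε).wβ w) := by
        rw [hA] at h1
        linear_combination h1 - h2
      rw [this]
      exact h3.mul_left 3
    have h5 := flat_wβ_lt n w
    have h6 := flat_wβ_lt n w'
    have h7 := Ls_wβ_nonneg (5 * B) (B * n) (flat w)
    have h8 := Ls_wβ_nonneg (5 * B) (B * n) (flat w')
    have h9 : _ % _ = _ % _ := h4
    rwa [Int.emod_eq_of_lt h7 h5, Int.emod_eq_of_lt h8 h6] at h9

end Pool.Agent.H51.KL
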