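import Pool.Agent.H51.KL.Ent3

/-!
JOB KL-GAIN. The gain from averaging over affine maps. (helper file for MP_ff4775_nt)

`F τ = ∑_w θ w φ(e w + 2^(a w) τ)`, `κ = F^(-lam) / ∑ F^(-lam)`.
`gibbs_eq` with `g = F^(-lam)`: `log((∑ F^(-lam))/N) = -lam ∑ κ log F + ent κ - log N`.
Concavity of `log` (weights `θ`): `log F τ ≥ ∑_w θ w log φ(e w + 2^(a w) τ)` gives (1).
For (2): let `κ_w = push (τ ↦ e w + 2^(a w) τ) κ`, `κ' = ∑_w θ w κ_w` (a probability). Then
`∑_w θ w (-lam ∑_τ κ τ log φ(e w + 2^(a w) τ)) = -lam ∑ κ' log φ`, and `gibbs` with `g = φ^(-lam)`: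
`-lam ∑ κ' log φ + ent κ' ≤ log ∑ φ^(-lam)`. So
`log((∑ F^(-lam))/N) ≤ log((∑ φ^(-lam))/N) - (ent κ' - ent κ)`.
Finally `ent κ' ≥ ∑_{i < am} Θ_i ent κ'_i` (`ent_concave`), `Θ_i = ∑_{a w = i} θ w`, where for `Θ_i > 0`
`κ'_i = (1/Θ_i) ∑_{a w = i} θ w κ_w = push (2^i * ·) (conv κ (ν i))` (by `hν`: `e w = 2^i x`), which has
entropy `ent (conv κ (ν i))`. (Multiplication by `2^i` is a bijection of `ZMod (3^l)`.)
-/

set_option autoImplicit false

namespace Pool.Agent.H51.KL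

open Finset

private noncomputable def gain_two (l : ℕ) : (ZMod (3 ^ l))ˣ :=
  ZMod.unitOfCoprime 2 (Nat.Coprime.pow_right l (by norm_num))

private theorem gain_two_val (l : ℕ) : ((gain_two l : (ZMod (3 ^ l))ˣ) : ZMod (3 ^ l)) = 2 := by
  unfold gain_two
  rw [ZMod.coe_unitOfCoprime]
  norm_cast

private theorem gain_pow_cancel (l i : ℕ) (x : ZMod (3 ^ l)) :
    (2 : ZMod (3 ^ l)) ^ i * (((gain_two l)⁻¹ ^ i : (ZMod (3 ^ l))ˣ) * x) = x := by
  rw [← gain_two_val, ← mul_assoc, ← Units.val_pow_eq_pow_val, ← Units.val_mul, ← mul_pow,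
    mul_inv_cancel, one_pow, Units.val_one, one_mul]

private theorem gain_pow_cancel' (l i : ℕ) (x : ZMod (3 ^ l)) :
    ((((gain_two l)⁻¹ ^ i : (ZMod (3 ^ l))ˣ) : ZMod (3 ^ l)) * ((2 : ZMod (3 ^ l)) ^ i * x)) = x := by
  rw [← gain_two_val, ← mul_assoc, ← Units.val_pow_eq_pow_val, ← Units.val_mul, ← mul_pow,
    inv_mul_cancel, one_pow, Units.val_one, one_mul]

private theorem gain_push {l : ℕ} (κ : ZMod (3 ^ l) → ℝ) (e : ZMod (3 ^ l)) (i : ℕ)
    (x : ZMod (3 ^ l)) :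
    push (fun τ => e + 2 ^ i * τ) κ x
      = κ ((((gain_two l)⁻¹ ^ i : (ZMod (3 ^ l))ˣ) : ZMod (3 ^ l)) * (x - e)) := by
  unfold push
  have h : ∀ τ : ZMod (3 ^ l), (e + 2 ^ i * τ = x) ↔
      (τ = (((gain_two l)⁻¹ ^ i : (ZMod (3 ^ l))ˣ) : ZMod (3 ^ l)) * (x - e)) := by
    intro τ
    constructor
    · rintro rfl
      rw [add_sub_cancel_left, gain_pow_cancel']
    · rintro rfl
      rw [gain_pow_cancel]
      ring
  simp only [h]
  rw [Finset.sum_ite_eq']
  simp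

theorem gain {l : ℕ} {W : Type} [Fintype W] {θ : W → ℝ} (hθ : IsProb θ) (a : W → ℕ)
    (e : W → ZMod (3 ^ l)) {φ : ZMod (3 ^ l) → ℝ} (hφ : ∀ x, 0 < φ x) {lam : ℝ} (hlam : 0 ≤ lam) :
    ∃ κ : ZMod (3 ^ l) → ℝ, IsProb κ ∧
      Real.log ((∑ τ, (∑ w, θ w * φ (e w + 2 ^ a w * τ)) ^ (-lam)) / 3 ^ l) ≤
        ∑ w, θ w * (-lam * ∑ τ, κ τ * Real.log (φ (e w + 2 ^ a w * τ)) + ent κ -
          l * Real.log 3) ∧
      ∀ (am : ℕ), (∀ w, a w < am) → ∀ ν : ℕ → ZMod (3 ^ l) → ℝ, (∀ i, IsProb (ν i)) →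
        (∀ i x, (∑ w, if a w = i then θ w else 0) * ν i x =
          ∑ w, if a w = i ∧ 2 ^ i * x = e w then θ w else 0) →
        Real.log ((∑ τ, (∑ w, θ w * φ (e w + 2 ^ a w * τ)) ^ (-lam)) / 3 ^ l) ≤
          Real.log ((∑ x, φ x ^ (-lam)) / 3 ^ l) -
            ∑ i ∈ range am, (∑ w, if a w = i then θ w else 0) * (ent (conv κ (ν i)) - ent κ) := by
  classical
  have : Nonempty (ZMod (3 ^ l)) := ⟨0⟩
  set F : ZMod (3 ^ l) → ℝ := fun τ => ∑ w, θ w * φ (e w + 2 ^ a w * τ) with hF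
  -- some `θ w` is positive
  obtain ⟨w0, hw0⟩ : ∃ w, 0 < θ w := by
    by_contra hcon
    push Not at hcon
    have : ∑ w, θ w ≤ 0 := Finset.sum_nonpos fun w _ => hcon w
    rw [hθ.sum_one] at this
    linarith
  have hFpos : ∀ τ, 0 < F τ := by
    intro τ
    refine Finset.sum_pos' (fun w _ => mul_nonneg (hθ.nonneg w) (hφ _).le)
      ⟨w0, mem_univ _, mul_pos hw0 (hφ _)⟩
  have hgpos : ∀ τ, 0 < F τ ^ (-lam) := fun τ => Real.rpow_pos_of_pos (hFpos τ) _
  obtain ⟨hκ, hκeq⟩ := gibbs_eq (fun τ => F τ ^ (-lam)) hgpos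
  set κ : ZMod (3 ^ l) → ℝ := fun τ => F τ ^ (-lam) / ∑ y, F y ^ (-lam) with hκdef
  have hlogF : ∀ τ, Real.log (F τ ^ (-lam)) = -lam * Real.log (F τ) := fun τ =>
    Real.log_rpow (hFpos τ) _
  have h3 : Real.log ((3 : ℝ) ^ l) = l * Real.log 3 := Real.log_pow _ _
  have hS : 0 < ∑ τ, F τ ^ (-lam) := Finset.sum_pos (fun τ _ => hgpos τ) univ_nonempty
  have hlhs : Real.log ((∑ τ, F τ ^ (-lam)) / 3 ^ l)
      = -lam * ∑ τ, κ τ * Real.log (F τ) + ent κ - l * Real.log 3 := by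
    rw [Real.log_div hS.ne' (by positivity), h3, ← hκeq]
    congr 2
    rw [Finset.mul_sum]
    refine Finset.sum_congr rfl fun τ _ => ?_
    rw [hlogF]
    simp only [hκdef]
    ring
  -- Jensen
  have hjen : ∀ τ, ∑ w, θ w * Real.log (φ (e w + 2 ^ a w * τ)) ≤ Real.log (F τ) := by
    intro τ
    have := strictConcaveOn_log_Ioi.concaveOn.le_map_sum (t := univ) (w := θ)
      (p := fun w => φ (e w + 2 ^ a w * τ)) (fun w _ => hθ.nonneg w) hθ.sum_one
      (fun w _ => hφ _)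
    simpa only [smul_eq_mul] using this
  have hrhs : ∑ w, θ w * (-lam * ∑ τ, κ τ * Real.log (φ (e w + 2 ^ a w * τ)) + ent κ -
          l * Real.log 3) =
      -lam * ∑ τ, κ τ * ∑ w, θ w * Real.log (φ (e w + 2 ^ a w * τ)) + ent κ - l * Real.log 3 := by
    have h1 : ∑ τ, κ τ * ∑ w, θ w * Real.log (φ (e w + 2 ^ a w * τ))
        = ∑ w, θ w * ∑ τ, κ τ * Real.log (φ (e w + 2 ^ a w * τ)) := by
      simp only [Finset.mul_sum]
      rw [Finset.sum_comm]
      refine Finset.sum_congr rfl fun w _ => Finset.sum_congr rfl fun τ _ => ?_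
      ring
    rw [h1]
    have h2 : ∀ w, θ w * (-lam * ∑ τ, κ τ * Real.log (φ (e w + 2 ^ a w * τ)) + ent κ -
          l * Real.log 3) = -lam * (θ w * ∑ τ, κ τ * Real.log (φ (e w + 2 ^ a w * τ)))
            + θ w * (ent κ - l * Real.log 3) := by
      intro w; ring
    rw [Finset.sum_congr rfl fun w _ => h2 w, Finset.sum_add_distrib, ← Finset.mul_sum,
      ← Finset.sum_mul, hθ.sum_one]
    ring
  have h1 : Real.log ((∑ τ, F τ ^ (-lam)) / 3 ^ l) ≤
        ∑ w, θ w * (-lam * ∑ τ, κ τ * Real.log (φ (e w + 2 ^ a w * τ)) + ent κ -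
          l * Real.log 3) := by
    rw [hlhs, hrhs]
    have : ∑ τ, κ τ * ∑ w, θ w * Real.log (φ (e w + 2 ^ a w * τ))
        ≤ ∑ τ, κ τ * Real.log (F τ) :=
      Finset.sum_le_sum fun τ _ => mul_le_mul_of_nonneg_left (hjen τ) (hκ.nonneg τ)
    nlinarith [mul_le_mul_of_nonneg_left this hlam]
  refine ⟨κ, hκ, h1, ?_⟩
  intro am ham ν hν hνeq
  -- the averaged image
  set κ' : ZMod (3 ^ l) → ℝ :=
    fun x => ∑ w, θ w * push (fun τ => e w + 2 ^ a w * τ) κ x with hκ'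
  have hκ'prob : IsProb κ' := by
    constructor
    · intro x
      exact Finset.sum_nonneg fun w _ => mul_nonneg (hθ.nonneg w) ((push_isProb hκ _).nonneg x)
    · simp only [hκ']
      rw [Finset.sum_comm]
      simp only [← Finset.mul_sum]
      rw [← hθ.sum_one]
      refine Finset.sum_congr rfl fun w _ => ?_
      rw [(push_isProb hκ _).sum_one, mul_one]
  have hint : ∑ x, κ' x * Real.log (φ x)
      = ∑ τ, κ τ * ∑ w, θ w * Real.log (φ (e w + 2 ^ a w * τ)) := by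
    have h5 : ∑ x, κ' x * Real.log (φ x)
        = ∑ w, θ w * ∑ x, push (fun τ => e w + 2 ^ a w * τ) κ x * Real.log (φ x) := by
      simp only [hκ', Finset.mul_sum, Finset.sum_mul]
      rw [Finset.sum_comm]
      refine Finset.sum_congr rfl fun w _ => Finset.sum_congr rfl fun τ _ => ?_
      ring
    rw [h5]
    simp only [sum_push_mul, Finset.mul_sum]
    rw [Finset.sum_comm]
    refine Finset.sum_congr rfl fun w _ => Finset.sum_congr rfl fun τ _ => ?_
    ring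
  have hgib := gibbs hκ'prob (fun x => φ x ^ (-lam)) (fun x => Real.rpow_pos_of_pos (hφ x) _)
  have hlogφ : ∀ x, Real.log (φ x ^ (-lam)) = -lam * Real.log (φ x) := fun x =>
    Real.log_rpow (hφ x) _
  simp only [hlogφ] at hgib
  have hgib' : ∑ x, κ' x * (-lam * Real.log (φ x)) = -lam * ∑ x, κ' x * Real.log (φ x) := by
    rw [Finset.mul_sum]
    refine Finset.sum_congr rfl fun x _ => ?_
    ring
  rw [hgib', hint] at hgib
  rw [hrhs] at h1
  have hS' : 0 < ∑ x, φ x ^ (-lam) :=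
    Finset.sum_pos (fun x _ => Real.rpow_pos_of_pos (hφ x) _) univ_nonempty
  rw [Real.log_div hS'.ne' (by positivity : (3 : ℝ) ^ l ≠ 0), h3]
  -- entropy of the average
  set Θ : ℕ → ℝ := fun i => ∑ w, if a w = i then θ w else 0 with hΘ
  have hΘ0 : ∀ i ∈ range am, 0 ≤ Θ i := fun i _ =>
    Finset.sum_nonneg fun w _ => by
      split_ifs
      · exact hθ.nonneg w
      · exact le_rfl
  have hΘ1 : ∑ i ∈ range am, Θ i = 1 := by
    simp only [hΘ]
    rw [Finset.sum_comm, ← hθ.sum_one]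
    refine Finset.sum_congr rfl fun w _ => ?_
    rw [Finset.sum_ite_eq, if_pos (mem_range.2 (ham w))]
  have hconc := ent_concave (range am) Θ hΘ0 hΘ1
    (fun i => push (fun x => 0 + 2 ^ i * x) (conv κ (ν i)))
    (fun i _ => push_isProb (conv_isProb hκ (hν i)) _)
  have hκ'eq : (fun x => ∑ i ∈ range am, Θ i *
      push (fun x => 0 + 2 ^ i * x) (conv κ (ν i)) x) = κ' := by
    funext x
    have h6 : ∀ i, Θ i * push (fun x => 0 + 2 ^ i * x) (conv κ (ν i)) x
        = ∑ w, if a w = i then θ w * push (fun τ => e w + 2 ^ a w * τ) κ x else 0 := by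
      intro i
      rw [gain_push, sub_zero]
      unfold conv
      rw [Finset.mul_sum]
      have h7 : ∀ y : ZMod (3 ^ l), Θ i * (ν i y * κ (((((gain_two l)⁻¹ ^ i : (ZMod (3 ^ l))ˣ)
            : ZMod (3 ^ l)) * x) - y))
          = ∑ w, if a w = i ∧ 2 ^ i * y = e w then θ w * κ (((((gain_two l)⁻¹ ^ i :
            (ZMod (3 ^ l))ˣ) : ZMod (3 ^ l)) * x) - y) else 0 := by
        intro y
        rw [← mul_assoc, hνeq i y, Finset.sum_mul]
        refine Finset.sum_congr rfl fun w _ => ?_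
        split_ifs <;> simp
      rw [Finset.sum_congr rfl fun y _ => h7 y, Finset.sum_comm]
      refine Finset.sum_congr rfl fun w _ => ?_
      by_cases hw : a w = i
      · simp only [hw, true_and, if_true]
        rw [gain_push]
        have h8 : ∀ y : ZMod (3 ^ l), (2 ^ i * y = e w) ↔
            (y = (((gain_two l)⁻¹ ^ i : (ZMod (3 ^ l))ˣ) : ZMod (3 ^ l)) * e w) := by
          intro y
          constructor
          · intro h; rw [← h, gain_pow_cancel']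
          · rintro rfl; rw [gain_pow_cancel]
        simp only [h8]
        rw [Finset.sum_ite_eq', if_pos (mem_univ _), mul_sub]
      · simp [hw]
    rw [Finset.sum_congr rfl fun i _ => h6 i, Finset.sum_comm]
    refine Finset.sum_congr rfl fun w _ => ?_
    rw [Finset.sum_ite_eq, if_pos (mem_range.2 (ham w))]
  rw [hκ'eq] at hconc
  simp only [ent_affine] at hconc
  have hsplit : ∑ i ∈ range am, Θ i * (ent (conv κ (ν i)) - ent κ)
      = ∑ i ∈ range am, Θ i * ent (conv κ (ν i)) - ent κ := by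
    simp only [mul_sub, Finset.sum_sub_distrib, ← Finset.sum_mul, hΘ1, one_mul]
  rw [hsplit]
  linarith

end Pool.Agent.H51.KL
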