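import Pool.Agent.H51.KL.Defs

/-!
JOB KL-IFS1. Basic facts on affine systems: periodicity, decomposition over words, averages.
(helper file for MP_ff4775_nt)

Key identity for `f_add` / `wdom_cons`: for `w : Fin (n+1) → ι`, with `t' = (2^A₀ t - β₀)/3^B`,
`2^(A'+A₀) t - wβ w = 2^A' (2^A₀ t - β₀) - 3^B wβ(tail)`, and `2` is invertible modulo powers of 3, so
`3^(B(n+1))` divides it iff `3^B ∣ 2^A₀ t - β₀` and `3^(Bn) ∣ 2^A' t' - wβ (tail)`.
-/

set_option autoImplicit false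

namespace Pool.Agent.H51.KL

open Finset

namespace Sys

set_option linter.unusedSectionVars false
set_option linter.unusedVariables false

variable {ι : Type} [Fintype ι] (S : Sys ι)

theorem f_zero (v : ι → ℝ) (t : ℤ) : S.f v 0 t = 1 := rfl

theorem f_succ (v : ι → ℝ) (n : ℕ) (t : ℤ) : S.f v (n + 1) t =
    ∑ i, if (3 : ℤ) ^ S.B ∣ 2 ^ S.A i * t - S.β i then
      v i * S.f v n ((2 ^ S.A i * t - S.β i) / 3 ^ S.B) else 0 := rfl

theorem wβ_succ {n : ℕ} (w : Fin (n + 1) → ι) :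
    S.wβ w = 2 ^ S.wA (Fin.tail w) * S.β (w 0) + 3 ^ S.B * S.wβ (Fin.tail w) := rfl

theorem wA_succ {n : ℕ} (w : Fin (n + 1) → ι) : S.wA w = S.A (w 0) + S.wA (Fin.tail w) := by
  unfold wA
  rw [Fin.sum_univ_succ]
  rfl

theorem wv_succ (v : ι → ℝ) {n : ℕ} (w : Fin (n + 1) → ι) :
    wv v w = v (w 0) * wv v (Fin.tail w) := by
  unfold wv
  rw [Fin.prod_univ_succ]
  rfl

private theorem ifs1_cop (a b : ℕ) : IsCoprime ((3 : ℤ) ^ a) ((2 : ℤ) ^ b) := by
  apply IsCoprime.pow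
  exact ⟨1, -1, by norm_num⟩

private theorem ifs1_key {n : ℕ} (w : Fin (n + 1) → ι) (t : ℤ) :
    (2 : ℤ) ^ S.wA w * t - S.wβ w =
      2 ^ S.wA (Fin.tail w) * (2 ^ S.A (w 0) * t - S.β (w 0)) - 3 ^ S.B * S.wβ (Fin.tail w) := by
  rw [wA_succ, wβ_succ, pow_add]
  ring

private theorem ifs1_pow (n : ℕ) : (3 : ℤ) ^ (S.B * (n + 1)) = 3 ^ S.B * 3 ^ (S.B * n) := by
  rw [← pow_add]
  congr 1
  ring

theorem wDom_succ {n : ℕ} (w : Fin (n + 1) → ι) (t : ℤ) :
    S.WDom w t ↔ (3 : ℤ) ^ S.B ∣ 2 ^ S.A (w 0) * t - S.β (w 0) ∧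
      S.WDom (Fin.tail w) ((2 ^ S.A (w 0) * t - S.β (w 0)) / 3 ^ S.B) := by
  have h3 : (3 : ℤ) ^ S.B ≠ 0 := by positivity
  unfold WDom
  rw [ifs1_key, ifs1_pow]
  constructor
  · intro h
    have h1 : (3 : ℤ) ^ S.B ∣ 2 ^ S.wA (Fin.tail w) * (2 ^ S.A (w 0) * t - S.β (w 0)) := by
      have h0 : (3 : ℤ) ^ S.B ∣ 2 ^ S.wA (Fin.tail w) * (2 ^ S.A (w 0) * t - S.β (w 0)) -
          3 ^ S.B * S.wβ (Fin.tail w) := dvd_trans (Dvd.intro _ rfl) h
      have h0' := dvd_add h0 (Dvd.intro (S.wβ (Fin.tail w)) rfl :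
        (3 : ℤ) ^ S.B ∣ 3 ^ S.B * S.wβ (Fin.tail w))
      rwa [sub_add_cancel] at h0'
    have h2 : (3 : ℤ) ^ S.B ∣ 2 ^ S.A (w 0) * t - S.β (w 0) :=
      (ifs1_cop _ _).dvd_of_dvd_mul_left h1
    refine ⟨h2, ?_⟩
    obtain ⟨u, hu⟩ := h2
    rw [hu, Int.mul_ediv_cancel_left _ h3]
    rw [hu] at h
    have h4 : (3 : ℤ) ^ S.B * 3 ^ (S.B * n) ∣
        3 ^ S.B * (2 ^ S.wA (Fin.tail w) * u - S.wβ (Fin.tail w)) := by
      convert h using 1
      ring
    exact (mul_dvd_mul_iff_left h3).mp h4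
  · rintro ⟨⟨u, hu⟩, h⟩
    rw [hu, Int.mul_ediv_cancel_left _ h3] at h
    rw [hu]
    have e4 : (2 : ℤ) ^ S.wA (Fin.tail w) * (3 ^ S.B * u) - 3 ^ S.B * S.wβ (Fin.tail w) =
        3 ^ S.B * (2 ^ S.wA (Fin.tail w) * u - S.wβ (Fin.tail w)) := by ring
    rw [e4]
    exact mul_dvd_mul_left ((3 : ℤ) ^ S.B) h

private theorem ifs1_spec {n : ℕ} (w : Fin n → ι) (t : ℤ) (h : S.WDom w t) :
    3 ^ (S.B * n) * S.wnxt w t = 2 ^ S.wA w * t - S.wβ w := by
  unfold WDom at h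
  unfold wnxt
  exact Int.mul_ediv_cancel' h

theorem wnxt_succ {n : ℕ} (w : Fin (n + 1) → ι) (t : ℤ) (h : S.WDom w t) :
    S.wnxt w t = S.wnxt (Fin.tail w) ((2 ^ S.A (w 0) * t - S.β (w 0)) / 3 ^ S.B) := by
  obtain ⟨h1, h2⟩ := (S.wDom_succ w t).mp h
  have e1 := S.ifs1_spec w t h
  have e2 := S.ifs1_spec (Fin.tail w) _ h2
  have e3 := Int.mul_ediv_cancel' h1
  have h3 : (3 : ℤ) ^ (S.B * (n + 1)) ≠ 0 := by positivity
  apply mul_left_cancel₀ h3
  rw [e1, ifs1_key, ifs1_pow, mul_assoc, e2]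
  set q := (2 ^ S.A (w 0) * t - S.β (w 0)) / 3 ^ S.B with hq
  rw [← e3]
  ring

/-- `2^A t = 3^(Bn) (wnxt w t) + wβ w` -/
theorem wnxt_spec {n : ℕ} (w : Fin n → ι) (t : ℤ) (h : S.WDom w t) :
    2 ^ S.wA w * t = 3 ^ (S.B * n) * S.wnxt w t + S.wβ w := by
  have := S.ifs1_spec w t h
  linarith

theorem wDom_shift {n : ℕ} (w : Fin n → ι) (c s : ℤ) :
    S.WDom w (c + 3 ^ (S.B * n) * s) ↔ S.WDom w c := by
  unfold WDom
  have e : (2 : ℤ) ^ S.wA w * (c + 3 ^ (S.B * n) * s) - S.wβ w =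
      (2 ^ S.wA w * c - S.wβ w) + 3 ^ (S.B * n) * (2 ^ S.wA w * s) := by ring
  rw [e]
  exact dvd_add_left (Dvd.intro _ rfl)

theorem wnxt_shift {n : ℕ} (w : Fin n → ι) (c s : ℤ) (h : S.WDom w c) :
    S.wnxt w (c + 3 ^ (S.B * n) * s) = S.wnxt w c + 2 ^ S.wA w * s := by
  unfold wnxt
  have e : (2 : ℤ) ^ S.wA w * (c + 3 ^ (S.B * n) * s) - S.wβ w =
      (2 ^ S.wA w * c - S.wβ w) + 3 ^ (S.B * n) * (2 ^ S.wA w * s) := by ring
  rw [e, Int.add_mul_ediv_left _ _ (by positivity)]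

theorem f_periodic (v : ι → ℝ) (n : ℕ) (t s : ℤ) :
    S.f v n (t + 3 ^ (S.B * n) * s) = S.f v n t := by
  induction n generalizing t s with
  | zero => rfl
  | succ n ih =>
    rw [f_succ, f_succ]
    apply Finset.sum_congr rfl
    intro i _
    have e : (2 : ℤ) ^ S.A i * (t + 3 ^ (S.B * (n + 1)) * s) - S.β i =
        (2 ^ S.A i * t - S.β i) + 3 ^ S.B * (3 ^ (S.B * n) * (2 ^ S.A i * s)) := by
      rw [ifs1_pow]
      ring
    rw [e]
    have hd : ((3 : ℤ) ^ S.B ∣ (2 ^ S.A i * t - S.β i) + 3 ^ S.B * (3 ^ (S.B * n) * (2 ^ S.A i * s)))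
        ↔ ((3 : ℤ) ^ S.B ∣ (2 ^ S.A i * t - S.β i)) := dvd_add_left (Dvd.intro _ rfl)
    by_cases hc : (3 : ℤ) ^ S.B ∣ (2 ^ S.A i * t - S.β i)
    · rw [if_pos hc, if_pos (hd.mpr hc), Int.add_mul_ediv_left _ _ (by positivity), ih]
    · rw [if_neg hc, if_neg (fun h => hc (hd.mp h))]

/-- decomposition over words of length `n` -/
theorem f_add (v : ι → ℝ) (n k : ℕ) (t : ℤ) : S.f v (n + k) t =
    ∑ w : Fin n → ι, if S.WDom w t then wv v w * S.f v k (S.wnxt w t) else 0 := by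
  induction n generalizing t with
  | zero =>
    have hd : ∀ w : Fin 0 → ι, S.WDom w t := by
      intro w
      unfold WDom
      simp
    have hn : ∀ w : Fin 0 → ι, S.wnxt w t = t := by
      intro w
      unfold wnxt
      simp [wA, wβ]
    simp only [hd, hn, if_true]
    simp [wv]
  | succ n ih =>
    have e : n + 1 + k = (n + k) + 1 := by omega
    rw [e, f_succ, ← (Fin.consEquiv (fun _ : Fin (n + 1) => ι)).sum_comp, Fintype.sum_prod_type]
    apply Finset.sum_congr rfl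
    intro i _
    have hc0 : ∀ w : Fin n → ι, (Fin.consEquiv (fun _ : Fin (n + 1) => ι)) (i, w) 0 = i := by
      intro w; rfl
    have hct : ∀ w : Fin n → ι, Fin.tail ((Fin.consEquiv (fun _ : Fin (n + 1) => ι)) (i, w)) = w := by
      intro w; rfl
    by_cases hc : (3 : ℤ) ^ S.B ∣ (2 ^ S.A i * t - S.β i)
    · rw [if_pos hc, ih, Finset.mul_sum]
      apply Finset.sum_congr rfl
      intro w _
      have hiff := S.wDom_succ ((Fin.consEquiv (fun _ : Fin (n + 1) => ι)) (i, w)) t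
      rw [hc0, hct] at hiff
      by_cases hw : S.WDom w ((2 ^ S.A i * t - S.β i) / 3 ^ S.B)
      · have hW := hiff.mpr ⟨hc, hw⟩
        have hnx := S.wnxt_succ _ t hW
        rw [hc0, hct] at hnx
        have hvx := wv_succ v ((Fin.consEquiv (fun _ : Fin (n + 1) => ι)) (i, w))
        rw [hc0, hct] at hvx
        rw [if_pos hw, if_pos hW, hnx, hvx]
        ring
      · rw [if_neg hw, if_neg (fun h => hw (hiff.mp h).2), mul_zero]
    · rw [if_neg hc]
      symm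
      apply Finset.sum_eq_zero
      intro w _
      have hiff := S.wDom_succ ((Fin.consEquiv (fun _ : Fin (n + 1) => ι)) (i, w)) t
      rw [hc0, hct] at hiff
      rw [if_neg (fun h => hc (hiff.mp h).1)]

theorem f_eq_sum (v : ι → ℝ) (n : ℕ) (t : ℤ) : S.f v n t =
    ∑ w : Fin n → ι, if S.WDom w t then wv v w else 0 := by
  have h := S.f_add v n 0 t
  rw [add_zero] at h
  rw [h]
  apply Finset.sum_congr rfl
  intro w _
  rw [f_zero, mul_one]

private theorem ifs1_tail_snoc {n : ℕ} (w : Fin (n + 1) → ι) (i : ι) :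
    Fin.tail (Fin.snoc w i : Fin (n + 1 + 1) → ι) = (Fin.snoc (Fin.tail w) i : Fin (n + 1) → ι) := by
  funext j
  refine Fin.lastCases ?_ (fun j => ?_) j
  · simp [Fin.tail]
  · rw [Fin.snoc_castSucc]
    unfold Fin.tail
    rw [← Fin.castSucc_succ, Fin.snoc_castSucc]

/-- appending one letter at the end -/
theorem wβ_snoc {n : ℕ} (w : Fin n → ι) (i : ι) :
    S.wβ (Fin.snoc w i : Fin (n + 1) → ι) = 2 ^ S.A i * S.wβ w + 3 ^ (S.B * n) * S.β i := by
  induction n with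
  | zero =>
    rw [wβ_succ]
    have h0 : (Fin.snoc w i : Fin (0 + 1) → ι) 0 = i := by
      have : (0 : Fin (0 + 1)) = Fin.last 0 := rfl
      rw [this, Fin.snoc_last]
    rw [h0]
    simp [wA, wβ]
  | succ n ih =>
    rw [wβ_succ, ifs1_tail_snoc, ih, S.wβ_succ w]
    have h0 : (Fin.snoc w i : Fin (n + 1 + 1) → ι) 0 = w 0 := by
      have : (0 : Fin (n + 1 + 1)) = Fin.castSucc 0 := rfl
      rw [this, Fin.snoc_castSucc]
    have hA : S.wA (Fin.snoc (Fin.tail w) i : Fin (n + 1) → ι) = S.wA (Fin.tail w) + S.A i := by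
      unfold wA
      rw [Fin.sum_univ_castSucc]
      simp
    rw [h0, hA, ifs1_pow, pow_add]
    ring

theorem wA_snoc {n : ℕ} (w : Fin n → ι) (i : ι) :
    S.wA (Fin.snoc w i : Fin (n + 1) → ι) = S.wA w + S.A i := by
  unfold wA
  rw [Fin.sum_univ_castSucc]
  simp

theorem wv_nonneg {v : ι → ℝ} (hv : ∀ i, 0 ≤ v i) {n : ℕ} (w : Fin n → ι) : 0 ≤ wv v w := by
  unfold wv
  exact Finset.prod_nonneg (fun j _ => hv _)

theorem f_nonneg {v : ι → ℝ} (hv : ∀ i, 0 ≤ v i) (n : ℕ) (t : ℤ) : 0 ≤ S.f v n t := by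
  induction n generalizing t with
  | zero => rw [f_zero]; norm_num
  | succ n ih =>
    rw [f_succ]
    apply Finset.sum_nonneg
    intro i _
    split_ifs
    · exact mul_nonneg (hv i) (ih _)
    · exact le_refl _

theorem f_pos {v : ι → ℝ} (hv : ∀ i, 0 < v i)
    (hcov : ∀ t, ∃ i, (3 : ℤ) ^ S.B ∣ 2 ^ S.A i * t - S.β i) (n : ℕ) (t : ℤ) : 0 < S.f v n t := by
  induction n generalizing t with
  | zero => rw [f_zero]; norm_num
  | succ n ih =>
    rw [f_succ]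
    obtain ⟨i, hi⟩ := hcov t
    apply Finset.sum_pos'
    · intro j _
      split_ifs
      · exact mul_nonneg (hv j).le (ih _).le
      · exact le_refl _
    · refine ⟨i, Finset.mem_univ _, ?_⟩
      rw [if_pos hi]
      exact mul_pos (hv i) (ih _)

theorem f_mono {v v' : ι → ℝ} (hv : ∀ i, 0 ≤ v i) (h : ∀ i, v i ≤ v' i) (n : ℕ) (t : ℤ) :
    S.f v n t ≤ S.f v' n t := by
  induction n generalizing t with
  | zero => rw [f_zero, f_zero]
  | succ n ih =>
    rw [f_succ, f_succ]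
    apply Finset.sum_le_sum
    intro i _
    split_ifs
    · exact mul_le_mul (h i) (ih _) (S.f_nonneg hv n _) ((hv i).trans (h i))
    · exact le_refl _

theorem f_smul (v : ι → ℝ) (c : ℝ) (n : ℕ) (t : ℤ) :
    S.f (fun i => c * v i) n t = c ^ n * S.f v n t := by
  induction n generalizing t with
  | zero => rw [f_zero, f_zero]; simp
  | succ n ih =>
    rw [f_succ, f_succ, Finset.mul_sum]
    apply Finset.sum_congr rfl
    intro i _
    split_ifs
    · rw [ih, pow_succ]; ring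
    · rw [mul_zero]

theorem f_le_pow {v : ι → ℝ} (hv : ∀ i, 0 ≤ v i) (n : ℕ) (t : ℤ) :
    S.f v n t ≤ (∑ i, v i) ^ n := by
  induction n generalizing t with
  | zero => rw [f_zero]; simp
  | succ n ih =>
    rw [f_succ, pow_succ, mul_comm, Finset.sum_mul]
    apply Finset.sum_le_sum
    intro i _
    split_ifs
    · exact mul_le_mul_of_nonneg_left (ih _) (hv i)
    · exact mul_nonneg (hv i) (pow_nonneg (Finset.sum_nonneg (fun j _ => hv j)) n)

theorem pow_le_f {v : ι → ℝ} (hv : ∀ i, 0 ≤ v i) (c : ℝ) (hc : 0 ≤ c) (h : ∀ t, c ≤ S.f v 1 t)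
    (n : ℕ) (t : ℤ) : c ^ n ≤ S.f v n t := by
  induction n generalizing t with
  | zero => rw [f_zero]; simp
  | succ n ih =>
    have h1 := h t
    rw [show (1 : ℕ) = 0 + 1 from rfl, f_succ] at h1
    rw [f_succ]
    calc c ^ (n + 1) = c * c ^ n := by ring
      _ ≤ (∑ i, if (3 : ℤ) ^ S.B ∣ 2 ^ S.A i * t - S.β i then
            v i * S.f v 0 ((2 ^ S.A i * t - S.β i) / 3 ^ S.B) else 0) * c ^ n :=
          mul_le_mul_of_nonneg_right h1 (pow_nonneg hc n)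
      _ = ∑ i, (if (3 : ℤ) ^ S.B ∣ 2 ^ S.A i * t - S.β i then
            v i * S.f v 0 ((2 ^ S.A i * t - S.β i) / 3 ^ S.B) else 0) * c ^ n := by
          rw [Finset.sum_mul]
      _ ≤ _ := by
          apply Finset.sum_le_sum
          intro i _
          split_ifs
          · rw [f_zero, mul_one]
            exact mul_le_mul_of_nonneg_left (ih _) (hv i)
          · rw [zero_mul]

end Sys

end Pool.Agent.H51.KL
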