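import Pool.Agent.H51.KL.Ifs1

/-!
JOB KL-IFS2. Averages over residues for affine systems. (helper file for MP_ff4775_nt)

Use that `t ↦ e + 2^b t` permutes the residues modulo `3^N`. `sum_word`: write the residues modulo
`3^(B(n+k))` as `c + 3^(Bn) s` (`sum_range_split`); `WDom w` holds for exactly one `c < 3^(Bn)`
(`wDom_shift`, `2^A` invertible), and `wnxt w (c + 3^(Bn) s) = e + 2^A s` (`wnxt_shift`).
-/

set_option autoImplicit false

namespace Pool.Agent.H51.KL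

open Finset

namespace Sys

variable {ι : Type} [Fintype ι] (S : Sys ι)

/-- sum of a `3^a`-periodic function along `t ↦ e + 2^b t` over a period -/
theorem sum_range_affine (N b : ℕ) (e : ℤ) (g : ℤ → ℝ) (hg : ∀ t s, g (t + 3 ^ N * s) = g t) :
    ∑ t ∈ range (3 ^ N), g (e + 2 ^ b * (t : ℤ)) = ∑ t ∈ range (3 ^ N), g (t : ℤ) := by
  have h3 : (0 : ℤ) < 3 ^ N := by positivity
  let φ : ℕ → ℕ := fun t => ((e + 2 ^ b * (t : ℤ)) % 3 ^ N).toNat
  have hφ : ∀ t, ((φ t : ℕ) : ℤ) = (e + 2 ^ b * (t : ℤ)) % 3 ^ N := fun t =>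
    Int.toNat_of_nonneg (Int.emod_nonneg _ h3.ne')
  have hmem : ∀ t, φ t ∈ range (3 ^ N) := by
    intro t
    rw [mem_range]
    have : ((φ t : ℕ) : ℤ) < ((3 ^ N : ℕ) : ℤ) := by
      rw [hφ]
      push_cast
      exact Int.emod_lt_of_pos _ h3
    exact_mod_cast this
  have hinj : Set.InjOn φ (range (3 ^ N) : Finset ℕ) := by
    intro t ht t' ht' heq
    have h1 : (e + 2 ^ b * (t : ℤ)) % 3 ^ N = (e + 2 ^ b * (t' : ℤ)) % 3 ^ N := by
      rw [← hφ, ← hφ, heq]
    have h2 : (3 : ℤ) ^ N ∣ 2 ^ b * ((t : ℤ) - t') := by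
      have h0 := Int.ModEq.dvd (n := 3 ^ N) (a := e + 2 ^ b * (t' : ℤ)) (b := e + 2 ^ b * (t : ℤ))
        h1.symm
      have h9 : e + 2 ^ b * (t : ℤ) - (e + 2 ^ b * (t' : ℤ)) = 2 ^ b * ((t : ℤ) - t') := by ring
      rwa [h9] at h0
    have hcop : IsCoprime ((3 : ℤ) ^ N) (2 ^ b) := by
      apply IsCoprime.pow
      exact ⟨1, -1, by norm_num⟩
    have h4 := hcop.dvd_of_dvd_mul_left h2
    rw [coe_range, Set.mem_Iio] at ht ht'
    have h5 : (t : ℤ) - t' = 0 := by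
      apply Int.eq_zero_of_abs_lt_dvd h4
      rw [abs_lt]
      have h6 : (t : ℤ) < 3 ^ N := by exact_mod_cast ht
      have h7 : (t' : ℤ) < 3 ^ N := by exact_mod_cast ht'
      constructor <;> omega
    omega
  refine Finset.sum_nbij φ (fun t _ => hmem t) hinj ?_ ?_
  · exact Finset.surjOn_of_injOn_of_card_le φ (fun t _ => hmem t) hinj le_rfl
  · intro t _
    rw [hφ]
    have h1 := Int.emod_add_mul_ediv (e + 2 ^ b * (t : ℤ)) (3 ^ N)
    conv_lhs => rw [← h1]
    exact hg _ _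

/-- splitting a residue into a prefix and a tail -/
theorem sum_range_split (a b : ℕ) (g : ℤ → ℝ) :
    ∑ t ∈ range (3 ^ (a + b)), g (t : ℤ) =
      ∑ c ∈ range (3 ^ a), ∑ s ∈ range (3 ^ b), g ((c : ℤ) + 3 ^ a * (s : ℤ)) := by
  have h3 : 0 < 3 ^ a := by positivity
  rw [← Finset.sum_product']
  symm
  refine Finset.sum_nbij' (fun q => q.1 + 3 ^ a * q.2) (fun t => (t % 3 ^ a, t / 3 ^ a)) ?_ ?_ ?_ ?_ ?_
  · rintro ⟨c, s⟩ h
    rw [mem_product, mem_range, mem_range] at h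
    rw [mem_range, pow_add]
    have h1 : s + 1 ≤ 3 ^ b := h.2
    have h2 := Nat.mul_le_mul_left (3 ^ a) h1
    have h4 : 3 ^ a * (s + 1) = 3 ^ a * s + 3 ^ a := by ring
    simp only
    have := h.1
    simp only at this
    omega
  · intro t h
    rw [mem_range, pow_add] at h
    rw [mem_product, mem_range, mem_range]
    exact ⟨Nat.mod_lt _ h3, (Nat.div_lt_iff_lt_mul h3).2 (by rwa [mul_comm])⟩
  · rintro ⟨c, s⟩ h
    rw [mem_product, mem_range, mem_range] at h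
    refine Prod.ext ?_ ?_
    · change (c + 3 ^ a * s) % 3 ^ a = c
      rw [Nat.add_mul_mod_self_left, Nat.mod_eq_of_lt h.1]
    · change (c + 3 ^ a * s) / 3 ^ a = s
      rw [Nat.add_mul_div_left _ _ h3, Nat.div_eq_of_lt h.1, zero_add]
  · intro t _
    exact Nat.mod_add_div t (3 ^ a)
  · rintro ⟨c, s⟩ _
    simp only
    push_cast
    rfl

omit [Fintype ι] in
private theorem ifs2_count {n : ℕ} (w : Fin n → ι) :
    ∑ t ∈ range (3 ^ (S.B * n)), (if S.WDom w t then (1 : ℝ) else 0) = 1 := by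
  have h := sum_range_affine (S.B * n) (S.wA w) (-S.wβ w)
    (fun t => if (3 : ℤ) ^ (S.B * n) ∣ t then (1 : ℝ) else 0) (by
      intro t s
      have : (3 : ℤ) ^ (S.B * n) ∣ t + 3 ^ (S.B * n) * s ↔ (3 : ℤ) ^ (S.B * n) ∣ t :=
        (Int.dvd_add_left (Dvd.intro _ rfl))
      simp only [this])
  have h2 : ∀ t : ℤ, S.WDom w t ↔ (3 : ℤ) ^ (S.B * n) ∣ -S.wβ w + 2 ^ S.wA w * t := by
    intro t
    unfold WDom
    rw [neg_add_eq_sub]
  simp only [h2]
  rw [h, Finset.sum_eq_single 0]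
  · simp
  · intro t ht ht0
    rw [if_neg]
    intro hd
    rw [mem_range] at ht
    have h3 : (3 : ℕ) ^ (S.B * n) ∣ t := by exact_mod_cast hd
    exact absurd (Nat.le_of_dvd (Nat.pos_of_ne_zero ht0) h3) (not_le.2 ht)
  · intro h0
    exfalso
    apply h0
    rw [mem_range]
    positivity

/-- every word applies to exactly one residue class; average of a periodic function over it -/
theorem sum_word {n : ℕ} (w : Fin n → ι) (k : ℕ) (g : ℤ → ℝ)
    (hg : ∀ t s, g (t + 3 ^ (S.B * k) * s) = g t) :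
    ∑ t ∈ range (3 ^ (S.B * (n + k))), (if S.WDom w t then g (S.wnxt w t) else 0) =
      ∑ t ∈ range (3 ^ (S.B * k)), g (t : ℤ) := by
  rw [mul_add, sum_range_split (S.B * n) (S.B * k)
    (fun t => if S.WDom w t then g (S.wnxt w t) else 0)]
  have h1 : ∀ c ∈ range (3 ^ (S.B * n)), ∑ s ∈ range (3 ^ (S.B * k)),
      (if S.WDom w ((c : ℤ) + 3 ^ (S.B * n) * (s : ℤ)) then
        g (S.wnxt w ((c : ℤ) + 3 ^ (S.B * n) * (s : ℤ))) else 0) =
      (if S.WDom w (c : ℤ) then (1 : ℝ) else 0) * ∑ t ∈ range (3 ^ (S.B * k)), g (t : ℤ) := by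
    intro c _
    by_cases hc : S.WDom w (c : ℤ)
    · rw [if_pos hc, one_mul, ← sum_range_affine (S.B * k) (S.wA w) (S.wnxt w c) g hg]
      refine Finset.sum_congr rfl fun s _ => ?_
      rw [if_pos ((S.wDom_shift w _ _).2 hc), S.wnxt_shift w _ _ hc]
    · rw [if_neg hc, zero_mul]
      refine Finset.sum_eq_zero fun s _ => ?_
      rw [if_neg]
      exact fun h => hc ((S.wDom_shift w _ _).1 h)
  rw [Finset.sum_congr rfl h1, ← Finset.sum_mul, ifs2_count, one_mul]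

theorem sum_f (v : ι → ℝ) (n : ℕ) :
    ∑ t ∈ range (3 ^ (S.B * n)), S.f v n (t : ℤ) = (∑ i, v i) ^ n := by
  simp only [S.f_eq_sum v n]
  rw [Finset.sum_comm]
  have h1 : ∀ w : Fin n → ι, ∑ t ∈ range (3 ^ (S.B * n)), (if S.WDom w (t : ℤ) then wv v w else 0) =
      wv v w := by
    intro w
    have h2 : ∀ t : ℕ, (if S.WDom w (t : ℤ) then wv v w else 0) =
        wv v w * (if S.WDom w (t : ℤ) then (1 : ℝ) else 0) := by
      intro t
      rw [mul_ite, mul_one, mul_zero]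
    simp only [h2]
    rw [← Finset.mul_sum, ifs2_count, mul_one]
  simp only [h1]
  unfold wv
  rw [Fintype.sum_pow]

end Sys

end Pool.Agent.H51.KL
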