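import Pool.Agent.H51.KL.Ifs2

/-!
JOB KL-LET. The letter system: `y ↦ (2^(a+1) y - 1)/3`. (helper file for MP_ff4775_nt)

`N_w = (Ls D).wβ w`, `A_w = (Ls D).wA w`, `B = 1`, so
`N_(a::w) = 2^(A_w) + 3 N_w` and `N_(w snoc a) = 2^(a+1) N_w + 3^n`; `2^(A_w) y = 3^n z + N_w`.

* `Ls_inj`: `N_w - 3^(n-1)` for `w = w' snoc a` is `2^(a+1) N_(w')` with `N_(w')` odd (if `n ≥ 2`), so
  `a` and `N_(w')` can be read off; induct on `n`. (`n = 1`: `N = 1`, `A_w` determines `a`.)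
* `Ls_wβ_lt`: `N_(a::w) = 2^(A_w) + 3 N_w`, so `N_w / 2^(A_w) =: X_w`, `X_(a::w) = 2^(-(a+1)) (1 + 3 X_w)
  ≤ (1 + 3 X_w)/2`, `X_w ≤ (3/2)^n - 1`.
-/

set_option autoImplicit false

namespace Pool.Agent.H51.KL

open Finset

theorem p_zero (D : ℕ) (y : ℤ) : p D 0 y = 1 := rfl

private theorem let_lv_nonneg (D : ℕ) (i : Fin D) : 0 ≤ lv D i := by
  unfold lv; positivity

private theorem let_B (D : ℕ) : (Ls D).B = 1 := rfl

private theorem let_A (D : ℕ) (a : Fin D) : (Ls D).A a = (a : ℕ) + 1 := rfl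

private theorem let_β (D : ℕ) (a : Fin D) : (Ls D).β a = 1 := rfl

theorem p_nonneg (D n : ℕ) (y : ℤ) : 0 ≤ p D n y :=
  Sys.f_nonneg (Ls D) (let_lv_nonneg D) n y

theorem p_periodic (D n : ℕ) (y s : ℤ) : p D n (y + 3 ^ n * s) = p D n y := by
  have h := Sys.f_periodic (Ls D) (lv D) n y s
  rw [let_B, one_mul] at h
  exact h

theorem Ls_wv (D n : ℕ) (w : Fin n → Fin D) :
    Sys.wv (lv D) w = (3 : ℝ) ^ n / 2 ^ (Ls D).wA w := by
  unfold Sys.wv lv Sys.wA
  rw [Finset.prod_div_distrib, Finset.prod_const, Finset.card_univ, Fintype.card_fin,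
    Finset.prod_pow_eq_pow_sum]
  rfl

theorem p_add (D n k : ℕ) (y : ℤ) : p D (n + k) y =
    ∑ w : Fin n → Fin D, if (Ls D).WDom w y then
      (3 : ℝ) ^ n / 2 ^ (Ls D).wA w * p D k ((Ls D).wnxt w y) else 0 := by
  unfold p
  rw [Sys.f_add (Ls D) (lv D) n k y]
  refine Finset.sum_congr rfl fun w _ => ?_
  rw [Ls_wv]

private theorem let_sum_lv (D : ℕ) : ∑ i, lv D i = 3 * (1 - 1 / 2 ^ D) := by
  unfold lv
  rw [Fin.sum_univ_eq_sum_range (fun a : ℕ => (3 : ℝ) / 2 ^ (a + 1)) D]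
  induction D with
  | zero => simp
  | succ D ih =>
    rw [Finset.sum_range_succ, ih]
    field_simp
    ring

/-- `p` is determined by the first `n` digits, with average at most one -/
theorem sum_p (D n : ℕ) : ∑ y ∈ range (3 ^ n), p D n (y : ℤ) = 3 ^ n * (1 - 1 / 2 ^ D) ^ n := by
  have h := Sys.sum_f (Ls D) (lv D) n
  rw [let_B, one_mul, let_sum_lv, mul_pow] at h
  exact h

theorem Ls_wβ_nonneg (D n : ℕ) (w : Fin n → Fin D) : 0 ≤ (Ls D).wβ w := by
  induction n with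
  | zero => exact le_refl _
  | succ n ih =>
    rw [Sys.wβ_succ, let_β, let_B]
    have := ih (Fin.tail w)
    positivity

theorem Ls_le_wA (D n : ℕ) (w : Fin n → Fin D) : n ≤ (Ls D).wA w := by
  induction n with
  | zero => exact Nat.zero_le _
  | succ n ih =>
    rw [Sys.wA_succ, let_A]
    have := ih (Fin.tail w)
    omega

theorem Ls_wβ_lt (D n : ℕ) (w : Fin n → Fin D) :
    ((Ls D).wβ w : ℝ) ≤ 2 ^ (Ls D).wA w * ((3 / 2) ^ n - 1) := by
  induction n with
  | zero =>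
    have : (Ls D).wβ w = 0 := rfl
    rw [this]
    simp
  | succ n ih =>
    rw [Sys.wβ_succ, Sys.wA_succ, let_β, let_B, let_A]
    have h := ih (Fin.tail w)
    have hp : (0 : ℝ) < 2 ^ (Ls D).wA (Fin.tail w) := by positivity
    have h1 : (1 : ℝ) ≤ (3 / 2) ^ (n + 1) := one_le_pow₀ (by norm_num)
    have h2 : (2 : ℝ) ≤ 2 ^ (((w 0 : Fin D) : ℕ) + 1) := by
      rw [pow_succ]
      have : (1 : ℝ) ≤ 2 ^ ((w 0 : Fin D) : ℕ) := one_le_pow₀ (by norm_num)
      linarith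
    push_cast
    rw [pow_add, mul_comm ((2 : ℝ) ^ (((w 0 : Fin D) : ℕ) + 1)), mul_assoc, mul_one]
    have h3 : (2 : ℝ) ^ (Ls D).wA (Fin.tail w) + 3 * ((Ls D).wβ (Fin.tail w) : ℝ) ≤
        2 ^ (Ls D).wA (Fin.tail w) * (2 * ((3 / 2) ^ (n + 1) - 1)) := by
      have : 2 ^ (Ls D).wA (Fin.tail w) * (2 * (((3 : ℝ) / 2) ^ (n + 1) - 1)) =
        2 ^ (Ls D).wA (Fin.tail w) +
          3 * (2 ^ (Ls D).wA (Fin.tail w) * ((3 / 2) ^ n - 1)) := by
        rw [pow_succ]
        ring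
      rw [this]
      linarith
    refine h3.trans ?_
    refine mul_le_mul_of_nonneg_left ?_ hp.le
    refine mul_le_mul_of_nonneg_right h2 ?_
    linarith

private theorem let_snoc (D n : ℕ) (w : Fin (n + 1) → Fin D) :
    (Ls D).wβ w = 2 ^ (((w (Fin.last n) : Fin D) : ℕ) + 1) * (Ls D).wβ (Fin.init w) + 3 ^ n ∧
      (Ls D).wA w = (Ls D).wA (Fin.init w) + (((w (Fin.last n) : Fin D) : ℕ) + 1) := by
  have h1 := Sys.wβ_snoc (Ls D) (Fin.init w) (w (Fin.last n))
  have h2 := Sys.wA_snoc (Ls D) (Fin.init w) (w (Fin.last n))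
  rw [Fin.snoc_init_self] at h1 h2
  rw [let_β, let_B, one_mul, mul_one, let_A] at h1
  rw [let_A] at h2
  exact ⟨h1, h2⟩

private theorem let_odd (D n : ℕ) (w : Fin (n + 1) → Fin D) : Odd ((Ls D).wβ w) := by
  rw [(let_snoc D n w).1]
  refine Even.add_odd ?_ ?_
  · rw [pow_succ]
    exact Even.mul_right (Even.mul_left even_two _) _
  · exact Odd.pow (by decide)

private theorem let_two (a b : ℕ) (x y : ℤ) (hx : Odd x) (hab : a < b)
    (h : 2 ^ a * x = 2 ^ b * y) : False := by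
  obtain ⟨c, rfl⟩ := Nat.exists_eq_add_of_lt hab
  rw [show a + c + 1 = a + (c + 1) by ring, pow_add, mul_assoc] at h
  have h0 : (2 : ℤ) ^ a ≠ 0 := by positivity
  have h1 := mul_left_cancel₀ h0 h
  rw [h1, pow_succ] at hx
  have : Even ((2 : ℤ) ^ c * 2 * y) := Even.mul_right (Even.mul_left even_two _) _
  exact (Int.not_even_iff_odd.2 hx) this

theorem Ls_inj (D n : ℕ) (w w' : Fin n → Fin D) (hA : (Ls D).wA w = (Ls D).wA w')
    (hβ : (Ls D).wβ w = (Ls D).wβ w') : w = w' := by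
  induction n with
  | zero => exact Subsingleton.elim _ _
  | succ n ih =>
    obtain ⟨b1, a1⟩ := let_snoc D n w
    obtain ⟨b2, a2⟩ := let_snoc D n w'
    have key : w (Fin.last n) = w' (Fin.last n) ∧
        (Ls D).wβ (Fin.init w) = (Ls D).wβ (Fin.init w') := by
      rcases n with _ | n
      · have e1 : (Ls D).wA (Fin.init w) = 0 := by
          unfold Sys.wA
          simp
        have e2 : (Ls D).wA (Fin.init w') = 0 := by
          unfold Sys.wA
          simp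
        refine ⟨?_, rfl⟩
        apply Fin.ext
        omega
      · have h : (2 : ℤ) ^ (((w (Fin.last (n + 1)) : Fin D) : ℕ) + 1) * (Ls D).wβ (Fin.init w) =
            2 ^ (((w' (Fin.last (n + 1)) : Fin D) : ℕ) + 1) * (Ls D).wβ (Fin.init w') := by
          rw [b1, b2] at hβ
          linarith
        have o1 : Odd ((Ls D).wβ (Fin.init w)) := let_odd D n _
        have o2 : Odd ((Ls D).wβ (Fin.init w')) := let_odd D n _
        have e : ((w (Fin.last (n + 1)) : Fin D) : ℕ) = ((w' (Fin.last (n + 1)) : Fin D) : ℕ) := by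
          rcases lt_trichotomy ((w (Fin.last (n + 1)) : Fin D) : ℕ)
            ((w' (Fin.last (n + 1)) : Fin D) : ℕ) with h1 | h1 | h1
          · exact (let_two _ _ _ _ o1 (Nat.succ_lt_succ h1) h).elim
          · exact h1
          · exact (let_two _ _ _ _ o2 (Nat.succ_lt_succ h1) h.symm).elim
        refine ⟨Fin.ext e, ?_⟩
        rw [e] at h
        exact mul_left_cancel₀ (by positivity) h
    have hA' : (Ls D).wA (Fin.init w) = (Ls D).wA (Fin.init w') := by
      have e3 : ((w (Fin.last n) : Fin D) : ℕ) = ((w' (Fin.last n) : Fin D) : ℕ) := by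
        rw [key.1]
      omega
    have h1 := ih (Fin.init w) (Fin.init w') hA' key.2
    rw [← Fin.snoc_init_self w, ← Fin.snoc_init_self w', h1, key.1]

theorem not_dvd_of_wDom (D n : ℕ) (hn : 0 < n) (w : Fin n → Fin D) (y : ℤ) (h : (Ls D).WDom w y) :
    ¬ (3 : ℤ) ∣ y := by
  rcases n with _ | n
  · omega
  · rw [Sys.wDom_succ, let_B, let_β, pow_one] at h
    intro h3
    have h4 := Int.dvd_sub (Dvd.dvd.mul_left h3 (2 ^ (Ls D).A (w 0))) h.1
    rw [sub_sub_cancel] at h4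
    omega

end Pool.Agent.H51.KL
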