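import Pool.Agent.H51.KL.Let

/-!
JOB KL-LET2. The last letter of a word. (helper file for MP_ff4775_nt)

* `last_shift`: write the words of length `n+1` as `snoc w a`; given `w` with `WDom w y` and
  `x = wnxt w y` (not divisible by 3, see `not_dvd_wnxt...`), the last letters `a` allowed at `x` are
  those with `3 ∣ 2^(a+1) x - 1`, i.e. `a + 1 ≡ a₀ mod 2` with `a₀ ∈ {1,2}`; the successor is
  `z_a = (2^(a+1) x - 1)/3`, `z_(a+2) = 4 z_a + 1 ≡ z_a + 1 mod 3`, so exactly one of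
  `a + 1 = a₀, a₀+2, a₀+4` has `z ≡ r mod 3`; its weight is `≥ 3 · 2^(-(a₀+4))`, while the total weight
  is `≤ 3 · 2^(-a₀) · 4/3`. The words `w` with `x` divisible by 3 contribute 0 to both sides.
-/

set_option autoImplicit false

namespace Pool.Agent.H51.KL

open Finset

/-- residues of powers of two modulo 3 -/
private theorem two_pow_mod (a : ℕ) :
    ((2 : ℤ) ^ (a + 1)) % 3 = if a % 2 = 0 then 2 else 1 := by
  induction a with
  | zero => simp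
  | succ a ih =>
    rw [pow_succ, Int.mul_emod, ih]
    rcases Nat.mod_two_eq_zero_or_one a with h | h
    · have h' : (a + 1) % 2 = 1 := by omega
      rw [h, h']
      simp
    · have h' : (a + 1) % 2 = 0 := by omega
      rw [h, h']
      simp

/-- which letters apply at `x` -/
private theorem dvd_iff (a : ℕ) (x : ℤ) :
    ((3 : ℤ) ∣ 2 ^ (a + 1) * x - 1) ↔ (x % 3 = 1 ∧ a % 2 = 1) ∨ (x % 3 = 2 ∧ a % 2 = 0) := by
  have h := two_pow_mod a
  have h2 : (2 ^ (a + 1) * x) % 3 = (((2 : ℤ) ^ (a + 1)) % 3 * (x % 3)) % 3 := Int.mul_emod _ _ _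
  rw [h] at h2
  have hx : x % 3 = 0 ∨ x % 3 = 1 ∨ x % 3 = 2 := by omega
  rcases Nat.mod_two_eq_zero_or_one a with h3 | h3
  · rw [h3, if_pos rfl] at h2
    rcases hx with h4 | h4 | h4 <;> rw [h4] at h2 <;> norm_num at h2 <;>
      constructor <;> intro h5 <;> omega
  · rw [h3, if_neg (by norm_num)] at h2
    rcases hx with h4 | h4 | h4 <;> rw [h4] at h2 <;> norm_num at h2 <;>
      constructor <;> intro h5 <;> omega

private theorem p_one_eq (D : ℕ) (x : ℤ) :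
    p D 1 x = ∑ a : Fin D, if (3 : ℤ) ∣ 2 ^ ((a : ℕ) + 1) * x - 1 then
      (3 : ℝ) / 2 ^ ((a : ℕ) + 1) else 0 := by
  unfold p
  refine (Sys.f_succ (Ls D) (lv D) 0 x).trans ?_
  refine Finset.sum_congr rfl fun a _ => ?_
  simp only [Sys.f_zero, mul_one, Ls, lv, pow_one]

private theorem sum_even (D : ℕ) : ∑ a ∈ range D, (if a % 2 = 0 then (3 : ℝ) / 2 ^ (a + 1) else 0) =
    2 - (if D % 2 = 0 then 2 else 1) / 2 ^ D := by
  induction D with
  | zero => simp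
  | succ D ih =>
    rw [Finset.sum_range_succ, ih]
    rcases Nat.mod_two_eq_zero_or_one D with h | h
    · have h' : (D + 1) % 2 = 1 := by omega
      rw [h, h', if_pos rfl, if_pos rfl, if_neg (by norm_num), pow_succ]
      field_simp
      ring
    · have h' : (D + 1) % 2 = 0 := by omega
      rw [h, h', if_neg (by norm_num), if_neg (by norm_num), if_pos rfl, pow_succ]
      field_simp
      ring

private theorem sum_odd (D : ℕ) : ∑ a ∈ range D, (if a % 2 = 1 then (3 : ℝ) / 2 ^ (a + 1) else 0) =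
    1 - (if D % 2 = 0 then 1 else 2) / 2 ^ D := by
  induction D with
  | zero => simp
  | succ D ih =>
    rw [Finset.sum_range_succ, ih]
    rcases Nat.mod_two_eq_zero_or_one D with h | h
    · have h' : (D + 1) % 2 = 1 := by omega
      rw [h, h', if_pos rfl, if_neg (by norm_num), if_neg (by norm_num), pow_succ]
      field_simp
      ring
    · have h' : (D + 1) % 2 = 0 := by omega
      rw [h, h', if_neg (by norm_num), if_pos rfl, if_pos rfl, pow_succ]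
      field_simp
      ring

private theorem p_one_two (D : ℕ) (x : ℤ) (hx : x % 3 = 2) : p D 1 x ≤ 2 := by
  rw [p_one_eq, Fin.sum_univ_eq_sum_range (fun a => if (3 : ℤ) ∣ 2 ^ (a + 1) * x - 1 then
      (3 : ℝ) / 2 ^ (a + 1) else 0) D]
  have h : ∀ a ∈ range D, (if (3 : ℤ) ∣ 2 ^ (a + 1) * x - 1 then (3 : ℝ) / 2 ^ (a + 1) else 0) =
      if a % 2 = 0 then (3 : ℝ) / 2 ^ (a + 1) else 0 := by
    intro a _
    have h1 := dvd_iff a x
    by_cases h2 : a % 2 = 0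
    · rw [if_pos h2, if_pos (h1.2 (Or.inr ⟨hx, h2⟩))]
    · rw [if_neg h2, if_neg (fun h3 => by
        rcases h1.1 h3 with h4 | h4 <;> omega)]
  rw [Finset.sum_congr rfl h, sum_even]
  have : (0 : ℝ) ≤ (if D % 2 = 0 then 2 else 1) / 2 ^ D := by
    split_ifs <;> positivity
  linarith

private theorem p_one_one (D : ℕ) (x : ℤ) (hx : x % 3 = 1) : p D 1 x ≤ 1 := by
  rw [p_one_eq, Fin.sum_univ_eq_sum_range (fun a => if (3 : ℤ) ∣ 2 ^ (a + 1) * x - 1 then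
      (3 : ℝ) / 2 ^ (a + 1) else 0) D]
  have h : ∀ a ∈ range D, (if (3 : ℤ) ∣ 2 ^ (a + 1) * x - 1 then (3 : ℝ) / 2 ^ (a + 1) else 0) =
      if a % 2 = 1 then (3 : ℝ) / 2 ^ (a + 1) else 0 := by
    intro a _
    have h1 := dvd_iff a x
    by_cases h2 : a % 2 = 1
    · rw [if_pos h2, if_pos (h1.2 (Or.inl ⟨hx, h2⟩))]
    · rw [if_neg h2, if_neg (fun h3 => by
        rcases h1.1 h3 with h4 | h4 <;> omega)]
  rw [Finset.sum_congr rfl h, sum_odd]
  have : (0 : ℝ) ≤ (if D % 2 = 0 then 1 else 2) / 2 ^ D := by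
    split_ifs <;> positivity
  linarith

private theorem p_one_zero (D : ℕ) (x : ℤ) (hx : x % 3 = 0) : p D 1 x = 0 := by
  rw [p_one_eq]
  refine Finset.sum_eq_zero fun a _ => ?_
  rw [if_neg]
  intro h
  rcases (dvd_iff a x).1 h with h1 | h1 <;> omega

theorem p_one_ge (D : ℕ) (hD : 2 ≤ D) (y : ℤ) (hy : ¬ (3 : ℤ) ∣ y) : 3 / 4 ≤ p D 1 y := by
  rw [p_one_eq]
  have hnn : ∀ a ∈ (Finset.univ : Finset (Fin D)),
      (0 : ℝ) ≤ if (3 : ℤ) ∣ 2 ^ ((a : ℕ) + 1) * y - 1 then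
      (3 : ℝ) / 2 ^ ((a : ℕ) + 1) else 0 := by
    intro a _
    split_ifs <;> positivity
  have hy' : y % 3 = 1 ∨ y % 3 = 2 := by omega
  rcases hy' with h | h
  · refine le_trans ?_ (Finset.single_le_sum hnn (Finset.mem_univ (⟨1, by omega⟩ : Fin D)))
    rw [if_pos ((dvd_iff 1 y).2 (Or.inl ⟨h, rfl⟩))]
    norm_num
  · refine le_trans ?_ (Finset.single_le_sum hnn (Finset.mem_univ (⟨0, by omega⟩ : Fin D)))
    rw [if_pos ((dvd_iff 0 y).2 (Or.inr ⟨h, rfl⟩))]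
    norm_num

theorem p_one_le (D : ℕ) (y : ℤ) : p D 1 y ≤ 2 := by
  have hy' : y % 3 = 0 ∨ y % 3 = 1 ∨ y % 3 = 2 := by omega
  rcases hy' with h | h | h
  · rw [p_one_zero D y h]; norm_num
  · linarith [p_one_one D y h]
  · exact p_one_two D y h

/-- the one-letter version of `last_shift` -/
private theorem one_shift (D : ℕ) (hD : 6 ≤ D) (x r : ℤ) (hr : r = 0 ∨ r = 1 ∨ r = 2) :
    3 / 64 * p D 1 x ≤ ∑ a : Fin D,
      if (3 : ℤ) ∣ 2 ^ ((a : ℕ) + 1) * x - 1 ∧ (2 ^ ((a : ℕ) + 1) * x - 1) / 3 % 3 = r then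
        (3 : ℝ) / 2 ^ ((a : ℕ) + 1) else 0 := by
  have hnn : ∀ a ∈ (Finset.univ : Finset (Fin D)),
      (0 : ℝ) ≤ if (3 : ℤ) ∣ 2 ^ ((a : ℕ) + 1) * x - 1 ∧
        (2 ^ ((a : ℕ) + 1) * x - 1) / 3 % 3 = r then
      (3 : ℝ) / 2 ^ ((a : ℕ) + 1) else 0 := by
    intro a _
    split_ifs <;> positivity
  have hy' : x % 3 = 0 ∨ x % 3 = 1 ∨ x % 3 = 2 := by omega
  have key : ∀ a : ℕ, ∀ ha : a < D, ((3 : ℤ) ∣ 2 ^ (a + 1) * x - 1) →
      (2 ^ (a + 1) * x - 1) / 3 % 3 = r → (3 : ℝ) / 2 ^ (a + 1) ≤ ∑ a : Fin D,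
      if (3 : ℤ) ∣ 2 ^ ((a : ℕ) + 1) * x - 1 ∧ (2 ^ ((a : ℕ) + 1) * x - 1) / 3 % 3 = r then
        (3 : ℝ) / 2 ^ ((a : ℕ) + 1) else 0 := by
    intro a ha h1 h2
    refine le_trans ?_ (Finset.single_le_sum hnn (Finset.mem_univ (⟨a, ha⟩ : Fin D)))
    rw [if_pos ⟨h1, h2⟩]
  rcases hy' with h | h | h
  · rw [p_one_zero D x h, mul_zero]
    exact Finset.sum_nonneg hnn
  · have h1 := p_one_one D x h
    have h2 : (2 ^ (1 + 1) * x - 1) / 3 % 3 = r ∨ (2 ^ (3 + 1) * x - 1) / 3 % 3 = r ∨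
        (2 ^ (5 + 1) * x - 1) / 3 % 3 = r := by
      obtain ⟨b, rfl⟩ : ∃ b, x = 3 * b + 1 := ⟨x / 3, by omega⟩
      have e1 : (2 ^ (1 + 1) * (3 * b + 1) - 1) / 3 = 4 * b + 1 := by norm_num; omega
      have e2 : (2 ^ (3 + 1) * (3 * b + 1) - 1) / 3 = 16 * b + 5 := by norm_num; omega
      have e3 : (2 ^ (5 + 1) * (3 * b + 1) - 1) / 3 = 64 * b + 21 := by norm_num; omega
      rw [e1, e2, e3]
      have hb : b % 3 = 0 ∨ b % 3 = 1 ∨ b % 3 = 2 := by omega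
      rcases hb with hb | hb | hb <;> rcases hr with hr | hr | hr <;> omega
    rcases h2 with h2 | h2 | h2
    · have h3 := key 1 (by omega) ((dvd_iff 1 x).2 (Or.inl ⟨h, rfl⟩)) h2
      norm_num at h3 ⊢
      linarith
    · have h3 := key 3 (by omega) ((dvd_iff 3 x).2 (Or.inl ⟨h, rfl⟩)) h2
      norm_num at h3 ⊢
      linarith
    · have h3 := key 5 (by omega) ((dvd_iff 5 x).2 (Or.inl ⟨h, rfl⟩)) h2
      norm_num at h3 ⊢
      linarith
  · have h1 := p_one_two D x h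
    have h2 : (2 ^ (0 + 1) * x - 1) / 3 % 3 = r ∨ (2 ^ (2 + 1) * x - 1) / 3 % 3 = r ∨
        (2 ^ (4 + 1) * x - 1) / 3 % 3 = r := by
      obtain ⟨b, rfl⟩ : ∃ b, x = 3 * b + 2 := ⟨x / 3, by omega⟩
      have e1 : (2 ^ (0 + 1) * (3 * b + 2) - 1) / 3 = 2 * b + 1 := by norm_num; omega
      have e2 : (2 ^ (2 + 1) * (3 * b + 2) - 1) / 3 = 8 * b + 5 := by norm_num; omega
      have e3 : (2 ^ (4 + 1) * (3 * b + 2) - 1) / 3 = 32 * b + 21 := by norm_num; omega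
      rw [e1, e2, e3]
      have hb : b % 3 = 0 ∨ b % 3 = 1 ∨ b % 3 = 2 := by omega
      rcases hb with hb | hb | hb <;> rcases hr with hr | hr | hr <;> omega
    rcases h2 with h2 | h2 | h2
    · have h3 := key 0 (by omega) ((dvd_iff 0 x).2 (Or.inr ⟨h, rfl⟩)) h2
      norm_num at h3 ⊢
      linarith
    · have h3 := key 2 (by omega) ((dvd_iff 2 x).2 (Or.inr ⟨h, rfl⟩)) h2
      norm_num at h3 ⊢
      linarith
    · have h3 := key 4 (by omega) ((dvd_iff 4 x).2 (Or.inr ⟨h, rfl⟩)) h2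
      norm_num at h3 ⊢
      linarith

private theorem snoc_wDom (D n : ℕ) (w : Fin n → Fin D) (a : Fin D) (y : ℤ) :
    (Ls D).WDom (Fin.snoc w a : Fin (n + 1) → Fin D) y ↔
      (Ls D).WDom w y ∧ (3 : ℤ) ∣ 2 ^ ((a : ℕ) + 1) * (Ls D).wnxt w y - 1 := by
  have hA := (Ls D).wA_snoc w a
  have hβ := (Ls D).wβ_snoc w a
  have hB : (Ls D).B = 1 := rfl
  have hAa : (Ls D).A a = (a : ℕ) + 1 := rfl
  have hβa : (Ls D).β a = 1 := rfl
  have h0 : 2 ^ (Ls D).wA (Fin.snoc w a : Fin (n + 1) → Fin D) * y -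
      (Ls D).wβ (Fin.snoc w a : Fin (n + 1) → Fin D) =
      2 ^ ((a : ℕ) + 1) * (2 ^ (Ls D).wA w * y - (Ls D).wβ w) - 3 ^ n := by
    rw [hA, hβ, hB, hAa, hβa, pow_add]
    ring
  have hdom : (Ls D).WDom w y ↔ (3 : ℤ) ^ n ∣ 2 ^ (Ls D).wA w * y - (Ls D).wβ w := by
    unfold Sys.WDom
    rw [hB, one_mul]
  have hdom' : (Ls D).WDom (Fin.snoc w a : Fin (n + 1) → Fin D) y ↔
      (3 : ℤ) ^ (n + 1) ∣ 2 ^ ((a : ℕ) + 1) * (2 ^ (Ls D).wA w * y - (Ls D).wβ w) - 3 ^ n := by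
    unfold Sys.WDom
    rw [hB, one_mul, h0]
  have hcop : IsCoprime ((3 : ℤ) ^ n) (2 ^ ((a : ℕ) + 1)) := by
    apply IsCoprime.pow
    norm_num
  have hstep : (Ls D).WDom w y →
      ((Ls D).WDom (Fin.snoc w a : Fin (n + 1) → Fin D) y ↔
        (3 : ℤ) ∣ 2 ^ ((a : ℕ) + 1) * (Ls D).wnxt w y - 1) := by
    intro h
    have h1 := (Ls D).wnxt_spec w y h
    rw [hB, one_mul] at h1
    rw [hdom', h1]
    have h2 : 2 ^ ((a : ℕ) + 1) * (3 ^ n * (Ls D).wnxt w y + (Ls D).wβ w - (Ls D).wβ w) - 3 ^ n =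
        3 ^ n * (2 ^ ((a : ℕ) + 1) * (Ls D).wnxt w y - 1) := by ring
    rw [h2, pow_succ]
    exact mul_dvd_mul_iff_left (by positivity)
  constructor
  · intro h
    have h1 : (Ls D).WDom w y := by
      rw [hdom]
      rw [hdom'] at h
      have h2 : (3 : ℤ) ^ n ∣ 2 ^ ((a : ℕ) + 1) * (2 ^ (Ls D).wA w * y - (Ls D).wβ w) := by
        have h3 : (3 : ℤ) ^ n ∣ 2 ^ ((a : ℕ) + 1) * (2 ^ (Ls D).wA w * y - (Ls D).wβ w) - 3 ^ n :=
          (pow_dvd_pow 3 (Nat.le_succ n)).trans h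
        have := dvd_add h3 (dvd_refl ((3 : ℤ) ^ n))
        rwa [sub_add_cancel] at this
      exact hcop.dvd_of_dvd_mul_left h2
    exact ⟨h1, (hstep h1).1 h⟩
  · rintro ⟨h1, h2⟩
    exact (hstep h1).2 h2

private theorem snoc_wnxt (D n : ℕ) (w : Fin n → Fin D) (a : Fin D) (y : ℤ)
    (h : (Ls D).WDom w y) (ha : (3 : ℤ) ∣ 2 ^ ((a : ℕ) + 1) * (Ls D).wnxt w y - 1) :
    (Ls D).wnxt (Fin.snoc w a : Fin (n + 1) → Fin D) y =
      (2 ^ ((a : ℕ) + 1) * (Ls D).wnxt w y - 1) / 3 := by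
  have hB : (Ls D).B = 1 := rfl
  have h1 := (Ls D).wnxt_spec w y h
  have h2 := (Ls D).wnxt_spec (Fin.snoc w a : Fin (n + 1) → Fin D) y
    ((snoc_wDom D n w a y).2 ⟨h, ha⟩)
  rw [(Ls D).wA_snoc w a, (Ls D).wβ_snoc w a, hB, one_mul, one_mul,
    show (Ls D).A a = (a : ℕ) + 1 from rfl, show (Ls D).β a = 1 from rfl, pow_add] at h2
  rw [hB, one_mul] at h1
  have h3 : (3 : ℤ) ^ n * (3 * (Ls D).wnxt (Fin.snoc w a : Fin (n + 1) → Fin D) y) =
      3 ^ n * (2 ^ ((a : ℕ) + 1) * (Ls D).wnxt w y - 1) := by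
    linear_combination 2 ^ ((a : ℕ) + 1) * h1 - h2
  have h5 := mul_left_cancel₀ (by positivity) h3
  rw [← h5]
  exact (Int.mul_ediv_cancel_left _ (by norm_num)).symm

/-- a fixed proportion of the words of length `n ≥ 1` ends in a given class modulo 3 -/
theorem last_shift (D n : ℕ) (hD : 6 ≤ D) (y r : ℤ) (hr : r = 0 ∨ r = 1 ∨ r = 2) :
    3 / 64 * p D (n + 1) y ≤ ∑ w : Fin (n + 1) → Fin D,
      if (Ls D).WDom w y ∧ (Ls D).wnxt w y % 3 = r then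
        (3 : ℝ) ^ (n + 1) / 2 ^ (Ls D).wA w else 0 := by
  rw [p_add, ← Fintype.sum_equiv (Fin.snocEquiv (fun _ : Fin (n + 1) => Fin D))
    (fun q : Fin D × (Fin n → Fin D) =>
      if (Ls D).WDom (Fin.snoc q.2 q.1 : Fin (n + 1) → Fin D) y ∧
        (Ls D).wnxt (Fin.snoc q.2 q.1 : Fin (n + 1) → Fin D) y % 3 = r then
        (3 : ℝ) ^ (n + 1) / 2 ^ (Ls D).wA (Fin.snoc q.2 q.1 : Fin (n + 1) → Fin D) else 0)
    _ (fun q => rfl), Fintype.sum_prod_type_right, Finset.mul_sum]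
  refine Finset.sum_le_sum fun w _ => ?_
  simp only
  by_cases h : (Ls D).WDom w y
  · rw [if_pos h]
    have h1 := one_shift D hD ((Ls D).wnxt w y) r hr
    have h2 : ∀ a : Fin D, (if (Ls D).WDom (Fin.snoc w a : Fin (n + 1) → Fin D) y ∧
        (Ls D).wnxt (Fin.snoc w a : Fin (n + 1) → Fin D) y % 3 = r then
        (3 : ℝ) ^ (n + 1) / 2 ^ (Ls D).wA (Fin.snoc w a : Fin (n + 1) → Fin D) else 0) =
        (3 : ℝ) ^ n / 2 ^ (Ls D).wA w *
        (if (3 : ℤ) ∣ 2 ^ ((a : ℕ) + 1) * (Ls D).wnxt w y - 1 ∧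
          (2 ^ ((a : ℕ) + 1) * (Ls D).wnxt w y - 1) / 3 % 3 = r then
        (3 : ℝ) / 2 ^ ((a : ℕ) + 1) else 0) := by
      intro a
      by_cases h3 : (3 : ℤ) ∣ 2 ^ ((a : ℕ) + 1) * (Ls D).wnxt w y - 1
      · rw [snoc_wnxt D n w a y h h3]
        by_cases h4 : (2 ^ ((a : ℕ) + 1) * (Ls D).wnxt w y - 1) / 3 % 3 = r
        · rw [if_pos ⟨(snoc_wDom D n w a y).2 ⟨h, h3⟩, h4⟩, if_pos ⟨h3, h4⟩,
            (Ls D).wA_snoc w a, show (Ls D).A a = (a : ℕ) + 1 from rfl, pow_succ, pow_add]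
          field_simp
        · rw [if_neg (fun h5 => h4 h5.2), if_neg (fun h5 => h4 h5.2), mul_zero]
      · rw [if_neg (fun h5 => h3 ((snoc_wDom D n w a y).1 h5.1).2), if_neg (fun h5 => h3 h5.1),
          mul_zero]
    rw [Finset.sum_congr rfl (fun a _ => h2 a), ← Finset.mul_sum]
    have h3 : (0 : ℝ) ≤ (3 : ℝ) ^ n / 2 ^ (Ls D).wA w := by positivity
    calc 3 / 64 * ((3 : ℝ) ^ n / 2 ^ (Ls D).wA w * p D 1 ((Ls D).wnxt w y))
        = (3 : ℝ) ^ n / 2 ^ (Ls D).wA w * (3 / 64 * p D 1 ((Ls D).wnxt w y)) := by ring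
      _ ≤ _ := mul_le_mul_of_nonneg_left h1 h3
  · rw [if_neg h, mul_zero]
    refine Finset.sum_nonneg fun a _ => ?_
    split_ifs <;> positivity

theorem digit (D n : ℕ) (hD : 6 ≤ D) (hn : 0 < n) (y : ℤ) :
    9 / 256 * p D n y ≤ p D (n + 1) y := by
  obtain ⟨m, rfl⟩ : ∃ m, n = m + 1 := ⟨n - 1, by omega⟩
  have h1 := last_shift D m hD y 1 (by norm_num)
  have h2 : 3 / 4 * (∑ w : Fin (m + 1) → Fin D,
      if (Ls D).WDom w y ∧ (Ls D).wnxt w y % 3 = 1 then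
        (3 : ℝ) ^ (m + 1) / 2 ^ (Ls D).wA w else 0) ≤ p D (m + 1 + 1) y := by
    rw [p_add D (m + 1) 1 y, Finset.mul_sum]
    refine Finset.sum_le_sum fun w _ => ?_
    by_cases h : (Ls D).WDom w y
    · rw [if_pos h]
      have h3 : (0 : ℝ) ≤ (3 : ℝ) ^ (m + 1) / 2 ^ (Ls D).wA w := by positivity
      by_cases h4 : (Ls D).wnxt w y % 3 = 1
      · rw [if_pos ⟨h, h4⟩]
        have h5 := p_one_ge D (by omega) ((Ls D).wnxt w y) (by omega)
        calc 3 / 4 * ((3 : ℝ) ^ (m + 1) / 2 ^ (Ls D).wA w)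
            = (3 : ℝ) ^ (m + 1) / 2 ^ (Ls D).wA w * (3 / 4) := by ring
          _ ≤ _ := mul_le_mul_of_nonneg_left h5 h3
      · rw [if_neg (fun h5 => h4 h5.2), mul_zero]
        exact mul_nonneg h3 (p_nonneg _ _ _)
    · rw [if_neg h, if_neg (fun h5 => h h5.1), mul_zero]
  linarith

theorem p_pos (D n : ℕ) (hD : 6 ≤ D) (y : ℤ) (hy : ¬ (3 : ℤ) ∣ y) : 0 < p D n y := by
  induction n with
  | zero => rw [p_zero]; norm_num
  | succ n ih =>
    rcases Nat.eq_zero_or_pos n with h | h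
    · subst h
      have := p_one_ge D (by omega) y hy
      rw [zero_add]
      linarith
    · have := digit D n hD h y
      linarith

end Pool.Agent.H51.KL
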