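import Pool.Agent.H51.KL.Ifs2

/-!
JOB KL-MOM. Negative moments of `f`. (helper file for MP_ff4775_nt)

`logM v lam n = log (3^(-Bn) ∑_{t < 3^(Bn)} (f n t)^(-lam))`.

`exists_prefix`: by `sum_range_split`,
`3^(-B(n+k)) ∑_t f(n+k)(t)^(-lam) = 3^(-Bn) ∑_c (f n c)^(-lam) Z_c`,
`Z_c = 3^(-Bk) ∑_s (f(n+k)(c + 3^(Bn) s) / f n c)^(-lam)`; if all `Z_c < e^(logM(n+k) - logM n)` we get a
contradiction.
`logM_add_le`: for each `c`, with `θ(w) = wv w / f n c` on the words with `WDom w c`, `f_add` gives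
`f(n+k)(c+3^(Bn)s)/f n c = ∑ θ(w) f k (wnxt w c + 2^(wA w) s)`; by convexity of `x^(-lam)` and
`sum_range_affine`, `Z_c ≤ 3^(-Bk) ∑_s f k s^(-lam)`.
-/

set_option autoImplicit false

namespace Pool.Agent.H51.KL

open Finset

private theorem mom_convex {lam : ℝ} (hlam : 0 ≤ lam) :
    ConvexOn ℝ (Set.Ioi (0 : ℝ)) (fun x => x ^ (-lam)) := by
  refine ⟨convex_Ioi 0, ?_⟩
  intro x hx y hy a b ha hb hab
  have hx' : (0 : ℝ) < x := hx
  have hy' : (0 : ℝ) < y := hy
  have hc := strictConcaveOn_log_Ioi.concaveOn.2 hx hy ha hb hab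
  have hpos : 0 < a * x + b * y := by
    rcases eq_or_lt_of_le ha with h | h
    · rw [← h, zero_add] at hab
      rw [← h, hab]; simpa using hy'
    · have : 0 < a * x := mul_pos h hx'
      have : 0 ≤ b * y := mul_nonneg hb hy'.le
      linarith
  have he := convexOn_exp.2 (Set.mem_univ (-lam * Real.log x)) (Set.mem_univ (-lam * Real.log y))
    ha hb hab
  simp only [smul_eq_mul] at hc he ⊢
  rw [Real.rpow_def_of_pos hpos, Real.rpow_def_of_pos hx', Real.rpow_def_of_pos hy']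
  refine (Real.exp_le_exp.2 ?_).trans ?_ (b := Real.exp (a * (-lam * Real.log x) +
    b * (-lam * Real.log y)))
  · nlinarith
  · refine he.trans (le_of_eq ?_)
    rw [mul_comm (-lam) (Real.log x), mul_comm (-lam) (Real.log y)]

namespace Sys

variable {ι : Type} [Fintype ι] (S : Sys ι)

private noncomputable def MM (v : ι → ℝ) (lam : ℝ) (n : ℕ) : ℝ :=
  (∑ t ∈ range (3 ^ (S.B * n)), (S.f v n (t : ℤ)) ^ (-lam)) / 3 ^ (S.B * n)

private theorem MM_pos {v : ι → ℝ} (hf : ∀ n t, 0 < S.f v n t) (lam : ℝ) (n : ℕ) :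
    0 < S.MM v lam n := by
  unfold MM
  refine div_pos ?_ (by positivity)
  refine Finset.sum_pos (fun t _ => Real.rpow_pos_of_pos (hf _ _) _) ?_
  exact ⟨0, by simp⟩

private theorem MM_split {v : ι → ℝ} (hf : ∀ n t, 0 < S.f v n t) (lam : ℝ) (n k : ℕ) :
    S.MM v lam (n + k) = (∑ c ∈ range (3 ^ (S.B * n)), (S.f v n (c : ℤ)) ^ (-lam) *
      ((∑ s ∈ range (3 ^ (S.B * k)),
        (S.f v (n + k) ((c : ℤ) + 3 ^ (S.B * n) * (s : ℤ)) / S.f v n (c : ℤ)) ^ (-lam)) /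
          3 ^ (S.B * k))) / 3 ^ (S.B * n) := by
  unfold MM
  rw [mul_add, Sys.sum_range_split (S.B * n) (S.B * k) (fun t => (S.f v (n + k) t) ^ (-lam)),
    pow_add, mul_comm ((3 : ℝ) ^ (S.B * n)), ← div_div]
  congr 1
  rw [Finset.sum_div]
  refine Finset.sum_congr rfl fun c _ => ?_
  rw [← mul_div_assoc]
  congr 1
  rw [Finset.mul_sum]
  refine Finset.sum_congr rfl fun s _ => ?_
  rw [← Real.mul_rpow (hf _ _).le (div_nonneg (hf _ _).le (hf _ _).le),
    mul_div_cancel₀ _ (hf _ _).ne']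

theorem exists_prefix {v : ι → ℝ} (hf : ∀ n t, 0 < S.f v n t) (lam : ℝ) (n k : ℕ) :
    ∃ c ∈ range (3 ^ (S.B * n)), S.logM v lam (n + k) - S.logM v lam n ≤
      Real.log ((∑ s ∈ range (3 ^ (S.B * k)),
        (S.f v (n + k) ((c : ℤ) + 3 ^ (S.B * n) * (s : ℤ)) / S.f v n (c : ℤ)) ^ (-lam)) /
          3 ^ (S.B * k)) := by
  by_contra hcon
  push Not at hcon
  have h1 := S.MM_pos hf lam n
  have h2 := S.MM_pos hf lam (n + k)
  have e1 : S.logM v lam (n + k) = Real.log (S.MM v lam (n + k)) := rfl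
  have e2 : S.logM v lam n = Real.log (S.MM v lam n) := rfl
  have h3 := S.MM_split hf lam n k
  have h4 : ∀ c ∈ range (3 ^ (S.B * n)), ((∑ s ∈ range (3 ^ (S.B * k)),
        (S.f v (n + k) ((c : ℤ) + 3 ^ (S.B * n) * (s : ℤ)) / S.f v n (c : ℤ)) ^ (-lam)) /
          3 ^ (S.B * k)) < S.MM v lam (n + k) / S.MM v lam n := by
    intro c hc
    have := hcon c hc
    rw [e1, e2, ← Real.log_div h2.ne' h1.ne'] at this
    refine (Real.log_lt_log_iff ?_ (div_pos h2 h1)).1 this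
    refine div_pos (Finset.sum_pos (fun t _ => Real.rpow_pos_of_pos (div_pos (hf _ _) (hf _ _)) _)
      ⟨0, by simp⟩) (by positivity)
  have h5 : S.MM v lam (n + k) < (∑ c ∈ range (3 ^ (S.B * n)), (S.f v n (c : ℤ)) ^ (-lam) *
      (S.MM v lam (n + k) / S.MM v lam n)) / 3 ^ (S.B * n) := by
    rw [h3]
    refine div_lt_div_of_pos_right ?_ (by positivity)
    rw [← h3]
    refine Finset.sum_lt_sum_of_nonempty ⟨0, by simp⟩ fun c hc => ?_
    exact mul_lt_mul_of_pos_left (h4 c hc) (Real.rpow_pos_of_pos (hf _ _) _)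
  rw [← Finset.sum_mul, mul_div_right_comm] at h5
  have h6 : (∑ c ∈ range (3 ^ (S.B * n)), (S.f v n (c : ℤ)) ^ (-lam)) / 3 ^ (S.B * n) =
    S.MM v lam n := rfl
  rw [h6, mul_div_cancel₀ _ h1.ne'] at h5
  exact lt_irrefl _ h5

theorem logM_add_le {v : ι → ℝ} (hv : ∀ i, 0 ≤ v i) (hf : ∀ n t, 0 < S.f v n t) {lam : ℝ}
    (hlam : 0 ≤ lam) (n k : ℕ) : S.logM v lam (n + k) ≤ S.logM v lam n + S.logM v lam k := by
  have h1 := S.MM_pos hf lam n
  have h2 := S.MM_pos hf lam (n + k)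
  have h3 := S.MM_pos hf lam k
  have e1 : S.logM v lam (n + k) = Real.log (S.MM v lam (n + k)) := rfl
  have e2 : S.logM v lam n = Real.log (S.MM v lam n) := rfl
  have e3 : S.logM v lam k = Real.log (S.MM v lam k) := rfl
  rw [e1, e2, e3, ← Real.log_mul h1.ne' h3.ne']
  refine Real.log_le_log h2 ?_
  rw [S.MM_split hf lam n k]
  have h6 : S.MM v lam n * S.MM v lam k =
      (∑ c ∈ range (3 ^ (S.B * n)), (S.f v n (c : ℤ)) ^ (-lam) * S.MM v lam k) /
        3 ^ (S.B * n) := by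
    rw [← Finset.sum_mul, mul_div_right_comm]; rfl
  rw [h6]
  refine div_le_div_of_nonneg_right ?_ (by positivity)
  refine Finset.sum_le_sum fun c _ => ?_
  refine mul_le_mul_of_nonneg_left ?_ (Real.rpow_nonneg (hf _ _).le _)
  refine div_le_div_of_nonneg_right ?_ (by positivity)
  -- the weights
  classical
  set θ : (Fin n → ι) → ℝ := fun w => if S.WDom w (c : ℤ) then wv v w / S.f v n (c : ℤ) else 0
    with hθ
  have hθ0 : ∀ w, 0 ≤ θ w := by
    intro w
    simp only [hθ]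
    split_ifs
    · exact div_nonneg (wv_nonneg hv w) (hf _ _).le
    · exact le_rfl
  have hθ1 : ∑ w, θ w = 1 := by
    have : ∑ w, θ w = (∑ w : Fin n → ι, if S.WDom w (c : ℤ) then wv v w else 0) /
        S.f v n (c : ℤ) := by
      rw [Finset.sum_div]
      refine Finset.sum_congr rfl fun w _ => ?_
      simp only [hθ]
      split_ifs
      · rfl
      · rw [zero_div]
    rw [this, ← S.f_eq_sum, div_self (hf _ _).ne']
  have hstep : ∀ s : ℤ, (S.f v (n + k) ((c : ℤ) + 3 ^ (S.B * n) * s) / S.f v n (c : ℤ)) ^ (-lam) ≤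
      ∑ w, θ w * (S.f v k (S.wnxt w (c : ℤ) + 2 ^ S.wA w * s)) ^ (-lam) := by
    intro s
    have e : S.f v (n + k) ((c : ℤ) + 3 ^ (S.B * n) * s) / S.f v n (c : ℤ) =
        ∑ w, θ w * S.f v k (S.wnxt w (c : ℤ) + 2 ^ S.wA w * s) := by
      rw [S.f_add, Finset.sum_div]
      refine Finset.sum_congr rfl fun w _ => ?_
      simp only [hθ]
      by_cases h : S.WDom w (c : ℤ)
      · rw [if_pos h, if_pos ((S.wDom_shift w _ _).2 h), S.wnxt_shift w _ _ h]
        ring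
      · rw [if_neg h, if_neg (fun h' => h ((S.wDom_shift w _ _).1 h'))]
        simp
    rw [e]
    have := (mom_convex hlam).map_sum_le (t := Finset.univ) (w := θ)
      (p := fun w => S.f v k (S.wnxt w (c : ℤ) + 2 ^ S.wA w * s)) (fun w _ => hθ0 w) hθ1
      (fun w _ => hf _ _)
    simpa only [smul_eq_mul] using this
  calc _ ≤ ∑ s ∈ range (3 ^ (S.B * k)),
        ∑ w, θ w * (S.f v k (S.wnxt w (c : ℤ) + 2 ^ S.wA w * (s : ℤ))) ^ (-lam) :=
        Finset.sum_le_sum fun s _ => hstep s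
    _ = ∑ w, θ w * ∑ s ∈ range (3 ^ (S.B * k)),
        (S.f v k (S.wnxt w (c : ℤ) + 2 ^ S.wA w * (s : ℤ))) ^ (-lam) := by
        rw [Finset.sum_comm]
        simp_rw [Finset.mul_sum]
    _ = ∑ w, θ w * ∑ s ∈ range (3 ^ (S.B * k)), (S.f v k (s : ℤ)) ^ (-lam) := by
        refine Finset.sum_congr rfl fun w _ => ?_
        rw [Sys.sum_range_affine (S.B * k) (S.wA w) (S.wnxt w (c : ℤ))
          (fun t => (S.f v k t) ^ (-lam)) (fun t s => by simp only [S.f_periodic])]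
    _ = _ := by rw [← Finset.sum_mul, hθ1, one_mul]

theorem logM_lower {v : ι → ℝ} (hv : ∀ i, 0 ≤ v i) (hf : ∀ n t, 0 < S.f v n t) {lam : ℝ}
    (hlam : 0 ≤ lam) (n : ℕ) : -lam * (n * Real.log (∑ i, v i)) ≤ S.logM v lam n := by
  have hs : 0 < ∑ i, v i := by
    have := (hf 1 0).trans_le (S.f_le_pow hv 1 0)
    simpa using this
  have e1 : S.logM v lam n = Real.log (S.MM v lam n) := rfl
  have h1 : ((∑ i, v i) ^ n) ^ (-lam) ≤ S.MM v lam n := by
    unfold MM
    rw [le_div_iff₀ (by positivity)]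
    calc ((∑ i, v i) ^ n) ^ (-lam) * 3 ^ (S.B * n) =
        ∑ t ∈ range (3 ^ (S.B * n)), ((∑ i, v i) ^ n) ^ (-lam) := by
          rw [Finset.sum_const, Finset.card_range, nsmul_eq_mul]; push_cast; ring
      _ ≤ _ := Finset.sum_le_sum fun t _ =>
          Real.rpow_le_rpow_of_nonpos (hf _ _) (S.f_le_pow hv n _) (by linarith)
  rw [e1]
  have h2 : -lam * (n * Real.log (∑ i, v i)) = Real.log (((∑ i, v i) ^ n) ^ (-lam)) := by
    rw [Real.log_rpow (pow_pos hs n), Real.log_pow]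
  rw [h2]
  exact Real.log_le_log (Real.rpow_pos_of_pos (pow_pos hs n) _) h1

theorem le_of_logM {v : ι → ℝ} (hf : ∀ n t, 0 < S.f v n t) (lam : ℝ) (n : ℕ) (t : ℤ) :
    -lam * Real.log (S.f v n t) ≤ S.B * n * Real.log 3 + S.logM v lam n := by
  have e1 : S.logM v lam n = Real.log (S.MM v lam n) := rfl
  have h0 := S.MM_pos hf lam n
  have h1 : (S.f v n t) ^ (-lam) ≤ 3 ^ (S.B * n) * S.MM v lam n := by
    unfold MM
    rw [mul_div_cancel₀ _ (by positivity)]
    have hpos : (0 : ℤ) < 3 ^ (S.B * n) := by positivity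
    have ht : S.f v n t = S.f v n (((t % 3 ^ (S.B * n)).toNat : ℕ) : ℤ) := by
      rw [Int.toNat_of_nonneg (Int.emod_nonneg _ hpos.ne')]
      conv_lhs => rw [← Int.emod_add_mul_ediv t (3 ^ (S.B * n))]
      rw [S.f_periodic]
    rw [ht]
    refine Finset.single_le_sum (f := fun t : ℕ => (S.f v n (t : ℤ)) ^ (-lam))
      (fun t _ => Real.rpow_nonneg (hf _ _).le _) ?_
    rw [Finset.mem_range]
    have := Int.emod_lt_of_pos t hpos
    zify
    rw [Int.toNat_of_nonneg (Int.emod_nonneg _ hpos.ne')]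
    exact this
  rw [e1, ← Real.log_rpow (hf _ _)]
  have h2 : (S.B : ℝ) * n * Real.log 3 = Real.log (3 ^ (S.B * n)) := by
    rw [Real.log_pow]; push_cast; ring
  rw [h2, ← Real.log_mul (by positivity) h0.ne']
  exact Real.log_le_log (Real.rpow_pos_of_pos (hf _ _) _) h1

end Sys

end Pool.Agent.H51.KL
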