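import Pool.Agent.H51.KL.Mom

/-!
JOB KL-MOM2. Small moments and Fekete's lemma. (helper file for MP_ff4775_nt)

`exists_small_moment`: `G(μ) = 3^(-B) ∑_t (f 1 t)^(-μ)` is differentiable at 0 with `G(0) = 1`,
`G'(0) = -3^(-B) ∑ log f 1 t < -γ`, while `e^(-μγ)` has derivative `-γ`; so `G(μ) ≤ e^(-μγ)` for small
`μ > 0`.
`exists_chi`: `logM_add_le` says that `n ↦ logM v lam n` is subadditive, `logM_lower` bounds
`logM n / n` below; use `Subadditive.lim`, `Subadditive.lim_le_div`, `Subadditive.tendsto_lim`.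
(`logM 0 = log 1 = 0`.)
-/

set_option autoImplicit false

namespace Pool.Agent.H51.KL

open Finset

namespace Sys

variable {ι : Type} [Fintype ι] (S : Sys ι)

/-- small moments: if the mean of `log f 1` exceeds `γ` then `logM v μ 1 ≤ -μ γ` for some `μ > 0` -/
theorem exists_small_moment {v : ι → ℝ} (hf : ∀ n t, 0 < S.f v n t) (γ : ℝ)
    (hγ : γ * 3 ^ S.B < ∑ t ∈ range (3 ^ S.B), Real.log (S.f v 1 (t : ℤ))) :
    ∃ μ : ℝ, 0 < μ ∧ S.logM v μ 1 ≤ -μ * γ := by
  let H : ℝ → ℝ := fun μ => ∑ t ∈ range (3 ^ S.B),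
    Real.exp (μ * -(Real.log (S.f v 1 (t : ℤ)) - γ)) / 3 ^ S.B
  have h3 : (0 : ℝ) < 3 ^ S.B := by positivity
  have hH0 : H 0 = 1 := by
    change ∑ t ∈ range (3 ^ S.B), Real.exp (0 * -(Real.log (S.f v 1 (t : ℤ)) - γ)) / 3 ^ S.B = 1
    simp
  have hd : HasDerivAt H (∑ t ∈ range (3 ^ S.B),
      -(Real.log (S.f v 1 (t : ℤ)) - γ) / 3 ^ S.B) 0 := by
    refine HasDerivAt.fun_sum fun t _ => ?_
    have h1 : HasDerivAt (fun μ : ℝ => μ * -(Real.log (S.f v 1 (t : ℤ)) - γ))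
        (-(Real.log (S.f v 1 (t : ℤ)) - γ)) 0 := by
      simpa using (hasDerivAt_id (0 : ℝ)).mul_const (-(Real.log (S.f v 1 (t : ℤ)) - γ))
    have h2 := (h1.exp).div_const ((3 : ℝ) ^ S.B)
    simpa using h2
  have hneg : ∑ t ∈ range (3 ^ S.B), -(Real.log (S.f v 1 (t : ℤ)) - γ) / 3 ^ S.B < 0 := by
    rw [← Finset.sum_div]
    refine div_neg_of_neg_of_pos ?_ h3
    rw [Finset.sum_neg_distrib, Finset.sum_sub_distrib, Finset.sum_const, Finset.card_range,
      nsmul_eq_mul]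
    push_cast
    linarith
  have hev := (hasDerivAt_iff_tendsto_slope.1 hd).eventually (gt_mem_nhds hneg)
  have hev' : ∀ᶠ μ in nhdsWithin (0 : ℝ) (Set.Ioi 0), slope H 0 μ < 0 :=
    hev.filter_mono (nhdsWithin_mono _ (fun x hx => ne_of_gt hx))
  obtain ⟨μ, hμ1, hμ2⟩ := (hev'.and self_mem_nhdsWithin).exists
  have hμ : (0 : ℝ) < μ := hμ2
  refine ⟨μ, hμ, ?_⟩
  have hlt : H μ < 1 := by
    rw [slope_def_field, sub_zero, hH0] at hμ1
    by_contra hc
    push Not at hc
    exact absurd hμ1 (not_lt.2 (div_nonneg (by linarith) hμ.le))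
  have hpos : 0 < H μ := by
    refine Finset.sum_pos (fun t _ => by positivity) ?_
    exact ⟨0, Finset.mem_range.2 (by positivity)⟩
  have hM : S.logM v μ 1 = Real.log (H μ * Real.exp (-μ * γ)) := by
    unfold logM
    congr 1
    rw [mul_one, Finset.sum_div, Finset.sum_mul]
    refine Finset.sum_congr rfl fun t _ => ?_
    rw [Real.rpow_def_of_pos (hf 1 t), div_mul_eq_mul_div, ← Real.exp_add]
    congr 2
    ring
  rw [hM, Real.log_mul hpos.ne' (Real.exp_pos _).ne', Real.log_exp]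
  have := Real.log_neg hpos hlt
  linarith

/-- Fekete's lemma for `logM` along multiples: with `χ = inf logM n / n`, for every `η > 0` there is
`n₁` such that `n χ ≤ logM n ≤ n (χ + η)` for `n ≥ n₁`; the lower bound holds for all `n ≥ 1`. -/
theorem exists_chi {v : ι → ℝ} (hv : ∀ i, 0 ≤ v i) (hf : ∀ n t, 0 < S.f v n t) {lam : ℝ}
    (hlam : 0 ≤ lam) : ∃ χ : ℝ, (∀ n : ℕ, n * χ ≤ S.logM v lam n) ∧
      ∀ η : ℝ, 0 < η → ∃ n₁ : ℕ, ∀ n : ℕ, n₁ ≤ n → S.logM v lam n ≤ n * (χ + η) := by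
  have hsub : Subadditive (fun n => S.logM v lam n) := fun n k => S.logM_add_le hv hf hlam n k
  have hbdd : BddBelow (Set.range fun n : ℕ => S.logM v lam n / n) := by
    refine ⟨min 0 (-lam * Real.log (∑ i, v i)), ?_⟩
    rintro _ ⟨n, rfl⟩
    rcases Nat.eq_zero_or_pos n with rfl | hn
    · simp
    · have hn' : (0 : ℝ) < n := Nat.cast_pos.2 hn
      refine le_trans (min_le_right _ _) ?_
      change _ ≤ S.logM v lam n / n
      rw [le_div_iff₀ hn']
      have := S.logM_lower hv hf hlam n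
      linarith
  refine ⟨hsub.lim, ?_, ?_⟩
  · intro n
    rcases Nat.eq_zero_or_pos n with rfl | hn
    · have h0 : S.logM v lam 0 = 0 := by
        unfold logM
        simp [f]
      rw [h0]
      simp
    · have hn' : (0 : ℝ) < n := Nat.cast_pos.2 hn
      have := hsub.lim_le_div hbdd hn.ne'
      rw [le_div_iff₀ hn'] at this
      linarith
  · intro η hη
    have h1 := (hsub.tendsto_lim hbdd).eventually (gt_mem_nhds (show hsub.lim < hsub.lim + η by
      linarith))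
    obtain ⟨n₁, hn₁⟩ := Filter.eventually_atTop.1 h1
    refine ⟨max n₁ 1, fun n hn => ?_⟩
    have hn' : (0 : ℝ) < n := Nat.cast_pos.2 (lt_of_lt_of_le one_pos (le_trans (le_max_right _ _) hn))
    have := hn₁ n (le_trans (le_max_left _ _) hn)
    rw [div_lt_iff₀ hn'] at this
    linarith

end Sys

end Pool.Agent.H51.KL
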