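import Pool.Agent.H51.KL.ClaimB
import Pool.Agent.H51.KL.Let2

/-!
JOB KL-PHASE. The Syracuse density is typically not small. (helper file for MP_ff4775_nt)

`phase`: write `ratio`: for `¬ 3 ∣ c`, `N ≥ 1`, `d ∈ {0,1,2}`: `F_d = p D (N+1) (c + 3^N d) / p D N c`;
`9/256 ≤ F_d` (`digit`), average over `d` of `F_d` is `≤ 1` (`= 1 - 2^(-D)`; from `p_add` with `k = 1`
and `sum_range_affine`, `sum_p`). More generally the average over `s < 3^k` of
`p D (N+k) (c + 3^N s)/p D N c` is `≤ 1`.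
Let `V k N c = 3^(-k) ∑_{s < 3^k} (log (p D N c) - log (p D (N+k) (c + 3^N s)))`, so
`V (k+1) N c = (1/3) ∑_d (-log F_d + V k (N+1) (c + 3^N d))`, `V 0 = 0`. Let `W ≥ V k N c` for all
`k ≤ n`, `N ≥ 1`, `¬ 3 ∣ c` (exists: `n log(256/9)`), `W ≥ 0`. For `η = 1/n` (threshold) and `x > 0` let
`U 0 N c x = [x > η]`, `U (k+1) N c x = [x > η] (1/3) ∑_d U k (N+1) (c+3^N d) (x F_d)`
(probability that the running ratio stays above `η`).
(i) for `x > η`, `k ≤ n`: `V k N c ≤ log x + log(1/η) + log(256/9) + (1 - U k N c x) W`. Induction on `k`: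
    if `x F_d > η` use the induction hypothesis; if `x F_d ≤ η` then
    `x F_d ≥ x (9/256) > (9/256) η`, i.e.
    `-log F_d ≤ log x - log η + log(256/9)`, `V k (N+1) _ ≤ W`, `U = 0`.
(ii) for all `k, N, c, x > 0`, `δ₀ > 0`:
    `3^(-k) #{s < 3^k | δ₀ ≤ x p D (N+k)(c+3^N s)/p D N c} ≤ U k N c x + η/δ₀`. Induction on `k`; if
    `x ≤ η` use Markov and that the average of the ratio is `≤ 1`.
(iii) `U` is nonincreasing in `k`. So for `k ≤ n`, by (ii) for `n` and `claimB`,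
    `U k N c 1 ≥ U n N c 1 ≥ c₂/√n - 1/(n δ₀) ≥ c₂/(2√n)` for large `n`.
(iv) hence `V k N c ≤ log n + log(256/9) + (1 - c₂/(2√n)) W` for all `k ≤ n` and all `W` as above; taking
    the supremum (or iterating), `V k N c ≤ (2√n/c₂)(log n + log(256/9))`.
-/

set_option autoImplicit false

namespace Pool.Agent.H51.KL

open Finset

private noncomputable def phV (D : ℕ) : ℕ → ℕ → ℤ → ℝ
  | 0, _, _ => 0
  | k + 1, N, c => (∑ d ∈ range 3, (Real.log (p D N c) -
      Real.log (p D (N + 1) (c + 3 ^ N * (d : ℤ))) + phV D k (N + 1) (c + 3 ^ N * (d : ℤ)))) / 3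

private noncomputable def phU (D : ℕ) (η : ℝ) : ℕ → ℕ → ℤ → ℝ → ℝ
  | 0, _, _, x => if η < x then 1 else 0
  | k + 1, N, c, x => if η < x then (∑ d ∈ range 3, phU D η k (N + 1) (c + 3 ^ N * (d : ℤ))
      (x * (p D (N + 1) (c + 3 ^ N * (d : ℤ)) / p D N c))) / 3 else 0

private theorem ph_ndvd {N : ℕ} (hN : 1 ≤ N) {c : ℤ} (hc : ¬ (3 : ℤ) ∣ c) (s : ℤ) :
    ¬ (3 : ℤ) ∣ c + 3 ^ N * s := by
  intro h
  apply hc
  have h2 : (3 : ℤ) ∣ 3 ^ N * s := Dvd.dvd.mul_right (dvd_pow_self 3 (by omega)) s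
  exact (Int.dvd_add_left h2).1 h

private theorem ph_shift (c : ℤ) (N : ℕ) (d s : ℤ) :
    c + 3 ^ N * (d + 3 ^ 1 * s) = (c + 3 ^ N * d) + 3 ^ (N + 1) * s := by
  ring

private theorem ph_sum {D : ℕ} : ∀ (k N : ℕ) (c : ℤ),
    ∑ s ∈ range (3 ^ k), (Real.log (p D N c) - Real.log (p D (N + k) (c + 3 ^ N * (s : ℤ)))) =
      3 ^ k * phV D k N c := by
  intro k
  induction k with
  | zero =>
    intro N c
    simp [phV]
  | succ k ih =>
    intro N c
    have h1 := Sys.sum_range_split 1 k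
      (fun t => Real.log (p D N c) - Real.log (p D (N + (k + 1)) (c + 3 ^ N * t)))
    rw [add_comm 1 k] at h1
    rw [h1, phV]
    have h2 : ∀ d ∈ range (3 ^ 1), ∑ s ∈ range (3 ^ k), (Real.log (p D N c) -
        Real.log (p D (N + (k + 1)) (c + 3 ^ N * ((d : ℤ) + 3 ^ 1 * (s : ℤ))))) =
        3 ^ k * (Real.log (p D N c) - Real.log (p D (N + 1) (c + 3 ^ N * (d : ℤ))) +
          phV D k (N + 1) (c + 3 ^ N * (d : ℤ))) := by
      intro d _
      have h3 := ih (N + 1) (c + 3 ^ N * (d : ℤ))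
      rw [mul_add, ← h3]
      have h4 : (3 : ℝ) ^ k * (Real.log (p D N c) -
          Real.log (p D (N + 1) (c + 3 ^ N * (d : ℤ)))) = ∑ s ∈ range (3 ^ k),
          (Real.log (p D N c) - Real.log (p D (N + 1) (c + 3 ^ N * (d : ℤ)))) := by
        rw [Finset.sum_const, card_range, nsmul_eq_mul]
        push_cast
        ring
      rw [h4, ← Finset.sum_add_distrib]
      refine Finset.sum_congr rfl fun s _ => ?_
      rw [ph_shift, show N + (k + 1) = N + 1 + k by ring]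
      ring
    rw [Finset.sum_congr rfl h2, ← Finset.mul_sum]
    norm_num
    ring

private theorem ph_F_ge {D : ℕ} (hD : 6 ≤ D) {N : ℕ} (hN : 1 ≤ N) {c : ℤ} (hc : ¬ (3 : ℤ) ∣ c)
    (d : ℤ) : 9 / 256 ≤ p D (N + 1) (c + 3 ^ N * d) / p D N c := by
  rw [le_div_iff₀ (p_pos D N hD c hc)]
  have := digit D N hD hN (c + 3 ^ N * d)
  rwa [p_periodic] at this

private theorem ph_avg {D : ℕ} {N : ℕ} {c : ℤ} (k : ℕ) :
    ∑ s ∈ range (3 ^ k), p D (N + k) (c + 3 ^ N * (s : ℤ)) ≤ 3 ^ k * p D N c := by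
  classical
  have h1 : ∀ s ∈ range (3 ^ k), p D (N + k) (c + 3 ^ N * (s : ℤ)) =
      ∑ w : Fin N → Fin D, if (Ls D).WDom w c then
      (3 : ℝ) ^ N / 2 ^ (Ls D).wA w * p D k ((Ls D).wnxt w c + 2 ^ (Ls D).wA w * (s : ℤ)) else 0 := by
    intro s _
    rw [p_add]
    refine Finset.sum_congr rfl fun w _ => ?_
    have hd := (Ls D).wDom_shift w c (s : ℤ)
    have hB : (Ls D).B * N = N := by simp [Ls]
    rw [hB] at hd
    by_cases h : (Ls D).WDom w c
    · rw [if_pos h, if_pos (hd.2 h)]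
      have hx := (Ls D).wnxt_shift w c (s : ℤ) h
      rw [hB] at hx
      rw [hx]
    · rw [if_neg h, if_neg (fun h' => h (hd.1 h'))]
  rw [Finset.sum_congr rfl h1, Finset.sum_comm]
  have h2 : p D N c = ∑ w : Fin N → Fin D, if (Ls D).WDom w c then
      (3 : ℝ) ^ N / 2 ^ (Ls D).wA w else 0 := by
    have := p_add D N 0 c
    rw [add_zero] at this
    rw [this]
    refine Finset.sum_congr rfl fun w _ => ?_
    rw [p_zero, mul_one]
  rw [h2, Finset.mul_sum]
  refine Finset.sum_le_sum fun w _ => ?_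
  by_cases h : (Ls D).WDom w c
  · simp only [if_pos h]
    rw [← Finset.mul_sum, Sys.sum_range_affine k _ _ (fun t => p D k t)
      (fun t s => p_periodic D k t s), sum_p, mul_comm]
    refine mul_le_mul_of_nonneg_right ?_ (by positivity)
    have h3 : (1 - 1 / 2 ^ D : ℝ) ^ k ≤ 1 := by
      refine pow_le_one₀ ?_ ?_
      · rw [sub_nonneg, div_le_one (by positivity)]
        exact one_le_pow₀ (by norm_num)
      · have : (0 : ℝ) ≤ 1 / 2 ^ D := by positivity
        linarith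
    calc (3 : ℝ) ^ k * (1 - 1 / 2 ^ D) ^ k ≤ 3 ^ k * 1 :=
          mul_le_mul_of_nonneg_left h3 (by positivity)
      _ = 3 ^ k := mul_one _
  · simp [if_neg h]

private theorem phU_nonneg {D : ℕ} {η : ℝ} : ∀ (k N : ℕ) (c : ℤ) (x : ℝ), 0 ≤ phU D η k N c x := by
  intro k
  induction k with
  | zero => intro N c x; rw [phU]; split_ifs <;> norm_num
  | succ k ih =>
    intro N c x
    rw [phU]
    split_ifs
    · exact div_nonneg (Finset.sum_nonneg fun d _ => ih _ _ _) (by norm_num)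
    · exact le_rfl

private theorem phU_le {D : ℕ} {η : ℝ} : ∀ (k N : ℕ) (c : ℤ) (x : ℝ), phU D η k N c x ≤ 1 := by
  intro k
  induction k with
  | zero => intro N c x; rw [phU]; split_ifs <;> norm_num
  | succ k ih =>
    intro N c x
    rw [phU]
    split_ifs
    · rw [div_le_one (by norm_num)]
      calc _ ≤ ∑ d ∈ range 3, (1 : ℝ) := Finset.sum_le_sum fun d _ => ih _ _ _
        _ = 3 := by simp
    · norm_num

private theorem phU_small {D : ℕ} {η : ℝ} (k N : ℕ) (c : ℤ) (x : ℝ) (hx : x ≤ η) :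
    phU D η k N c x = 0 := by
  cases k with
  | zero => rw [phU, if_neg (not_lt.2 hx)]
  | succ k => rw [phU, if_neg (not_lt.2 hx)]

private theorem phU_anti {D : ℕ} {η : ℝ} : ∀ (k N : ℕ) (c : ℤ) (x : ℝ),
    phU D η (k + 1) N c x ≤ phU D η k N c x := by
  intro k
  induction k with
  | zero =>
    intro N c x
    by_cases hx : η < x
    · have : phU D η 0 N c x = 1 := by rw [phU, if_pos hx]
      rw [this]
      exact phU_le _ _ _ _
    · rw [phU_small _ _ _ _ (not_lt.1 hx), phU_small _ _ _ _ (not_lt.1 hx)]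
  | succ k ih =>
    intro N c x
    rw [phU]
    conv_rhs => rw [phU]
    split_ifs
    · exact div_le_div_of_nonneg_right (Finset.sum_le_sum fun d _ => ih _ _ _) (by norm_num)
    · exact le_rfl

private theorem phU_anti' {D : ℕ} {η : ℝ} (N : ℕ) (c : ℤ) (x : ℝ) {k n : ℕ} (h : k ≤ n) :
    phU D η n N c x ≤ phU D η k N c x := by
  induction n, h using Nat.le_induction with
  | base => exact le_rfl
  | succ m _ ih => exact (phU_anti m N c x).trans ih

private theorem ph_log {D : ℕ} (hD : 6 ≤ D) {N : ℕ} (hN : 1 ≤ N) {c : ℤ} (hc : ¬ (3 : ℤ) ∣ c)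
    (d : ℤ) : Real.log (p D N c) - Real.log (p D (N + 1) (c + 3 ^ N * d)) =
      - Real.log (p D (N + 1) (c + 3 ^ N * d) / p D N c) := by
  rw [Real.log_div (p_pos D _ hD _ (ph_ndvd hN hc d)).ne' (p_pos D _ hD _ hc).ne']
  ring

private theorem ph_step_le {D : ℕ} (hD : 6 ≤ D) {N : ℕ} (hN : 1 ≤ N) {c : ℤ} (hc : ¬ (3 : ℤ) ∣ c)
    (d : ℤ) : Real.log (p D N c) - Real.log (p D (N + 1) (c + 3 ^ N * d)) ≤
      Real.log (256 / 9) := by
  rw [ph_log hD hN hc, ← Real.log_inv]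
  refine Real.log_le_log (inv_pos.2 (lt_of_lt_of_le (by norm_num) (ph_F_ge hD hN hc d))) ?_
  rw [show (256 / 9 : ℝ) = (9 / 256)⁻¹ by norm_num]
  exact inv_anti₀ (by norm_num) (ph_F_ge hD hN hc d)

private theorem phV_le {D : ℕ} (hD : 6 ≤ D) : ∀ (k N : ℕ), 1 ≤ N → ∀ c : ℤ, ¬ (3 : ℤ) ∣ c →
    phV D k N c ≤ k * Real.log (256 / 9) := by
  intro k
  induction k with
  | zero => intro N _ c _; simp [phV]
  | succ k ih =>
    intro N hN c hc
    rw [phV, div_le_iff₀ (by norm_num)]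
    calc _ ≤ ∑ d ∈ range 3, (Real.log (256 / 9) + k * Real.log (256 / 9)) :=
          Finset.sum_le_sum fun d _ => add_le_add (ph_step_le hD hN hc _)
            (ih (N + 1) (by omega) _ (ph_ndvd hN hc _))
      _ = _ := by
        rw [Finset.sum_const, card_range]
        push_cast
        ring

private theorem ph_i {D : ℕ} (hD : 6 ≤ D) {η W : ℝ} (hη : 0 < η) {n : ℕ}
    (hW : ∀ k ≤ n, ∀ N : ℕ, 1 ≤ N → ∀ c : ℤ, ¬ (3 : ℤ) ∣ c → phV D k N c ≤ W) :
    ∀ k ≤ n, ∀ N : ℕ, 1 ≤ N → ∀ c : ℤ, ¬ (3 : ℤ) ∣ c → ∀ x : ℝ, η < x →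
      phV D k N c ≤ Real.log x + Real.log (1 / η) + Real.log (256 / 9) +
        (1 - phU D η k N c x) * W := by
  have hL : 0 ≤ Real.log (256 / 9) := Real.log_nonneg (by norm_num)
  have hlog : ∀ x : ℝ, η < x → 0 ≤ Real.log x + Real.log (1 / η) := by
    intro x hx
    rw [← Real.log_mul (hη.trans hx).ne' (by positivity)]
    refine Real.log_nonneg ?_
    rw [mul_one_div, le_div_iff₀ hη]
    linarith
  intro k
  induction k with
  | zero =>
    intro _ N _ c _ x hx
    rw [phV, phU, if_pos hx]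
    have := hlog x hx
    nlinarith
  | succ k ih =>
    intro hk N hN c hc x hx
    have key : ∀ d ∈ range 3, Real.log (p D N c) - Real.log (p D (N + 1) (c + 3 ^ N * (d : ℤ))) +
        phV D k (N + 1) (c + 3 ^ N * (d : ℤ)) ≤ Real.log x + Real.log (1 / η) +
          Real.log (256 / 9) + (1 - phU D η k (N + 1) (c + 3 ^ N * (d : ℤ))
            (x * (p D (N + 1) (c + 3 ^ N * (d : ℤ)) / p D N c))) * W := by
      intro d _
      set F := p D (N + 1) (c + 3 ^ N * (d : ℤ)) / p D N c with hF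
      have hFpos : 0 < F := lt_of_lt_of_le (by norm_num) (ph_F_ge hD hN hc d)
      by_cases h : η < x * F
      · have h1 := ih (by omega) (N + 1) (by omega) _ (ph_ndvd hN hc (d : ℤ)) (x * F) h
        rw [Real.log_mul (hη.trans hx).ne' hFpos.ne'] at h1
        rw [ph_log hD hN hc, ← hF]
        linarith
      · rw [phU_small _ _ _ _ (not_lt.1 h)]
        have h1 := hW k (by omega) (N + 1) (by omega) _ (ph_ndvd hN hc (d : ℤ))
        have h2 := ph_step_le hD hN hc (d : ℤ)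
        have h3 := hlog x hx
        linarith
    rw [phV, phU, if_pos hx, div_le_iff₀ (by norm_num)]
    refine (Finset.sum_le_sum key).trans (le_of_eq ?_)
    rw [Finset.sum_add_distrib, Finset.sum_const, card_range, ← Finset.sum_mul,
      Finset.sum_sub_distrib, Finset.sum_const, card_range]
    simp only [nsmul_eq_mul]
    push_cast
    ring

private theorem ph_ii {D : ℕ} (hD : 6 ≤ D) {η δ : ℝ} (hη : 0 < η) (hδ : 0 < δ) :
    ∀ (k N : ℕ), 1 ≤ N → ∀ c : ℤ, ¬ (3 : ℤ) ∣ c → ∀ x : ℝ, 0 < x →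
      (((range (3 ^ k)).filter (fun s : ℕ =>
        δ * p D N c ≤ x * p D (N + k) (c + 3 ^ N * (s : ℤ)))).card : ℝ) ≤
        3 ^ k * (phU D η k N c x + η / δ) := by
  have hcard : ∀ (k N : ℕ) (c : ℤ) (x : ℝ), (((range (3 ^ k)).filter (fun s : ℕ =>
        δ * p D N c ≤ x * p D (N + k) (c + 3 ^ N * (s : ℤ)))).card : ℝ) =
      ∑ s ∈ range (3 ^ k), if δ * p D N c ≤ x * p D (N + k) (c + 3 ^ N * (s : ℤ)) then
        (1 : ℝ) else 0 := by
    intro k N c x
    rw [Finset.card_filter]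
    push_cast
    rfl
  have hmark : ∀ (k N : ℕ), 1 ≤ N → ∀ c : ℤ, ¬ (3 : ℤ) ∣ c → ∀ x : ℝ, 0 < x → x ≤ η →
      (((range (3 ^ k)).filter (fun s : ℕ =>
        δ * p D N c ≤ x * p D (N + k) (c + 3 ^ N * (s : ℤ)))).card : ℝ) ≤
        3 ^ k * (η / δ) := by
    intro k N hN c hc x hx hxη
    have hp := p_pos D N hD c hc
    have h1 : (((range (3 ^ k)).filter (fun s : ℕ =>
        δ * p D N c ≤ x * p D (N + k) (c + 3 ^ N * (s : ℤ)))).card : ℝ) * (δ * p D N c) ≤
        x * (3 ^ k * p D N c) := by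
      rw [hcard, Finset.sum_mul]
      have h3 := mul_le_mul_of_nonneg_left (ph_avg (D := D) (N := N) (c := c) k) hx.le
      rw [Finset.mul_sum] at h3
      refine le_trans (Finset.sum_le_sum fun s _ => ?_) h3
      split_ifs with h
      · rw [one_mul]; exact h
      · rw [zero_mul]; exact mul_nonneg hx.le (p_nonneg _ _ _)
    have h2 : (((range (3 ^ k)).filter (fun s : ℕ =>
        δ * p D N c ≤ x * p D (N + k) (c + 3 ^ N * (s : ℤ)))).card : ℝ) * δ ≤ x * 3 ^ k := by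
      have : (((range (3 ^ k)).filter (fun s : ℕ =>
        δ * p D N c ≤ x * p D (N + k) (c + 3 ^ N * (s : ℤ)))).card : ℝ) * δ * p D N c ≤
          x * 3 ^ k * p D N c := by
        calc _ = _ := by rw [mul_assoc]
          _ ≤ _ := h1
          _ = _ := by ring
      exact le_of_mul_le_mul_right this hp
    rw [mul_div_assoc', le_div_iff₀ hδ]
    refine h2.trans ?_
    rw [mul_comm]
    exact mul_le_mul_of_nonneg_left hxη (by positivity)
  intro k
  induction k with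
  | zero =>
    intro N hN c hc x hx
    by_cases h : η < x
    · rw [phU, if_pos h]
      have h1 : (((range (3 ^ 0)).filter (fun s : ℕ =>
        δ * p D N c ≤ x * p D (N + 0) (c + 3 ^ N * (s : ℤ)))).card : ℝ) ≤ 1 := by
        have := Finset.card_filter_le (range (3 ^ 0)) (fun s : ℕ =>
          δ * p D N c ≤ x * p D (N + 0) (c + 3 ^ N * (s : ℤ)))
        rw [card_range, pow_zero] at this
        exact_mod_cast this
      have : 0 ≤ η / δ := div_nonneg hη.le hδ.le
      have h2 : (3 : ℝ) ^ 0 * (1 + η / δ) = 1 + η / δ := by ring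
      rw [h2]
      exact h1.trans (by linarith)
    · refine (hmark 0 N hN c hc x hx (not_lt.1 h)).trans ?_
      rw [phU_small _ _ _ _ (not_lt.1 h), zero_add]
  | succ k ih =>
    intro N hN c hc x hx
    by_cases h : η < x
    swap
    · refine (hmark (k + 1) N hN c hc x hx (not_lt.1 h)).trans ?_
      rw [phU_small _ _ _ _ (not_lt.1 h), zero_add]
    have h1 := Sys.sum_range_split 1 k
      (fun t => if δ * p D N c ≤ x * p D (N + (k + 1)) (c + 3 ^ N * t) then (1 : ℝ) else 0)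
    rw [add_comm 1 k] at h1
    rw [hcard, h1, phU, if_pos h]
    have h2 : ∀ d ∈ range (3 ^ 1), (∑ s ∈ range (3 ^ k),
        if δ * p D N c ≤ x * p D (N + (k + 1)) (c + 3 ^ N * ((d : ℤ) + 3 ^ 1 * (s : ℤ))) then
          (1 : ℝ) else 0) ≤ 3 ^ k * (phU D η k (N + 1) (c + 3 ^ N * (d : ℤ))
            (x * (p D (N + 1) (c + 3 ^ N * (d : ℤ)) / p D N c)) + η / δ) := by
      intro d _
      have hp := p_pos D N hD c hc
      have hp1 := p_pos D (N + 1) hD _ (ph_ndvd hN hc (d : ℤ))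
      have h3 := ih (N + 1) (by omega) _ (ph_ndvd hN hc (d : ℤ))
        (x * (p D (N + 1) (c + 3 ^ N * (d : ℤ)) / p D N c)) (by positivity)
      rw [hcard] at h3
      refine le_trans (le_of_eq (Finset.sum_congr rfl fun s _ => ?_)) h3
      rw [ph_shift, show N + (k + 1) = N + 1 + k by ring]
      have h4 : δ * p D N c ≤ x * p D (N + 1 + k)
            (c + 3 ^ N * (d : ℤ) + 3 ^ (N + 1) * (s : ℤ)) ↔
          δ * p D (N + 1) (c + 3 ^ N * (d : ℤ)) ≤
            x * (p D (N + 1) (c + 3 ^ N * (d : ℤ)) / p D N c) *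
              p D (N + 1 + k) (c + 3 ^ N * (d : ℤ) + 3 ^ (N + 1) * (s : ℤ)) := by
        have e1 : x * (p D (N + 1) (c + 3 ^ N * (d : ℤ)) / p D N c) *
              p D (N + 1 + k) (c + 3 ^ N * (d : ℤ) + 3 ^ (N + 1) * (s : ℤ)) =
            (x * p D (N + 1 + k) (c + 3 ^ N * (d : ℤ) + 3 ^ (N + 1) * (s : ℤ))) *
              p D (N + 1) (c + 3 ^ N * (d : ℤ)) / p D N c := by
          ring
        rw [e1, le_div_iff₀ hp]
        constructor
        · intro h
          have := mul_le_mul_of_nonneg_right h hp1.le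
          linarith
        · intro h
          have h' : δ * p D N c * p D (N + 1) (c + 3 ^ N * (d : ℤ)) ≤
              x * p D (N + 1 + k) (c + 3 ^ N * (d : ℤ) + 3 ^ (N + 1) * (s : ℤ)) *
              p D (N + 1) (c + 3 ^ N * (d : ℤ)) := by linarith
          exact le_of_mul_le_mul_right h' hp1
      simp only [h4]
    refine (Finset.sum_le_sum h2).trans (le_of_eq ?_)
    rw [← Finset.mul_sum, Finset.sum_add_distrib, Finset.sum_const, card_range]
    simp only [nsmul_eq_mul]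
    norm_num
    ring

theorem phase : ∃ (C : ℝ) (n₀ : ℕ), 0 < C ∧ ∀ n : ℕ, n₀ ≤ n → ∀ D : ℕ, 2 * n ≤ D →
    ∀ N : ℕ, 1 ≤ N → ∀ c : ℤ, ¬ (3 : ℤ) ∣ c →
      ∑ s ∈ range (3 ^ n), (Real.log (p D N c) - Real.log (p D (N + n) (c + 3 ^ N * (s : ℤ)))) ≤
        C * Real.sqrt n * Real.log n * 3 ^ n := by
  obtain ⟨δ, c₂, k₀, hδ, hc₂, H⟩ := claimB
  set L : ℝ := Real.log (256 / 9) with hL
  have hL0 : 0 ≤ L := Real.log_nonneg (by norm_num)
  obtain ⟨n₁, hn₁⟩ := exists_nat_gt ((2 / (c₂ * δ)) ^ 2)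
  refine ⟨2 * (1 + L) / c₂, max (max k₀ n₁) 3, by positivity, ?_⟩
  intro n hn D hD N hN c hc
  have hk₀ : k₀ ≤ n := le_trans (le_max_left _ _) (le_trans (le_max_left _ _) hn)
  have hn1 : n₁ ≤ n := le_trans (le_max_right _ _) (le_trans (le_max_left _ _) hn)
  have hn3 : 3 ≤ n := le_trans (le_max_right _ _) hn
  have hD6 : 6 ≤ D := by omega
  have hnR : (3 : ℝ) ≤ n := by exact_mod_cast hn3
  have hnpos : (0 : ℝ) < n := by linarith
  have hsq : 0 < Real.sqrt n := Real.sqrt_pos.2 hnpos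
  have hlogn : 1 ≤ Real.log n := by
    rw [Real.le_log_iff_exp_le hnpos]
    linarith [Real.exp_one_lt_d9]
  -- the supremum
  set A : Set ℝ := {v | ∃ k ≤ n, ∃ N : ℕ, 1 ≤ N ∧ ∃ c : ℤ, ¬ (3 : ℤ) ∣ c ∧ v = phV D k N c} with hA
  have hbdd : BddAbove A := by
    refine ⟨n * L, ?_⟩
    rintro v ⟨k, hk, N, hN, c, hc, rfl⟩
    refine (phV_le hD6 k N hN c hc).trans ?_
    exact mul_le_mul_of_nonneg_right (by exact_mod_cast hk) hL0
  have hne : A.Nonempty := ⟨phV D 0 N c, 0, by omega, N, hN, c, hc, rfl⟩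
  set W := sSup A with hW
  have hWle : ∀ k ≤ n, ∀ N : ℕ, 1 ≤ N → ∀ c : ℤ, ¬ (3 : ℤ) ∣ c → phV D k N c ≤ W :=
    fun k hk N hN c hc => le_csSup hbdd ⟨k, hk, N, hN, c, hc, rfl⟩
  have hW0 : 0 ≤ W := by
    have := hWle 0 (by omega) N hN c hc
    simpa [phV] using this
  set θ : ℝ := c₂ / (2 * Real.sqrt n) with hθ
  have hθ0 : 0 < θ := by positivity
  have hη : (0 : ℝ) < 1 / n := by positivity
  have hUn : ∀ k ≤ n, ∀ N : ℕ, 1 ≤ N → ∀ c : ℤ, ¬ (3 : ℤ) ∣ c → θ ≤ phU D (1 / n) k N c 1 := by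
    intro k hk N hN c hc
    refine le_trans ?_ (phU_anti' N c 1 hk)
    have h1 := H n hk₀ D hD N hN c hc
    have h2 := ph_ii hD6 hη hδ n N hN c hc 1 one_pos
    simp only [one_mul] at h2
    have h3 := h1.trans h2
    have h4 : c₂ / Real.sqrt n ≤ phU D (1 / n) n N c 1 + 1 / n / δ := by
      have h5 : (0 : ℝ) < 3 ^ n := by positivity
      rw [mul_comm] at h3
      exact le_of_mul_le_mul_left h3 h5
    have h5 : 1 / n / δ ≤ θ := by
      have h6 : 2 / (c₂ * δ) ≤ Real.sqrt n := by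
        refine Real.le_sqrt_of_sq_le ?_
        exact hn₁.le.trans (by exact_mod_cast hn1)
      rw [div_le_iff₀ (by positivity)] at h6
      rw [hθ, div_div, div_le_div_iff₀ (by positivity) (by positivity)]
      have h7 : Real.sqrt n * Real.sqrt n = n := Real.mul_self_sqrt hnpos.le
      nlinarith
    have h6 : c₂ / Real.sqrt n = 2 * θ := by
      rw [hθ]
      field_simp
    linarith
  have hstep : ∀ k ≤ n, ∀ N : ℕ, 1 ≤ N → ∀ c : ℤ, ¬ (3 : ℤ) ∣ c →
      phV D k N c ≤ Real.log n + L + (1 - θ) * W := by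
    intro k hk N hN c hc
    have h1 := ph_i hD6 hη hWle k hk N hN c hc 1 (by
      rw [div_lt_one hnpos]
      linarith)
    rw [Real.log_one, one_div_one_div, zero_add] at h1
    have h2 := hUn k hk N hN c hc
    have h3 : (1 - phU D (1 / n) k N c 1) * W ≤ (1 - θ) * W :=
      mul_le_mul_of_nonneg_right (by linarith) hW0
    linarith
  have hWθ : θ * W ≤ Real.log n + L := by
    have : W ≤ Real.log n + L + (1 - θ) * W := by
      refine csSup_le hne ?_
      rintro v ⟨k, hk, N, hN, c, hc, rfl⟩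
      exact hstep k hk N hN c hc
    linarith
  rw [ph_sum]
  have hV := hWle n le_rfl N hN c hc
  have h1 : W ≤ 2 * (1 + L) / c₂ * Real.sqrt n * Real.log n := by
    have h2 : θ * W ≤ (1 + L) * Real.log n := by nlinarith
    have h3 : W ≤ (1 + L) * Real.log n / θ := by
      rw [le_div_iff₀ hθ0]
      linarith
    refine h3.trans (le_of_eq ?_)
    rw [hθ]
    field_simp
  calc (3 : ℝ) ^ n * phV D n N c ≤ 3 ^ n * (2 * (1 + L) / c₂ * Real.sqrt n * Real.log n) :=
        mul_le_mul_of_nonneg_left (hV.trans h1) (by positivity)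
    _ = _ := by ring

end Pool.Agent.H51.KL
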