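import Pool.Agent.H51.KL.Block
import Pool.Agent.H51.KL.Count

/-!
Preimages of the 3x+1 map: every integer not divisible by 3 has at least `x^(1-ε)` preimages of
absolute value at most `x`; so a divergent trajectory forces `x^(1-ε)` divergent starting values.
-/

set_option autoImplicit false

namespace Pool.Agent.H51.KL.PreimageExponent

open Filter Topology Pool.Agent.H30 Pool.Agent.H51.KL

/-- Let `a` be an integer not divisible by `3` and `ε > 0`. For all large `x` there are at least
`x^(1-ε)` integers `n` with `|n| ≤ x` whose trajectory under the 3x+1 map `T` contains `a`; if the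
trajectory of `a` is divergent, so are the trajectories of these `n`. -/
theorem result (a : ℤ) (ha : ¬ (3 : ℤ) ∣ a) (ε : ℝ) (hε : 0 < ε) :
    ∀ᶠ x : ℕ in atTop, (x : ℝ) ^ (1 - ε) ≤
      (Nat.card {n : ℤ // |n| ≤ x ∧ (∃ k : ℕ, T^[k] n = a) ∧
        (Tendsto (fun j : ℕ => |T^[j] a|) atTop atTop →
          Tendsto (fun j : ℕ => |T^[j] n|) atTop atTop)} : ℝ) := by
  have h := preimages (fun g h0 h1 => block_ineq g h0 h1) a ha ε hε
  refine h.mono (fun x hx => hx.trans (le_of_eq ?_))
  congr 1
  refine Nat.card_congr (Equiv.subtypeEquivRight fun n => ?_)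
  constructor
  · rintro ⟨h1, k, hk⟩
    refine ⟨h1, ⟨k, hk⟩, fun hd => ?_⟩
    rw [← tendsto_add_atTop_iff_nat k]
    refine hd.congr (fun j => ?_)
    rw [Function.iterate_add_apply, hk]
  · rintro ⟨h1, h2, -⟩
    exact ⟨h1, h2⟩

end Pool.Agent.H51.KL.PreimageExponent
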