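import Pool.Agent.H51.KL.Chain
import Pool.Agent.H51.KL.Gain
import Pool.Agent.H51.KL.Cov4

/-!
Preparation for `worst_eq_typical`: the weights `θ` on words over a prefix. (helper file for MP_ff4775_nt)
-/

set_option autoImplicit false

namespace Pool.Agent.H51.KL

open Finset

namespace Sys

variable {ι : Type} [Fintype ι] (S : Sys ι)

theorem fz_cast (v : ι → ℝ) (k : ℕ) (t : ℤ) :
    S.fz v k ((t : ℤ) : ZMod (3 ^ (S.B * k))) = S.f v k t := by
  unfold fz
  have h : ((((t : ZMod (3 ^ (S.B * k))).val : ℕ) : ℤ)) = t % ((3 ^ (S.B * k) : ℕ) : ℤ) :=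
    ZMod.val_intCast t
  rw [h]
  have h2 := S.f_periodic v k (t % ((3 ^ (S.B * k) : ℕ) : ℤ)) (t / ((3 ^ (S.B * k) : ℕ) : ℤ))
  rw [← h2]
  congr 1
  have h3 := Int.emod_add_mul_ediv t ((3 ^ (S.B * k) : ℕ) : ℤ)
  push_cast at h3 ⊢
  exact h3

theorem fz_pos {v : ι → ℝ} (hf : ∀ n t, 0 < S.f v n t) (k : ℕ) (x : ZMod (3 ^ (S.B * k))) :
    0 < S.fz v k x := hf _ _

/-- posterior weights of the words over the prefix `c` -/
noncomputable def th (v : ι → ℝ) (n : ℕ) (c : ℤ) (w : Fin n → ι) : ℝ :=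
  if S.WDom w c then wv v w / S.f v n c else 0

theorem th_isProb {v : ι → ℝ} (hv : ∀ i, 0 ≤ v i) (hf : ∀ n t, 0 < S.f v n t)
    (n : ℕ) (c : ℤ) : IsProb (S.th v n c) := by
  constructor
  · intro w
    unfold th
    split_ifs
    · exact div_nonneg (wv_nonneg hv w) (hf n c).le
    · exact le_rfl
  · have h := S.f_eq_sum v n c
    unfold th
    have : ∀ w : Fin n → ι, (if S.WDom w c then wv v w / S.f v n c else 0) =
        (if S.WDom w c then wv v w else 0) / S.f v n c := by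
      intro w; split_ifs <;> simp
    simp_rw [this]
    rw [← Finset.sum_div, ← h, div_self (hf n c).ne']

theorem f_add_div {v : ι → ℝ} (n k : ℕ) (c : ℤ) (s : ℤ) :
    S.f v (n + k) (c + 3 ^ (S.B * n) * s) / S.f v n c =
      ∑ w : Fin n → ι, S.th v n c w *
        S.fz v k (((S.wnxt w c : ℤ) : ZMod (3 ^ (S.B * k))) + 2 ^ S.wA w * (s : ZMod (3 ^ (S.B * k)))) := by
  rw [S.f_add v n k, Finset.sum_div]
  refine Finset.sum_congr rfl (fun w _ => ?_)
  unfold th
  by_cases h : S.WDom w c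
  · have h' : S.WDom w (c + 3 ^ (S.B * n) * s) := (S.wDom_shift w c s).2 h
    rw [if_pos h', if_pos h, S.wnxt_shift w c s h]
    have e : ((S.wnxt w c : ℤ) : ZMod (3 ^ (S.B * k))) + 2 ^ S.wA w * (s : ZMod (3 ^ (S.B * k))) =
        ((S.wnxt w c + 2 ^ S.wA w * s : ℤ) : ZMod (3 ^ (S.B * k))) := by push_cast; ring
    rw [e, S.fz_cast]
    ring
  · have h' : ¬ S.WDom w (c + 3 ^ (S.B * n) * s) := fun hh => h ((S.wDom_shift w c s).1 hh)
    rw [if_neg h', if_neg h]
    ring

/-- sums over residues as sums over `range` -/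
theorem sum_zmod_range {N : ℕ} [NeZero N] (g : ZMod N → ℝ) :
    ∑ x, g x = ∑ s ∈ range N, g (s : ZMod N) := by
  classical
  symm
  refine Finset.sum_nbij (fun s : ℕ => (s : ZMod N)) (fun _ _ => Finset.mem_univ _) ?_ ?_
    (fun _ _ => rfl)
  · intro a ha b hb hab
    have ha' : a < N := by simpa using ha
    have hb' : b < N := by simpa using hb
    have h := congrArg ZMod.val hab
    simp only [ZMod.val_natCast] at h
    rwa [Nat.mod_eq_of_lt ha', Nat.mod_eq_of_lt hb'] at h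
  · intro x _
    refine ⟨x.val, by simpa using ZMod.val_lt x, ?_⟩
    simp

theorem logM_eq (v : ι → ℝ) (lam : ℝ) (k : ℕ) :
    S.logM v lam k = Real.log ((∑ x : ZMod (3 ^ (S.B * k)), S.fz v k x ^ (-lam)) / 3 ^ (S.B * k)) := by
  unfold logM
  rw [sum_zmod_range]
  congr 2
  refine Finset.sum_congr rfl (fun t _ => ?_)
  have h := S.fz_cast v k (t : ℤ)
  rw [← h]
  push_cast
  rfl

theorem wA_le {a₁ : ℕ} (h : ∀ i, S.A i ≤ a₁) {n : ℕ} (w : Fin n → ι) : S.wA w ≤ n * a₁ := by
  unfold wA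
  calc ∑ j, S.A (w j) ≤ ∑ _j : Fin n, a₁ := Finset.sum_le_sum (fun j _ => h _)
    _ = n * a₁ := by simp

theorem th_le {v : ι → ℝ} (hv : ∀ i, 0 < v i ∧ v i ≤ 1) {c₀ : ℝ} {n : ℕ} {c : ℤ}
    (hf : Real.exp (c₀ * n) ≤ S.f v n c) (w : Fin n → ι) : S.th v n c w ≤ Real.exp (-(c₀ * n)) := by
  unfold th
  split_ifs
  · have h1 : wv v w ≤ 1 := by
      unfold wv
      exact Finset.prod_le_one (fun j _ => (hv _).1.le) (fun j _ => (hv _).2)
    rw [div_le_iff₀ (lt_of_lt_of_le (Real.exp_pos _) hf)]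
    calc wv v w ≤ 1 := h1
      _ = Real.exp (-(c₀ * n)) * Real.exp (c₀ * n) := by rw [← Real.exp_add]; simp
      _ ≤ _ := mul_le_mul_of_nonneg_left hf (Real.exp_pos _).le
  · exact (Real.exp_pos _).le

/-- the conditional law of `2^(-i) e_w` given `wA w = i` -/
noncomputable def nuA (v : ι → ℝ) (n k : ℕ) (c : ℤ) (i : ℕ) (x : ZMod (3 ^ (S.B * k))) : ℝ :=
  if (∑ w : Fin n → ι, if S.wA w = i then S.th v n c w else 0) = 0 then 1 / 3 ^ (S.B * k) else
    (∑ w : Fin n → ι, if S.wA w = i ∧ 2 ^ i * x = ((S.wnxt w c : ℤ) : ZMod (3 ^ (S.B * k))) then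
      S.th v n c w else 0) / (∑ w : Fin n → ι, if S.wA w = i then S.th v n c w else 0)

theorem isUnit_two_pow (l i : ℕ) : IsUnit ((2 : ZMod (3 ^ l)) ^ i) := by
  have h : IsUnit ((2 : ℕ) : ZMod (3 ^ l)) :=
    (ZMod.isUnit_iff_coprime 2 (3 ^ l)).2 (Nat.Coprime.pow_right l (by norm_num))
  exact (by simpa using h : IsUnit (2 : ZMod (3 ^ l))).pow i

theorem sum_unique_two (l i : ℕ) (e : ZMod (3 ^ l)) (r : ℝ) :
    (∑ x : ZMod (3 ^ l), if 2 ^ i * x = e then r else 0) = r := by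
  classical
  obtain ⟨u, hu⟩ := isUnit_two_pow l i
  rw [Finset.sum_eq_single (↑u⁻¹ * e)]
  · rw [if_pos]
    rw [← hu, ← mul_assoc, Units.mul_inv, one_mul]
  · intro x _ hx
    rw [if_neg]
    intro h
    apply hx
    rw [← h, ← hu, ← mul_assoc, Units.inv_mul, one_mul]
  · intro h; exact absurd (Finset.mem_univ _) h

theorem nuA_isProb {v : ι → ℝ} (hv : ∀ i, 0 ≤ v i) (hf : ∀ n t, 0 < S.f v n t)
    (n k : ℕ) (c : ℤ) (i : ℕ) : IsProb (S.nuA v n k c i) := by
  classical
  have hth := S.th_isProb hv hf n c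
  constructor
  · intro x
    unfold nuA
    split_ifs
    · positivity
    · refine div_nonneg (Finset.sum_nonneg fun w _ => ?_) (Finset.sum_nonneg fun w _ => ?_)
      · split_ifs
        · exact hth.nonneg w
        · exact le_rfl
      · split_ifs
        · exact hth.nonneg w
        · exact le_rfl
  · unfold nuA
    split_ifs with h0
    · rw [Finset.sum_const, Finset.card_univ, ZMod.card]
      simp
    · rw [← Finset.sum_div, Finset.sum_comm]
      have : ∀ w : Fin n → ι, (∑ x : ZMod (3 ^ (S.B * k)),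
          if S.wA w = i ∧ 2 ^ i * x = ((S.wnxt w c : ℤ) : ZMod (3 ^ (S.B * k))) then
            S.th v n c w else 0) = if S.wA w = i then S.th v n c w else 0 := by
        intro w
        by_cases hw : S.wA w = i
        · simp only [hw, true_and, if_true]
          exact sum_unique_two _ _ _ _
        · simp [hw]
      simp_rw [this]
      exact div_self h0

theorem nuA_spec {v : ι → ℝ} (hv : ∀ i, 0 ≤ v i) (hf : ∀ n t, 0 < S.f v n t)
    (n k : ℕ) (c : ℤ) (i : ℕ) (x : ZMod (3 ^ (S.B * k))) :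
    (∑ w : Fin n → ι, if S.wA w = i then S.th v n c w else 0) * S.nuA v n k c i x =
      ∑ w : Fin n → ι, if S.wA w = i ∧ 2 ^ i * x = ((S.wnxt w c : ℤ) : ZMod (3 ^ (S.B * k))) then
        S.th v n c w else 0 := by
  classical
  have hth := S.th_isProb hv hf n c
  unfold nuA
  split_ifs with h0
  · rw [h0, zero_mul]
    symm
    have h1 := (Finset.sum_eq_zero_iff_of_nonneg (fun w _ => by
      split_ifs
      · exact hth.nonneg w
      · exact le_rfl)).1 h0
    refine Finset.sum_eq_zero (fun w hw => ?_)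
    have h2 := h1 w hw
    by_cases hA : S.wA w = i
    · rw [if_pos hA] at h2
      split_ifs
      · exact h2
      · rfl
    · simp [hA]
  · rw [mul_div_cancel₀ _ h0]

/-- separation: the law `nuA` has small atoms -/
theorem nuA_le {v : ι → ℝ} (hv : ∀ i, 0 < v i ∧ v i ≤ 1) (hf : ∀ n t, 0 < S.f v n t)
    (hsep : ∀ (n : ℕ) (w w' : Fin n → ι), S.wA w = S.wA w' →
      S.wβ w ≡ S.wβ w' [ZMOD 3 ^ (S.B * (4 * n))] → w = w')
    {c₀ : ℝ} {n k : ℕ} (hk : k = 3 * n) {c : ℤ} (hfn : Real.exp (c₀ * n) ≤ S.f v n c) (i : ℕ)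
    {q : ℝ} (hq : 0 < q) (hΘ : q ≤ ∑ w : Fin n → ι, if S.wA w = i then S.th v n c w else 0)
    (x : ZMod (3 ^ (S.B * k))) :
    S.nuA v n k c i x ≤ Real.exp (-(c₀ * n)) / q := by
  classical
  have hth := S.th_isProb (fun i => (hv i).1.le) hf n c
  have hne : (∑ w : Fin n → ι, if S.wA w = i then S.th v n c w else 0) ≠ 0 :=
    (lt_of_lt_of_le hq hΘ).ne'
  unfold nuA
  rw [if_neg hne]
  have hnum : (∑ w : Fin n → ι, if S.wA w = i ∧ 2 ^ i * x =
      ((S.wnxt w c : ℤ) : ZMod (3 ^ (S.B * k))) then S.th v n c w else 0) ≤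
      Real.exp (-(c₀ * n)) := by
    by_cases hex : ∃ w₀ : Fin n → ι, S.wA w₀ = i ∧ 2 ^ i * x =
        ((S.wnxt w₀ c : ℤ) : ZMod (3 ^ (S.B * k))) ∧ S.WDom w₀ c
    · obtain ⟨w₀, h1, h2, h3⟩ := hex
      rw [Finset.sum_eq_single w₀]
      · split_ifs
        · exact S.th_le hv hfn w₀
        · exact (Real.exp_pos _).le
      · intro w _ hw
        by_cases hc : S.wA w = i ∧ 2 ^ i * x = ((S.wnxt w c : ℤ) : ZMod (3 ^ (S.B * k)))
        · rw [if_pos hc]
          unfold th
          by_cases hd : S.WDom w c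
          · exfalso
            apply hw
            apply hsep n w w₀ (hc.1.trans h1.symm)
            have e1 := S.wnxt_spec w c hd
            have e2 := S.wnxt_spec w₀ c h3
            have e3 : ((S.wnxt w c : ℤ) : ZMod (3 ^ (S.B * k))) =
                ((S.wnxt w₀ c : ℤ) : ZMod (3 ^ (S.B * k))) := hc.2.symm.trans h2
            have e4 : ((3 ^ (S.B * k) : ℕ) : ℤ) ∣ S.wnxt w₀ c - S.wnxt w c :=
              (ZMod.intCast_eq_intCast_iff_dvd_sub _ _ _).1 e3
            rw [hc.1] at e1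
            rw [h1] at e2
            have e5 : S.wβ w₀ - S.wβ w = -(3 ^ (S.B * n) * (S.wnxt w₀ c - S.wnxt w c)) := by
              linarith
            rw [Int.modEq_iff_dvd, e5]
            apply (dvd_neg).2
            have e6 : (3 : ℤ) ^ (S.B * (4 * n)) = 3 ^ (S.B * n) * 3 ^ (S.B * k) := by
              rw [← pow_add, hk]; congr 1; ring
            rw [e6]
            apply mul_dvd_mul_left
            simpa using e4
          · rw [if_neg hd]
        · rw [if_neg hc]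
      · intro h; exact absurd (Finset.mem_univ _) h
    · rw [Finset.sum_eq_zero]
      · exact (Real.exp_pos _).le
      · intro w _
        by_cases hc : S.wA w = i ∧ 2 ^ i * x = ((S.wnxt w c : ℤ) : ZMod (3 ^ (S.B * k)))
        · rw [if_pos hc]
          unfold th
          rw [if_neg]
          intro hd
          exact hex ⟨w, hc.1, hc.2, hd⟩
        · rw [if_neg hc]
  calc _ ≤ Real.exp (-(c₀ * n)) / (∑ w : Fin n → ι, if S.wA w = i then S.th v n c w else 0) :=
        div_le_div_of_nonneg_right hnum (hq.le.trans hΘ)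
    _ ≤ Real.exp (-(c₀ * n)) / q :=
        div_le_div_of_nonneg_left (Real.exp_pos _).le hq hΘ

end Sys

end Pool.Agent.H51.KL
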