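import Pool.Agent.H51.KL.ThB1

/-!
The core estimate for `worst_eq_typical`. (helper file for MP_ff4775_nt)
-/

set_option autoImplicit false

namespace Pool.Agent.H51.KL

open Finset

namespace Sys

variable {ι : Type} [Fintype ι] (S : Sys ι)

/-- combination of `exists_prefix`, `gain` and `chain` at one prefix. -/
theorem prefix_step {v : ι → ℝ} (hv : ∀ i, 0 ≤ v i) (hf : ∀ n t, 0 < S.f v n t) {lam mu : ℝ}
    (hmu : 0 < mu) (hlm : mu < lam) (n m L : ℕ) :
    ∃ c : ℤ, ∃ κ : ZMod (3 ^ (S.B * (m * L))) → ℝ, IsProb κ ∧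
      (∀ J : Finset ℕ, J ⊆ range L → S.logM v lam (n + m * L) - S.logM v lam n ≤
        ((L : ℝ) - J.card) * S.logM v lam m + J.card * ((lam / mu) * S.logM v mu m) +
          (lam / mu - 1) * ∑ j ∈ J, (S.B * m * Real.log 3 - hb κ (S.B * m) j)) ∧
      ∀ am : ℕ, (∀ w : Fin n → ι, S.wA w < am) →
        S.logM v lam (n + m * L) - S.logM v lam n ≤ S.logM v lam (m * L) -
          ∑ i ∈ range am, (∑ w : Fin n → ι, if S.wA w = i then S.th v n c w else 0) *
            (ent (conv κ (S.nuA v n (m * L) c i)) - ent κ) := by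
  classical
  obtain ⟨c, -, hc⟩ := S.exists_prefix hf lam n (m * L)
  have hlam : 0 ≤ lam := (hmu.trans hlm).le
  have hth := S.th_isProb hv hf n c
  obtain ⟨κ, hκ, h1, h2⟩ := gain hth (fun w => S.wA w)
    (fun w => ((S.wnxt w c : ℤ) : ZMod (3 ^ (S.B * (m * L))))) (φ := S.fz v (m * L))
    (fun x => S.fz_pos hf _ x) hlam
  -- rewrite the left side
  have hZ : (∑ s ∈ range (3 ^ (S.B * (m * L))),
        (S.f v (n + m * L) ((c : ℤ) + 3 ^ (S.B * n) * (s : ℤ)) / S.f v n (c : ℤ)) ^ (-lam)) =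
      ∑ τ : ZMod (3 ^ (S.B * (m * L))), (∑ w : Fin n → ι, S.th v n c w *
        S.fz v (m * L) (((S.wnxt w c : ℤ) : ZMod (3 ^ (S.B * (m * L)))) + 2 ^ S.wA w * τ)) ^ (-lam) := by
    rw [sum_zmod_range]
    refine Finset.sum_congr rfl (fun s _ => ?_)
    rw [S.f_add_div n (m * L) c s]
    simp
  rw [hZ] at hc
  refine ⟨c, κ, hκ, ?_, ?_⟩
  · intro J hJ
    refine (hc.trans h1).trans ?_
    have key : ∀ w : Fin n → ι,
        -lam * ∑ τ, κ τ * Real.log (S.fz v (m * L)
          (((S.wnxt w c : ℤ) : ZMod (3 ^ (S.B * (m * L)))) + 2 ^ S.wA w * τ)) + ent κ -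
          ((S.B * (m * L) : ℕ) : ℝ) * Real.log 3 ≤
        ((L : ℝ) - J.card) * S.logM v lam m + J.card * ((lam / mu) * S.logM v mu m) +
          (lam / mu - 1) * ∑ j ∈ J, (S.B * m * Real.log 3 - hb κ (S.B * m) j) := by
      intro w
      have hp : IsProb (push (fun x : ZMod (3 ^ (S.B * (m * L))) =>
          ((S.wnxt w c : ℤ) : ZMod (3 ^ (S.B * (m * L)))) + 2 ^ S.wA w * x) κ) :=
        push_isProb hκ _
      have h3 := S.chain hv hf hmu hlm m L _ hp J hJ
      rw [sum_push_mul, ent_affine] at h3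
      have h4 : ∑ j ∈ J, (S.B * m * Real.log 3 - hb (push (fun x : ZMod (3 ^ (S.B * (m * L))) =>
          ((S.wnxt w c : ℤ) : ZMod (3 ^ (S.B * (m * L)))) + 2 ^ S.wA w * x) κ) (S.B * m) j) =
          ∑ j ∈ J, (S.B * m * Real.log 3 - hb κ (S.B * m) j) := by
        refine Finset.sum_congr rfl (fun j hj => ?_)
        have hjL : j < L := Finset.mem_range.1 (hJ hj)
        have hle : (j + 1) * (S.B * m) ≤ S.B * (m * L) := by
          calc (j + 1) * (S.B * m) ≤ L * (S.B * m) := Nat.mul_le_mul_right _ hjL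
            _ = S.B * (m * L) := by ring
        have hle' : j * (S.B * m) ≤ S.B * (m * L) :=
          (Nat.mul_le_mul_right _ (Nat.le_succ j)).trans hle
        unfold hb
        rw [Hlev_affine hle, Hlev_affine hle']
      rw [h4] at h3
      push_cast at h3 ⊢
      exact h3
    calc _ ≤ ∑ w : Fin n → ι, S.th v n c w * (((L : ℝ) - J.card) * S.logM v lam m +
            J.card * ((lam / mu) * S.logM v mu m) +
          (lam / mu - 1) * ∑ j ∈ J, (S.B * m * Real.log 3 - hb κ (S.B * m) j)) :=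
          Finset.sum_le_sum (fun w _ => mul_le_mul_of_nonneg_left (key w) (hth.nonneg w))
      _ = _ := by rw [← Finset.sum_mul, hth.sum_one, one_mul]
  · intro am ham
    have h3 := h2 am ham (fun i => S.nuA v n (m * L) c i)
      (fun i => S.nuA_isProb hv hf n (m * L) c i)
      (fun i x => S.nuA_spec hv hf n (m * L) c i x)
    rw [← S.logM_eq v lam (m * L)] at h3
    exact hc.trans h3

/-- a linear function beats a logarithm -/
theorem exists_log_bound {c₀ : ℝ} (hc₀ : 0 < c₀) (a₁ : ℕ) : ∃ n4 : ℕ, ∀ n : ℕ, n4 ≤ n →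
    Real.log (2 * ((n : ℝ) * a₁ + 1)) ≤ c₀ * n / 2 := by
  have h1 : Filter.Tendsto (fun x : ℝ => Real.log x / x) Filter.atTop (nhds 0) := by
    have := Real.isLittleO_log_id_atTop.tendsto_div_nhds_zero
    simpa using this
  have h2 : Filter.Tendsto (fun n : ℕ => 2 * ((n : ℝ) * a₁ + 1)) Filter.atTop Filter.atTop ∨
      a₁ = 0 := by
    rcases Nat.eq_zero_or_pos a₁ with h0 | h0
    · right; exact h0
    · left
      have ha : (0 : ℝ) < a₁ := by exact_mod_cast h0
      refine Filter.Tendsto.const_mul_atTop (by norm_num) ?_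
      exact Filter.tendsto_atTop_add_const_right _ _
        (Filter.Tendsto.atTop_mul_const ha tendsto_natCast_atTop_atTop)
  rcases h2 with h2 | h2
  · have h3 := h1.comp h2
    have hε : 0 < c₀ / (8 * (a₁ + 1)) := by positivity
    have h4 := (h3.eventually (gt_mem_nhds hε)).and (Filter.eventually_ge_atTop 1)
    obtain ⟨N, hN⟩ := Filter.eventually_atTop.1 h4
    refine ⟨N, fun n hn => ?_⟩
    obtain ⟨h5, h6⟩ := hN n hn
    simp only [Function.comp] at h5
    have hnr : (1 : ℝ) ≤ n := by exact_mod_cast h6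
    have h7 : 0 < 2 * ((n : ℝ) * a₁ + 1) := by positivity
    rw [div_lt_iff₀ h7] at h5
    refine h5.le.trans ?_
    have ha0 : (0 : ℝ) ≤ a₁ := by positivity
    rw [div_mul_eq_mul_div, div_le_iff₀ (by positivity)]
    nlinarith [mul_nonneg ha0 (by linarith : (0:ℝ) ≤ (n:ℝ)), mul_pos hc₀ hc₀,
      mul_nonneg hc₀.le (mul_nonneg ha0 (by linarith : (0:ℝ) ≤ (n:ℝ))),
      mul_nonneg hc₀.le (by linarith : (0:ℝ) ≤ (n:ℝ) - 1)]
  · rw [h2]
    refine ⟨⌈2 * Real.log 2 / c₀⌉₊, fun n hn => ?_⟩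
    have h3 : 2 * Real.log 2 / c₀ ≤ n := (Nat.le_ceil _).trans (by exact_mod_cast hn)
    rw [div_le_iff₀ hc₀] at h3
    simp only [Nat.cast_zero, mul_zero, zero_add, mul_one]
    linarith

/-- arithmetic for `chi_le` -/
theorem chi_alg1 {L J m n χl ρ Δ η Z a b X lm : ℝ} (hJ : 0 ≤ J) (hm : 0 ≤ m)
    (hρ : 0 ≤ ρ * Δ / 4) (h1 : L * m * χl - η * n ≤ Z)
    (h2 : Z ≤ (L - J) * a + J * (lm * b) + (lm - 1) * X)
    (h5 : (L - J) * a ≤ (L - J) * (m * (χl + ρ * Δ / 4)))
    (h6 : J * (lm * b) ≤ J * (m * (χl - Δ) + m * Δ / 4)) :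
    (lm - 1) * X ≥ J * (m * Δ) - η * n - L * (m * (ρ * Δ / 4)) - J * (m * Δ / 4) := by
  have h := mul_nonneg (mul_nonneg hJ hm) hρ
  linarith

/-- arithmetic for `chi_le` -/
theorem chi_alg2 {J m n ρ Δ η X δ lm : ℝ}
    (h4 : (lm - 1) * X ≥ J * (m * Δ) - η * n - ρ * Δ / 4 * (3 * n) - J * (m * Δ / 4))
    (h5 : (lm - 1) * (J * δ) = J * (m * Δ / 4)) (h9 : η * n ≤ ρ * Δ / 4 * n)
    (h10 : ρ * Δ / 2 * (3 * n) ≤ J * (m * Δ / 2)) :
    (ρ * Δ / 2) * n ≤ (lm - 1) * (X - J * δ) := by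
  linarith

/-- `χ(lam)/lam ≤ χ(mu)/mu` for `lam > mu > 0`. -/
theorem chi_le (hB : 0 < S.B) {v : ι → ℝ}
    (hv : ∀ i, 0 < v i ∧ v i ≤ 1)
    (hpos : ∀ n t, 0 < S.f v n t)
    (hsep : ∀ (n : ℕ) (w w' : Fin n → ι), S.wA w = S.wA w' →
      S.wβ w ≡ S.wβ w' [ZMOD 3 ^ (S.B * (4 * n))] → w = w')
    {c₀ : ℝ} (hc₀ : 0 < c₀) (n₁ : ℕ)
    (hf : ∀ n : ℕ, n₁ ≤ n → ∀ t : ℤ, Real.exp (c₀ * n) ≤ S.f v n t)
    {lam mu : ℝ} (hmu : 0 < mu) (hlm : mu < lam) {χl χm : ℝ}
    (hl : ∀ n : ℕ, n * χl ≤ S.logM v lam n)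
    (hl' : ∀ η : ℝ, 0 < η → ∃ n₁ : ℕ, ∀ n : ℕ, n₁ ≤ n → S.logM v lam n ≤ n * (χl + η))
    (hm' : ∀ η : ℝ, 0 < η → ∃ n₁ : ℕ, ∀ n : ℕ, n₁ ≤ n → S.logM v mu n ≤ n * (χm + η)) :
    χl ≤ (lam / mu) * χm := by
  classical
  by_contra hcon
  push Not at hcon
  have hv0 : ∀ i, 0 ≤ v i := fun i => (hv i).1.le
  have hlam : 0 < lam := hmu.trans hlm
  set Δ : ℝ := χl - (lam / mu) * χm with hΔdef
  have hΔ : 0 < Δ := by linarith
  have hBr : (0 : ℝ) < S.B := by exact_mod_cast hB
  have hlog3 : 0 < Real.log 3 := Real.log_pos (by norm_num)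
  have hr : 0 < lam / mu - 1 := by
    rw [sub_pos, one_lt_div hmu]; exact hlm
  have hlm0 : 0 < lam / mu := div_pos hlam hmu
  -- constants
  set h : ℝ := c₀ / (6 * S.B) with hhdef
  have hh : 0 < h := by positivity
  set ρ : ℝ := h / (4 * Real.log 3) with hρdef
  have hρ : 0 < ρ := by positivity
  obtain ⟨m1, hm1⟩ := hl' (ρ * Δ / 4) (by positivity)
  obtain ⟨m2, hm2⟩ := hm' (Δ / (4 * (lam / mu))) (by positivity)
  set m : ℕ := max (max m1 m2) 1 with hmdef
  have hm0 : 0 < m := lt_of_lt_of_le one_pos (le_max_right _ _)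
  have hmr : (0 : ℝ) < m := by exact_mod_cast hm0
  have hLm := hm1 m (le_trans (le_max_left _ _) (le_max_left _ _))
  have hLmu := hm2 m (le_trans (le_max_right _ _) (le_max_left _ _))
  set δ : ℝ := m * Δ / (4 * (lam / mu - 1)) with hδdef
  have hδ : 0 < δ := by positivity
  have hM : 0 < S.B * m := Nat.mul_pos hB hm0
  obtain ⟨C, L₀, hC, hcov⟩ := cover_gain h δ hh hδ (S.B * m) hM
  set C' : ℝ := C / (lam / mu - 1) * (ρ * Δ / 2) with hC'def
  have hC' : 0 < C' := by positivity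
  set η : ℝ := min (ρ * Δ / 4) (C' / 20) with hηdef
  have hη : 0 < η := lt_min (by positivity) (by positivity)
  obtain ⟨n3, hn3⟩ := hl' η hη
  -- bound on the exponents
  set a₁ : ℕ := Finset.univ.sup S.A with ha₁
  have hA : ∀ i, S.A i ≤ a₁ := fun i => Finset.le_sup (f := S.A) (Finset.mem_univ i)
  -- choose n
  obtain ⟨n4, hn4⟩ := exists_log_bound hc₀ a₁
  set n' : ℕ := max (max n₁ n3) (max n4 L₀) + 1 with hn'def
  set n : ℕ := m * n' with hndef
  have hn'0 : 0 < n' := Nat.succ_pos _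
  have hnn' : n' ≤ n := Nat.le_mul_of_pos_left _ hm0
  have e1 : n₁ ≤ n := by
    refine le_trans (le_trans (le_trans (le_max_left _ _) (le_max_left _ _)) (Nat.le_succ _)) hnn'
  have e3 : n3 ≤ n := by
    refine le_trans (le_trans (le_trans (le_max_right _ _) (le_max_left _ _)) (Nat.le_succ _)) hnn'
  have e4 : n4 ≤ n := by
    refine le_trans (le_trans (le_trans (le_max_left _ _) (le_max_right _ _)) (Nat.le_succ _)) hnn'
  have e5 : L₀ ≤ n' :=
    le_trans (le_trans (le_max_right _ _) (le_max_right _ _)) (Nat.le_succ _)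
  have hn0 : 0 < n := Nat.mul_pos hm0 hn'0
  have hnr : (0 : ℝ) < n := by exact_mod_cast hn0
  set L : ℕ := 3 * n' with hLdef
  have hk : m * L = 3 * n := by rw [hLdef, hndef]; ring
  obtain ⟨c, κ, hκ, hI, hII⟩ := S.prefix_step hv0 hpos hmu hlm n m L
  set Z : ℝ := S.logM v lam (n + m * L) - S.logM v lam n with hZ
  have hs := hn3 n e3
  -- lower bound for Z
  have hkr : ((m * L : ℕ) : ℝ) = 3 * n := by rw [hk]; push_cast; ring
  have hZlow : 3 * n * χl - η * n ≤ Z := by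
    have h1 := hl (n + m * L)
    push_cast at h1
    push_cast at hkr
    rw [hkr] at h1
    rw [hZ]; linarith
  -- upper bound for logM (m L)
  have hup : S.logM v lam (m * L) ≤ 3 * n * χl + 3 * (η * n) := by
    have h1 := hn3 (m * L) (by rw [hk]; omega)
    rw [hkr] at h1
    linarith
  set am : ℕ := n * a₁ + 1 with hamdef
  have hamw : ∀ w : Fin n → ι, S.wA w < am := fun w => Nat.lt_succ_of_le (S.wA_le hA w)
  have hII' := hII am hamw
  set Θ : ℕ → ℝ := fun i => ∑ w : Fin n → ι, if S.wA w = i then S.th v n c w else 0 with hΘdef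
  have hth := S.th_isProb hv0 hpos n c
  have hΘ0 : ∀ i, 0 ≤ Θ i := fun i => Finset.sum_nonneg fun w _ => by
    split_ifs
    · exact hth.nonneg w
    · exact le_rfl
  have hΘ1 : ∑ i ∈ range am, Θ i = 1 := by
    rw [hΘdef]
    simp only
    rw [Finset.sum_comm]
    rw [← hth.sum_one]
    refine Finset.sum_congr rfl (fun w _ => ?_)
    rw [Finset.sum_ite_eq (range am) (S.wA w) (fun _ => S.th v n c w)]
    rw [if_pos (Finset.mem_range.2 (hamw w))]
  set G : ℕ → ℝ := fun i => ent (conv κ (S.nuA v n (m * L) c i)) - ent κ with hGdef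
  have hG0 : ∀ i, 0 ≤ G i := fun i =>
    sub_nonneg.2 (ent_le_conv hκ (S.nuA_isProb hv0 hpos n (m * L) c i))
  have hamr : (0 : ℝ) < am := by
    have : 0 < am := Nat.succ_pos _
    exact_mod_cast this
  -- good exponents
  set Γ : ℝ := C' * n with hΓdef
  have hgood : ∀ i, 1 / (2 * am) ≤ Θ i → Γ ≤ G i := by
    intro i hi
    have hent : h * ((S.B * (m * L) : ℕ) : ℝ) ≤ ent (S.nuA v n (m * L) c i) := by
      have h1 : ∀ x, S.nuA v n (m * L) c i x ≤ Real.exp (-(c₀ * n)) / (1 / (2 * am)) :=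
        fun x => S.nuA_le hv hpos hsep hk (hf n e1 c) i (by positivity) hi x
      have h2 := neg_log_le_ent (S.nuA_isProb hv0 hpos n (m * L) c i) _ (by positivity) h1
      refine le_trans ?_ h2
      rw [Real.log_div (Real.exp_pos _).ne' (by positivity), Real.log_exp, one_div, Real.log_inv]
      have h3 := hn4 n e4
      have h4 : (2 * ((n : ℝ) * a₁ + 1)) = 2 * (am : ℝ) := by rw [hamdef]; push_cast; ring
      rw [h4] at h3
      have h5 : h * ((S.B * (m * L) : ℕ) : ℝ) = c₀ * n / 2 := by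
        rw [Nat.cast_mul, hkr, hhdef]
        field_simp
        ring
      rw [h5]
      linarith
    obtain ⟨J, hJ, hJc, hJg⟩ := hcov (S.B * (m * L)) L (by ring) (by omega) _
      (S.nuA_isProb hv0 hpos n (m * L) c i) hent
    have h1 := hJg κ hκ
    have h2 := hI J hJ
    have hJL : (J.card : ℝ) ≤ L := by
      have := Finset.card_le_card hJ
      rw [Finset.card_range] at this
      exact_mod_cast this
    have hJ0 : (0 : ℝ) ≤ J.card := by positivity
    -- sum identity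
    have h3 : ∑ j ∈ J, (((S.B * m : ℕ) : ℝ) * Real.log 3 - δ - hb κ (S.B * m) j) =
        ∑ j ∈ J, (S.B * m * Real.log 3 - hb κ (S.B * m) j) - J.card * δ := by
      have e0 : ∀ j ∈ J, (((S.B * m : ℕ) : ℝ) * Real.log 3 - δ - hb κ (S.B * m) j) =
          (S.B * m * Real.log 3 - hb κ (S.B * m) j) - δ := by
        intro j _; push_cast; ring
      rw [Finset.sum_congr rfl e0, Finset.sum_sub_distrib, Finset.sum_const, nsmul_eq_mul]
    rw [h3] at h1
    set X : ℝ := ∑ j ∈ J, (S.B * m * Real.log 3 - hb κ (S.B * m) j) with hX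
    -- lower bound for X
    have h4 : (lam / mu - 1) * X ≥ J.card * (m * Δ) - η * n - L * (m * (ρ * Δ / 4)) -
        J.card * (m * Δ / 4) := by
      have h5 : ((L : ℝ) - J.card) * S.logM v lam m ≤
          ((L : ℝ) - J.card) * (m * (χl + ρ * Δ / 4)) :=
        mul_le_mul_of_nonneg_left hLm (by linarith)
      have h6 : (J.card : ℝ) * ((lam / mu) * S.logM v mu m) ≤
          J.card * ((lam / mu) * (m * (χm + Δ / (4 * (lam / mu))))) :=
        mul_le_mul_of_nonneg_left (mul_le_mul_of_nonneg_left hLmu hlm0.le) hJ0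
      have h7 : (lam / mu) * (m * (χm + Δ / (4 * (lam / mu)))) = m * ((lam / mu) * χm) + m * Δ / 4 := by
        field_simp
      rw [h7] at h6
      have h8 : (3 : ℝ) * n = L * m := by
        have : ((m * L : ℕ) : ℝ) = m * L := by push_cast; ring
        rw [← hkr, this]; ring
      have h9 : (lam / mu) * χm = χl - Δ := by rw [hΔdef]; ring
      rw [h9] at h6
      rw [h8] at hZlow
      exact chi_alg1 hJ0 hmr.le (by positivity) hZlow h2 h5 h6
    have h5 : (lam / mu - 1) * (J.card * δ) = J.card * (m * Δ / 4) := by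
      have key : ∀ r a b : ℝ, r ≠ 0 → r * (a * (b / (4 * r))) = a * (b / 4) := by
        intro r a b hr0; field_simp
      rw [hδdef]
      exact key _ _ _ hr.ne'
    have h6 : (ρ * Δ / 2) * n ≤ (lam / mu - 1) * (X - J.card * δ) := by
      have h7 : ρ * L ≤ J.card := hJc
      have h8 : (3 : ℝ) * n = L * m := by
        have : ((m * L : ℕ) : ℝ) = m * L := by push_cast; ring
        rw [← hkr, this]; ring
      have h9 : η * n ≤ ρ * Δ / 4 * n := mul_le_mul_of_nonneg_right (min_le_left _ _) hnr.le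
      have h10 : ρ * L * (m * Δ / 2) ≤ J.card * (m * Δ / 2) :=
        mul_le_mul_of_nonneg_right h7 (by positivity)
      have h11 : ρ * L * (m * Δ / 2) = ρ * Δ / 2 * (3 * n) := by rw [h8]; ring
      have h12 : L * (m * (ρ * Δ / 4)) = ρ * Δ / 4 * (3 * n) := by rw [h8]; ring
      rw [h11] at h10
      rw [h12] at h4
      exact chi_alg2 h4 h5 h9 h10
    have h7 : C / (lam / mu - 1) * ((lam / mu - 1) * (X - J.card * δ)) = C * (X - J.card * δ) := by
      have key : ∀ r a b : ℝ, r ≠ 0 → a / r * (r * b) = a * b := by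
        intro r a b hr0; field_simp
      exact key _ _ _ hr.ne'
    calc Γ = C / (lam / mu - 1) * (ρ * Δ / 2 * n) := by rw [hΓdef, hC'def]; ring
      _ ≤ C / (lam / mu - 1) * ((lam / mu - 1) * (X - J.card * δ)) :=
          mul_le_mul_of_nonneg_left h6 (by positivity)
      _ = C * (X - J.card * δ) := h7
      _ ≤ G i := h1
  -- total gain
  have htot : Γ / 2 ≤ ∑ i ∈ range am, Θ i * G i := by
    have hΓ0 : 0 ≤ Γ := by positivity
    have h1 : ∀ i ∈ range am, (Θ i - 1 / (2 * am)) * Γ ≤ Θ i * G i := by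
      intro i _
      by_cases hi : 1 / (2 * (am : ℝ)) ≤ Θ i
      · have h2 := hgood i hi
        have h3 : Θ i * Γ ≤ Θ i * G i := mul_le_mul_of_nonneg_left h2 (hΘ0 i)
        have h4 : 0 ≤ 1 / (2 * (am : ℝ)) * Γ := by positivity
        linarith
      · push Not at hi
        have h3 : (Θ i - 1 / (2 * am)) * Γ ≤ 0 := mul_nonpos_of_nonpos_of_nonneg (by linarith) hΓ0
        exact h3.trans (mul_nonneg (hΘ0 i) (hG0 i))
    have h2 := Finset.sum_le_sum h1
    rw [← Finset.sum_mul, Finset.sum_sub_distrib, hΘ1, Finset.sum_const, Finset.card_range,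
      nsmul_eq_mul] at h2
    have h3 : (am : ℝ) * (1 / (2 * am)) = 1 / 2 := by field_simp
    rw [h3] at h2
    linarith
  have hfin : Z ≤ 3 * n * χl + 3 * (η * n) - Γ / 2 := by
    have : Z ≤ S.logM v lam (m * L) - ∑ i ∈ range am, Θ i * G i := hII'
    linarith
  have h8 : Γ ≤ 8 * (η * n) := by linarith
  have h9 : η * n ≤ C' / 20 * n := mul_le_mul_of_nonneg_right (min_le_right _ _) hnr.le
  have h10 : 0 < Γ := by positivity
  rw [hΓdef] at h8 h10
  linarith

end Sys

end Pool.Agent.H51.KL
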