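import Pool.Agent.H51.KL.Phase
import Pool.Agent.H51.KL.Cher
import Pool.Agent.H51.KL.Flt
import Pool.Agent.H51.KL.Base

/-!
JOB KL-TYP. The block system has the expected average logarithmic growth.
(helper file for MP_ff4775_nt)

`D = 5B`, `y = 1 + 3t`, `t < 3^B`. Let `F t = (Bs B ε).f (bv B ε (2+ε)) 1 t`
`= ∑_w min(1, 2^((2+ε)B - A_w))`, over `w : Fin B → Fin (5B)` with `WDom w y`, `wnxt w y % 3 = 1`,
`(2-ε)B ≤ A_w ≤ 5B`.
(a) for all `t`: `F t ≥ 2^(-3B)`: by `base` some word applies, its weight is `≥ 2^((2+ε-5)B)`.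
(b) Put `u_w = 3^B/2^(A_w)`. By `last_shift` (`n + 1 = B`, `r = 1`)
    `3/64 p D B y ≤ ∑_{w, wnxt ≡ 1} u_w`. The part with `|A_w - 2B| > ε B` is at most
    `bad y = ∑_{WDom w y, |A_w-2B| > εB} u_w`, and `∑_{y < 3^B} bad y = 3^B ∑_{|A_w-2B|>εB} 2^(-A_w)
    ≤ 2 · 3^B e^(-cB)` (`sum_word`, `chernoff`); since `bad` is `3^B`-periodic, the sum of
    `bad (1+3t)` over `t < 3^B` is at most 3 times that (or: `1+3t` runs through residues modulo
    `3^B`, each at most 3 times).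
    On `E = {t : p D B y ≥ e^(-ηB) and bad y ≤ (3/128) e^(-ηB)}`,
    `∑_{w, wnxt ≡ 1, |A_w-2B| ≤ εB} u_w ≥ (3/128) e^(-ηB)`; these `w` have `A_w ≤ (2+ε)B`, weight 1, and
    `u_w ≤ 3^B 2^(-(2-ε)B)`, so `F t ≥ (3/128) e^(-ηB) (4/3)^B 2^(-εB)`.
(c) `#Eᶜ/3^B → 0`: Markov for `bad` (choose `η < c/2`), and for `p`: by `phase` with `N = 1`, `c = 1`,
    `n = B` (then `y = 1 + 3t` and `p D (1+B) y`; note `p D B y ≥ p D (B+1) y / 2` by `p_add` and
    `p_one_le`), and `log p D 1 1 ≥ log(3/4)`: `∑_t -log p D (B+1) y ≤ (C√B log B + 1) 3^B`. Since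
    `(log x)⁺ ≤ x` and `∑_t p D (B+1) (1+3t) ≤ 3^(B+1)`, also `∑_t (-log p D (B+1) y)⁺ ≤ (C√B log B + 4) 3^B`,
    so the number of `t` with `p D (B+1) y < 2 e^(-ηB)` is `≤ (C√B log B + 4) 3^B/(ηB - 1)`, which is
    `o(3^B)`.
(d) Hence `∑_t log F t ≥ #E (B(log(4/3) - ε log 2 - η) - log(128/3)) - #Eᶜ · 3B log 2 ≥ γ B 3^B` for
    `B ≥ B₀`, if `η` is small enough that `γ < log(4/3) - ε log 2 - η`.
-/

set_option autoImplicit false

namespace Pool.Agent.H51.KL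

open Finset

private theorem typ_wt_ge (B : ℕ) (ε al : ℝ) (h0 : 2 ≤ al) (i : BIdx B ε) :
    (2 : ℝ) ^ (-(3 * (B : ℝ))) * 1 ≤ bv B ε al i := by
  unfold bv
  rw [mul_one]
  have hA : (((Ls (5 * B)).wA i.1 : ℕ) : ℝ) ≤ 5 * (B : ℝ) := by exact_mod_cast i.2.2.2
  have hB : (0 : ℝ) ≤ B := Nat.cast_nonneg _
  have h2 := mul_le_mul_of_nonneg_right h0 hB
  apply le_min
  · exact Real.rpow_le_one_of_one_le_of_nonpos (by norm_num) (by linarith)
  · apply Real.rpow_le_rpow_of_exponent_le (by norm_num)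
    linarith

theorem f_ge (B : ℕ) (hB : 18 ≤ B) (ε : ℝ) (hε : 0 < ε) (al : ℝ) (h0 : 2 ≤ al) (h1 : al ≤ 5) (t : ℤ) :
    (2 : ℝ) ^ (-(3 * (B : ℝ))) ≤ (Bs B ε).f (bv B ε al) 1 t := by
  have h2 := base B hB ε hε t
  have h4 : (0 : ℝ) < 2 ^ (-(3 * (B : ℝ))) := by positivity
  have h3 : (Bs B ε).f (fun i => (2 : ℝ) ^ (-(3 * (B : ℝ))) * (fun _ => (1 : ℝ)) i) 1 t ≤
      (Bs B ε).f (bv B ε al) 1 t :=
    Sys.f_mono _ (fun i => by positivity) (fun i => typ_wt_ge B ε al h0 i) 1 t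
  rw [Sys.f_smul, pow_one] at h3
  have h5 := mul_le_mul_of_nonneg_left h2 h4.le
  linarith

private theorem typ_act (B : ℕ) (t : ℤ) (w : Fin B → Fin (5 * B))
    (h : (Ls (5 * B)).WDom w (1 + 3 * t)) (h1 : (Ls (5 * B)).wnxt w (1 + 3 * t) % 3 = 1) :
    (3 : ℤ) ∣ (Ls (5 * B)).wβ w + 3 ^ B - 2 ^ (Ls (5 * B)).wA w ∧
      (3 : ℤ) ^ B ∣ 2 ^ (Ls (5 * B)).wA w * t -
        ((Ls (5 * B)).wβ w + 3 ^ B - 2 ^ (Ls (5 * B)).wA w) / 3 := by
  have hs := Sys.wnxt_spec (Ls (5 * B)) w (1 + 3 * t) h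
  have e1 : (Ls (5 * B)).B * B = B := one_mul B
  rw [e1] at hs
  obtain ⟨z', hz'⟩ : ∃ z', (Ls (5 * B)).wnxt w (1 + 3 * t) = 1 + 3 * z' :=
    ⟨(Ls (5 * B)).wnxt w (1 + 3 * t) / 3, by omega⟩
  rw [hz'] at hs
  have e2 : (Ls (5 * B)).wβ w + 3 ^ B - 2 ^ (Ls (5 * B)).wA w =
      3 * (2 ^ (Ls (5 * B)).wA w * t - 3 ^ B * z') := by
    linear_combination -hs
  refine ⟨⟨_, e2⟩, ?_⟩
  rw [e2, Int.mul_ediv_cancel_left _ (by norm_num)]
  exact ⟨z', by ring⟩

private theorem typ_F_ge (B : ℕ) (ε : ℝ) (hε1 : ε ≤ 1) (t : ℤ)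
    (s : Finset (Fin B → Fin (5 * B)))
    (hs : ∀ w ∈ s, (Ls (5 * B)).WDom w (1 + 3 * t) ∧
      (Ls (5 * B)).wnxt w (1 + 3 * t) % 3 = 1 ∧
      |((Ls (5 * B)).wA w : ℝ) - 2 * B| ≤ ε * B) :
    (s.card : ℝ) ≤ (Bs B ε).f (bv B ε (2 + ε)) 1 t := by
  classical
  have hB : (0 : ℝ) ≤ B := Nat.cast_nonneg _
  rw [Sys.f_succ]
  set s' : Finset (BIdx B ε) := univ.filter (fun i => i.1 ∈ s) with hs'
  have hnn : ∀ i : BIdx B ε, 0 ≤ bv B ε (2 + ε) i := by
    intro i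
    unfold bv
    exact le_min zero_le_one (by positivity)
  have h1 : (s.card : ℝ) ≤ s'.card := by
    have : s.card ≤ s'.card := by
      apply Finset.card_le_card_of_surjOn (fun i : BIdx B ε => i.1)
      intro w hw
      obtain ⟨ha, hb, hc⟩ := hs w hw
      have hc' := abs_le.1 hc
      have h3 : ε * B ≤ B := by
        have := mul_le_mul_of_nonneg_right hε1 hB
        linarith
      have hA : (Ls (5 * B)).wA w ≤ 5 * B := by
        have : (((Ls (5 * B)).wA w : ℕ) : ℝ) ≤ ((5 * B : ℕ) : ℝ) := by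
          push_cast
          linarith [hc'.2]
        exact_mod_cast this
      refine ⟨⟨w, (typ_act B t w ha hb).1, by linarith [hc'.1], hA⟩, ?_, rfl⟩
      simp only [hs', coe_filter, mem_univ, true_and]
      exact hw
    exact_mod_cast this
  refine h1.trans ?_
  calc (s'.card : ℝ) = ∑ i ∈ s', (1 : ℝ) := by simp
    _ ≤ ∑ i ∈ s', (if (3 : ℤ) ^ (Bs B ε).B ∣ 2 ^ (Bs B ε).A i * t - (Bs B ε).β i then
          bv B ε (2 + ε) i * (Bs B ε).f (bv B ε (2 + ε)) 0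
            ((2 ^ (Bs B ε).A i * t - (Bs B ε).β i) / 3 ^ (Bs B ε).B) else 0) := by
        apply sum_le_sum
        intro i hi
        have hi' : i.1 ∈ s := (mem_filter.1 hi).2
        obtain ⟨ha, hb, hc⟩ := hs i.1 hi'
        have hd : (3 : ℤ) ^ (Bs B ε).B ∣ 2 ^ (Bs B ε).A i * t - (Bs B ε).β i :=
          (typ_act B t i.1 ha hb).2
        rw [if_pos hd, Sys.f_zero, mul_one]
        unfold bv
        apply le_min (le_refl _)
        apply Real.one_le_rpow (by norm_num)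
        have := (abs_le.1 hc).2
        linarith
    _ ≤ _ := by
        apply sum_le_sum_of_subset_of_nonneg (subset_univ _)
        intro i _ _
        split_ifs
        · rw [Sys.f_zero, mul_one]; exact hnn i
        · exact le_refl _

private theorem typ_inj_sum (b : ℕ) (g : ℤ → ℝ) (h0 : ∀ y, 0 ≤ g y) :
    ∑ c ∈ range (3 ^ b), g (1 + 3 * (c : ℤ)) ≤ ∑ y ∈ range (3 ^ (b + 1)), g (y : ℤ) := by
  have h3 : ∑ c ∈ range (3 ^ b), g (1 + 3 * (c : ℤ)) =
      ∑ y ∈ (range (3 ^ b)).image (fun c : ℕ => 1 + 3 * c), g (y : ℤ) := by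
    rw [sum_image]
    · apply sum_congr rfl
      intro c _
      push_cast
      rfl
    · intro a _ c _ hac
      simp only at hac
      omega
  rw [h3]
  apply sum_le_sum_of_subset_of_nonneg
  · intro y hy
    rw [mem_image] at hy
    obtain ⟨c, hc, rfl⟩ := hy
    rw [mem_range] at hc ⊢
    rw [pow_succ]
    omega
  · intro y _ _
    exact h0 _

private theorem typ_periodic_sum (B : ℕ) (hB : 1 ≤ B) (g : ℤ → ℝ) (h0 : ∀ y, 0 ≤ g y)
    (hg : ∀ y s, g (y + 3 ^ B * s) = g y) :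
    ∑ t ∈ range (3 ^ B), g (1 + 3 * (t : ℤ)) ≤ 3 * ∑ y ∈ range (3 ^ B), g (y : ℤ) := by
  obtain ⟨b, rfl⟩ : ∃ b, B = b + 1 := ⟨B - 1, by omega⟩
  have h1 := Sys.sum_range_split b 1 (fun t => g (1 + 3 * t))
  have h2 : ∀ c ∈ range (3 ^ b), ∑ s ∈ range (3 ^ 1), g (1 + 3 * ((c : ℤ) + 3 ^ b * (s : ℤ))) =
      3 * g (1 + 3 * (c : ℤ)) := by
    intro c _
    have : ∀ s ∈ range (3 ^ 1), g (1 + 3 * ((c : ℤ) + 3 ^ b * (s : ℤ))) =
        g (1 + 3 * (c : ℤ)) := by
      intro s _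
      rw [show 1 + 3 * ((c : ℤ) + 3 ^ b * (s : ℤ)) = (1 + 3 * (c : ℤ)) + 3 ^ (b + 1) * (s : ℤ) by
        ring, hg]
    rw [sum_congr rfl this]
    simp
  rw [h1, sum_congr rfl h2, ← mul_sum]
  exact mul_le_mul_of_nonneg_left (typ_inj_sum b g h0) (by norm_num)

/-- the contribution of the words with atypical total exponent -/
private noncomputable def typBad (B D : ℕ) (ε : ℝ) (y : ℤ) : ℝ :=
  ∑ w : Fin B → Fin D, if ε * B < |((Ls D).wA w : ℝ) - 2 * B| then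
    (if (Ls D).WDom w y then (3 : ℝ) ^ B / 2 ^ (Ls D).wA w else 0) else 0

private theorem typBad_nonneg (B D : ℕ) (ε : ℝ) (y : ℤ) : 0 ≤ typBad B D ε y := by
  unfold typBad
  apply sum_nonneg
  intro w _
  split_ifs <;> positivity

private theorem typBad_periodic (B D : ℕ) (ε : ℝ) (y s : ℤ) :
    typBad B D ε (y + 3 ^ B * s) = typBad B D ε y := by
  unfold typBad
  apply sum_congr rfl
  intro w _
  have h := Sys.wDom_shift (Ls D) w y s
  have e1 : (Ls D).B * B = B := one_mul B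
  rw [e1] at h
  by_cases hw : (Ls D).WDom w y
  · rw [if_pos hw, if_pos (h.2 hw)]
  · rw [if_neg hw, if_neg (fun h' => hw (h.1 h'))]

private theorem typBad_sum (B D : ℕ) (ε c : ℝ)
    (hc : ∑ w : Fin B → Fin D, (if ε * B < |((Ls D).wA w : ℝ) - 2 * B| then
      (1 : ℝ) / 2 ^ (Ls D).wA w else 0) ≤ 2 * Real.exp (-c * B)) :
    ∑ y ∈ range (3 ^ B), typBad B D ε (y : ℤ) ≤ 3 ^ B * (2 * Real.exp (-c * B)) := by
  have h1 : ∑ y ∈ range (3 ^ B), typBad B D ε (y : ℤ) =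
      3 ^ B * ∑ w : Fin B → Fin D, (if ε * B < |((Ls D).wA w : ℝ) - 2 * B| then
      (1 : ℝ) / 2 ^ (Ls D).wA w else 0) := by
    unfold typBad
    rw [sum_comm, mul_sum]
    apply sum_congr rfl
    intro w _
    by_cases h : ε * B < |((Ls D).wA w : ℝ) - 2 * B|
    · simp only [h, if_true]
      have h2 := Sys.sum_word (Ls D) w 0 (fun _ => (3 : ℝ) ^ B / 2 ^ (Ls D).wA w)
        (fun _ _ => rfl)
      have e1 : (Ls D).B * (B + 0) = B := one_mul B
      have e2 : (Ls D).B * 0 = 0 := rfl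
      rw [e1, e2] at h2
      rw [h2]
      simp
      ring
    · simp only [h, if_false]
      simp
  rw [h1]
  exact mul_le_mul_of_nonneg_left hc (by positivity)

private theorem typ_main (B : ℕ) (hB : 2 ≤ B) (ε : ℝ) (hε1 : ε ≤ 1) (t : ℤ) :
    3 / 64 * p (5 * B) B (1 + 3 * t) - typBad B (5 * B) ε (1 + 3 * t) ≤
      (Bs B ε).f (bv B ε (2 + ε)) 1 t * (3 ^ B * (2 : ℝ) ^ (-((2 - ε) * B))) := by
  classical
  set D := 5 * B with hD
  set s : Finset (Fin B → Fin D) := univ.filter (fun w => (Ls D).WDom w (1 + 3 * t) ∧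
      (Ls D).wnxt w (1 + 3 * t) % 3 = 1 ∧ |((Ls D).wA w : ℝ) - 2 * B| ≤ ε * B) with hs
  have h1 : (s.card : ℝ) ≤ (Bs B ε).f (bv B ε (2 + ε)) 1 t := by
    apply typ_F_ge B ε hε1 t s
    intro w hw
    exact (mem_filter.1 hw).2
  have h2 : 3 / 64 * p D B (1 + 3 * t) ≤ ∑ w : Fin B → Fin D,
      if (Ls D).WDom w (1 + 3 * t) ∧ (Ls D).wnxt w (1 + 3 * t) % 3 = 1 then
        (3 : ℝ) ^ B / 2 ^ (Ls D).wA w else 0 := by
    obtain ⟨b, rfl⟩ : ∃ b, B = b + 1 := ⟨B - 1, by omega⟩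
    exact last_shift D b (by omega) (1 + 3 * t) 1 (by norm_num)
  have h3 : ∑ w : Fin B → Fin D,
      (if (Ls D).WDom w (1 + 3 * t) ∧ (Ls D).wnxt w (1 + 3 * t) % 3 = 1 then
        (3 : ℝ) ^ B / 2 ^ (Ls D).wA w else 0) ≤
      typBad B D ε (1 + 3 * t) + ∑ w : Fin B → Fin D,
        (if w ∈ s then (3 : ℝ) ^ B * (2 : ℝ) ^ (-((2 - ε) * B)) else 0) := by
    unfold typBad
    rw [← sum_add_distrib]
    apply sum_le_sum
    intro w _
    have hpos : 0 ≤ (3 : ℝ) ^ B / 2 ^ (Ls D).wA w := by positivity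
    have hpos' : 0 ≤ (3 : ℝ) ^ B * (2 : ℝ) ^ (-((2 - ε) * B)) := by positivity
    by_cases h : ε * B < |((Ls D).wA w : ℝ) - 2 * B|
    · have hw : w ∉ s := by
        intro hw
        exact absurd (mem_filter.1 hw).2.2.2 (not_le.2 h)
      rw [if_pos h, if_neg hw, add_zero]
      by_cases hd : (Ls D).WDom w (1 + 3 * t)
      · rw [if_pos hd]
        split_ifs
        · exact le_refl _
        · exact hpos
      · rw [if_neg hd, if_neg (fun h' => hd h'.1)]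
    · rw [if_neg h, zero_add]
      by_cases hd : (Ls D).WDom w (1 + 3 * t) ∧ (Ls D).wnxt w (1 + 3 * t) % 3 = 1
      · have hw : w ∈ s := mem_filter.2 ⟨mem_univ _, hd.1, hd.2, not_lt.1 h⟩
        rw [if_pos hd, if_pos hw, div_eq_mul_inv]
        apply mul_le_mul_of_nonneg_left _ (by positivity)
        rw [← Real.rpow_natCast, ← Real.rpow_neg (by norm_num)]
        apply Real.rpow_le_rpow_of_exponent_le (by norm_num)
        have := (abs_le.1 (not_lt.1 h)).1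
        linarith
      · rw [if_neg hd]
        split_ifs
        · exact hpos'
        · exact le_refl _
  have h4 : ∑ w : Fin B → Fin D,
        (if w ∈ s then (3 : ℝ) ^ B * (2 : ℝ) ^ (-((2 - ε) * B)) else 0) =
        s.card * (3 ^ B * (2 : ℝ) ^ (-((2 - ε) * B))) := by
    rw [← sum_filter, sum_const, nsmul_eq_mul]
    congr 3
    ext w
    simp
  have h5 : (s.card : ℝ) * (3 ^ B * (2 : ℝ) ^ (-((2 - ε) * B))) ≤
      (Bs B ε).f (bv B ε (2 + ε)) 1 t * (3 ^ B * (2 : ℝ) ^ (-((2 - ε) * B))) :=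
    mul_le_mul_of_nonneg_right h1 (by positivity)
  linarith

private theorem typ_p_half (D B : ℕ) (y : ℤ) : p D (1 + B) y ≤ 2 * p D B y := by
  have h1 := p_add D B 1 y
  have h2 := p_add D B 0 y
  rw [add_comm 1 B, h1]
  rw [add_zero] at h2
  rw [h2, mul_sum]
  apply sum_le_sum
  intro w _
  split_ifs
  · rw [p_zero, mul_one, mul_comm]
    exact mul_le_mul_of_nonneg_right (p_one_le D _) (by positivity)
  · simp

private theorem typ_p_sum (D B : ℕ) :
    ∑ t ∈ range (3 ^ B), p D (1 + B) (1 + 3 * (t : ℤ)) ≤ 3 * 3 ^ B := by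
  have h1 := typ_inj_sum B (p D (1 + B)) (p_nonneg D (1 + B))
  have h2 := sum_p D (1 + B)
  rw [add_comm 1 B] at h1 h2 ⊢
  rw [h2] at h1
  refine h1.trans ?_
  have h3 : (1 - 1 / 2 ^ D : ℝ) ^ (B + 1) ≤ 1 := by
    apply pow_le_one₀
    · have : (1 : ℝ) / 2 ^ D ≤ 1 := by
        rw [div_le_one (by positivity)]
        exact one_le_pow₀ (by norm_num)
      linarith
    · have : (0 : ℝ) ≤ 1 / 2 ^ D := by positivity
      linarith
  have h4 : (3 : ℝ) ^ (B + 1) * (1 - 1 / 2 ^ D) ^ (B + 1) ≤ 3 ^ (B + 1) * 1 :=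
    mul_le_mul_of_nonneg_left h3 (by positivity)
  rw [mul_one] at h4
  rw [pow_succ] at h4 ⊢
  linarith

private theorem typ_eventually (c C δ η gap κ : ℝ) (n₀ : ℕ) (hc : 0 < c) (hC : 0 < C)
    (hδ : 0 < δ) (hη : 0 < η) (hgap : 0 < gap) : ∃ B₀ : ℕ, ∀ B : ℕ, B₀ ≤ B →
      18 ≤ B ∧ n₀ ≤ B ∧ 256 * Real.exp (-(c / 2) * B) ≤ δ / 2 ∧
      C * Real.sqrt B * Real.log B + 4 ≤ (δ / 2) * (η * B - 1) ∧
      κ < gap / 4 * B ∧ 0 < η * B - 1 := by
  have h2 : ∀ᶠ B : ℕ in Filter.atTop, 256 * Real.exp (-(c / 2) * B) ≤ δ / 2 := by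
    have ht : Filter.Tendsto (fun B : ℕ => -(c / 2) * (B : ℝ)) Filter.atTop Filter.atBot :=
      tendsto_natCast_atTop_atTop.const_mul_atTop_of_neg (by linarith)
    have ht2 : Filter.Tendsto (fun B : ℕ => 256 * Real.exp (-(c / 2) * (B : ℝ))) Filter.atTop
        (nhds (256 * 0)) := (Real.tendsto_exp_atBot.comp ht).const_mul 256
    rw [mul_zero] at ht2
    exact ht2.eventually_le_const (by positivity)
  have h3 : ∀ᶠ B : ℕ in Filter.atTop,
      ‖Real.log (B : ℝ)‖ ≤ (δ * η / (8 * C)) * ‖(B : ℝ) ^ ((1 : ℝ) / 2)‖ :=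
    tendsto_natCast_atTop_atTop.eventually
      ((isLittleO_log_rpow_atTop (by norm_num : (0 : ℝ) < 1 / 2)).def (by positivity))
  have hlin : ∀ M : ℝ, ∀ᶠ B : ℕ in Filter.atTop, M ≤ (B : ℝ) := fun M => by
    filter_upwards [Filter.eventually_ge_atTop ⌈M⌉₊] with B hB
    exact (Nat.le_ceil M).trans (by exact_mod_cast hB)
  obtain ⟨B₀, hB₀⟩ := Filter.eventually_atTop.1 (((Filter.eventually_ge_atTop 18).and
    (Filter.eventually_ge_atTop n₀)).and ((h2.and h3).and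
      ((hlin ((4 + δ / 2) / (3 / 8 * (δ * η)))).and ((hlin ((|κ| + 1) / (gap / 4))).and
        (hlin (2 / η))))))
  refine ⟨B₀, fun B hB => ?_⟩
  obtain ⟨⟨a1, a2⟩, ⟨a3, a4⟩, a5, a6, a7⟩ := hB₀ B hB
  refine ⟨a1, a2, a3, ?_, ?_, ?_⟩
  · rw [div_le_iff₀ (by positivity)] at a5
    have hBnn : (0 : ℝ) ≤ (B : ℝ) := Nat.cast_nonneg _
    rw [← Real.sqrt_eq_rpow, Real.norm_eq_abs, Real.norm_eq_abs,
      abs_of_nonneg (Real.sqrt_nonneg _)] at a4
    have h5 : Real.log (B : ℝ) ≤ (δ * η / (8 * C)) * Real.sqrt B := (le_abs_self _).trans a4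
    have h6 : C * Real.sqrt B * Real.log B ≤
        C * Real.sqrt B * ((δ * η / (8 * C)) * Real.sqrt B) :=
      mul_le_mul_of_nonneg_left h5 (by positivity)
    have h7 : C * Real.sqrt B * ((δ * η / (8 * C)) * Real.sqrt B) = δ * η / 8 * B := by
      have h8 : Real.sqrt B * Real.sqrt B = B := Real.mul_self_sqrt hBnn
      calc C * Real.sqrt B * ((δ * η / (8 * C)) * Real.sqrt B) =
          (C * (δ * η / (8 * C))) * (Real.sqrt B * Real.sqrt B) := by ring
        _ = δ * η / 8 * B := by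
          rw [h8]
          congr 1
          field_simp
    rw [h7] at h6
    nlinarith
  · rw [div_le_iff₀ (by positivity)] at a6
    have := le_abs_self κ
    linarith
  · rw [div_le_iff₀ hη] at a7
    linarith

theorem typ (ε γ : ℝ) (hε : 0 < ε) (hε1 : ε ≤ 1)
    (hγ : γ < Real.log (4 / 3) - ε * Real.log 2) : ∃ B₀ : ℕ, ∀ B : ℕ, B₀ ≤ B →
      γ * B * 3 ^ B < ∑ t ∈ range (3 ^ B), Real.log ((Bs B ε).f (bv B ε (2 + ε)) 1 (t : ℤ)) := by
  classical
  obtain ⟨C, n₀, hC, hph⟩ := phase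
  obtain ⟨c, hc, hch⟩ := chernoff ε hε hε1
  set gap := Real.log (4 / 3) - ε * Real.log 2 - γ with hgapdef
  have hgap : 0 < gap := by rw [hgapdef]; linarith
  set η := min (c / 2) (gap / 2) with hηdef
  have hη : 0 < η := lt_min (by linarith) (by linarith)
  have hη1 : η ≤ c / 2 := min_le_left _ _
  have hη2 : η ≤ gap / 2 := min_le_right _ _
  obtain ⟨B₀, hB₀⟩ := typ_eventually c C (gap / 12) η gap (Real.log (128 / 3)) n₀ hc hC
    (by positivity) hη hgap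
  refine ⟨B₀, fun B hB => ?_⟩
  obtain ⟨b1, b2, b3, b4, b5, b6⟩ := hB₀ B hB
  set D := 5 * B with hD
  have h3B : (0 : ℝ) < 3 ^ B := by positivity
  have hBnn : (0 : ℝ) ≤ (B : ℝ) := Nat.cast_nonneg _
  -- the two exceptional sets
  set A1 : Finset ℕ := (range (3 ^ B)).filter (fun t : ℕ =>
    3 / 128 * Real.exp (-η * B) < typBad B D ε (1 + 3 * (t : ℤ))) with hA1
  set A2 : Finset ℕ := (range (3 ^ B)).filter (fun t : ℕ =>
    p D B (1 + 3 * (t : ℤ)) < Real.exp (-η * B)) with hA2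
  have c1 : (A1.card : ℝ) ≤ gap / 12 / 2 * 3 ^ B := by
    have h1 : (A1.card : ℝ) * (3 / 128 * Real.exp (-η * B)) ≤
        ∑ t ∈ range (3 ^ B), typBad B D ε (1 + 3 * (t : ℤ)) := by
      calc (A1.card : ℝ) * (3 / 128 * Real.exp (-η * B)) =
          ∑ t ∈ A1, (3 / 128 * Real.exp (-η * B)) := by rw [sum_const, nsmul_eq_mul]
        _ ≤ ∑ t ∈ A1, typBad B D ε (1 + 3 * (t : ℤ)) :=
          sum_le_sum fun t ht => (mem_filter.1 ht).2.le
        _ ≤ _ := sum_le_sum_of_subset_of_nonneg (filter_subset _ _)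
          fun t _ _ => typBad_nonneg B D ε _
    have h2 := typ_periodic_sum B (by omega) (typBad B D ε) (typBad_nonneg B D ε)
      (typBad_periodic B D ε)
    have h3 := typBad_sum B D ε c (hch B D)
    have h4 : (A1.card : ℝ) * (3 / 128 * Real.exp (-η * B)) ≤
        3 * (3 ^ B * (2 * Real.exp (-c * B))) := by linarith
    have h5 : Real.exp (-c * B) ≤ Real.exp (-η * B) * Real.exp (-(c / 2) * B) := by
      rw [← Real.exp_add]
      apply Real.exp_le_exp.2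
      have := mul_le_mul_of_nonneg_right hη1 hBnn
      linarith
    have hexp : 0 < Real.exp (-η * B) := Real.exp_pos _
    have h6 : (A1.card : ℝ) * (3 / 128 * Real.exp (-η * B)) ≤
        (3 ^ B * (256 * Real.exp (-(c / 2) * B))) * (3 / 128 * Real.exp (-η * B)) := by
      have h7 : 3 * ((3 : ℝ) ^ B * (2 * Real.exp (-c * B))) ≤
          3 * (3 ^ B * (2 * (Real.exp (-η * B) * Real.exp (-(c / 2) * B)))) := by
        have h8 := mul_le_mul_of_nonneg_left h5 (by positivity : (0 : ℝ) ≤ 3 * (3 ^ B * 2))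
        linarith
      have h9 : 3 * ((3 : ℝ) ^ B * (2 * (Real.exp (-η * B) * Real.exp (-(c / 2) * B)))) =
          (3 ^ B * (256 * Real.exp (-(c / 2) * B))) * (3 / 128 * Real.exp (-η * B)) := by ring
      linarith
    have h10 := le_of_mul_le_mul_right h6 (by positivity)
    have h11 := mul_le_mul_of_nonneg_left b3 h3B.le
    linarith
  have c2 : (A2.card : ℝ) ≤ gap / 12 / 2 * 3 ^ B := by
    have hpp : ∀ t : ℕ, 0 < p D (1 + B) (1 + 3 * (t : ℤ)) := fun t =>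
      p_pos D (1 + B) (by omega) _ (by omega)
    have hr : ∀ t : ℕ, 0 ≤ -Real.log (p D (1 + B) (1 + 3 * (t : ℤ))) +
        p D (1 + B) (1 + 3 * (t : ℤ)) := fun t => by
      have := Real.log_le_sub_one_of_pos (hpp t)
      linarith
    have h1 : (A2.card : ℝ) * (η * B - 1) ≤ ∑ t ∈ range (3 ^ B),
        (-Real.log (p D (1 + B) (1 + 3 * (t : ℤ))) + p D (1 + B) (1 + 3 * (t : ℤ))) := by
      calc (A2.card : ℝ) * (η * B - 1) = ∑ t ∈ A2, (η * B - 1) := by
            rw [sum_const, nsmul_eq_mul]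
        _ ≤ ∑ t ∈ A2, (-Real.log (p D (1 + B) (1 + 3 * (t : ℤ))) +
            p D (1 + B) (1 + 3 * (t : ℤ))) := by
          apply sum_le_sum
          intro t ht
          have h2 := (mem_filter.1 ht).2
          have h3 := typ_p_half D B (1 + 3 * (t : ℤ))
          have h4 : p D (1 + B) (1 + 3 * (t : ℤ)) ≤ 2 * Real.exp (-η * B) := by linarith
          have h5 := Real.log_le_log (hpp t) h4
          rw [Real.log_mul (by norm_num) (Real.exp_pos _).ne', Real.log_exp] at h5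
          have h6 := Real.log_two_lt_d9
          have h7 := (hpp t).le
          linarith
        _ ≤ _ := sum_le_sum_of_subset_of_nonneg (filter_subset _ _) fun t _ _ => hr t
    have h2 := hph B b2 D (by omega) 1 (le_refl _) 1 (by norm_num)
    have h3 := typ_p_sum D B
    have h4 : 3 / 4 ≤ p D 1 1 := p_one_ge D (by omega) 1 (by norm_num)
    have h5 : -1 ≤ Real.log (p D 1 1) := by
      have h6 : Real.log (3 / 4) ≤ Real.log (p D 1 1) := Real.log_le_log (by norm_num) h4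
      have h7 : 1 - (3 / 4 : ℝ)⁻¹ ≤ Real.log (3 / 4) := Real.one_sub_inv_le_log_of_pos (by norm_num)
      norm_num at h7
      linarith
    rw [sum_sub_distrib, sum_const, card_range, nsmul_eq_mul] at h2
    have h8 : ∑ t ∈ range (3 ^ B),
        (-Real.log (p D (1 + B) (1 + 3 * (t : ℤ))) + p D (1 + B) (1 + 3 * (t : ℤ))) =
        -∑ s ∈ range (3 ^ B), Real.log (p D (1 + B) (1 + 3 * (s : ℤ))) +
        ∑ t ∈ range (3 ^ B), p D (1 + B) (1 + 3 * (t : ℤ)) := by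
      rw [sum_add_distrib, sum_neg_distrib]
    rw [h8] at h1
    simp only [pow_one] at h2
    push_cast at h2
    have h9 : (3 : ℝ) ^ B * (-1) ≤ 3 ^ B * Real.log (p D 1 1) :=
      mul_le_mul_of_nonneg_left h5 h3B.le
    have h10 : (A2.card : ℝ) * (η * B - 1) ≤
        (C * Real.sqrt B * Real.log B + 4) * 3 ^ B := by linarith
    have h11 : (C * Real.sqrt B * Real.log B + 4) * 3 ^ B ≤
        (gap / 12 / 2) * (η * B - 1) * 3 ^ B := mul_le_mul_of_nonneg_right b4 h3B.le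
    have h12 : (A2.card : ℝ) * (η * B - 1) ≤ (gap / 12 / 2 * 3 ^ B) * (η * B - 1) := by
      linarith
    exact le_of_mul_le_mul_right h12 b6
  -- pointwise lower bounds
  set X := (B : ℝ) * (Real.log (4 / 3) - ε * Real.log 2 - η) - Real.log (128 / 3) with hX
  set Lr := 3 * (B : ℝ) * Real.log 2 with hLr
  have hF0 : ∀ t : ℕ, -Lr ≤ Real.log ((Bs B ε).f (bv B ε (2 + ε)) 1 (t : ℤ)) := by
    intro t
    have h1 := f_ge B b1 ε hε (2 + ε) (by linarith) (by linarith) (t : ℤ)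
    have h2 := Real.log_le_log (by positivity) h1
    rw [Real.log_rpow (by norm_num)] at h2
    rw [hLr]
    linarith
  have hF1 : ∀ t ∈ range (3 ^ B), t ∉ A1 → t ∉ A2 →
      X ≤ Real.log ((Bs B ε).f (bv B ε (2 + ε)) 1 (t : ℤ)) := by
    intro t ht h1 h2
    have h1' : typBad B D ε (1 + 3 * (t : ℤ)) ≤ 3 / 128 * Real.exp (-η * B) := by
      by_contra h
      exact h1 (mem_filter.2 ⟨ht, not_le.1 h⟩)
    have h2' : Real.exp (-η * B) ≤ p D B (1 + 3 * (t : ℤ)) := by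
      by_contra h
      exact h2 (mem_filter.2 ⟨ht, not_le.1 h⟩)
    have h3 := typ_main B (by omega) ε hε1 (t : ℤ)
    have h4 : 3 / 128 * Real.exp (-η * B) ≤ (Bs B ε).f (bv B ε (2 + ε)) 1 (t : ℤ) *
        (3 ^ B * (2 : ℝ) ^ (-((2 - ε) * B))) := by linarith
    have h5 : 0 < (Bs B ε).f (bv B ε (2 + ε)) 1 (t : ℤ) := by
      have := f_ge B b1 ε hε (2 + ε) (by linarith) (by linarith) (t : ℤ)
      exact lt_of_lt_of_le (by positivity) this
    rw [Real.le_log_iff_exp_le h5]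
    have h6 : Real.exp X * (3 ^ B * (2 : ℝ) ^ (-((2 - ε) * B))) = 3 / 128 * Real.exp (-η * B) := by
      have e1 : (3 : ℝ) ^ B = Real.exp (B * Real.log 3) := by
        rw [mul_comm, Real.exp_mul, Real.exp_log (by norm_num), Real.rpow_natCast]
      have e2 : (2 : ℝ) ^ (-((2 - ε) * B)) = Real.exp (Real.log 2 * (-((2 - ε) * B))) := by
        rw [Real.rpow_def_of_pos (by norm_num)]
      have e3 : (3 : ℝ) / 128 = Real.exp (-Real.log (128 / 3)) := by
        rw [Real.exp_neg, Real.exp_log (by norm_num)]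
        norm_num
      have e4 : Real.log (4 / 3 : ℝ) = 2 * Real.log 2 - Real.log 3 := by
        rw [Real.log_div (by norm_num) (by norm_num)]
        rw [show (4 : ℝ) = 2 ^ 2 by norm_num, Real.log_pow]
        norm_num
      rw [e1, e2, e3, ← Real.exp_add, ← Real.exp_add, ← Real.exp_add, hX, e4]
      congr 1
      ring
    have h7 : Real.exp X * (3 ^ B * (2 : ℝ) ^ (-((2 - ε) * B))) ≤
        (Bs B ε).f (bv B ε (2 + ε)) 1 (t : ℤ) * (3 ^ B * (2 : ℝ) ^ (-((2 - ε) * B))) := by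
      rw [h6]; exact h4
    exact le_of_mul_le_mul_right h7 (by positivity)
  -- summation
  set Ec := A1 ∪ A2 with hEc
  have hEcsub : Ec ⊆ range (3 ^ B) := union_subset (filter_subset _ _) (filter_subset _ _)
  have hEccard : (Ec.card : ℝ) ≤ gap / 12 * 3 ^ B := by
    have : (Ec.card : ℝ) ≤ A1.card + A2.card := by exact_mod_cast card_union_le _ _
    linarith
  have hsum : (3 ^ B - (Ec.card : ℝ)) * X + Ec.card * (-Lr) ≤
      ∑ t ∈ range (3 ^ B), Real.log ((Bs B ε).f (bv B ε (2 + ε)) 1 (t : ℤ)) := by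
    rw [← sum_sdiff hEcsub]
    have h1 : (3 ^ B - (Ec.card : ℝ)) * X = ∑ t ∈ range (3 ^ B) \ Ec, X := by
      rw [sum_const, nsmul_eq_mul, card_sdiff_of_subset hEcsub, card_range,
        Nat.cast_sub (by rw [← card_range (3 ^ B)]; exact card_le_card hEcsub)]
      push_cast
      ring
    have h2 : (Ec.card : ℝ) * (-Lr) = ∑ t ∈ Ec, (-Lr) := by
      rw [sum_const, nsmul_eq_mul]
    rw [h1, h2]
    apply add_le_add
    · apply sum_le_sum
      intro t ht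
      rw [mem_sdiff, hEc, mem_union, not_or] at ht
      exact hF1 t ht.1 ht.2.1 ht.2.2
    · exact sum_le_sum fun t _ => hF0 t
  have hl2 := Real.log_two_lt_d9
  have hl2' := Real.log_two_gt_d9
  have hl43 : Real.log (4 / 3 : ℝ) ≤ 4 / 3 - 1 := Real.log_le_sub_one_of_pos (by norm_num)
  have hκ : 0 ≤ Real.log (128 / 3 : ℝ) := Real.log_nonneg (by norm_num)
  have hXL : X + Lr ≤ 3 * B := by
    have h1 : Real.log (4 / 3) - ε * Real.log 2 - η ≤ 1 / 3 := by
      have : 0 ≤ ε * Real.log 2 := by positivity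
      linarith
    have h2 := mul_le_mul_of_nonneg_left h1 hBnn
    have h3 := mul_le_mul_of_nonneg_left hl2.le hBnn
    rw [hX, hLr]
    linarith
  have hEcnn : (0 : ℝ) ≤ Ec.card := Nat.cast_nonneg _
  have h1 : (Ec.card : ℝ) * (X + Lr) ≤ (gap / 12 * 3 ^ B) * (3 * B) := by
    calc (Ec.card : ℝ) * (X + Lr) ≤ Ec.card * (3 * B) := mul_le_mul_of_nonneg_left hXL hEcnn
      _ ≤ _ := mul_le_mul_of_nonneg_right hEccard (by positivity)
  have h2 : γ * B + gap / 2 * B ≤ X + Real.log (128 / 3) := by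
    have h3 : γ + gap / 2 ≤ Real.log (4 / 3) - ε * Real.log 2 - η := by
      rw [hgapdef] at hη2 ⊢
      linarith
    have h4 := mul_le_mul_of_nonneg_left h3 hBnn
    rw [hX]
    linarith
  have h5 : 3 ^ B * (γ * B) < 3 ^ B * (X - gap / 4 * B) := by
    apply mul_lt_mul_of_pos_left _ h3B
    linarith
  linarith

end Pool.Agent.H51.KL
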